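import Pool.Agent.XL.Glue

set_option autoImplicit false

/-!
# XL/GlueOr : the inconsistency of `r` independent block systems inside `unsat`
-/

namespace Pool.Agent.XL

open Finset

/-- the slots of a lifted equation -/
def slotB {M m h : ℕ} (e : Fin M → Fin 8 → Fin m) (v : Bvar M h) (p : Fin (8 * h)) :
    Option (Fin m × Fin h) :=
  if v.2 (finProdFinEquiv.symm p).1 (finProdFinEquiv.symm p).2 = 0 then none
    else some (e v.1 (finProdFinEquiv.symm p).1, (finProdFinEquiv.symm p).2)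

theorem sum_slotB {M m h : ℕ} (e : Fin M → Fin 8 → Fin m) (v : Bvar M h)
    (y : Fin m × Fin h → ZMod 2) :
    ∑ p : Fin (8 * h), sv y (slotB e v p) = ∑ c, ∑ t, v.2 c t * y (e v.1 c, t) := by
  rw [← Fintype.sum_prod_type' (fun c t => v.2 c t * y (e v.1 c, t)),
    ← Equiv.sum_comp (finProdFinEquiv (m := 8) (n := h)).symm]
  refine Finset.sum_congr rfl fun p _ => ?_
  rw [← ite_mul_zmod2, slotB]
  split_ifs <;> rfl

theorem holds_iff {M m h : ℕ} (e : Fin M → Fin 8 → Fin m) (b : Fin M → ZMod 2) (v : Bvar M h)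
    (y : Fin m × Fin h → ZMod 2) :
    ∑ p : Fin (8 * h), sv y (slotB e v p) = bt (decide (b v.1 = 1)) ↔
      b v.1 + ∑ c, ∑ t, v.2 c t * y (e v.1 c, t) = 0 := by
  rw [bt_decide, sum_slotB]
  constructor
  · intro h; rw [h]; exact CharTwo.add_self_eq_zero _
  · intro h
    rw [← sub_eq_zero, CharTwo.sub_eq_add, add_comm]
    exact h

theorem sv_map {Y Z : Type} (g : Y → Z) (y : Z → ZMod 2) (o : Option Y) :
    sv y (o.map g) = sv (fun j => y (g j)) o := by
  cases o <;> rfl

/-- **Gluing of `r` blocks**: the restriction of `unsat` to `U` is the disjunction of `r` copies of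
`incon e b` in disjoint variables. -/
theorem glue_or {M m h n K r : ℕ} (e : Fin M → Fin 8 → Fin m) (b : Fin M → ZMod 2)
    (U : Finset (Eq3 n)) (q : Fin K → Eq3 n) (hU : ∀ i, q i ∈ U) (hne : ∀ i, (q i).1.1.Nonempty)
    (hd : ∀ i j, i ≠ j → Disjoint (q i).1.1 (q j).1.1) (hK : r * Fintype.card (Bvar M h) ≤ K)
    (hn : r * (m * h + (8 * h + 6) * Fintype.card (Bvar M h)) ≤ n) :
    ∃ φ : Eq3 n → (Fin r × Bvar M h) ⊕ Bool, (∀ v, v ∉ U → ∃ c, φ v = .inr c) ∧
      (∀ β, ∃ v, φ v = .inl β) ∧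
      ∀ u, unsat (fun v => Sum.elim u id (φ v)) = true ↔ ∃ i, incon e b (fun β => u (i, β)) = true := by
  classical
  obtain ⟨φ, h1, h0, h2⟩ := glue_gen (ι := Fin r × Bvar M h) (Y := Fin r × (Fin m × Fin h)) (w := 8 * h)
    (fun v p => (slotB e v.2 p).map fun j => (v.1, j))
    (fun v => decide (b v.2.1 = 1)) U q hU hne hd
    (by rw [Fintype.card_prod (Fin r), Fintype.card_fin]; exact hK) (by
      rw [Fintype.card_prod (Fin r) (Bvar M h), Fintype.card_prod (Fin r) (Fin m × Fin h),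
        Fintype.card_prod (Fin m) (Fin h), Fintype.card_fin, Fintype.card_fin, Fintype.card_fin]
      refine le_trans (le_of_eq ?_) ((Nat.mul_le_mul_left r
        (Nat.add_le_add_left (Nat.mul_le_mul_right (Fintype.card (Bvar M h))
          (by omega : 8 * h + 4 ≤ 8 * h + 6)) (m * h))).trans hn)
      ring)
  refine ⟨φ, h1, h0, fun u => ?_⟩
  rw [h2 u]
  have key : ∀ (v : Fin r × Bvar M h) (y : Fin r × (Fin m × Fin h) → ZMod 2),
      (∑ p : Fin (8 * h), sv y ((slotB e v.2 p).map fun j => (v.1, j)) = bt (decide (b v.2.1 = 1))) ↔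
      b v.2.1 + ∑ c, ∑ t, v.2.2 c t * y (v.1, (e v.2.1 c, t)) = 0 := by
    intro v y
    rw [← holds_iff e b v.2 (fun j => y (v.1, j))]
    simp only [sv_map]
  constructor
  · intro hno
    by_contra hcon
    push Not at hcon
    apply hno
    have hx : ∀ i : Fin r, ∃ x : Fin m → Fin h → ZMod 2, ∀ β : Bvar M h, u (i, β) = true →
        b β.1 + ∑ c, ∑ t, β.2 c t * x (e β.1 c) t = 0 := by
      intro i
      have := hcon i
      rw [incon, ne_eq, decide_eq_true_iff, not_not] at this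
      exact this
    choose x hx using hx
    exact ⟨fun j => x j.1 j.2.1 j.2.2, fun v hv => (key v _).mpr (hx v.1 v.2 hv)⟩
  · rintro ⟨i, hi⟩ ⟨y, hy⟩
    rw [incon, decide_eq_true_iff] at hi
    exact hi ⟨fun j t => y (i, (j, t)), fun β hβ => (key (i, β) y).mp (hy (i, β) hβ)⟩

end Pool.Agent.XL
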