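import Pool.Agent.XL.Nets
import Pool.Agent.TeleNeg.DirDefs

set_option autoImplicit false

/-!
# Decompositions of directed networks (Savitch)
-/

namespace Pool.Agent.XL

open Finset Pool.Agent.TeleNeg NetsAux

variable {F : Type} [Field F] {ι : Type} {S : ℕ}

theorem decomp_le {S' : ℕ} {f : (ι → Bool) → Bool} (h : Decomp F S f) (hS : S ≤ S') :
    Decomp F S' f := by
  obtain ⟨n, rfl⟩ := Nat.exists_eq_add_of_le hS
  obtain ⟨l, u, v, h1, h2, h3⟩ := h
  refine decomp_mk (J := Fin S ⊕ Fin n) (by simp) _ (Sum.elim l fun _ => none)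
    (Sum.elim u fun _ _ => 0) (Sum.elim v fun _ _ => 0) ?_ ?_ ?_
  · rintro (i | i) x hx hu e he
    · exact h1 i x hx hu e he
    · exact absurd rfl hu
  · rintro (i | i) y hy hv
    · exact h2 i y hy hv
    · exact absurd rfl hv
  · intro x y hx hy
    rw [Fintype.sum_sum_type]
    simp only [Sum.elim_inl, Sum.elim_inr, mul_zero, sum_const_zero, add_zero]
    exact h3 x y hx hy

theorem decomp_and {S' : ℕ} {f f' : (ι → Bool) → Bool}
    (h : Decomp F S f) (h' : Decomp F S' f') : Decomp F (S + S') fun x => f x && f' x := by
  classical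
  obtain ⟨l, u, v, h1, h2, h3⟩ := h
  obtain ⟨l', u', v', h1', h2', h3'⟩ := h'
  refine decomp_mk (J := Fin S ⊕ Fin S') (by simp) _ (Sum.elim l l') (Sum.elim u u')
    (Sum.elim (fun i y => if f y = false then v i y else 0)
      (fun i y => if f y = false then 0 else v' i y)) ?_ ?_ ?_
  · rintro (i | i) x hx hu e he
    · exact h1 i x (by simp_all) hu e he
    · exact h1' i x (by simp_all) hu e he
  · rintro (i | i) y hy hv
    · simp only [Sum.elim_inl] at hv ⊢
      by_cases h4 : f y = false
      · rw [if_pos h4] at hv
        exact h2 i y h4 hv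
      · rw [if_neg h4] at hv
        exact absurd rfl hv
    · simp only [Sum.elim_inr] at hv ⊢
      by_cases h4 : f y = false
      · rw [if_pos h4] at hv
        exact absurd rfl hv
      · rw [if_neg h4] at hv
        refine h2' i y ?_ hv
        simp_all
  · intro x y hx hy
    rw [Fintype.sum_sum_type]
    simp only [Sum.elim_inl, Sum.elim_inr]
    by_cases h4 : f y = false
    · simp only [if_pos h4, mul_zero, sum_const_zero, add_zero]
      exact h3 x y (by simp_all) h4
    · simp only [if_neg h4, mul_zero, sum_const_zero, zero_add]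
      exact h3' x y (by simp_all) (by simp_all)

/-- A disjunction of `n` functions. -/
theorem decomp_exists {n T : ℕ} {g : Fin n → (ι → Bool) → Bool} (h : ∀ c, Decomp F T (g c))
    {f : (ι → Bool) → Bool} (hf : ∀ x, f x = true ↔ ∃ c, g c x = true) : Decomp F (n * T) f := by
  classical
  choose l u v h1 h2 h3 using h
  have hch : ∀ x, ∃ c : Option (Fin n), f x = true → ∃ c', c = some c' ∧ g c' x = true := by
    intro x
    by_cases hx : f x = true
    · obtain ⟨c, hc⟩ := (hf x).1 hx
      exact ⟨some c, fun _ => ⟨c, rfl, hc⟩⟩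
    · exact ⟨none, fun h => absurd h hx⟩
  choose k hk using hch
  refine decomp_mk (J := Fin n × Fin T) (by simp) _ (fun p => l p.1 p.2)
    (fun p x => if k x = some p.1 then u p.1 p.2 x else 0) (fun p => v p.1 p.2) ?_ ?_ ?_
  · rintro ⟨c, i⟩ x hx hu e he
    by_cases hc : k x = some c
    · simp only [if_pos hc] at hu
      obtain ⟨c', hc', hg⟩ := hk x hx
      rw [hc] at hc'
      cases hc'
      exact h1 c i x hg hu e he
    · simp only [if_neg hc] at hu
      exact absurd rfl hu
  · rintro ⟨c, i⟩ y hy hv
    refine h2 c i y ?_ hv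
    by_contra hcon
    have : f y = true := (hf y).2 ⟨c, by simpa using hcon⟩
    rw [hy] at this
    exact absurd this (by simp)
  · intro x y hx hy
    obtain ⟨c', hc', hg⟩ := hk x hx
    have hgy : g c' y = false := by
      by_contra hcon
      have : f y = true := (hf y).2 ⟨c', by simpa using hcon⟩
      rw [hy] at this
      exact absurd this (by simp)
    rw [Fintype.sum_prod_type, Finset.sum_eq_single c']
    · simp only [hc', if_true]
      exact h3 c' x y hg hgy
    · intro c _ hc
      apply Finset.sum_eq_zero
      intro i _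
      rw [if_neg, zero_mul]
      rw [hc']
      intro hh
      exact hc (Option.some.inj hh).symm
    · intro hcon
      exact absurd (Finset.mem_univ _) hcon

/-- A disjunction of variables (or constants). -/
theorem decomp_labels [Fintype ι] (P : Option ι → Prop) {f : (ι → Bool) → Bool}
    (hf : ∀ x, f x = true ↔ ∃ l, P l ∧ ∀ e ∈ l, x e = true) :
    Decomp F (Fintype.card ι + 1) f := by
  classical
  have hch : ∀ x, ∃ l : Option ι, f x = true → P l ∧ ∀ e ∈ l, x e = true := by
    intro x
    by_cases hx : f x = true
    · obtain ⟨l, hl⟩ := (hf x).1 hx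
      exact ⟨l, fun _ => hl⟩
    · exact ⟨none, fun h => absurd h hx⟩
  choose k hk using hch
  refine decomp_mk (J := Option ι) (by simp) _ (fun l => l)
    (fun l x => if l = k x then 1 else 0)
    (fun l y => if ∃ e ∈ l, y e = false then 1 else 0) ?_ ?_ ?_
  · intro l x hx hu e he
    by_cases hl : l = k x
    · rw [hl] at he
      exact (hk x hx).2 e he
    · rw [if_neg hl] at hu
      exact absurd rfl hu
  · intro l y hy hv
    by_contra hcon
    rw [if_neg hcon] at hv
    exact absurd rfl hv
  · intro x y hx hy
    rw [Finset.sum_eq_single (k x)]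
    · rw [if_pos rfl, if_pos, mul_one]
      by_contra hcon
      have : f y = true := (hf y).2 ⟨k x, (hk x hx).1, fun e he => by
        by_contra hne
        exact hcon ⟨e, he, by simpa using hne⟩⟩
      rw [hy] at this
      exact absurd this (by simp)
    · intro l _ hl
      rw [if_neg hl, zero_mul]
    · intro hcon
      exact absurd (Finset.mem_univ _) hcon

/-- `b` can be reached from `a` in at most `k` steps -/
def Steps {α : Type} (r : α → α → Prop) : ℕ → α → α → Prop
  | 0, a, b => a = b
  | k + 1, a, b => ∃ c, Steps r k a c ∧ (c = b ∨ r c b)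

theorem steps_add {α : Type} (r : α → α → Prop) (k : ℕ) : ∀ (l : ℕ) (a b : α),
    Steps r (k + l) a b ↔ ∃ c, Steps r k a c ∧ Steps r l c b := by
  intro l
  induction l with
  | zero =>
    intro a b
    constructor
    · intro h; exact ⟨b, h, rfl⟩
    · rintro ⟨c, h, h'⟩
      have h' : c = b := h'
      rw [← h']; exact h
  | succ l ih =>
    intro a b
    constructor
    · rintro ⟨c, h, hc⟩
      obtain ⟨c', h1, h2⟩ := (ih a c).1 h
      exact ⟨c', h1, c, h2, hc⟩
    · rintro ⟨c, h, c', h1, h2⟩
      exact ⟨c', (ih a c').2 ⟨c, h, h1⟩, h2⟩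

theorem steps_le {α : Type} (r : α → α → Prop) {k l : ℕ} (h : k ≤ l) {a b : α}
    (hs : Steps r k a b) : Steps r l a b := by
  induction h with
  | refl => exact hs
  | step _ ih => exact ⟨b, ih, Or.inl rfl⟩

theorem rtg_of_steps {α : Type} (r : α → α → Prop) {a : α} : ∀ (k : ℕ) {b : α},
    Steps r k a b → Relation.ReflTransGen r a b := by
  intro k
  induction k with
  | zero => intro b h; have h : a = b := h; rw [h]
  | succ k ih =>
    rintro b ⟨c, h, hc⟩
    rcases hc with hc | hc
    · rw [← hc]; exact ih h
    · exact (ih h).tail hc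

/-- A reachable node can be reached in at most `S` steps. -/
theorem steps_of_rtg {r : Fin S → Fin S → Prop} {a b : Fin S}
    (h : Relation.ReflTransGen r a b) : Steps r S a b := by
  classical
  let D : ℕ → Finset (Fin S) := fun k => univ.filter fun b => Steps r k a b
  have hsub : ∀ k, D k ⊆ D (k + 1) := by
    intro k b hb
    simp only [D, Finset.mem_filter, Finset.mem_univ, true_and] at hb ⊢
    exact steps_le r (Nat.le_succ k) hb
  have hstab : ∃ k, k ≤ S ∧ D k = D (k + 1) := by
    by_contra hcon
    push Not at hcon
    have hgrow : ∀ k, k ≤ S → k + 1 ≤ (D k).card := by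
      intro k
      induction k with
      | zero =>
        intro _
        have : a ∈ D 0 := by
          simp only [D, Finset.mem_filter, Finset.mem_univ, true_and]
          exact rfl
        exact Finset.card_pos.2 ⟨a, this⟩
      | succ k ih =>
        intro hk
        have h1 := ih (by omega)
        have h2 : D k ⊂ D (k + 1) :=
          Finset.ssubset_iff_subset_ne.2 ⟨hsub k, hcon k (by omega)⟩
        have h3 := Finset.card_lt_card h2
        omega
    have h4 := hgrow S le_rfl
    have h5 : (D S).card ≤ S := by
      calc (D S).card ≤ (univ : Finset (Fin S)).card := Finset.card_le_card (Finset.subset_univ _)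
        _ = S := by simp
    omega
  obtain ⟨k, hk, hD⟩ := hstab
  have hall : b ∈ D k := by
    induction h with
    | refl =>
      simp only [D, Finset.mem_filter, Finset.mem_univ, true_and]
      exact steps_le r (Nat.zero_le k) (show Steps r 0 a a from rfl)
    | tail _ hbc ih =>
      rw [hD]
      simp only [D, Finset.mem_filter, Finset.mem_univ, true_and] at ih ⊢
      exact ⟨_, ih, Or.inr hbc⟩
  simp only [D, Finset.mem_filter, Finset.mem_univ, true_and] at hall
  exact steps_le r hk hall

/-- **Savitch**: the function of a directed network with at most `2 ^ s` nodes. -/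
theorem decomp_of_dnet (F : Type) [Field F] {ι : Type} [Fintype ι] {S s : ℕ} (hS : S ≤ 2 ^ s)
    (N : Pool.Agent.TeleNeg.Net ι S) :
    Decomp F (2 ^ (s * (s + 1)) * (Fintype.card ι + 1)) N.dval := by
  classical
  have key : ∀ (j : ℕ) (a b : Fin S), Decomp F ((2 * S) ^ j * (Fintype.card ι + 1))
      (fun x => decide (Steps (N.Step x) (2 ^ j) a b)) := by
    intro j
    induction j with
    | zero =>
      intro a b
      rw [pow_zero, one_mul]
      refine decomp_labels (fun l => (a, b, l) ∈ N.contacts ∨ (l = none ∧ a = b)) ?_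
      intro x
      rw [decide_eq_true_eq, pow_zero]
      constructor
      · rintro ⟨c, hc, h⟩
        have hc : a = c := hc
        subst hc
        rcases h with h | ⟨l, hl, hx⟩
        · exact ⟨none, Or.inr ⟨rfl, h⟩, by simp⟩
        · exact ⟨l, Or.inl hl, hx⟩
      · rintro ⟨l, hl, hx⟩
        rcases hl with hl | ⟨_, hab⟩
        · exact ⟨a, rfl, Or.inr ⟨l, hl, hx⟩⟩
        · exact ⟨a, rfl, Or.inl hab⟩
    | succ j ih =>
      intro a b
      have h1 : ∀ c : Fin S, Decomp F
          ((2 * S) ^ j * (Fintype.card ι + 1) + (2 * S) ^ j * (Fintype.card ι + 1))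
          (fun x => decide (Steps (N.Step x) (2 ^ j) a c) &&
            decide (Steps (N.Step x) (2 ^ j) c b)) := fun c => decomp_and (ih a c) (ih c b)
      have h2 := decomp_exists h1 (f := fun x => decide (Steps (N.Step x) (2 ^ (j + 1)) a b)) (by
        intro x
        simp only [decide_eq_true_eq, Bool.and_eq_true]
        rw [pow_succ, mul_two, steps_add])
      refine decomp_le h2 (le_of_eq ?_)
      ring
  have h3 := key s N.src N.tgt
  have h4 : (fun x => decide (Steps (N.Step x) (2 ^ s) N.src N.tgt)) = N.dval := by
    funext x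
    unfold Net.dval
    apply decide_eq_decide.2
    constructor
    · intro h
      exact rtg_of_steps _ _ h
    · intro h
      exact steps_le _ hS (steps_of_rtg h)
  rw [h4] at h3
  refine decomp_le h3 (Nat.mul_le_mul_right _ ?_)
  calc (2 * S) ^ s ≤ (2 * 2 ^ s) ^ s := Nat.pow_le_pow_left (Nat.mul_le_mul_left 2 hS) s
    _ = 2 ^ (s * (s + 1)) := by rw [← pow_succ', ← pow_mul]; ring_nf

end Pool.Agent.XL
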