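import Pool.Agent.XL.Block
import Pool.Agent.XL.Savitch
import Pool.Agent.XL.GlueOr
import Pool.Agent.NTN.AvgNet
import Pool.Agent.NTN.ThrNet
import Pool.Agent.NTN.Amp

set_option autoImplicit false

/-!
# Inconsistency of linear equations over `F_2` on average: queries to span programs and networks
-/

namespace Pool.Agent.XL

open Finset Pool.Agent.NTR Pool.Agent.NTN Pool.Agent.TeleNeg
open scoped BigOperators

section decomp

variable {F : Type} [Field F] {ι : Type} {S : ℕ}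

theorem decomp_const (F : Type) [Field F] {ι : Type} (S : ℕ) (c : Bool) :
    Decomp F S (fun _ : ι → Bool => c) := by
  refine ⟨fun _ => none, fun _ _ => 0, fun _ _ => 0, fun _ _ _ h => absurd rfl h,
    fun _ _ _ h => absurd rfl h, fun x y hx hy => ?_⟩
  have hx' : c = true := hx
  rw [hx'] at hy
  exact absurd hy (by simp)

theorem decomp_mono {f : (ι → Bool) → Bool} (h : Decomp F S f) : Monotone f := by
  obtain ⟨l, u, v, h1, h2, h3⟩ := h
  intro x y hxy
  rw [Bool.le_iff_imp]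
  intro hx
  by_contra hy
  have hy : f y = false := by simpa using hy
  have h4 := h3 x y hx hy
  have h5 : ∑ i, u i x * v i y = 0 := by
    apply Finset.sum_eq_zero
    intro i _
    by_contra hne
    obtain ⟨e, he, hye⟩ := h2 i y hy (right_ne_zero_of_mul hne)
    have hxe := h1 i x hx (left_ne_zero_of_mul hne) e he
    have h6 := Bool.le_iff_imp.1 (hxy e) hxe
    rw [hye] at h6
    exact absurd h6 (by simp)
  rw [h5] at h4
  exact zero_ne_one h4

theorem decomp_maj3 {f g k : (ι → Bool) → Bool} (h1 : Decomp F S f) (h2 : Decomp F S g)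
    (h3 : Decomp F S k) : Decomp F (5 * S) fun x => maj3 (f x) (g x) (k x) := by
  have h4 := decomp_or F (decomp_and h1 h2) (decomp_and h3 (decomp_or F h1 h2))
  exact decomp_le h4 (by omega)

/-- Thresholds. -/
theorem decomp_amplify {β : Type} [Fintype β] {S₀ : ℕ} (L : List ((β → Bool) → Bool)) (θ : ℕ)
    {g : (β → Bool) → Bool} (hg : ∀ u, g u = true ↔ θ ≤ L.countP fun H => H u)
    (hL : ∀ H ∈ L, Decomp F S₀ H) (i j : ℕ) (hi : 2 * L.length + 1 ≤ 4 * 2 ^ i)
    (hj : 3 * Fintype.card β ≤ 2 ^ j) : Decomp F (5 ^ (2 * i + j + 2) * S₀) g := by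
  classical
  refine amplify (P := fun n G => Decomp F (5 ^ n * S₀) G) ?_ L θ hg ?_ ?_ ?_ (Fintype.card β) i j
    ?_ hi hj
  · intro n f g k h1 h2 h3
    exact decomp_le (decomp_maj3 h1 h2 h3) (le_of_eq (by ring))
  · intro H hH
    rw [pow_zero, one_mul]
    exact hL H hH
  · exact decomp_const F _ false
  · exact decomp_const F _ true
  · rw [Fintype.card_fun, Fintype.card_bool]

theorem decomp_orSet {C : Gen.MonoClass} {β : Type} {q T : ℕ} {H : (β → Bool) → Bool}
    (hC : ∀ G, C.mem β G → Decomp F T G) (hH : H ∈ orSet C β q) : Decomp F (q * T) H := by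
  obtain ⟨Gs, h1, h2, h3⟩ := hH
  have h4 : ∀ c : Fin Gs.length, Decomp F T (Gs.get c) := fun c =>
    hC _ (h2 _ (List.get_mem _ _))
  have h5 := decomp_exists h4 (f := H) (by
    intro x
    rw [h3]
    constructor
    · rintro ⟨G, hG, hx⟩
      obtain ⟨c, hc⟩ := List.get_of_mem hG
      exact ⟨c, by rw [hc]; exact hx⟩
    · rintro ⟨c, hc⟩
      exact ⟨_, List.get_mem _ _, hc⟩)
  exact decomp_le h5 (Nat.mul_le_mul_right _ h1)

end decomp

/-- The functions with a monotone span program over `F` with `S` rows (in dual form). -/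
def spanClass (F : Type) [Field F] (S : ℕ) : Gen.MonoClass where
  mem ι f := Decomp F S f
  mono _ _ h := decomp_mono h
  subst _ _ _ φ h := decomp_subst F h φ

theorem incon_monotone {M m h : ℕ} (e : Fin M → Fin 8 → Fin m) (b : Fin M → ZMod 2) :
    Monotone (incon (h := h) e b) := by
  classical
  intro u v huv
  rw [Bool.le_iff_imp]
  unfold incon
  rw [decide_eq_true_eq, decide_eq_true_eq]
  rintro h1 ⟨x, hx⟩
  refine h1 ⟨x, fun w hw => hx w ?_⟩
  have := huv w
  rw [hw] at this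
  exact top_le_iff.1 this

theorem le_unknowns {K n : ℕ} (q : Fin K → Eq3 n) (hne : ∀ i, (q i).1.1.Nonempty)
    (hd : ∀ i j, i ≠ j → Disjoint (q i).1.1 (q j).1.1) : K ≤ n := by
  choose a ha using hne
  have hinj : Function.Injective a := by
    intro i j hij
    by_contra hne
    have h1 := Finset.disjoint_left.1 (hd i j hne) (ha i)
    rw [hij] at h1
    exact h1 (ha j)
  have := Fintype.card_le_of_injective a hinj
  simpa using this

theorem num_thr {t i j cd : ℕ} (ht : 1 ≤ t) (hcd : cd = 4000 * (100 * t) * 2 ^ 192)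
    (hi : 2 * 2 ^ i ≤ 2 * (3 * cd * 4 ^ t) + 1) (hj : 2 ^ j ≤ 6 * cd) :
    5 ^ (2 * i + j + 2) * (2 ^ (3 * t) * (cd + 1)) < 2 ^ (22 * (100 * t)) := by
  have ht2 : t < 2 ^ t := Nat.lt_two_pow_self
  have h1 : cd + 1 ≤ 2 ^ (211 + t) := by
    rw [hcd, pow_add]
    have e1 : (2 : ℕ) ^ 211 = 524288 * 2 ^ 192 := by norm_num
    rw [e1]
    have e2 : (1 : ℕ) ≤ 2 ^ 192 := Nat.one_le_two_pow
    generalize (2 : ℕ) ^ 192 = A at *
    generalize (2 : ℕ) ^ t = B at *
    have e3 : t * A ≤ B * A := Nat.mul_le_mul_right _ ht2.le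
    have e4 : (t + 1) * A ≤ B * A := Nat.mul_le_mul_right _ ht2
    nlinarith
  have h2 : i ≤ 214 + 3 * t := by
    have e1 : 2 ^ i ≤ 2 ^ (214 + 3 * t) := by
      have e2 : 2 ^ (214 + 3 * t) = 8 * 2 ^ (211 + t) * 4 ^ t := by
        rw [show (4 : ℕ) = 2 ^ 2 by norm_num, ← pow_mul, show (8 : ℕ) = 2 ^ 3 by norm_num,
          ← pow_add, ← pow_add]
        congr 1
        ring
      rw [e2]
      have e3 : cd * 4 ^ t ≤ 2 ^ (211 + t) * 4 ^ t := Nat.mul_le_mul_right _ (by omega)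
      have e4 : 1 ≤ 2 ^ (211 + t) * 4 ^ t := Nat.one_le_iff_ne_zero.2 (by positivity)
      have e5 : 8 * 2 ^ (211 + t) * 4 ^ t = 8 * (2 ^ (211 + t) * 4 ^ t) := by ring
      have e6 : 2 * (3 * cd * 4 ^ t) = 6 * (cd * 4 ^ t) := by ring
      rw [e6] at hi
      rw [e5]
      omega
    exact (Nat.pow_le_pow_iff_right (by norm_num)).1 e1
  have h3 : j ≤ 214 + t := by
    have e1 : 2 ^ j ≤ 2 ^ (214 + t) := by
      have e2 : 2 ^ (214 + t) = 8 * 2 ^ (211 + t) := by
        rw [show (8 : ℕ) = 2 ^ 3 by norm_num, ← pow_add]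
        congr 1
        ring
      omega
    exact (Nat.pow_le_pow_iff_right (by norm_num)).1 e1
  have h4 : 5 ^ (2 * i + j + 2) ≤ 2 ^ (3 * (644 + 7 * t)) := by
    calc 5 ^ (2 * i + j + 2) ≤ 8 ^ (2 * i + j + 2) := Nat.pow_le_pow_left (by norm_num) _
      _ ≤ 8 ^ (644 + 7 * t) := Nat.pow_le_pow_right (by norm_num) (by omega)
      _ = 2 ^ (3 * (644 + 7 * t)) := by rw [show (8 : ℕ) = 2 ^ 3 by norm_num, ← pow_mul]
  calc 5 ^ (2 * i + j + 2) * (2 ^ (3 * t) * (cd + 1))
      ≤ 2 ^ (3 * (644 + 7 * t)) * (2 ^ (3 * t) * 2 ^ (211 + t)) :=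
        Nat.mul_le_mul h4 (Nat.mul_le_mul_left _ h1)
    _ = 2 ^ (3 * (644 + 7 * t) + (3 * t + (211 + t))) := by rw [← pow_add, ← pow_add]
    _ < 2 ^ (22 * (100 * t)) := Nat.pow_lt_pow_right (by norm_num) (by omega)

end Pool.Agent.XL
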