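import Pool.Agent.XL.RankM
import Pool.Agent.XL.Avg

set_option autoImplicit false

/-!
# The rank measure of functions of the block variables
-/

namespace Pool.Agent.XL

open Finset Pool.Agent.NTR Pool.Agent.NTN
open scoped BigOperators

section comp

variable {F : Type*} [Field F] {α β : Type*} [Fintype α] (A : β → α → F) {S : ℕ}

/-- A gate does not increase the total rank. -/
theorem rk_gate (p : Fin S → α → Bool) (q : Fin S → β → Bool) (g : Fin S × Fin S) :
    ∑ i, rk A (fun W => cgate (fun j => p j W) g i) (fun x => cgate (fun j => q j x) g i) ≤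
      ∑ i, rk A (p i) (q i) := by
  classical
  by_cases hg : g.1 = g.2
  · apply le_of_eq
    refine Finset.sum_congr rfl fun i _ => ?_
    have h1 : ∀ v : Fin S → Bool, cgate v g i = v i := by
      intro v
      unfold cgate
      by_cases h : i = g.1
      · rw [if_pos h, ← hg, Bool.and_self, h]
      · rw [if_neg h, if_neg (fun h' => h (h'.trans hg.symm))]
    simp only [h1]
  · have hmem : g.2 ∈ (univ : Finset (Fin S)).erase g.1 :=
      Finset.mem_erase.2 ⟨fun h => hg h.symm, Finset.mem_univ _⟩
    rw [← Finset.add_sum_erase univ _ (Finset.mem_univ g.1),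
      ← Finset.add_sum_erase _ _ hmem,
      ← Finset.add_sum_erase univ (fun i => rk A (p i) (q i)) (Finset.mem_univ g.1),
      ← Finset.add_sum_erase _ (fun i => rk A (p i) (q i)) hmem]
    have h1 : ∀ v : Fin S → Bool, cgate v g g.1 = (v g.1 && v g.2) := by
      intro v; unfold cgate; rw [if_pos rfl]
    have h2 : ∀ v : Fin S → Bool, cgate v g g.2 = (v g.1 || v g.2) := by
      intro v; unfold cgate; rw [if_neg (fun h => hg h.symm), if_pos rfl]
    have h3 : ∑ i ∈ (univ.erase g.1).erase g.2,
        rk A (fun W => cgate (fun j => p j W) g i) (fun x => cgate (fun j => q j x) g i) =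
        ∑ i ∈ (univ.erase g.1).erase g.2, rk A (p i) (q i) := by
      refine Finset.sum_congr rfl fun i hi => ?_
      rw [Finset.mem_erase, Finset.mem_erase] at hi
      have h4 : ∀ v : Fin S → Bool, cgate v g i = v i := by
        intro v; unfold cgate; rw [if_neg hi.2.1, if_neg hi.1]
      simp only [h4]
    rw [h3]
    simp only [h1, h2]
    have h5 := rk_and_or A (p g.1) (p g.2) (q g.1) (q g.2)
    linarith

theorem rk_run (gates : List (Fin S × Fin S)) : ∀ (p : Fin S → α → Bool) (q : Fin S → β → Bool),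
    ∑ i, rk A (fun W => gates.foldl cgate (fun j => p j W) i)
      (fun x => gates.foldl cgate (fun j => q j x) i) ≤ ∑ i, rk A (p i) (q i) := by
  induction gates with
  | nil => intro p q; exact le_rfl
  | cons g gates ih =>
    intro p q
    have h1 := ih (fun i W => cgate (fun j => p j W) g i) (fun i x => cgate (fun j => q j x) g i)
    exact h1.trans (rk_gate A p q g)

theorem rk_comp (gates : List (Fin S × Fin S)) (out : Fin S) (p : Fin S → α → Bool)
    (q : Fin S → β → Bool) (K : ℤ) (hK : ∀ i, rk A (p i) (q i) ≤ K) :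
    rk A (fun W => gates.foldl cgate (fun j => p j W) out)
      (fun x => gates.foldl cgate (fun j => q j x) out) ≤ S * K := by
  have h1 := rk_run A gates p q
  have h2 : rk A (fun W => gates.foldl cgate (fun j => p j W) out)
      (fun x => gates.foldl cgate (fun j => q j x) out) ≤
      ∑ i, rk A (fun W => gates.foldl cgate (fun j => p j W) i)
      (fun x => gates.foldl cgate (fun j => q j x) i) :=
    Finset.single_le_sum (f := fun i => rk A (fun W => gates.foldl cgate (fun j => p j W) i)
      (fun x => gates.foldl cgate (fun j => q j x) i)) (fun i _ => rk_nonneg A _ _)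
      (Finset.mem_univ out)
  have h3 : ∑ i, rk A (p i) (q i) ≤ ∑ _i : Fin S, K := Finset.sum_le_sum fun i _ => hK i
  rw [Finset.sum_const, Finset.card_univ, Fintype.card_fin, nsmul_eq_mul] at h3
  exact h2.trans (h1.trans h3)

end comp

section block

variable (F : Type) [Field F] {M m h : ℕ} (d : ℕ) (e : Fin M → Fin 8 → Fin m)
  (b : Fin M → ZMod 2) (R : Finset (Fin m → Fin h → ZMod 2))

/-- The measure of a function of the block variables. -/
noncomputable def rkF (G : (Bvar M h → Bool) → Bool) : ℤ :=
  rk (fun (x : Fin m → Fin h → ZMod 2) (W : ↥R) => mat F d e b W.1 x)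
    (fun W : ↥R => G (PW e W.1)) (fun x => G (negIn e b x))

theorem rkF_nonneg (G : (Bvar M h → Bool) → Bool) : 0 ≤ rkF F d e b R G := rk_nonneg _ _ _

theorem rkF_and (G G' : (Bvar M h → Bool) → Bool) :
    rkF F d e b R (fun u => G u && G' u) ≤ rkF F d e b R G + rkF F d e b R G' :=
  rk_and _ _ _ _ _

theorem rkF_or (G G' : (Bvar M h → Bool) → Bool) :
    rkF F d e b R (fun u => G u || G' u) ≤ rkF F d e b R G + rkF F d e b R G' :=
  rk_or _ _ _ _ _

theorem rkF_const (c : Bool) : rkF F d e b R (fun _ => c) = 0 := rk_const _ c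

/-- The bound of one row. -/
def rowK (M m h d : ℕ) : ℕ := (TT d M).card * 2 ^ (h * (m - 2 * d))

variable {F} {d} {e}

theorem column_mem' {S : ℕ} (lab : Fin S → Fin M)
    (c : (Fin m → Fin h → ZMod 2) → Fin S → F) (p : Fin S → F) (x : Fin m → Fin h → ZMod 2)
    (hv : ∀ W ∈ R, ∀ ρ, c W ρ * p ρ ≠ 0 → viol e b (ip W x) (lab ρ) ≠ 0) :
    (fun W : ↥R => (∑ ρ, c W.1 ρ * p ρ) * mat F d e b W.1 x) ∈
      Submodule.span F ((gens d e R lab c : Finset (↥R → F)) : Set (↥R → F)) := by
  classical
  have key : (fun W : ↥R => (∑ ρ, c W.1 ρ * p ρ) * mat F d e b W.1 x) =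
      ∑ ρ : Fin S, ∑ T ∈ (TT d M).filter (fun T => symmDiff T {lab ρ} ∉ TT d M),
        ∑ V : {j // j ∉ supp e T} → Fin h → ZMod 2,
          (p ρ * (chi F (∑ i ∈ T, b i) *
            chi F (∑ j : {j // j ∉ supp e T}, ∑ t, V j t * x j t))) •
          (fun W : ↥R => c W.1 ρ * (if ∀ j : {j // j ∉ supp e T}, W.1 j = V j then 1 else 0)) := by
    funext W
    rw [Finset.sum_mul, Finset.sum_apply]
    apply Finset.sum_congr rfl
    intro ρ _
    have e2 : c W.1 ρ * p ρ * mat F d e b W.1 x = c W.1 ρ * p ρ *
        ∑ T ∈ (TT d M).filter (fun T => symmDiff T {lab ρ} ∉ TT d M),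
          chi F (∑ j, ip W.1 x j) * chi F (∑ k ∈ T, viol e b (ip W.1 x) k) := by
      by_cases hz : c W.1 ρ * p ρ = 0
      · rw [hz, zero_mul, zero_mul]
      · rw [mat_eq F e b W.1 x (lab ρ) (hv W.1 W.2 ρ hz)]
    rw [e2, Finset.sum_apply, Finset.mul_sum]
    apply Finset.sum_congr rfl
    intro T _
    rw [term_eq, Finset.sum_apply]
    rw [Finset.sum_eq_single (fun j : {j // j ∉ supp e T} => W.1 j)]
    · simp only [Pi.smul_apply, smul_eq_mul, implies_true, if_true, mul_one, ip]
      ring
    · intro V _ hV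
      simp only [Pi.smul_apply, smul_eq_mul]
      rw [if_neg, mul_zero, mul_zero]
      intro hcon
      apply hV
      funext j
      exact (hcon j).symm
    · intro hcon
      exact absurd (Finset.mem_univ _) hcon
  rw [key]
  apply Submodule.sum_mem
  intro ρ _
  apply Submodule.sum_mem
  intro T hT
  apply Submodule.sum_mem
  intro V _
  apply Submodule.smul_mem
  apply Submodule.subset_span
  unfold gens
  rw [Finset.mem_coe, Finset.mem_biUnion]
  refine ⟨ρ, Finset.mem_univ _, ?_⟩
  rw [Finset.mem_biUnion]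
  refine ⟨T, hT, ?_⟩
  rw [Finset.mem_image]
  exact ⟨V, Finset.mem_univ _, rfl⟩

/-- Decompositions. -/
theorem rkF_decomp (hE : Expand d e) (hM : 0 < M) {S : ℕ} {G : (Bvar M h → Bool) → Bool}
    (hG : Decomp F S G) : rkF F d e b R G ≤ (S * rowK M m h d : ℕ) := by
  classical
  obtain ⟨label, u, v, hu, hv, h1⟩ := hG
  set lab : Fin S → Fin M := fun i => match label i with
      | some β => β.1
      | none => ⟨0, hM⟩ with hlab
  set c : (Fin m → Fin h → ZMod 2) → Fin S → F :=
    fun W i => if G (PW e W) = true then u i (PW e W) else 0 with hc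
  have h2 := card_gens (F := F) hE R lab c
  have h3 : rkF F d e b R G ≤ ((gens d e R lab c).card : ℤ) := by
    unfold rkF
    refine rk_le_of _ _ _ _ fun x hx => ?_
    have h4 := column_mem' (d := d) b R lab c (fun i => v i (negIn e b x)) x (by
      intro W hW i hne
      have hc' : c W i ≠ 0 := left_ne_zero_of_mul hne
      have hv' : v i (negIn e b x) ≠ 0 := right_ne_zero_of_mul hne
      simp only [hc] at hc'
      by_cases hG1 : G (PW e W) = true
      · rw [if_pos hG1] at hc'
        obtain ⟨β, hβ, hn⟩ := hv i _ hx hv'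
        have hp := hu i _ hG1 hc' β hβ
        have hl : label i = some β := hβ
        simp only [hlab, hl]
        exact viol_of hp hn
      · rw [if_neg hG1] at hc'
        exact absurd rfl hc')
    refine Eq.subst (motive := fun w => w ∈ Submodule.span F
      ((gens d e R lab c : Finset (↥R → F)) : Set (↥R → F))) ?_ h4
    funext W
    by_cases hG1 : G (PW e W.1) = true
    · rw [if_pos hG1]
      have h5 : ∑ i, c W.1 i * v i (negIn e b x) = 1 := by
        simp only [hc, if_pos hG1]
        exact h1 _ _ hG1 hx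
      rw [h5, one_mul]
    · rw [if_neg hG1]
      have h5 : ∑ i, c W.1 i * v i (negIn e b x) = 0 := by
        simp only [hc, if_neg hG1, zero_mul, Finset.sum_const_zero]
      rw [h5, zero_mul]
  have h6 : ((gens d e R lab c).card : ℤ) ≤ (S * rowK M m h d : ℕ) := by
    exact_mod_cast h2
  exact h3.trans h6

theorem decomp_var (F : Type) [Field F] {ι : Type} (i : ι) :
    Decomp F 1 (fun x : ι → Bool => x i) := by
  classical
  refine ⟨fun _ => some i, fun _ x => 1, fun _ y => if y i = false then 1 else 0, ?_, ?_, ?_⟩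
  · rintro _ x hx _ e he
    have : i = e := Option.some.inj he
    rw [← this]; exact hx
  · rintro _ y hy _
    exact ⟨i, rfl, hy⟩
  · intro x y _ hy
    simp [hy]

/-- Comparator circuits. -/
theorem rkF_comp (hE : Expand d e) (hM : 0 < M) {S : ℕ} (P : CompCirc (Bvar M h) S) :
    rkF F d e b R P.val ≤ (S * rowK M m h d : ℕ) := by
  classical
  unfold rkF CompCirc.val
  have h1 := rk_comp (fun (x : Fin m → Fin h → ZMod 2) (W : ↥R) => mat F d e b W.1 x)
    P.gates P.out (fun i (W : ↥R) => Sum.elim (PW e W.1) id (P.init i))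
    (fun i x => Sum.elim (negIn e b x) id (P.init i)) (rowK M m h d : ℤ) (by
      intro i
      cases hi : P.init i with
      | inl v =>
        have h2 := rkF_decomp (F := F) (d := d) (e := e) b R hE hM (decomp_var F v)
        rw [one_mul] at h2
        exact h2
      | inr c =>
        have h2 := rk_const (fun (x : Fin m → Fin h → ZMod 2) (W : ↥R) => mat F d e b W.1 x) c
        have h3 : (0 : ℤ) ≤ rowK M m h d := by positivity
        exact (le_of_eq h2).trans h3)
  refine h1.trans (le_of_eq ?_)
  push_cast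
  ring

/-- The whole function. -/
theorem rkF_incon (h2 : (2 : F) ≠ 0) (hE : Expand d e)
    (hb : ∀ z : Fin m → ZMod 2, ∃ i, viol e b z i ≠ 0) (hR : ∀ W ∈ R, ∀ j, W j ≠ 0) :
    (R.card : ℤ) ≤ rkF F d e b R (incon e b) := by
  classical
  have hne : (2 : F) ^ (h * m) ≠ 0 := pow_ne_zero _ h2
  have htop : rkSp (fun (x : Fin m → Fin h → ZMod 2) (W : ↥R) => mat F d e b W.1 x)
    (fun W : ↥R => incon e b (PW e W.1)) (fun x => incon e b (negIn e b x)) = ⊤ := by
    set P := rkSp (fun (x : Fin m → Fin h → ZMod 2) (W : ↥R) => mat F d e b W.1 x)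
      (fun W : ↥R => incon e b (PW e W.1)) (fun x => incon e b (negIn e b x)) with hP
    have hcol : ∀ x, (fun W : ↥R => mat F d e b W.1 x) ∈ P := fun x =>
      Submodule.subset_span (Or.inl ⟨x, incon_negIn e b x, rfl⟩)
    have hsingle : ∀ V : ↥R, (Pi.single V (1 : F) : ↥R → F) ∈ P := by
      intro V
      have e1 : ((2 : F) ^ (h * m)) • (Pi.single V (1 : F) : ↥R → F) =
          ∑ x : Fin m → Fin h → ZMod 2, chi F (∑ j, ip V.1 x j) •
            (fun W : ↥R => mat F d e b W.1 x) := by
        funext W
        rw [Finset.sum_apply]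
        simp only [Pi.smul_apply, smul_eq_mul]
        have e2 := mat_mul F hE b W.1 V.1 (hR V.1 V.2)
        simp only [mul_comm (chi F _)]
        rw [e2]
        by_cases hWV : W = V
        · subst hWV; simp
        · have hWV' : W.1 ≠ V.1 := fun hh => hWV (Subtype.ext hh)
          rw [Pi.single_eq_of_ne hWV, if_neg hWV', mul_zero]
      have e3 : ((2 : F) ^ (h * m)) • (Pi.single V (1 : F) : ↥R → F) ∈ P := by
        rw [e1]
        exact Submodule.sum_mem _ fun x _ => Submodule.smul_mem _ _ (hcol x)
      exact (Submodule.smul_mem_iff _ hne).1 e3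
    rw [eq_top_iff, ← (Pi.basisFun F ↥R).span_eq, Submodule.span_le]
    rintro v ⟨V, rfl⟩
    have := hsingle V
    simpa using this
  unfold rkF rk
  rw [htop, finrank_top, Module.finrank_fintype_fun_eq_card, Fintype.card_coe]
  have h3 : (univ.filter fun W : ↥R => incon e b (PW e W.1) = false) = ∅ := by
    apply Finset.filter_eq_empty_iff.2
    intro W _
    rw [incon_PW hb W.1]
    simp
  rw [h3]
  simp

/-- Thresholds. -/
theorem rkF_amplify {N₀ : ℤ} (L : List ((Bvar M h → Bool) → Bool)) (θ : ℕ)
    {g : (Bvar M h → Bool) → Bool} (hg : ∀ u, g u = true ↔ θ ≤ L.countP fun H => H u)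
    (hN : 0 ≤ N₀) (hL : ∀ H ∈ L, rkF F d e b R H ≤ N₀) (i j : ℕ)
    (hi : 2 * L.length + 1 ≤ 4 * 2 ^ i) (hj : 3 * Fintype.card (Bvar M h) ≤ 2 ^ j) :
    rkF F d e b R g ≤ 5 ^ (2 * i + j + 2) * N₀ := by
  classical
  refine amplify (P := fun n G => rkF F d e b R G ≤ 5 ^ n * N₀) ?_ L θ hg ?_ ?_ ?_
    (Fintype.card (Bvar M h)) i j ?_ hi hj
  · intro n f g k h1 h2 h3
    have h4 := rkF_or F d e b R (fun u => f u && g u) (fun u => k u && (f u || g u))
    have h5 := rkF_and F d e b R f g
    have h6 := rkF_and F d e b R k (fun u => f u || g u)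
    have h7 := rkF_or F d e b R f g
    have h8 : rkF F d e b R (fun u => maj3 (f u) (g u) (k u)) ≤ 5 * (5 ^ n * N₀) := by
      have h9 : (fun u => maj3 (f u) (g u) (k u)) =
          fun u => (f u && g u) || (k u && (f u || g u)) := rfl
      rw [h9]
      linarith
    refine h8.trans (le_of_eq ?_)
    ring
  · intro H hH
    rw [pow_zero, one_mul]
    exact hL H hH
  · rw [rkF_const]
    positivity
  · rw [rkF_const]
    positivity
  · rw [Fintype.card_fun, Fintype.card_bool]

/-- Disjunctions of queries. -/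
theorem rkF_orSet {C : Gen.MonoClass} {q : ℕ} {T : ℤ} (hT : 0 ≤ T)
    (hC : ∀ G, C.mem (Bvar M h) G → rkF F d e b R G ≤ T) {H : (Bvar M h → Bool) → Bool}
    (hH : H ∈ orSet C (Bvar M h) q) : rkF F d e b R H ≤ q * T := by
  classical
  obtain ⟨Gs, h1, h2, h3⟩ := hH
  have key : ∀ (L : List ((Bvar M h → Bool) → Bool)), (∀ G ∈ L, C.mem (Bvar M h) G) →
      ∀ H : (Bvar M h → Bool) → Bool, (∀ u, H u = true ↔ ∃ G ∈ L, G u = true) →
      rkF F d e b R H ≤ (L.length : ℤ) * T := by
    intro L
    induction L with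
    | nil =>
      intro _ H hH
      have : H = fun _ => false := by
        funext u
        have := hH u
        simpa using this
      rw [this, rkF_const]
      simp
    | cons G L ih =>
      intro hL H hH
      have h4 : H = fun u => G u || decide (∃ G ∈ L, G u = true) := by
        funext u
        rw [Bool.eq_iff_iff, hH u, Bool.or_eq_true, decide_eq_true_eq]
        constructor
        · rintro ⟨G', hG', hu⟩
          rcases List.mem_cons.1 hG' with rfl | hG'
          · exact Or.inl hu
          · exact Or.inr ⟨G', hG', hu⟩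
        · rintro (hu | ⟨G', hG', hu⟩)
          · exact ⟨G, List.mem_cons_self, hu⟩
          · exact ⟨G', List.mem_cons_of_mem _ hG', hu⟩
      have h5 := ih (fun G' hG' => hL G' (List.mem_cons_of_mem _ hG'))
        (fun u => decide (∃ G ∈ L, G u = true)) (fun u => by rw [decide_eq_true_eq])
      have h6 := rkF_or F d e b R G (fun u => decide (∃ G ∈ L, G u = true))
      have h7 := hC G (hL G List.mem_cons_self)
      rw [h4]
      rw [List.length_cons]
      push_cast
      linarith
  have h4 := key Gs h2 H h3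
  have h5 : (Gs.length : ℤ) ≤ q := by exact_mod_cast h1
  exact h4.trans (mul_le_mul_of_nonneg_right h5 hT)

end block

end Pool.Agent.XL
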