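import Pool.Agent.XL.CompDefs
import Pool.Agent.NTN.ThrNet
import Pool.Agent.NTN.AvgClass

set_option autoImplicit false

/-!
# Comparator circuits: closure properties

The functions computed by comparator circuits with `S` wires form a class of monotone functions which is closed
under substitutions; the majority of three such functions needs `3 S` wires (no fan-out is used), the disjunction of
`q` of them `q S + 1` wires.
-/

namespace Pool.Agent.XL

open Finset Pool.Agent.NTR Pool.Agent.NTN

/-! ### Gates on wires of any type -/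

section wires

variable {W W' : Type} [DecidableEq W] [DecidableEq W']

/-- the values of the wires after the gate `g` -/
def cg (v : W → Bool) (g : W × W) : W → Bool :=
  fun i => if i = g.1 then v g.1 && v g.2 else if i = g.2 then v g.1 || v g.2 else v i

theorem cg_embed (f : W → W') (hf : Function.Injective f) (v : W → Bool) (w : W' → Bool)
    (h : ∀ i, w (f i) = v i) (g : W × W) (i : W) : cg w (f g.1, f g.2) (f i) = cg v g i := by
  simp only [cg, hf.eq_iff, h]

theorem fold_embed (f : W → W') (hf : Function.Injective f) (gates : List (W × W)) :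
    ∀ (v : W → Bool) (w : W' → Bool), (∀ i, w (f i) = v i) →
      ∀ i, (gates.map fun g => (f g.1, f g.2)).foldl cg w (f i) = gates.foldl cg v i := by
  induction gates with
  | nil => intro v w h i; exact h i
  | cons g gates ih =>
    intro v w h i
    simp only [List.map_cons, List.foldl_cons]
    exact ih _ _ (fun i => cg_embed f hf v w h g i) i

omit [DecidableEq W] in
theorem fold_off (f : W → W') (gates : List (W × W)) (j : W') (hj : ∀ i, f i ≠ j) :
    ∀ w : W' → Bool, (gates.map fun g => (f g.1, f g.2)).foldl cg w j = w j := by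
  induction gates with
  | nil => intro w; rfl
  | cons g gates ih =>
    intro w
    simp only [List.map_cons, List.foldl_cons]
    rw [ih]
    simp only [cg]
    rw [if_neg (fun h => hj _ h.symm), if_neg (fun h => hj _ h.symm)]

theorem cg_mono {v w : W → Bool} (h : ∀ i, v i = true → w i = true) (g : W × W) (i : W)
    (hi : cg v g i = true) : cg w g i = true := by
  simp only [cg] at hi ⊢
  split_ifs at hi ⊢ with h1 h2
  · rw [Bool.and_eq_true] at hi ⊢
    exact ⟨h _ hi.1, h _ hi.2⟩
  · rw [Bool.or_eq_true] at hi ⊢
    exact hi.imp (h _) (h _)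
  · exact h _ hi

theorem fold_mono (gates : List (W × W)) : ∀ {v w : W → Bool}, (∀ i, v i = true → w i = true) →
    ∀ i, gates.foldl cg v i = true → gates.foldl cg w i = true := by
  induction gates with
  | nil => intro v w h i hi; exact h i hi
  | cons g gates ih =>
    intro v w h i hi
    simp only [List.foldl_cons] at hi ⊢
    exact ih (fun i hi => cg_mono h g i hi) i hi

end wires

/-! ### The class -/

theorem sum_elim_mono {ι : Type} {x y : ι → Bool} (h : x ≤ y) (a : ι ⊕ Bool)
    (ha : Sum.elim x id a = true) : Sum.elim y id a = true := by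
  rcases a with e | c
  · have h1 := h e
    rw [Bool.le_iff_imp] at h1
    exact h1 ha
  · exact ha

/-- The functions computed by comparator circuits with `S` wires. -/
def compClass (S : ℕ) : Gen.MonoClass where
  mem ι F := ∃ P : CompCirc ι S, ∀ x, P.val x = F x
  mono := by
    rintro ι F ⟨P, hP⟩ x y hxy
    rw [← hP, ← hP, Bool.le_iff_imp]
    exact fold_mono P.gates (fun i hi => sum_elim_mono hxy _ hi) P.out
  subst := by
    rintro ι κ F φ ⟨P, hP⟩
    refine ⟨⟨fun i => Sum.elim φ Sum.inr (P.init i), P.gates, P.out⟩, fun y => ?_⟩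
    refine Eq.trans ?_ (hP _)
    have h : ∀ i, Sum.elim y id (Sum.elim φ Sum.inr (P.init i)) =
        Sum.elim (fun i => Sum.elim y id (φ i)) id (P.init i) := by
      intro i
      rcases P.init i with e | c <;> rfl
    unfold CompCirc.val
    simp only [h]

theorem mem_of_wires {ι W : Type} [Fintype W] [DecidableEq W] {S : ℕ} (hW : Fintype.card W ≤ S)
    (init : W → ι ⊕ Bool) (gates : List (W × W)) (out : W) {F : (ι → Bool) → Bool}
    (hF : ∀ x, gates.foldl cg (fun i => Sum.elim x id (init i)) out = F x) :
    (compClass S).mem ι F := by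
  classical
  obtain ⟨f⟩ : Nonempty (W ↪ Fin S) :=
    Function.Embedding.nonempty_of_card_le (by rw [Fintype.card_fin]; exact hW)
  refine ⟨⟨fun k => if h : ∃ i, f i = k then init h.choose else Sum.inr false,
    gates.map fun g => (f g.1, f g.2), f out⟩, fun x => ?_⟩
  rw [← hF x]
  refine fold_embed f f.injective gates _ _ (fun i => ?_) out
  have h : ∃ i', f i' = f i := ⟨i, rfl⟩
  dsimp only
  rw [dif_pos h, f.injective h.choose_spec]

theorem compClass_le {ι : Type} {S S' : ℕ} (h : S ≤ S') {F : (ι → Bool) → Bool}
    (hF : (compClass S).mem ι F) : (compClass S').mem ι F := by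
  obtain ⟨P, hP⟩ := hF
  exact mem_of_wires (W := Fin S) (by rw [Fintype.card_fin]; exact h) P.init P.gates P.out hP

theorem compClass_const {ι : Type} {S : ℕ} (hS : 1 ≤ S) (c : Bool) :
    (compClass S).mem ι fun _ => c :=
  mem_of_wires (W := Unit) (by simpa using hS) (fun _ => Sum.inr c) [] () fun _ => rfl

/-! ### Circuits in parallel -/

/-- the gates of the circuits `P j`, `j ∈ l`, on their own wires -/
def parGates {ι : Type} {q S : ℕ} (P : Fin q → CompCirc ι S) (l : List (Fin q)) :
    List ((Fin q × Fin S) × (Fin q × Fin S)) :=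
  l.flatMap fun j => (P j).gates.map fun g => ((j, g.1), (j, g.2))

theorem par_off {ι : Type} {q S : ℕ} (P : Fin q → CompCirc ι S) (l : List (Fin q)) :
    ∀ (w : Fin q × Fin S → Bool) (j : Fin q) (i : Fin S), j ∉ l →
      (parGates P l).foldl cg w (j, i) = w (j, i) := by
  induction l with
  | nil => intro w j i _; rfl
  | cons a l ih =>
    intro w j i hj
    rw [List.mem_cons, not_or] at hj
    rw [parGates, List.flatMap_cons, List.foldl_append]
    refine (ih _ j i hj.2).trans ?_
    exact fold_off (fun i => (a, i)) (P a).gates (j, i) (fun i' h => hj.1 (Prod.ext_iff.mp h).1.symm) w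

theorem par_on {ι : Type} {q S : ℕ} (P : Fin q → CompCirc ι S) (l : List (Fin q)) :
    l.Nodup → ∀ (w : Fin q × Fin S → Bool) (j : Fin q) (i : Fin S), j ∈ l →
      (parGates P l).foldl cg w (j, i) = (P j).gates.foldl cg (fun i => w (j, i)) i := by
  induction l with
  | nil => intro _ w j i hj; exact absurd hj (by simp)
  | cons a l ih =>
    intro hl w j i hj
    rw [List.nodup_cons] at hl
    rw [parGates, List.flatMap_cons, List.foldl_append]
    by_cases hja : j = a
    · subst hja
      refine (par_off P l _ j i hl.1).trans ?_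
      exact fold_embed (fun i => (j, i)) (fun _ _ h => (Prod.ext_iff.mp h).2) (P j).gates
        (fun i => w (j, i)) w (fun _ => rfl) i
    · have hjl : j ∈ l := (List.mem_cons.mp hj).resolve_left hja
      refine (ih hl.2 _ j i hjl).trans ?_
      have h : ∀ i, ((P a).gates.map fun g => ((a, g.1), (a, g.2))).foldl cg w (j, i) = w (j, i) :=
        fun i => fold_off (fun i => (a, i)) (P a).gates (j, i)
          (fun i' h => hja (Prod.ext_iff.mp h).1.symm) w
      simp only [h]

/-- all circuits in parallel -/
theorem par_all {ι : Type} {q S : ℕ} (P : Fin q → CompCirc ι S) (x : ι → Bool) (j : Fin q) :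
    (parGates P (List.finRange q)).foldl cg (fun k => Sum.elim x id ((P k.1).init k.2))
      (j, (P j).out) = (P j).val x :=
  par_on P _ (List.nodup_finRange q) _ j _ (List.mem_finRange j)

/-- **Majority** without fan-out. -/
theorem comp_maj {ι : Type} {S : ℕ} {F G H : (ι → Bool) → Bool} (hF : (compClass S).mem ι F)
    (hG : (compClass S).mem ι G) (hH : (compClass S).mem ι H) :
    (compClass (3 * S)).mem ι fun x => maj3 (F x) (G x) (H x) := by
  obtain ⟨P0, hP0⟩ := hF
  obtain ⟨P1, hP1⟩ := hG
  obtain ⟨P2, hP2⟩ := hH
  set P : Fin 3 → CompCirc ι S := ![P0, P1, P2] with hP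
  refine mem_of_wires (W := Fin 3 × Fin S) (by simp) (fun k => (P k.1).init k.2)
    (parGates P (List.finRange 3) ++ [((0, P0.out), (1, P1.out)), ((2, P2.out), (1, P1.out)),
      ((0, P0.out), (2, P2.out))]) (2, P2.out) fun x => ?_
  rw [List.foldl_append]
  have h0 := par_all P x 0
  have h1 := par_all P x 1
  have h2 := par_all P x 2
  have e0 : P 0 = P0 := rfl
  have e1 : P 1 = P1 := rfl
  have e2 : P 2 = P2 := rfl
  rw [e0, hP0] at h0
  rw [e1, hP1] at h1
  rw [e2, hP2] at h2
  set w := (parGates P (List.finRange 3)).foldl cg (fun k => Sum.elim x id ((P k.1).init k.2))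
    with hw
  simp only [List.foldl_cons, List.foldl_nil, cg, Prod.mk.injEq, maj3]
  simp [h0, h1, h2]

/-! ### Disjunctions -/

/-- the accumulator collects the outputs -/
theorem acc_fold {W : Type} [DecidableEq W] (l : List W) : ∀ (w : Option W → Bool), l.Nodup →
    (l.map fun a => ((some a : Option W), (none : Option W))).foldl cg w none
      = (w none || l.any fun a => w (some a)) := by
  induction l with
  | nil => intro w _; simp
  | cons a l ih =>
    intro w hl
    rw [List.nodup_cons] at hl
    simp only [List.map_cons, List.foldl_cons]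
    rw [ih _ hl.2]
    have h1 : cg w (some a, none) none = (w (some a) || w none) := by simp [cg]
    have h2 : (l.any fun b => cg w (some a, none) (some b)) = l.any fun b => w (some b) := by
      rw [Bool.eq_iff_iff, List.any_eq_true, List.any_eq_true]
      refine exists_congr fun b => and_congr_right fun hb => ?_
      have hba : b ≠ a := fun h => hl.1 (h ▸ hb)
      simp [cg, hba]
    rw [h1, h2, List.any_cons]
    cases w (some a) <;> cases w none <;> simp

theorem comp_exists {ι : Type} {q S : ℕ} {G : Fin q → (ι → Bool) → Bool}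
    (hG : ∀ j, (compClass S).mem ι (G j)) {F : (ι → Bool) → Bool}
    (hF : ∀ x, F x = true ↔ ∃ j, G j x = true) : (compClass (q * S + 1)).mem ι F := by
  classical
  choose P hP using hG
  refine mem_of_wires (W := Option (Fin q × Fin S)) (by simp)
    (fun k => k.elim (Sum.inr false) fun k => (P k.1).init k.2)
    ((parGates P (List.finRange q)).map (fun g => (some g.1, some g.2)) ++
      ((List.finRange q).map fun j => (j, (P j).out)).map (fun a => (some a, none))) none
    fun x => ?_
  rw [List.foldl_append, acc_fold _ _ ((List.nodup_finRange q).map fun _ _ h => (Prod.ext_iff.mp h).1)]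
  have h1 : ∀ k : Fin q × Fin S, ((parGates P (List.finRange q)).map fun g => (some g.1, some g.2)).foldl cg
      (fun k : Option (Fin q × Fin S) => Sum.elim x id (k.elim (Sum.inr false) fun k => (P k.1).init k.2))
      (some k) = (parGates P (List.finRange q)).foldl cg
        (fun k => Sum.elim x id ((P k.1).init k.2)) k :=
    fun k => fold_embed some (Option.some_injective _) _ _ _ (fun _ => rfl) k
  have h2 : ((parGates P (List.finRange q)).map fun g => (some g.1, some g.2)).foldl cg
      (fun k : Option (Fin q × Fin S) => Sum.elim x id (k.elim (Sum.inr false) fun k => (P k.1).init k.2))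
      none = false :=
    fold_off some _ none (fun _ h => Option.some_ne_none _ h) _
  rw [h2, Bool.false_or, Bool.eq_iff_iff, hF, List.any_eq_true]
  constructor
  · rintro ⟨a, ha, h⟩
    obtain ⟨j, -, rfl⟩ := List.mem_map.mp ha
    rw [h1, par_all, hP] at h
    exact ⟨j, h⟩
  · rintro ⟨j, hj⟩
    refine ⟨(j, (P j).out), List.mem_map.mpr ⟨j, List.mem_finRange j, rfl⟩, ?_⟩
    rw [h1, par_all, hP]
    exact hj

/-- Disjunctions of queries to comparator circuits. -/
theorem orSet_comp {β : Type} {S q S₀ : ℕ} (h : q * S + 1 ≤ S₀) {H : (β → Bool) → Bool}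
    (hH : H ∈ orSet (compClass S) β q) : (compClass S₀).mem β H := by
  obtain ⟨Gs, h1, h2, h3⟩ := hH
  have h4 : ∀ j : Fin Gs.length, (compClass S).mem β (Gs.get j) := fun j =>
    h2 _ (List.get_mem _ _)
  refine compClass_le ((Nat.add_le_add_right (Nat.mul_le_mul_right S h1) 1).trans h)
    (comp_exists h4 fun x => ?_)
  rw [h3]
  constructor
  · rintro ⟨G, hG, hGx⟩
    obtain ⟨j, rfl⟩ := List.get_of_mem hG
    exact ⟨j, hGx⟩
  · rintro ⟨j, hj⟩
    exact ⟨_, List.get_mem _ _, hj⟩

/-- **Thresholds of comparator circuits.** -/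
theorem compClass_thr {S : ℕ} (hS : 1 ≤ S) {β : Type} [Fintype β] {g : (β → Bool) → Bool}
    (L : List ((β → Bool) → Bool)) (θ : ℕ)
    (hg : ∀ u, g u = true ↔ θ ≤ L.countP fun H => H u)
    (hL : ∀ H ∈ L, (compClass S).mem β H) (i j : ℕ)
    (hi : 2 * L.length + 1 ≤ 4 * 2 ^ i) (hj : 3 * Fintype.card β ≤ 2 ^ j) :
    (compClass (3 ^ (2 * i + j + 2) * S)).mem β g := by
  classical
  refine amplify (P := fun l F => (compClass (3 ^ l * S)).mem β F)
    (fun n F G H hF hG hH => ?_) L θ hg ?_ ?_ ?_ (Fintype.card β) i j card_fun_eq hi hj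
  · have h := comp_maj hF hG hH
    rw [← mul_assoc, ← pow_succ'] at h
    exact h
  · intro H hH
    simpa using hL H hH
  · simpa using compClass_const (ι := β) hS false
  · simpa using compClass_const (ι := β) hS true

end Pool.Agent.XL
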