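import Pool.Agent.XL.NotLin
import Pool.Agent.XL.RankF
import Pool.Agent.XL.CompClass

set_option autoImplicit false

/-!
# Lists of linear equations over `F_2`: few changes of the answers to monotone queries, with
comparator circuits
-/

namespace Pool.Agent.XL

open Finset Pool.Agent.NTR Pool.Agent.NTN Pool.Agent.TeleNeg
open scoped BigOperators

/-- The functions computed by a monotone switching network with at most `2 ^ k` nodes, by a
monotone comparator circuit with at most `2 ^ k` wires, or by a monotone directed network with at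
most `2 ^ √k` nodes. -/
def devClass (k : ℕ) : Gen.MonoClass where
  mem ι f := (∃ S, S ≤ 2 ^ k ∧ ∃ N : Net ι S, ∀ x, N.val x = f x) ∨
    (∃ S, S ≤ 2 ^ k ∧ ∃ P : CompCirc ι S, ∀ x, P.val x = f x) ∨
    ∃ S, S ≤ 2 ^ Nat.sqrt k ∧ ∃ N : Net ι S, ∀ x, N.dval x = f x
  mono := by
    rintro ι f (⟨S, -, h⟩ | ⟨S, -, h⟩ | ⟨S, -, h⟩)
    · exact (Gen.netClass S).mono ι f h
    · exact (compClass S).mono ι f h
    · exact (Gen.dnetClass S).mono ι f h
  subst := by
    rintro ι κ f φ (⟨S, hS, h⟩ | ⟨S, hS, h⟩ | ⟨S, hS, h⟩)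
    · exact Or.inl ⟨S, hS, (Gen.netClass S).subst ι κ f φ h⟩
    · exact Or.inr (Or.inl ⟨S, hS, (compClass S).subst ι κ f φ h⟩)
    · exact Or.inr (Or.inr ⟨S, hS, (Gen.dnetClass S).subst ι κ f φ h⟩)

theorem devClass_rk (F : Type) [Field F] {M m h d k : ℕ} {e : Fin M → Fin 8 → Fin m}
    (b : Fin M → ZMod 2) (R : Finset (Fin m → Fin h → ZMod 2)) (hE : Expand d e) (hM : 0 < M)
    {G : (Bvar M h → Bool) → Bool} (hG : (devClass k).mem (Bvar M h) G) :
    rkF F d e b R G ≤ (2 ^ (2 * k) * (Fintype.card (Bvar M h) + 1) * rowK M m h d : ℕ) := by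
  have key : ∀ G : (Bvar M h → Bool) → Bool, (twoClass k).mem (Bvar M h) G →
      rkF F d e b R G ≤ (2 ^ (2 * k) * (Fintype.card (Bvar M h) + 1) * rowK M m h d : ℕ) :=
    fun G hG => rkF_decomp (F := F) (d := d) b R hE hM (twoClass_decomp F hG)
  rcases hG with h | ⟨S, hS, P, hP⟩ | h
  · exact key G (Or.inl h)
  · have h1 := rkF_comp (F := F) (d := d) b R hE hM P
    rw [show P.val = G from funext hP] at h1
    refine h1.trans ?_
    have h2 : S * rowK M m h d ≤ 2 ^ (2 * k) * (Fintype.card (Bvar M h) + 1) * rowK M m h d := by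
      apply Nat.mul_le_mul_right
      calc S ≤ 2 ^ k := hS
        _ ≤ 2 ^ (2 * k) := Nat.pow_le_pow_right (by norm_num) (by omega)
        _ ≤ 2 ^ (2 * k) * (Fintype.card (Bvar M h) + 1) := Nat.le_mul_of_pos_right _ (by omega)
    exact_mod_cast h2
  · exact key G (Or.inr h)

theorem orSet_dev_rk (F : Type) [Field F] {M m h d k q : ℕ} {e : Fin M → Fin 8 → Fin m}
    (b : Fin M → ZMod 2) (R : Finset (Fin m → Fin h → ZMod 2)) (hE : Expand d e) (hM : 0 < M)
    (hq : q ≤ 2 ^ k) {H : (Bvar M h → Bool) → Bool} (hH : H ∈ orSet (devClass k) (Bvar M h) q) :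
    rkF F d e b R H ≤ (2 ^ (3 * k) * (Fintype.card (Bvar M h) + 1) * rowK M m h d : ℕ) := by
  have h1 := rkF_orSet (F := F) (d := d) (e := e) b R (C := devClass k)
    (T := (2 ^ (2 * k) * (Fintype.card (Bvar M h) + 1) * rowK M m h d : ℕ)) (by positivity)
    (fun G hG => devClass_rk F b R hE hM hG) hH
  refine h1.trans ?_
  have h2 : q * (2 ^ (2 * k) * (Fintype.card (Bvar M h) + 1) * rowK M m h d) ≤
      2 ^ (3 * k) * (Fintype.card (Bvar M h) + 1) * rowK M m h d := by
    calc q * (2 ^ (2 * k) * (Fintype.card (Bvar M h) + 1) * rowK M m h d)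
        ≤ 2 ^ k * (2 ^ (2 * k) * (Fintype.card (Bvar M h) + 1) * rowK M m h d) :=
          Nat.mul_le_mul_right _ hq
      _ = 2 ^ (3 * k) * (Fintype.card (Bvar M h) + 1) * rowK M m h d := by
          have : 2 ^ (3 * k) = 2 ^ k * 2 ^ (2 * k) := by rw [← pow_add]; congr 1; ring
          rw [this]; ring
  exact_mod_cast h2

theorem rowK_pos (M m h d : ℕ) : 0 < rowK M m h d := by
  unfold rowK
  refine Nat.mul_pos (Finset.card_pos.2 ⟨∅, ?_⟩) (by positivity)
  simp [TT]

/-- The measure of `incon` is larger than the measure of thresholds of small devices. -/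
theorem incon_rk_large {d m : ℕ} {e : Fin (4000 * d) → Fin 8 → Fin m} (hE : Expand d e)
    (b : Fin (4000 * d) → ZMod 2) (hb : ∀ z : Fin m → ZMod 2, ∃ i, viol e b z i ≠ 0)
    (hm1 : 2 * d ≤ m) (hm2 : m ≤ 2000 * d) {Q : ℕ}
    (hQ : rkF ℚ d e b (univ.filter fun W : Fin m → Fin 24 → ZMod 2 => ∀ j, W j ≠ 0)
      (incon (h := 24) e b) ≤ (Q * rowK (4000 * d) m 24 d : ℕ)) : 2 ^ (22 * d) ≤ Q := by
  classical
  have h1 := rkF_incon (F := ℚ) (d := d) b
    (univ.filter fun W : Fin m → Fin 24 → ZMod 2 => ∀ j, W j ≠ 0) (by norm_num) hE hb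
    (fun W hW => (Finset.mem_filter.1 hW).2)
  have h2 : (univ.filter fun W : Fin m → Fin 24 → ZMod 2 => ∀ j, W j ≠ 0).card ≤
      Q * rowK (4000 * d) m 24 d := by exact_mod_cast h1.trans hQ
  rw [card_pos_inputs] at h2
  have h3 := num_aux d m hm1 hm2
  have h4 : (TT d (4000 * d)).card ≤ 6000 ^ (2 * d) := card_small2 d
  have h5 : 2 ^ (22 * d) * rowK (4000 * d) m 24 d ≤ Q * rowK (4000 * d) m 24 d := by
    refine le_trans ?_ h2
    refine le_trans ?_ h3
    exact Nat.mul_le_mul_left _ (Nat.mul_le_mul_right _ h4)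
  exact Nat.le_of_mul_le_mul_right h5 (rowK_pos _ _ _ _)

open Classical in
/-- **Lists of linear equations, average case.** -/
theorem not_lin_dev {n k : ℕ} (hk : 1 ≤ k) (hn : 1 ≤ n) :
    ∃ (N : ℕ) (E : Fin n → Eq3 N) (μ : (Fin n → Bool) → ℝ), (∀ x, 0 ≤ μ x) ∧ ∑ x, μ x = 1 ∧
      ∀ (ts : List ℕ) (T b : ℕ) (A : (Fin n → Bool) → Bool),
        ts.sum + T ≤ 2 ^ k → Tries (devClass k) univ ts T b A →
        ∑ x with (A x = true ↔ Incons E x), μ x
          ≤ 1 / 2 + (1 / 2) ^ k + (T + 1) * b * (2 ^ 219 * k) / n := by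
  have hn' : (0 : ℝ) < n := by exact_mod_cast hn
  set c : ℕ := 2 ^ 219 * k with hc
  have hc0 : 0 < c := by positivity
  have hcR : ((2 : ℝ) ^ 219 * k) = (c : ℝ) := by
    rw [hc, Nat.cast_mul, Nat.cast_pow, Nat.cast_ofNat]
  rw [hcR]
  have hroom0 : 195 * cdz k ≤ c := by
    rw [hc]
    exact room' k
  clear_value c
  have hc' : (0 : ℝ) < c := by exact_mod_cast hc0
  rcases Nat.lt_or_ge n c with hlt | hge
  · -- the trivial case
    have h2 : (1 : ℝ) ≤ c / n := by
      rw [one_le_div hn']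
      exact_mod_cast hlt.le
    have h5 : (0 : ℝ) ≤ (1 / 2) ^ k := by positivity
    refine ⟨0, fun _ => (⟨∅, by simp⟩, false), fun x => if x = (fun _ => false) then 1 else 0,
      fun x => ?_, ?_, ?_⟩
    · dsimp only
      split_ifs <;> norm_num
    · rw [Finset.sum_ite_eq' Finset.univ]
      simp
    · intro ts T b A _ hA
      obtain ⟨Q, P, h, -, -, -, hch, -⟩ := hA
      have hb : 0 < b := changesOn_pos' hch
      refine (Finset.sum_le_sum_of_subset_of_nonneg (Finset.filter_subset _ _) (by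
          intro x _ _
          split_ifs <;> norm_num)).trans ?_
      rw [Finset.sum_ite_eq' Finset.univ]
      simp only [Finset.mem_univ, if_true]
      have h3 : (1 : ℝ) ≤ (T + 1) * b := by
        have e1 : (1 : ℝ) ≤ b := by exact_mod_cast hb
        have e2 : (0 : ℝ) ≤ T := by positivity
        nlinarith
      have h4 : (1 : ℝ) ≤ (T + 1) * b * c / n := by
        rw [mul_div_assoc]
        exact one_le_mul_of_one_le_of_one_le h3 h2
      linarith
  · have hr : 1 ≤ n / c := (Nat.one_le_div_iff hc0).2 hge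
    obtain ⟨m, e, b₀, hm1, hm2, hE, hb₀, hs⟩ := exists_system (100 * k) (by omega)
    have hroom : n / c * (195 * cdz k) ≤ n :=
      (Nat.mul_le_mul_left _ hroom0).trans (Nat.div_mul_le_self _ _)
    obtain ⟨N, E, φ, f3⟩ := exists_list (h := 24) (r := n / c) (n := n) e b₀
      (by
        rw [card_bvar_eq]
        refine le_trans (le_of_eq ?_) hroom
        ring)
    set cd := Fintype.card (Bvar (4000 * (100 * k)) 24) with hcd
    have hcdz : cd = cdz k := card_bvar_eq k
    have hcd1 : 1 ≤ cd := by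
      rw [hcdz]
      exact cdz_pos hk
    have h5 : (0 : ℝ) < (1 / 2) ^ k := by positivity
    have h6 : ((1 / 2 : ℝ)) ^ k < 1 := pow_lt_one₀ (by norm_num) (by norm_num) (by omega)
    have hk1 : 1 ≤ 3 * cd * 4 ^ k := by
      have : 1 ≤ 4 ^ k := Nat.one_le_pow _ _ (by norm_num)
      nlinarith
    obtain ⟨i, j, e1, e2, e3, e4⟩ := exists_levels hk1 hcd1
    obtain ⟨μ, m1, m2, m3, m4⟩ := average_queries_or (U := univ) hr
      (incon (h := 24) e b₀) (incon_monotone e b₀) (fun x : Fin n → Bool => Incons E x) φ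
      (fun v hv => absurd (Finset.mem_univ v) hv)
      f3 h5 h6 (3 * cd * 4 ^ k) (by
        have h7 : ((1 / 2 : ℝ) ^ k) ^ 2 = 1 / 4 ^ k := by
          rw [← pow_mul, mul_comm, pow_mul, show (1 / 2 : ℝ) ^ 2 = 1 / 4 by norm_num, one_div_pow]
        rw [h7]
        push_cast
        have h8 : (3 * (cd : ℝ) * 4 ^ k) * (1 / 4 ^ k) = 3 * (cd : ℝ) := by
          field_simp
        rw [h8])
      {H | rkF ℚ (100 * k) e b₀ (univ.filter fun W : Fin m → Fin 24 → ZMod 2 => ∀ j, W j ≠ 0) H ≤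
        (2 ^ (3 * k) * (cd + 1) * rowK (4000 * (100 * k)) m 24 (100 * k) : ℕ)}
      ⟨PW e 0, negIn e b₀ 0, incon_PW hb₀ 0, incon_negIn e b₀ 0⟩ (by
        intro L θ hL hLS hcon
        have h7 := rkF_amplify (F := ℚ) (d := 100 * k) (e := e) b₀
          (univ.filter fun W : Fin m → Fin 24 → ZMod 2 => ∀ j, W j ≠ 0) L θ hcon
          (N₀ := (2 ^ (3 * k) * (cd + 1) * rowK (4000 * (100 * k)) m 24 (100 * k) : ℕ))
          (by positivity) hLS i j (by rw [hL]; exact e1) e2
        have h8 := incon_rk_large hE b₀ hb₀ hm1 hm2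
          (Q := 5 ^ (2 * i + j + 2) * (2 ^ (3 * k) * (cd + 1))) (by
            refine h7.trans (le_of_eq ?_)
            push_cast
            ring)
        have h11 := num_thr hk (hcdz.trans rfl) e3 e4
        exact absurd (lt_of_le_of_lt h8 h11) (lt_irrefl _))
    refine ⟨N, E, μ, m1, m2, fun ts T b A hq hA => ?_⟩
    have h11 := m4 (devClass k) ts T b A (fun H hH =>
      orSet_dev_rk ℚ b₀ _ hE (by omega) hq hH) hA
    refine (le_of_eq (sum_filter_iff' μ _ _ _ _ fun x => Iff.rfl)).trans (h11.trans ?_)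
    have hr' : (0 : ℝ) < (n / c : ℕ) := by exact_mod_cast hr
    have h12 : (n : ℝ) ≤ 2 * c * (n / c : ℕ) := by
      have h2 : n < c * (n / c + 1) := Nat.lt_mul_div_succ n hc0
      rw [mul_add, mul_one] at h2
      have h3 : c ≤ c * (n / c) := Nat.le_mul_of_pos_right _ hr
      have h4 : n ≤ 2 * c * (n / c) := by
        rw [mul_assoc]
        omega
      exact_mod_cast h4
    have h13 : ((T : ℝ) + 1) * b / (2 * (n / c : ℕ)) ≤ (T + 1) * b * c / n := by
      rw [div_le_div_iff₀ (by positivity) hn']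
      have h6 : (0 : ℝ) ≤ (T + 1) * b := by positivity
      calc ((T : ℝ) + 1) * b * n ≤ (T + 1) * b * (2 * c * (n / c : ℕ)) :=
            mul_le_mul_of_nonneg_left h12 h6
        _ = (T + 1) * b * c * (2 * (n / c : ℕ)) := by ring
    linarith

end Pool.Agent.XL
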