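import Mathlib

/-!
# Lifted systems of linear equations over `F_2`: definitions

`e i c` (`c < 8`) are the unknowns of equation `i`, `b i` is its right hand side.
-/

namespace Pool.Agent.XL

open Finset

variable {M m h : ℕ}

/-- how often (mod 2) the unknown `j` occurs in the equations of `T` -/
def par (e : Fin M → Fin 8 → Fin m) (T : Finset (Fin M)) (j : Fin m) : ZMod 2 :=
  ∑ i ∈ T, ∑ c : Fin 8, if e i c = j then 1 else 0

/-- the unknowns which occur an odd number of times in the equations of `T` -/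
def supp (e : Fin M → Fin 8 → Fin m) (T : Finset (Fin M)) : Finset (Fin m) :=
  univ.filter fun j => par e T j ≠ 0

/-- `e` is expanding up to `2 d` equations -/
def Expand (d : ℕ) (e : Fin M → Fin 8 → Fin m) : Prop :=
  ∀ T : Finset (Fin M), T.card ≤ 2 * d → T.card ≤ (supp e T).card

/-- the violation (0 or 1) of equation `i` at `z` -/
def viol (e : Fin M → Fin 8 → Fin m) (b : Fin M → ZMod 2) (z : Fin m → ZMod 2) (i : Fin M) :
    ZMod 2 :=
  b i + ∑ c : Fin 8, z (e i c)

/-- the sign `(-1)^a` -/
def chi (F : Type*) [Field F] (a : ZMod 2) : F := if a = 0 then 1 else -1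

/-- the unknowns `z j = W j . x j` -/
def ip (W x : Fin m → Fin h → ZMod 2) (j : Fin m) : ZMod 2 := ∑ t, W j t * x j t

/-- the small sets of equations -/
def TT (d M : ℕ) : Finset (Finset (Fin M)) :=
  univ.filter fun T => T.card ≤ 2 * d

/-- the matrix -/
def mat (F : Type*) [Field F] (d : ℕ) (e : Fin M → Fin 8 → Fin m) (b : Fin M → ZMod 2)
    (W x : Fin m → Fin h → ZMod 2) : F :=
  ∑ T ∈ TT d M, chi F (∑ j, ip W x j) * chi F (∑ i ∈ T, viol e b (ip W x) i)

theorem chi_add (F : Type*) [Field F] (a a' : ZMod 2) :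
    chi F (a + a') = chi F a * chi F a' := by
  have h : ∀ a a' : ZMod 2, (a + a' = 0 ↔ (a = 0 ↔ a' = 0)) := by decide
  unfold chi
  by_cases h1 : a = 0 <;> by_cases h2 : a' = 0 <;> simp [h, h1, h2]

theorem chi_zero (F : Type*) [Field F] : chi F 0 = 1 := by simp [chi]

theorem chi_of_ne (F : Type*) [Field F] {a : ZMod 2} (h : a ≠ 0) : chi F a = -1 := by
  simp [chi, h]

theorem chi_mul_self (F : Type*) [Field F] (a : ZMod 2) : chi F a * chi F a = 1 := by
  unfold chi; split_ifs <;> simp

end Pool.Agent.XL
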