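import Pool.Agent.XL.Avg
import Pool.Agent.NTN.AvgClass

set_option autoImplicit false

/-!
# Inconsistency of linear equations over `F_2` on average: queries to span programs and networks
-/

namespace Pool.Agent.XL

open Finset Pool.Agent.NTR Pool.Agent.NTN Pool.Agent.TeleNeg
open scoped BigOperators

/-- The set `U` contains `k` equations with pairwise disjoint nonempty sets of unknowns. -/
def DisjointEqs {n : ℕ} (k : ℕ) (U : Finset (Eq3 n)) : Prop :=
  ∃ q : Fin k → Eq3 n, (∀ i, q i ∈ U) ∧ (∀ i, (q i).1.1.Nonempty) ∧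
    ∀ i j, i ≠ j → Disjoint (q i).1.1 (q j).1.1

/-- The number of variables of a block. -/
def cdz (t : ℕ) : ℕ := 4000 * (100 * t) * 2 ^ 192

theorem card_bvar_eq (t : ℕ) : Fintype.card (Bvar (4000 * (100 * t)) 24) = cdz t := by
  rw [Fintype.card_prod, Fintype.card_fun, Fintype.card_fun, ZMod.card, Fintype.card_fin,
    Fintype.card_fin, Fintype.card_fin, cdz, ← pow_mul]

theorem cdz_pos {t : ℕ} (ht : 1 ≤ t) : 1 ≤ cdz t := by
  have : 0 < cdz t := by
    unfold cdz
    positivity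
  exact this

/-- The lower bound for the whole function. -/
theorem incon_lower (F : Type) [Field F] (h2 : (2 : F) ≠ 0) {d m : ℕ}
    {e : Fin (4000 * d) → Fin 8 → Fin m} (hE : Expand d e) (b : Fin (4000 * d) → ZMod 2)
    (hb : ∀ z : Fin m → ZMod 2, ∃ i, viol e b z i ≠ 0)
    (hd : 1 ≤ d) (hm1 : 2 * d ≤ m) (hm2 : m ≤ 2000 * d) {S : ℕ}
    (hD : Decomp F S (incon (h := 24) e b)) : 2 ^ (22 * d) ≤ S := by
  classical
  have h8 := few_num F h2 hE b hd hm1 hm2 hD (fun u hu => hu)
  have h9 : (univ.filter fun W : Fin m → Fin 24 → ZMod 2 =>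
      (∀ j, W j ≠ 0) ∧ incon e b (PW e W) = true).card = (2 ^ 24 - 1) ^ m := by
    rw [← card_pos_inputs m 24]
    refine congrArg Finset.card (Finset.filter_congr fun W _ => ?_)
    rw [incon_PW hb W]
    exact and_iff_left rfl
  rw [h9] at h8
  exact Nat.le_of_mul_le_mul_right h8 (Nat.pow_pos (by norm_num))

theorem room (t : ℕ) : 256 * cdz t ≤ 2 ^ 219 * t := by
  unfold cdz
  calc 256 * (4000 * (100 * t) * 2 ^ 192) = (256 * 4000 * 100 * 2 ^ 192) * t := by ring
    _ ≤ 2 ^ 219 * t := Nat.mul_le_mul_right _ (by norm_num)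

open Classical in
/-- **Inconsistency of linear equations, average case.** The classes of queries are arbitrary; the
disjunctions of `q` queries must have decompositions of size `2 ^ (3 t)` times the number of block
variables. -/
theorem xor_avg (F : Type) [Field F] (h2 : (2 : F) ≠ 0) {t n k : ℕ} (ht : 1 ≤ t) (hk : 1 ≤ k)
    (U : Finset (Eq3 n)) (hU : DisjointEqs k U) :
    ∃ μ : (Eq3 n → Bool) → ℝ, (∀ x, 0 ≤ μ x) ∧ ∑ x, μ x = 1 ∧
      (∀ x x', μ x ≠ 0 → μ x' ≠ 0 → ∀ v, v ∉ U → x v = x' v) ∧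
      ∀ (C : Gen.MonoClass) (ts : List ℕ) (T b : ℕ) (A : (Eq3 n → Bool) → Bool),
        (∀ H ∈ orSet C (Bvar (4000 * (100 * t)) 24) (ts.sum + T),
          Decomp F (2 ^ (3 * t) * (cdz t + 1)) H) → Tries C U ts T b A →
        ∑ x with (A x = true ↔ unsat x = true), μ x
          ≤ 1 / 2 + (1 / 2) ^ t + (T + 1) * b * (2 ^ 219 * t) / k := by
  have hk' : (0 : ℝ) < k := by exact_mod_cast hk
  set c : ℕ := 2 ^ 219 * t with hc
  have hc0 : 0 < c := by positivity
  have hcR : ((2 : ℝ) ^ 219 * t) = (c : ℝ) := by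
    rw [hc, Nat.cast_mul, Nat.cast_pow, Nat.cast_ofNat]
  rw [hcR]
  have hroom0 : 256 * cdz t ≤ c := by
    rw [hc]
    exact room t
  clear_value c
  have hc' : (0 : ℝ) < c := by exact_mod_cast hc0
  rcases Nat.lt_or_ge k c with hlt | hge
  · -- the trivial case
    have h2 : (1 : ℝ) ≤ c / k := by
      rw [one_le_div hk']
      exact_mod_cast hlt.le
    have h5 : (0 : ℝ) ≤ (1 / 2) ^ t := by positivity
    refine ⟨fun x => if x = (fun _ => false) then 1 else 0, fun x => ?_, ?_, ?_, ?_⟩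
    · dsimp only
      split_ifs <;> norm_num
    · rw [Finset.sum_ite_eq' Finset.univ]
      simp
    · intro x x' hx hx' v _
      have e1 : x = fun _ => false := by
        by_contra h
        exact hx (if_neg h)
      have e2 : x' = fun _ => false := by
        by_contra h
        exact hx' (if_neg h)
      rw [e1, e2]
    · intro C ts T b A _ hA
      obtain ⟨Q, P, h, -, -, -, hch, -⟩ := hA
      have hb : 0 < b := changesOn_pos' hch
      have h1 : ∑ x with (A x = true ↔ unsat x = true),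
          (if x = (fun _ => false) then (1 : ℝ) else 0)
          ≤ ∑ x : Eq3 n → Bool, (if x = (fun _ => false) then (1 : ℝ) else 0) :=
        Finset.sum_le_sum_of_subset_of_nonneg (Finset.filter_subset _ _) (by
          intro x _ _
          split_ifs <;> norm_num)
      rw [Finset.sum_ite_eq' Finset.univ] at h1
      simp only [Finset.mem_univ, if_true] at h1
      refine h1.trans ?_
      have h3 : (1 : ℝ) ≤ (T + 1) * b := by
        have e1 : (1 : ℝ) ≤ b := by exact_mod_cast hb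
        have e2 : (0 : ℝ) ≤ T := by positivity
        nlinarith
      have h4 : (1 : ℝ) ≤ (T + 1) * b * c / k := by
        rw [mul_div_assoc]
        exact one_le_mul_of_one_le_of_one_le h3 h2
      linarith
  · have hr : 1 ≤ k / c := (Nat.one_le_div_iff hc0).2 hge
    obtain ⟨m, e, b₀, hm1, hm2, hE, hb₀, hs⟩ := exists_system (100 * t) (by omega)
    obtain ⟨q, hq1, hq2, hq3⟩ := hU
    have hn : k ≤ n := le_unknowns q hq2 hq3
    have hroom : k / c * (256 * cdz t) ≤ k :=
      (Nat.mul_le_mul_left _ hroom0).trans (Nat.div_mul_le_self _ _)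
    have hm : m * 24 ≤ cdz t := by
      unfold cdz
      have e1 : (1000000 : ℕ) ≤ 2 ^ 192 := by norm_num
      calc m * 24 ≤ 2000 * (100 * t) * 24 := Nat.mul_le_mul_right _ hm2
        _ ≤ 4000 * (100 * t) * 1000000 := by nlinarith
        _ ≤ 4000 * (100 * t) * 2 ^ 192 := Nat.mul_le_mul_left _ e1
    obtain ⟨φ, f1, -, f3⟩ := glue_or (h := 24) (r := k / c) e b₀ U q hq1 hq2 hq3
      (by
        rw [card_bvar_eq]
        refine le_trans (Nat.mul_le_mul_left _ ?_) hroom
        omega)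
      (by
        rw [card_bvar_eq]
        refine le_trans (Nat.mul_le_mul_left _ ?_) (hroom.trans hn)
        omega)
    set cd := Fintype.card (Bvar (4000 * (100 * t)) 24) with hcd
    have hcdz : cd = cdz t := card_bvar_eq t
    have hcd1 : 1 ≤ cd := by
      rw [hcdz]
      exact cdz_pos ht
    have h5 : (0 : ℝ) < (1 / 2) ^ t := by positivity
    have h6 : ((1 / 2 : ℝ)) ^ t < 1 := pow_lt_one₀ (by norm_num) (by norm_num) (by omega)
    have hk1 : 1 ≤ 3 * cd * 4 ^ t := by
      have : 1 ≤ 4 ^ t := Nat.one_le_pow _ _ (by norm_num)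
      nlinarith
    obtain ⟨i, j, e1, e2, e3, e4⟩ := exists_levels hk1 hcd1
    obtain ⟨μ, m1, m2, m3, m4⟩ := average_queries_or (U := U) hr
      (incon (h := 24) e b₀) (incon_monotone e b₀) (fun x : Eq3 n → Bool => unsat x = true) φ f1
      f3 h5 h6 (3 * cd * 4 ^ t) (by
        have h7 : ((1 / 2 : ℝ) ^ t) ^ 2 = 1 / 4 ^ t := by
          rw [← pow_mul, mul_comm, pow_mul, show (1 / 2 : ℝ) ^ 2 = 1 / 4 by norm_num, one_div_pow]
        rw [h7]
        push_cast
        have h8 : (3 * (cd : ℝ) * 4 ^ t) * (1 / 4 ^ t) = 3 * (cd : ℝ) := by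
          field_simp
        rw [h8])
      {H | Decomp F (2 ^ (3 * t) * (cdz t + 1)) H}
      ⟨PW e 0, negIn e b₀ 0, incon_PW hb₀ 0, incon_negIn e b₀ 0⟩ (by
        intro L θ hL hLS hcon
        have h7 := decomp_amplify L θ hcon hLS i j (by rw [hL]; exact e1) e2
        have h8 := incon_lower F h2 hE b₀ hb₀ (by omega) hm1 hm2 h7
        have h11 := num_thr ht (hcdz.trans rfl) e3 e4
        rw [hcdz] at h11
        exact absurd (lt_of_le_of_lt h8 h11) (lt_irrefl _))
    refine ⟨μ, m1, m2, fun x x' hx hx' v hv => ?_, fun C ts T b A hC hA => ?_⟩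
    · obtain ⟨c', hc'⟩ := f1 v hv
      rw [m3 x hx v c' hc', m3 x' hx' v c' hc']
    · have h11 := m4 C ts T b A (fun H hH => hC H hH) hA
      refine (le_of_eq (sum_filter_iff' μ _ _ _ _ fun x => Iff.rfl)).trans (h11.trans ?_)
      have hr' : (0 : ℝ) < (k / c : ℕ) := by exact_mod_cast hr
      have h12 : (k : ℝ) ≤ 2 * c * (k / c : ℕ) := by
        have h2 : k < c * (k / c + 1) := Nat.lt_mul_div_succ k hc0
        rw [mul_add, mul_one] at h2
        have h3 : c ≤ c * (k / c) := Nat.le_mul_of_pos_right _ hr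
        have h4 : k ≤ 2 * c * (k / c) := by
          rw [mul_assoc]
          omega
        exact_mod_cast h4
      have h13 : ((T : ℝ) + 1) * b / (2 * (k / c : ℕ)) ≤ (T + 1) * b * c / k := by
        rw [div_le_div_iff₀ (by positivity) hk']
        have h6 : (0 : ℝ) ≤ (T + 1) * b := by positivity
        calc ((T : ℝ) + 1) * b * k ≤ (T + 1) * b * (2 * c * (k / c : ℕ)) :=
              mul_le_mul_of_nonneg_left h12 h6
          _ = (T + 1) * b * c * (2 * (k / c : ℕ)) := by ring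
      linarith

/-- The disjunctions of queries to switching networks. -/
theorem orSet_net_decomp (F : Type) [Field F] {t q S : ℕ} (hq : q * S ≤ 2 ^ t) {β : Type}
    [Fintype β] {H : (β → Bool) → Bool} (hH : H ∈ orSet (Gen.netClass S) β q) :
    Decomp F (2 ^ (3 * t) * (Fintype.card β + 1)) H := by
  have h1 := decomp_orSet (F := F) (C := Gen.netClass S) (T := S * S * (Fintype.card β + 1))
    (by
      rintro G ⟨N, hN⟩
      rw [show G = N.val from funext fun x => (hN x).symm]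
      exact decomp_of_net F N) hH
  refine decomp_le h1 ?_
  rcases Nat.eq_zero_or_pos q with rfl | hq0
  · simp
  · have h2 : S ≤ 2 ^ t := (Nat.le_mul_of_pos_left S hq0).trans hq
    calc q * (S * S * (Fintype.card β + 1)) = (q * S) * S * (Fintype.card β + 1) := by ring
      _ ≤ 2 ^ t * 2 ^ t * (Fintype.card β + 1) :=
          Nat.mul_le_mul_right _ (Nat.mul_le_mul hq h2)
      _ = 2 ^ (2 * t) * (Fintype.card β + 1) := by rw [← pow_add, two_mul]
      _ ≤ 2 ^ (3 * t) * (Fintype.card β + 1) :=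
          Nat.mul_le_mul_right _ (Nat.pow_le_pow_right (by norm_num) (by omega))

/-- The disjunctions of queries to directed networks. -/
theorem orSet_dnet_decomp (F : Type) [Field F] {s q S : ℕ} (hs : 1 ≤ s) (hq : q * S ≤ 2 ^ s)
    {β : Type} [Fintype β] {H : (β → Bool) → Bool} (hH : H ∈ orSet (Gen.dnetClass S) β q) :
    Decomp F (2 ^ (3 * s ^ 2) * (Fintype.card β + 1)) H := by
  rcases Nat.eq_zero_or_pos S with rfl | hS0
  · have h1 := decomp_orSet (F := F) (C := Gen.dnetClass 0) (T := 0) (by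
      rintro G ⟨N, -⟩
      exact N.src.elim0) hH
    exact decomp_le h1 (by simp)
  rcases Nat.eq_zero_or_pos q with rfl | hq0
  · have h1 := decomp_orSet (F := F) (C := Gen.dnetClass S)
      (T := 2 ^ (S * (S + 1)) * (Fintype.card β + 1)) (by
      rintro G ⟨N, hN⟩
      rw [show G = N.dval from funext fun x => (hN x).symm]
      exact decomp_of_dnet F (Nat.lt_two_pow_self).le N) hH
    exact decomp_le h1 (by simp)
  have h2 : S ≤ 2 ^ s := (Nat.le_mul_of_pos_left S hq0).trans hq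
  have h3 : q ≤ 2 ^ s := (Nat.le_mul_of_pos_right q hS0).trans hq
  have h1 := decomp_orSet (F := F) (C := Gen.dnetClass S)
    (T := 2 ^ (s * (s + 1)) * (Fintype.card β + 1)) (by
    rintro G ⟨N, hN⟩
    rw [show G = N.dval from funext fun x => (hN x).symm]
    exact decomp_of_dnet F h2 N) hH
  refine decomp_le h1 ?_
  have h4 : s + s * (s + 1) ≤ 3 * s ^ 2 := by nlinarith
  calc q * (2 ^ (s * (s + 1)) * (Fintype.card β + 1))
      ≤ 2 ^ s * (2 ^ (s * (s + 1)) * (Fintype.card β + 1)) := Nat.mul_le_mul_right _ h3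
    _ = 2 ^ (s + s * (s + 1)) * (Fintype.card β + 1) := by rw [pow_add, mul_assoc]
    _ ≤ 2 ^ (3 * s ^ 2) * (Fintype.card β + 1) :=
        Nat.mul_le_mul_right _ (Nat.pow_le_pow_right (by norm_num) h4)

open Classical in
/-- **Switching networks.** -/
theorem xor_average {s n k : ℕ} (hs : 1 ≤ s) (hk : 1 ≤ k) (U : Finset (Eq3 n))
    (hU : DisjointEqs k U) :
    ∃ μ : (Eq3 n → Bool) → ℝ, (∀ x, 0 ≤ μ x) ∧ ∑ x, μ x = 1 ∧
      (∀ x x', μ x ≠ 0 → μ x' ≠ 0 → ∀ v, v ∉ U → x v = x' v) ∧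
      ∀ (S : ℕ) (ts : List ℕ) (T b : ℕ) (A : (Eq3 n → Bool) → Bool),
        (ts.sum + T) * S ≤ 2 ^ s → Tries (Gen.netClass S) U ts T b A →
        ∑ x with (A x = true ↔ unsat x = true), μ x
          ≤ 1 / 2 + (1 / 2) ^ s + (T + 1) * b * (2 ^ 219 * s) / k := by
  obtain ⟨μ, m1, m2, m3, m4⟩ := xor_avg ℚ (by norm_num) hs hk U hU
  refine ⟨μ, m1, m2, m3, fun S ts T b A hS hA => m4 _ ts T b A (fun H hH => ?_) hA⟩
  have h1 := orSet_net_decomp ℚ hS hH
  rw [card_bvar_eq] at h1
  exact h1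

open Classical in
/-- **Directed networks.** -/
theorem xor_average_d {s n k : ℕ} (hs : 1 ≤ s) (hk : 1 ≤ k) (U : Finset (Eq3 n))
    (hU : DisjointEqs k U) :
    ∃ μ : (Eq3 n → Bool) → ℝ, (∀ x, 0 ≤ μ x) ∧ ∑ x, μ x = 1 ∧
      (∀ x x', μ x ≠ 0 → μ x' ≠ 0 → ∀ v, v ∉ U → x v = x' v) ∧
      ∀ (S : ℕ) (ts : List ℕ) (T b : ℕ) (A : (Eq3 n → Bool) → Bool),
        (ts.sum + T) * S ≤ 2 ^ s → Tries (Gen.dnetClass S) U ts T b A →
        ∑ x with (A x = true ↔ unsat x = true), μ x
          ≤ 1 / 2 + (1 / 2) ^ s + (T + 1) * b * (2 ^ 219 * s ^ 2) / k := by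
  have hs2 : 1 ≤ s ^ 2 := Nat.one_le_pow _ _ hs
  obtain ⟨μ, m1, m2, m3, m4⟩ := xor_avg ℚ (by norm_num) hs2 hk U hU
  refine ⟨μ, m1, m2, m3, fun S ts T b A hS hA => ?_⟩
  have h2 := m4 (Gen.dnetClass S) ts T b A (fun H hH => ?_) hA
  · refine h2.trans ?_
    have h3 : ((1 : ℝ) / 2) ^ s ^ 2 ≤ (1 / 2) ^ s :=
      pow_le_pow_of_le_one (by norm_num) (by norm_num) (by nlinarith)
    have h4 : ((s ^ 2 : ℕ) : ℝ) = (s : ℝ) ^ 2 := by rw [Nat.cast_pow]
    rw [h4]
    linarith
  · have h1 := orSet_dnet_decomp ℚ hs hS hH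
    rw [card_bvar_eq] at h1
    exact h1

end Pool.Agent.XL
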