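import Pool.Agent.XL.GlueOr

set_option autoImplicit false

/-!
# XL/GlueP : the gluing for equations with private unknowns

`U` contains equations `e 0, …, e (K - 1)`, and the unknown `a i` occurs in `e i` and in no other `e j`. Then every
family of at most `K` linear equations is the restriction to `U` of the inconsistency of systems of equations with at
most three unknowns.
-/

namespace Pool.Agent.XL

open Finset

section core

variable {ι Y : Type} {M w : ℕ}

theorem glue_core_p (slot : ι → Fin w → Option Y) (c : ι → Bool) (ε : ι → Eq3 M) (a : ι → Fin M)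
    (t : ι → Fin (w + 1) → Fin M) (yy : Y → Fin M)
    (ha : ∀ i, a i ∈ (ε i).1.1)
    (hpriv : ∀ i i', i ≠ i' → a i' ∉ (ε i).1.1)
    (ht : ∀ i p i' p', t i p = t i' p' → i = i' ∧ p = p')
    (hyy : Function.Injective yy) (hty : ∀ i p j, t i p ≠ yy j)
    (hte : ∀ i p i', t i p ∉ (ε i').1.1) (hye : ∀ j i, yy j ∉ (ε i).1.1) (z : ι → Bool) :
    (∃ f : Fin M → ZMod 2, (∀ q, Cst slot c ε a t yy q → Sat f q) ∧ ∀ i, z i = true → Sat f (ε i)) ↔
      ∃ y : Y → ZMod 2, ∀ i, z i = true → ∑ p, sv y (slot i p) = bt (c i) := by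
  classical
  have hat : ∀ i i' p, a i ≠ t i' p := fun i i' p h => hte i' p i (h ▸ ha i)
  have hay : ∀ i j, a i ≠ yy j := fun i j h => hye j i (h ▸ ha i)
  have hainj : Function.Injective a := by
    intro i i' h
    by_contra hne
    exact hpriv i i' hne (h ▸ ha i)
  constructor
  · rintro ⟨f, hC, hE⟩
    refine ⟨fun j => f (yy j), fun i hi => ?_⟩
    -- partial sums
    have hpart : ∀ p : ℕ, ∀ hp : p ≤ w, f (t i ⟨p, Nat.lt_succ_of_le hp⟩) =
        ∑ q ∈ Finset.range p, if h : q < w then sv (fun j => f (yy j)) (slot i ⟨q, h⟩) else 0 := by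
      intro p
      induction p with
      | zero =>
        intro hp
        have h := hC (⟨⟨{t i 0}, by simp⟩, false⟩ : Eq3 M) (Or.inr (Or.inl ⟨i, rfl, rfl⟩))
        simpa [Sat, bt] using h
      | succ p ih =>
        intro hp
        have hp' : p < w := hp
        rw [Finset.sum_range_succ, ← ih hp'.le, dif_pos hp']
        rcases hs : slot i ⟨p, hp'⟩ with _ | j
        · have h := hC (⟨⟨{t i (Fin.succ ⟨p, hp'⟩), t i (Fin.castSucc ⟨p, hp'⟩)},
            Finset.card_le_two.trans (by norm_num)⟩, false⟩ : Eq3 M)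
            (Or.inr (Or.inr (Or.inr (Or.inl ⟨i, ⟨p, hp'⟩, hs, rfl, rfl⟩))))
          have hne : t i (Fin.succ ⟨p, hp'⟩) ≠ t i (Fin.castSucc ⟨p, hp'⟩) := by
            intro h'
            have := (ht _ _ _ _ h').2
            simp [Fin.ext_iff] at this
          simp only [Sat, bt, Finset.sum_pair hne] at h
          have h2 : f (t i (Fin.succ ⟨p, hp'⟩)) = f (t i (Fin.castSucc ⟨p, hp'⟩)) := by
            rw [← sub_eq_zero, CharTwo.sub_eq_add]; simpa using h
          simp only [sv, Option.elim, add_zero]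
          exact h2
        · have h := hC (⟨⟨{t i (Fin.succ ⟨p, hp'⟩), t i (Fin.castSucc ⟨p, hp'⟩), yy j},
            Finset.card_le_three⟩, false⟩ : Eq3 M)
            (Or.inr (Or.inr (Or.inl ⟨i, ⟨p, hp'⟩, j, hs, rfl, rfl⟩)))
          have hne : t i (Fin.succ ⟨p, hp'⟩) ≠ t i (Fin.castSucc ⟨p, hp'⟩) := by
            intro h'
            have := (ht _ _ _ _ h').2
            simp [Fin.ext_iff] at this
          have hne1 := hty i (Fin.succ ⟨p, hp'⟩) j
          have hne2 := hty i (Fin.castSucc ⟨p, hp'⟩) j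
          simp only [Sat, bt] at h
          rw [Finset.sum_insert (by
            rw [Finset.mem_insert, Finset.mem_singleton]; exact not_or.mpr ⟨hne, hne1⟩),
            Finset.sum_pair hne2] at h
          have h2 : f (t i (Fin.succ ⟨p, hp'⟩)) = f (t i (Fin.castSucc ⟨p, hp'⟩)) + f (yy j) := by
            rw [← sub_eq_zero, CharTwo.sub_eq_add]; simpa using h
          simp only [sv, Option.elim]
          exact h2
    have hlast := hpart w le_rfl
    have hsum : ∑ p, sv (fun j => f (yy j)) (slot i p) = f (t i (Fin.last w)) := by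
      have e1 : (⟨w, Nat.lt_succ_of_le le_rfl⟩ : Fin (w + 1)) = Fin.last w := rfl
      rw [← e1, hlast, Finset.sum_range]
      exact Finset.sum_congr rfl fun p _ => by rw [dif_pos p.2]
    rw [hsum]
    -- the tie
    have h1 := hC (⟨⟨{a i, t i (Fin.last w)}, Finset.card_le_two.trans (by norm_num)⟩, xor (ε i).2 (c i)⟩ : Eq3 M)
      (Or.inr (Or.inr (Or.inr (Or.inr ⟨i, rfl, rfl⟩))))
    simp only [Sat, Finset.sum_pair (hat i i (Fin.last w)), bt_xor] at h1
    have h2 := hE i hi
    have h3 : ∑ b ∈ (ε i).1.1, f b = f (a i) := by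
      rw [← Finset.sum_erase_add _ _ (ha i)]
      have : ∑ b ∈ (ε i).1.1.erase (a i), f b = 0 := by
        apply Finset.sum_eq_zero
        intro b hb
        rw [Finset.mem_erase] at hb
        have h := hC (⟨⟨{b}, by simp⟩, false⟩ : Eq3 M) (Or.inl ⟨i, b, hb.2, hb.1, rfl, rfl⟩)
        simpa [Sat, bt] using h
      rw [this, zero_add]
    simp only [Sat] at h2
    rw [h3] at h2
    rw [h2] at h1
    exact add_left_cancel h1
  · rintro ⟨y, hy⟩
    set S : ι → ℕ → ZMod 2 := fun i p => ∑ q ∈ Finset.range p,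
      if h : q < w then sv y (slot i ⟨q, h⟩) else 0 with hS
    set g : Y ⊕ ((ι × Fin (w + 1)) ⊕ ι) → Fin M :=
      Sum.elim yy (Sum.elim (fun ip => t ip.1 ip.2) a) with hg
    set vals : Y ⊕ ((ι × Fin (w + 1)) ⊕ ι) → ZMod 2 :=
      Sum.elim y (Sum.elim (fun ip => S ip.1 ip.2) (fun i => bt (ε i).2 + bt (c i) + S i w)) with hvals
    have hginj : Function.Injective g := by
      rintro (j | ip | i) (j' | ip' | i') h
      · exact congrArg _ (hyy h)
      · exact absurd h.symm (hty _ _ _)
      · exact absurd h.symm (hay _ _)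
      · exact absurd h (hty _ _ _)
      · obtain ⟨h1, h2⟩ := ht _ _ _ _ h
        exact congrArg _ (congrArg _ (Prod.ext h1 h2))
      · exact absurd h.symm (hat _ _ _)
      · exact absurd h (hay _ _)
      · exact absurd h (hat _ _ _)
      · exact congrArg _ (congrArg _ (hainj h))
    set f : Fin M → ZMod 2 := Function.extend g vals (fun _ => 0) with hf
    have fy : ∀ j, f (yy j) = y j := fun j => hginj.extend_apply vals _ (Sum.inl j)
    have ft : ∀ i p, f (t i p) = S i p := fun i p => hginj.extend_apply vals _ (Sum.inr (Sum.inl (i, p)))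
    have fa : ∀ i, f (a i) = bt (ε i).2 + bt (c i) + S i w :=
      fun i => hginj.extend_apply vals _ (Sum.inr (Sum.inr i))
    have f0 : ∀ i b, b ∈ (ε i).1.1 → b ≠ a i → f b = 0 := by
      intro i b hb hne
      refine Function.extend_apply' vals _ b ?_
      rintro ⟨(j | ip | i'), hx⟩
      · exact hye j i (by rw [show yy j = b from hx]; exact hb)
      · exact hte ip.1 ip.2 i (by rw [show t ip.1 ip.2 = b from hx]; exact hb)
      · have hx' : a i' = b := hx
        by_cases hii : i = i'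
        · subst hii; exact hne hx'.symm
        · exact hpriv i i' hii (by rw [hx']; exact hb)
    have hSs : ∀ i (p : Fin w), S i (p.succ : Fin (w + 1)) = S i (p.castSucc : Fin (w + 1)) + sv y (slot i p) := by
      intro i p
      simp only [hS, Fin.val_succ, Fin.val_castSucc]
      rw [Finset.sum_range_succ, dif_pos p.2]
    have hSw : ∀ i, S i w = ∑ p, sv y (slot i p) := by
      intro i
      simp only [hS]
      rw [Finset.sum_range]
      exact Finset.sum_congr rfl fun p _ => by rw [dif_pos p.2]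
    refine ⟨f, ?_, ?_⟩
    · rintro q (⟨i, b, hb, hne, hq, hq2⟩ | ⟨i, hq, hq2⟩ | ⟨i, p, j, hs, hq, hq2⟩ | ⟨i, p, hs, hq, hq2⟩ | ⟨i, hq, hq2⟩)
      · rw [Sat, hq, hq2, Finset.sum_singleton, f0 i b hb hne]; rfl
      · rw [Sat, hq, hq2, Finset.sum_singleton, ft]; simp [hS, bt]
      · have hne : t i p.succ ≠ t i p.castSucc := by
          intro h'
          have := (ht _ _ _ _ h').2
          simp [Fin.ext_iff] at this
        rw [Sat, hq, hq2, Finset.sum_insert (by simp [hne, hty]), Finset.sum_pair (hty _ _ _), ft, ft, fy, hSs, hs]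
        simp only [sv, Option.elim, bt]
        rw [zmod2_add_self]; simp
      · have hne : t i p.succ ≠ t i p.castSucc := by
          intro h'
          have := (ht _ _ _ _ h').2
          simp [Fin.ext_iff] at this
        rw [Sat, hq, hq2, Finset.sum_pair hne, ft, ft, hSs, hs]
        simp only [sv, Option.elim, bt, add_zero]
        rw [zmod2_add_self]; simp
      · rw [Sat, hq, hq2, Finset.sum_pair (hat _ _ _), fa, ft, bt_xor]
        simp only [Fin.val_last]
        rw [add_assoc, zmod2_add_self, add_zero]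
    · intro i hi
      rw [Sat, ← Finset.sum_erase_add _ _ (ha i), Finset.sum_eq_zero, zero_add, fa, hSw, hy i hi, add_assoc,
        zmod2_add_self, add_zero]
      intro b hb
      rw [Finset.mem_erase] at hb
      exact f0 i b hb.2 hb.1


end core

/-- **Gluing with private unknowns**: `a₀ i` occurs in the equation `e i` and in no other `e j`. -/
theorem glue_gen_p {ι Y : Type} [Fintype ι] [Fintype Y] {M K w : ℕ} (slot : ι → Fin w → Option Y)
    (c : ι → Bool) (U : Finset (Eq3 M)) (e : Fin K → Eq3 M)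
    (heU : ∀ i, e i ∈ U) (a₀ : Fin K → Fin M) (ha₀ : ∀ i, a₀ i ∈ (e i).1.1)
    (hp₀ : ∀ i j, i ≠ j → a₀ j ∉ (e i).1.1)
    (hK : Fintype.card ι ≤ K) (hM : (w + 4) * Fintype.card ι + Fintype.card Y ≤ M) :
    ∃ φ : Eq3 M → ι ⊕ Bool, (∀ e, e ∉ U → ∃ c, φ e = .inr c) ∧ (∀ i, ∃ v, φ v = .inl i) ∧
      ∀ z : ι → Bool, unsat (fun e => Sum.elim z id (φ e)) = true ↔
        ¬ ∃ y : Y → ZMod 2, ∀ i, z i = true → ∑ p, sv y (slot i p) = bt (c i) := by
  classical
  obtain ⟨κ⟩ : Nonempty (ι ↪ Fin K) := by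
    apply Function.Embedding.nonempty_of_card_le
    rw [Fintype.card_fin]; exact hK
  set ε : ι → Eq3 M := fun i => e (κ i) with hε
  set a : ι → Fin M := fun i => a₀ (κ i) with hadef
  have ha : ∀ i, a i ∈ (ε i).1.1 := fun i => ha₀ (κ i)
  have hεd : ∀ i i', i ≠ i' → a i' ∉ (ε i).1.1 :=
    fun i i' h => hp₀ _ _ (fun h' => h (κ.injective h'))
  set E : Finset (Fin M) := Finset.univ.biUnion fun i => (ε i).1.1 with hE
  have hEc : E.card ≤ 3 * Fintype.card ι := by
    refine (Finset.card_biUnion_le_card_mul _ _ 3 fun i _ => (ε i).1.2).trans ?_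
    rw [Finset.card_univ, mul_comm]
  have hcompl : Fintype.card ((ι × Fin (w + 1)) ⊕ Y) ≤ Fintype.card {m // m ∈ Eᶜ} := by
    rw [Fintype.card_coe, Finset.card_compl, Fintype.card_sum, Fintype.card_prod, Fintype.card_fin, Fintype.card_fin]
    have : (w + 4) * Fintype.card ι = Fintype.card ι * (w + 1) + 3 * Fintype.card ι := by ring
    omega
  obtain ⟨τ⟩ : Nonempty (((ι × Fin (w + 1)) ⊕ Y) ↪ {m // m ∈ Eᶜ}) :=
    Function.Embedding.nonempty_of_card_le hcompl
  set t : ι → Fin (w + 1) → Fin M := fun i p => (τ (Sum.inl (i, p))).1 with ht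
  set yy : Y → Fin M := fun j => (τ (Sum.inr j)).1 with hyy
  have hnot : ∀ x i, (τ x).1 ∉ (ε i).1.1 := by
    intro x i h
    exact (Finset.mem_compl.mp (τ x).2) (Finset.mem_biUnion.mpr ⟨i, Finset.mem_univ _, h⟩)
  have htinj : ∀ i p i' p', t i p = t i' p' → i = i' ∧ p = p' := by
    intro i p i' p' h
    have := τ.injective (Subtype.ext h)
    simpa using this
  have hyinj : Function.Injective yy := by
    intro j j' h
    have := τ.injective (Subtype.ext h)
    simpa using this
  have hty : ∀ i p j, t i p ≠ yy j := by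
    intro i p j h
    have := τ.injective (Subtype.ext h)
    simp at this
  have hεinj : Function.Injective ε := by
    intro i i' h
    by_contra hne'
    exact hεd i i' hne' (by rw [h]; exact ha i')
  -- the constants are no `ε i`
  have hCne : ∀ q, Cst slot c ε a t yy q → ∀ i, q ≠ ε i := by
    rintro q hq i rfl
    rcases hq with (⟨i', b, hb, hne', hq, -⟩ | ⟨i', hq, -⟩ | ⟨i', p, j, -, hq, -⟩ | ⟨i', p, -, hq, -⟩ | ⟨i', hq, -⟩)
    · have hab : a i = b := by
        have := ha i
        rw [hq, Finset.mem_singleton] at this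
        exact this
      by_cases hii : i' = i
      · subst hii
        exact hne' hab.symm
      · exact hεd i' i hii (by rw [hab]; exact hb)
    · exact hnot (Sum.inl (i', 0)) i (by rw [hq]; simp [ht])
    · exact hnot (Sum.inl (i', p.succ)) i (by rw [hq]; simp [ht])
    · exact hnot (Sum.inl (i', p.succ)) i (by rw [hq]; simp [ht])
    · exact hnot (Sum.inl (i', Fin.last w)) i (by rw [hq]; simp [ht])
  set φ : Eq3 M → ι ⊕ Bool := fun q => if h : ∃ i, q = ε i then Sum.inl h.choose
    else Sum.inr (decide (Cst slot c ε a t yy q)) with hφ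
  have hφε : ∀ i, φ (ε i) = Sum.inl i := by
    intro i
    have h : ∃ i', ε i = ε i' := ⟨i, rfl⟩
    simp only [hφ]
    rw [dif_pos h]
    exact congrArg _ (hεinj h.choose_spec).symm
  have hφC : ∀ q, (¬ ∃ i, q = ε i) → φ q = Sum.inr (decide (Cst slot c ε a t yy q)) := by
    intro q h
    simp only [hφ]
    rw [dif_neg h]
  refine ⟨φ, ?_, fun i => ⟨ε i, hφε i⟩, ?_⟩
  · intro q hq
    refine ⟨_, hφC q ?_⟩
    rintro ⟨i, rfl⟩
    exact hq (heU _)
  · intro z
    rw [unsat, decide_eq_true_iff, not_iff_not,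
      ← glue_core_p slot c ε a t yy ha hεd htinj hyinj hty (fun i p i' => hnot _ i') (fun j i => hnot _ i) z]
    constructor
    · rintro ⟨f, hf⟩
      refine ⟨f, fun q hq => ?_, fun i hi => ?_⟩
      · refine hf q ?_
        rw [hφC q (fun ⟨i, hi⟩ => hCne q hq i hi)]
        simpa using hq
      · refine hf (ε i) ?_
        rw [hφε]
        simpa using hi
    · rintro ⟨f, hf1, hf2⟩
      refine ⟨f, fun q hq => ?_⟩
      by_cases h : ∃ i, q = ε i
      · obtain ⟨i, rfl⟩ := h
        rw [hφε] at hq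
        exact hf2 i (by simpa using hq)
      · rw [hφC q h] at hq
        exact hf1 q (by simpa using hq)

/-- **Gluing of the block**, equations with private unknowns. -/
theorem glue_p {M m h n K : ℕ} (e : Fin M → Fin 8 → Fin m) (b : Fin M → ZMod 2)
    (U : Finset (Eq3 n)) (q : Fin K → Eq3 n) (hU : ∀ i, q i ∈ U) (a : Fin K → Fin n)
    (ha : ∀ i, a i ∈ (q i).1.1) (hp : ∀ i j, i ≠ j → a j ∉ (q i).1.1) (hK : Fintype.card (Bvar M h) ≤ K)
    (hn : m * h + (8 * h + 6) * Fintype.card (Bvar M h) ≤ n) :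
    ∃ φ : Eq3 n → Bvar M h ⊕ Bool, (∀ v, v ∉ U → ∃ c, φ v = .inr c) ∧
      (∀ β, ∃ v, φ v = .inl β) ∧ ∀ u, unsat (fun v => Sum.elim u id (φ v)) = incon e b u := by
  classical
  obtain ⟨φ, h1, h0, h2⟩ := glue_gen_p (ι := Bvar M h) (Y := Fin m × Fin h) (w := 8 * h)
    (fun v p => if v.2 (finProdFinEquiv.symm p).1 (finProdFinEquiv.symm p).2 = 0 then none
      else some (e v.1 (finProdFinEquiv.symm p).1, (finProdFinEquiv.symm p).2))
    (fun v => decide (b v.1 = 1)) U q hU a ha hp hK (by
      rw [Fintype.card_prod (Fin m) (Fin h), Fintype.card_fin, Fintype.card_fin]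
      nlinarith [Nat.zero_le (Fintype.card (Bvar M h))])
  refine ⟨φ, h1, h0, fun u => ?_⟩
  rw [Bool.eq_iff_iff, h2 u, incon, decide_eq_true_iff, not_iff_not]
  have key : ∀ (v : Bvar M h) (y : Fin m × Fin h → ZMod 2),
      (∑ p : Fin (8 * h), sv y (if v.2 (finProdFinEquiv.symm p).1 (finProdFinEquiv.symm p).2 = 0 then none
      else some (e v.1 (finProdFinEquiv.symm p).1, (finProdFinEquiv.symm p).2)) = bt (decide (b v.1 = 1))) ↔
      b v.1 + ∑ c, ∑ t, v.2 c t * y (e v.1 c, t) = 0 := by
    intro v y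
    rw [bt_decide]
    have : ∑ p : Fin (8 * h), sv y (if v.2 (finProdFinEquiv.symm p).1 (finProdFinEquiv.symm p).2 = 0 then none
      else some (e v.1 (finProdFinEquiv.symm p).1, (finProdFinEquiv.symm p).2))
      = ∑ c, ∑ t, v.2 c t * y (e v.1 c, t) := by
      rw [← Fintype.sum_prod_type' (fun c t => v.2 c t * y (e v.1 c, t)),
        ← Equiv.sum_comp (finProdFinEquiv (m := 8) (n := h)).symm]
      refine Finset.sum_congr rfl fun p _ => ?_
      rw [← ite_mul_zmod2]
      split_ifs <;> rfl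
    rw [this]
    constructor
    · intro h; rw [h]; exact CharTwo.add_self_eq_zero _
    · intro h
      rw [← sub_eq_zero, CharTwo.sub_eq_add, add_comm]
      exact h
  constructor
  · rintro ⟨y, hy⟩
    exact ⟨fun j t => y (j, t), fun v hv => (key v y).mp (hy v hv)⟩
  · rintro ⟨x, hx⟩
    exact ⟨fun jt => x jt.1 jt.2, fun v hv => (key v _).mpr (hx v hv)⟩

/-- **Gluing of `r` blocks**, equations with private unknowns. -/
theorem glue_or_p {M m h n K r : ℕ} (e : Fin M → Fin 8 → Fin m) (b : Fin M → ZMod 2)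
    (U : Finset (Eq3 n)) (q : Fin K → Eq3 n) (hU : ∀ i, q i ∈ U) (a : Fin K → Fin n)
    (ha : ∀ i, a i ∈ (q i).1.1) (hp : ∀ i j, i ≠ j → a j ∉ (q i).1.1) (hK : r * Fintype.card (Bvar M h) ≤ K)
    (hn : r * (m * h + (8 * h + 6) * Fintype.card (Bvar M h)) ≤ n) :
    ∃ φ : Eq3 n → (Fin r × Bvar M h) ⊕ Bool, (∀ v, v ∉ U → ∃ c, φ v = .inr c) ∧
      (∀ β, ∃ v, φ v = .inl β) ∧
      ∀ u, unsat (fun v => Sum.elim u id (φ v)) = true ↔ ∃ i, incon e b (fun β => u (i, β)) = true := by
  classical
  obtain ⟨φ, h1, h0, h2⟩ := glue_gen_p (ι := Fin r × Bvar M h) (Y := Fin r × (Fin m × Fin h)) (w := 8 * h)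
    (fun v p => (slotB e v.2 p).map fun j => (v.1, j))
    (fun v => decide (b v.2.1 = 1)) U q hU a ha hp
    (by rw [Fintype.card_prod (Fin r), Fintype.card_fin]; exact hK) (by
      rw [Fintype.card_prod (Fin r) (Bvar M h), Fintype.card_prod (Fin r) (Fin m × Fin h),
        Fintype.card_prod (Fin m) (Fin h), Fintype.card_fin, Fintype.card_fin, Fintype.card_fin]
      refine le_trans (le_of_eq ?_) ((Nat.mul_le_mul_left r
        (Nat.add_le_add_left (Nat.mul_le_mul_right (Fintype.card (Bvar M h))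
          (by omega : 8 * h + 4 ≤ 8 * h + 6)) (m * h))).trans hn)
      ring)
  refine ⟨φ, h1, h0, fun u => ?_⟩
  rw [h2 u]
  have key : ∀ (v : Fin r × Bvar M h) (y : Fin r × (Fin m × Fin h) → ZMod 2),
      (∑ p : Fin (8 * h), sv y ((slotB e v.2 p).map fun j => (v.1, j)) = bt (decide (b v.2.1 = 1))) ↔
      b v.2.1 + ∑ c, ∑ t, v.2.2 c t * y (v.1, (e v.2.1 c, t)) = 0 := by
    intro v y
    rw [← holds_iff e b v.2 (fun j => y (v.1, j))]
    simp only [sv_map]
  constructor
  · intro hno
    by_contra hcon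
    push Not at hcon
    apply hno
    have hx : ∀ i : Fin r, ∃ x : Fin m → Fin h → ZMod 2, ∀ β : Bvar M h, u (i, β) = true →
        b β.1 + ∑ c, ∑ t, β.2 c t * x (e β.1 c) t = 0 := by
      intro i
      have := hcon i
      rw [incon, ne_eq, decide_eq_true_iff, not_not] at this
      exact this
    choose x hx using hx
    exact ⟨fun j => x j.1 j.2.1 j.2.2, fun v hv => (key v _).mpr (hx v.1 v.2 hv)⟩
  · rintro ⟨i, hi⟩ ⟨y, hy⟩
    rw [incon, decide_eq_true_iff] at hi
    exact hi ⟨fun j t => y (i, (j, t)), fun β hβ => (key (i, β) y).mp (hy (i, β) hβ)⟩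

end Pool.Agent.XL
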