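import Pool.Agent.XL.RankF

set_option autoImplicit false

/-!
# Functions below `incon` with a small rank measure accept few positive inputs
-/

namespace Pool.Agent.XL

open Finset
open scoped BigOperators

theorem few_rk {F : Type} [Field F] (h2 : (2 : F) ≠ 0) {M m h d : ℕ} {e : Fin M → Fin 8 → Fin m}
    (hE : Expand d e) (b : Fin M → ZMod 2) (R : Finset (Fin m → Fin h → ZMod 2))
    (hR : ∀ W ∈ R, ∀ j, W j ≠ 0) {G : (Bvar M h → Bool) → Bool}
    (hle : ∀ u, G u = true → incon e b u = true) :
    ((R.filter fun W => G (PW e W) = true).card : ℤ) ≤ rkF F d e b R G := by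
  classical
  have hne : (2 : F) ^ (h * m) ≠ 0 := pow_ne_zero _ h2
  have hneg : ∀ x, G (negIn e b x) = false := by
    intro x
    by_contra hcon
    have h3 := hle _ (by simpa using hcon)
    rw [incon_negIn] at h3
    exact absurd h3 (by simp)
  have htop : rkSp (fun (x : Fin m → Fin h → ZMod 2) (W : ↥R) => mat F d e b W.1 x)
    (fun W : ↥R => G (PW e W.1)) (fun x => G (negIn e b x)) = ⊤ := by
    set P := rkSp (fun (x : Fin m → Fin h → ZMod 2) (W : ↥R) => mat F d e b W.1 x)
      (fun W : ↥R => G (PW e W.1)) (fun x => G (negIn e b x)) with hP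
    have hcol : ∀ x, (fun W : ↥R => mat F d e b W.1 x) ∈ P := fun x =>
      Submodule.subset_span (Or.inl ⟨x, hneg x, rfl⟩)
    have hsingle : ∀ V : ↥R, (Pi.single V (1 : F) : ↥R → F) ∈ P := by
      intro V
      have e1 : ((2 : F) ^ (h * m)) • (Pi.single V (1 : F) : ↥R → F) =
          ∑ x : Fin m → Fin h → ZMod 2, chi F (∑ j, ip V.1 x j) •
            (fun W : ↥R => mat F d e b W.1 x) := by
        funext W
        rw [Finset.sum_apply]
        simp only [Pi.smul_apply, smul_eq_mul]
        have e2 := mat_mul F hE b W.1 V.1 (hR V.1 V.2)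
        simp only [mul_comm (chi F _)]
        rw [e2]
        by_cases hWV : W = V
        · subst hWV; simp
        · have hWV' : W.1 ≠ V.1 := fun hh => hWV (Subtype.ext hh)
          rw [Pi.single_eq_of_ne hWV, if_neg hWV', mul_zero]
      have e3 : ((2 : F) ^ (h * m)) • (Pi.single V (1 : F) : ↥R → F) ∈ P := by
        rw [e1]
        exact Submodule.sum_mem _ fun x _ => Submodule.smul_mem _ _ (hcol x)
      exact (Submodule.smul_mem_iff _ hne).1 e3
    rw [eq_top_iff, ← (Pi.basisFun F ↥R).span_eq, Submodule.span_le]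
    rintro v ⟨V, rfl⟩
    have := hsingle V
    simpa using this
  unfold rkF rk
  rw [htop, finrank_top, Module.finrank_fintype_fun_eq_card, Fintype.card_coe]
  have h3 : (R.filter fun W => G (PW e W) = true).card +
      (univ.filter fun W : ↥R => G (PW e W.1) = false).card = R.card := by
    have h4 : (univ.filter fun W : ↥R => G (PW e W.1) = false).card =
        (R.filter fun W => ¬ G (PW e W) = true).card := by
      rw [← Finset.card_map ⟨Subtype.val, Subtype.val_injective⟩]
      congr 1
      ext W
      simp only [Finset.mem_map, Finset.mem_filter, Finset.mem_univ, true_and,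
        Function.Embedding.coeFn_mk, Subtype.exists, exists_and_left, exists_prop, exists_eq_right_right,
        Bool.not_eq_true]
      tauto
    rw [h4]
    exact Finset.card_filter_add_card_filter_not _
  have h5 : ((R.filter fun W => G (PW e W) = true).card : ℤ) +
      (univ.filter fun W : ↥R => G (PW e W.1) = false).card = R.card := by exact_mod_cast h3
  linarith

theorem few_num_comp {d m : ℕ} {e : Fin (4000 * d) → Fin 8 → Fin m} (hE : Expand d e)
    (b : Fin (4000 * d) → ZMod 2) (hd : 1 ≤ d) (hm1 : 2 * d ≤ m) (hm2 : m ≤ 2000 * d) {S : ℕ}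
    (P : CompCirc (Bvar (4000 * d) 24) S) (hle : ∀ u, P.val u = true → incon e b u = true) :
    2 ^ (22 * d) * (univ.filter fun W : Fin m → Fin 24 → ZMod 2 =>
      (∀ j, W j ≠ 0) ∧ P.val (PW e W) = true).card ≤ S * (2 ^ 24 - 1) ^ m := by
  classical
  set R := univ.filter fun W : Fin m → Fin 24 → ZMod 2 => ∀ j, W j ≠ 0 with hR
  have h1 := few_rk (F := ℚ) (by norm_num) hE b R (fun W hW => (Finset.mem_filter.1 hW).2) hle
  have h2 := rkF_comp (F := ℚ) (d := d) b R hE (by omega) P
  have h3 : (R.filter fun W => P.val (PW e W) = true).card ≤ S * rowK (4000 * d) m 24 d := by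
    exact_mod_cast h1.trans h2
  have h4 : (TT d (4000 * d)).card ≤ 6000 ^ (2 * d) := card_small2 d
  have h5 : (univ.filter fun W : Fin m → Fin 24 → ZMod 2 =>
      (∀ j, W j ≠ 0) ∧ P.val (PW e W) = true) = R.filter fun W => P.val (PW e W) = true := by
    rw [hR, Finset.filter_filter]
  rw [h5]
  calc 2 ^ (22 * d) * (R.filter fun W => P.val (PW e W) = true).card
      ≤ 2 ^ (22 * d) * (S * (6000 ^ (2 * d) * 2 ^ (24 * (m - 2 * d)))) := by
        apply Nat.mul_le_mul_left
        refine h3.trans (Nat.mul_le_mul_left _ ?_)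
        exact Nat.mul_le_mul_right _ h4
    _ = S * (2 ^ (22 * d) * (6000 ^ (2 * d) * 2 ^ (24 * (m - 2 * d)))) := by ring
    _ ≤ S * (2 ^ 24 - 1) ^ m := Nat.mul_le_mul_left _ (num_aux d m hm1 hm2)

end Pool.Agent.XL
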