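import Pool.Agent.XL.Exp

/-!
# The numbers of the counting argument
-/

namespace Pool.Agent.XL

open Finset

/-- `2^(10 d) (2^24 - 1)^(2000 d)` is at least `2^(48000 d)`. -/
theorem pow_gap (d : ℕ) :
    2 ^ (48000 * d) ≤ 2 ^ (10 * d) * (2 ^ 24 - 1) ^ (2000 * d) := by
  have key : (2 ^ 24) ^ 200 ≤ 2 * (2 ^ 24 - 1) ^ 200 := by norm_num
  have h := Nat.pow_le_pow_left key (10 * d)
  have h1 : ((2 ^ 24) ^ 200) ^ (10 * d) = 2 ^ (48000 * d) := by
    rw [← pow_mul, ← pow_mul]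
    congr 1
    ring
  have h2 : (2 * (2 ^ 24 - 1) ^ 200) ^ (10 * d) = 2 ^ (10 * d) * (2 ^ 24 - 1) ^ (2000 * d) := by
    rw [mul_pow, ← pow_mul]
    congr 2
    ring
  rw [h1, h2] at h
  exact h

/-- The size of a switching network for the negations: `2^s * 2^s * (n + 1)` is at most
`2^(4 d)`. -/
theorem size_bound {d s n S : ℕ} (hd : 1000 ≤ d) (hs : s ≤ d) (hn : n ≤ 4000 * d * 2 ^ 192)
    (hS : S ≤ 2 ^ s * 2 ^ s * (n + 1)) : S ≤ 2 ^ (4 * d) := by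
  have h1 : n + 1 ≤ 2 ^ 204 * d := by
    have h2 : (2 : ℕ) ^ 204 = 4096 * 2 ^ 192 := by norm_num
    have h3 : 4000 * d * 2 ^ 192 + 1 ≤ 4096 * 2 ^ 192 * d := by
      have h4 : 1 ≤ 96 * d * 2 ^ 192 := by
        have : 1 ≤ d := by omega
        exact Nat.mul_pos (by omega) (by positivity)
      calc 4000 * d * 2 ^ 192 + 1 ≤ 4000 * d * 2 ^ 192 + 96 * d * 2 ^ 192 := by omega
        _ = 4096 * 2 ^ 192 * d := by ring
    rw [h2]
    omega
  have h5 : 2 ^ s ≤ 2 ^ d := Nat.pow_le_pow_right (by norm_num) hs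
  have h6 : (2 : ℕ) ^ 204 ≤ 2 ^ d := Nat.pow_le_pow_right (by norm_num) (by omega)
  have h7 : d ≤ 2 ^ d := Nat.lt_two_pow_self.le
  calc S ≤ 2 ^ s * 2 ^ s * (n + 1) := hS
    _ ≤ 2 ^ d * 2 ^ d * (2 ^ d * 2 ^ d) := by
        refine Nat.mul_le_mul (Nat.mul_le_mul h5 h5) (h1.trans (Nat.mul_le_mul h6 h7))
    _ = 2 ^ (4 * d) := by
        rw [← pow_add, ← pow_add]
        congr 1
        ring

/-- The final comparison. -/
theorem num_bound {d s n S T : ℕ} (hd : 1000 ≤ d) (hs : s ≤ d) (hn : n ≤ 4000 * d * 2 ^ 192)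
    (hS : S ≤ 2 ^ s * 2 ^ s * (n + 1)) (hT : T ≤ 6000 ^ (2 * d)) :
    S * (T * 2 ^ (24 * (2000 * d - 2 * d))) * 2 ^ (5 * d) ≤ (2 ^ 24 - 1) ^ (2000 * d) := by
  have h1 : S ≤ 2 ^ (4 * d) := size_bound hd hs hn hS
  have h2 : T ≤ 2 ^ (26 * d) := by
    calc T ≤ 6000 ^ (2 * d) := hT
      _ ≤ (2 ^ 13) ^ (2 * d) := Nat.pow_le_pow_left (by norm_num) _
      _ = 2 ^ (26 * d) := by
        rw [← pow_mul]
        congr 1
        ring
  have h3 : 24 * (2000 * d - 2 * d) = 47952 * d := by omega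
  rw [h3]
  have h4 : S * (T * 2 ^ (47952 * d)) * 2 ^ (5 * d) ≤ 2 ^ (47987 * d) := by
    calc S * (T * 2 ^ (47952 * d)) * 2 ^ (5 * d)
        ≤ 2 ^ (4 * d) * (2 ^ (26 * d) * 2 ^ (47952 * d)) * 2 ^ (5 * d) :=
          Nat.mul_le_mul_right _ (Nat.mul_le_mul h1 (Nat.mul_le_mul_right _ h2))
      _ = 2 ^ (47987 * d) := by
        rw [← pow_add, ← pow_add, ← pow_add]
        congr 1
        ring
  have h5 := pow_gap d
  have h6 : 2 ^ (10 * d) * 2 ^ (47987 * d) ≤ 2 ^ (48000 * d) := by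
    rw [← pow_add]
    exact Nat.pow_le_pow_right (by norm_num) (by omega)
  have h7 : 2 ^ (10 * d) * 2 ^ (47987 * d) ≤ 2 ^ (10 * d) * (2 ^ 24 - 1) ^ (2000 * d) :=
    h6.trans h5
  exact h4.trans (Nat.le_of_mul_le_mul_left h7 (by positivity))

/-- The final comparison with the number of small sets of equations. -/
theorem num_TT {d s n S : ℕ} (hd : 1000 ≤ d) (hs : s ≤ d) (hn : n ≤ 4000 * d * 2 ^ 192)
    (hS : S ≤ 2 ^ s * 2 ^ s * (n + 1)) :
    S * ((TT d (4000 * d)).card * 2 ^ (24 * (2000 * d - 2 * d))) * 2 ^ (5 * d) ≤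
      (2 ^ 24 - 1) ^ (2000 * d) :=
  num_bound hd hs hn hS (card_small2 d)

/-- The number of variables of a block. -/
theorem card_block_vars (d : ℕ) :
    Fintype.card (Fin (4000 * d) × (Fin 8 → Fin 24 → ZMod 2)) = 4000 * d * 2 ^ 192 := by
  have h : Fintype.card (Fin (4000 * d) × (Fin 8 → Fin 24 → ZMod 2)) =
      4000 * d * ((2 ^ 24) ^ 8) := by
    simp only [Fintype.card_prod, Fintype.card_fin, Fintype.card_fun, ZMod.card]
  rw [h, ← pow_mul]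

end Pool.Agent.XL
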