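import Mathlib

set_option autoImplicit false

/-!
# Comparator circuits: definitions
-/

namespace Pool.Agent.XL

/-- A comparator circuit with `S` wires on the variables `ι`: every wire starts with the value of a
variable or with a constant. A gate `(a, b)` puts the AND of the values of the wires `a` and `b` on
the wire `a` and their OR on the wire `b`. -/
structure CompCirc (ι : Type) (S : ℕ) where
  init : Fin S → ι ⊕ Bool
  gates : List (Fin S × Fin S)
  out : Fin S

/-- The values of the wires after the gate `g`. -/
def cgate {S : ℕ} (v : Fin S → Bool) (g : Fin S × Fin S) : Fin S → Bool :=
  fun i => if i = g.1 then v g.1 && v g.2 else if i = g.2 then v g.1 || v g.2 else v i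

/-- The output of the circuit: the value of the wire `out` after all gates. -/
def CompCirc.val {ι : Type} {S : ℕ} (P : CompCirc ι S) (x : ι → Bool) : Bool :=
  P.gates.foldl cgate (fun i => Sum.elim x id (P.init i)) P.out

end Pool.Agent.XL
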