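import Pool.Agent.XL.Small
import Pool.Agent.XL.CompDefs

set_option autoImplicit false

/-!
# Small devices, with comparator circuits
-/

namespace Pool.Agent.XL

open Finset Pool.Agent.TeleNeg Pool.Agent.NTR.Gen

/-- The function `G` is computed by a small device on the variables `κ`: by a switching network
(undirected contacts) with at most `2 ^ k` nodes, or by a comparator circuit with at most `2 ^ k`
wires, or by a directed network with at most `2 ^ √k` nodes (`√k` rounded down), or by a span program
with at most `2 ^ k` vectors over a field in which `2 ≠ 0`. -/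
def Small2 (k : ℕ) {κ : Type} (G : (κ → Bool) → Bool) : Prop :=
  (∃ S ≤ 2 ^ k, ∃ N : Net κ S, ∀ x, N.val x = G x) ∨
  (∃ S ≤ 2 ^ k, ∃ P : CompCirc κ S, ∀ x, P.val x = G x) ∨
  (∃ S ≤ 2 ^ Nat.sqrt k, ∃ N : Net κ S, ∀ x, N.dval x = G x) ∨
  ∃ (F : Type) (_ : Field F), (2 : F) ≠ 0 ∧
    ∃ S ≤ 2 ^ k, ∃ P : SpanProgram F κ S, ∀ x, P.val x = G x

theorem Small2.cases {k : ℕ} {κ : Type} {G : (κ → Bool) → Bool} (h : Small2 k G) :
    Small k G ∨ ∃ S ≤ 2 ^ k, ∃ P : CompCirc κ S, ∀ x, P.val x = G x := by
  rcases h with h | h | h | h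
  · exact Or.inl (Or.inl h)
  · exact Or.inr h
  · exact Or.inl (Or.inr (Or.inl h))
  · exact Or.inl (Or.inr (Or.inr h))

theorem Small.small2 {k : ℕ} {κ : Type} {G : (κ → Bool) → Bool} (h : Small k G) : Small2 k G := by
  rcases h with h | h | h
  · exact Or.inl h
  · exact Or.inr (Or.inr (Or.inl h))
  · exact Or.inr (Or.inr (Or.inr h))

namespace Small2Aux

theorem cgate_mono {S : ℕ} (g : Fin S × Fin S) : Monotone fun v : Fin S → Bool => cgate v g := by
  intro v w hvw i
  change cgate v g i ≤ cgate w g i
  unfold cgate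
  rw [Bool.le_iff_imp]
  have h1 := Bool.le_iff_imp.mp (hvw g.1)
  have h2 := Bool.le_iff_imp.mp (hvw g.2)
  split_ifs
  · intro h
    rw [Bool.and_eq_true] at h ⊢
    exact ⟨h1 h.1, h2 h.2⟩
  · intro h
    rw [Bool.or_eq_true] at h ⊢
    exact h.imp h1 h2
  · exact Bool.le_iff_imp.mp (hvw i)

theorem foldl_mono {S : ℕ} (l : List (Fin S × Fin S)) :
    Monotone fun v : Fin S → Bool => l.foldl cgate v := by
  induction l with
  | nil => exact fun v w h => h
  | cons g l ih => exact fun v w h => ih (cgate_mono g h)

theorem val_mono {ι : Type} {S : ℕ} (P : CompCirc ι S) : Monotone P.val := by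
  intro x y hxy
  refine foldl_mono P.gates (fun i => ?_) P.out
  rcases P.init i with e | c
  · exact hxy e
  · exact le_rfl

/-- Replacing variables by variables and constants. -/
def subst {ι κ : Type} {S : ℕ} (P : CompCirc ι S) (φ : ι → κ ⊕ Bool) : CompCirc κ S where
  init i := Sum.elim φ Sum.inr (P.init i)
  gates := P.gates
  out := P.out

theorem subst_val {ι κ : Type} {S : ℕ} (P : CompCirc ι S) (φ : ι → κ ⊕ Bool) (y : κ → Bool) :
    (subst P φ).val y = P.val fun i => Sum.elim y id (φ i) := by
  have h : (fun i => (Sum.elim y id ((subst P φ).init i) : Bool)) =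
      fun i => Sum.elim (fun j => (Sum.elim y id (φ j) : Bool)) id (P.init i) := by
    funext i
    change (Sum.elim y id (Sum.elim φ Sum.inr (P.init i)) : Bool) = _
    rcases P.init i with e | c <;> rfl
  change P.gates.foldl cgate (fun i => (Sum.elim y id ((subst P φ).init i) : Bool)) P.out =
    P.gates.foldl cgate (fun i => Sum.elim (fun j => (Sum.elim y id (φ j) : Bool)) id (P.init i))
      P.out
  rw [h]

end Small2Aux

/-- The class of the functions computed by small devices, with comparator circuits. -/
def smallClass2 (k : ℕ) : MonoClass where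
  mem ι G := Small2 k G
  mono := by
    rintro ι G h
    rcases h.cases with h | ⟨S, _, P, hP⟩
    · exact (smallClass k).mono ι G h
    · rw [show G = P.val from funext fun x => (hP x).symm]
      exact Small2Aux.val_mono P
  subst := by
    rintro ι κ G φ h
    rcases h.cases with h | ⟨S, hS, P, hP⟩
    · exact Small.small2 ((smallClass k).subst ι κ G φ h)
    · exact Or.inr (Or.inl ⟨S, hS, Small2Aux.subst P φ, fun y => by
        rw [Small2Aux.subst_val, hP]⟩)

end Pool.Agent.XL
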