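import Pool.Agent.XL.MainAbs
import Pool.Agent.XL.Num
import Pool.Agent.XL.Small2
import Pool.Agent.XL.FewRk

set_option autoImplicit false

/-!
# Small devices, comparator circuits included, must see zeros of every set of independent equations
-/

namespace Pool.Agent.XL

open Finset Pool.Agent.TeleNeg Pool.Agent.NTR.Gen Pool.Agent.NWE

/-- The class of the functions computed by small devices is weak. -/
theorem weak_small {k d : ℕ} (hd : 1000 ≤ d) (hk : k ≤ d) : MainAbs.Weak (smallClass2 k) d := by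
  classical
  intro m e b hE hm1 hm2 G hG hle
  have key : ∀ S ≤ 2 ^ (4 * d), 2 ^ (22 * d) * (univ.filter fun W : Fin m → Fin 24 → ZMod 2 =>
      (∀ j, W j ≠ 0) ∧ G (PW e W) = true).card ≤ S * (2 ^ 24 - 1) ^ m →
      2 ^ (5 * d) * (univ.filter fun W : Fin m → Fin 24 → ZMod 2 =>
        (∀ j, W j ≠ 0) ∧ G (PW e W) = true).card ≤ (2 ^ 24 - 1) ^ m := by
    intro S hS h3
    have h4 : 2 ^ (22 * d) * (univ.filter fun W : Fin m → Fin 24 → ZMod 2 =>
        (∀ j, W j ≠ 0) ∧ G (PW e W) = true).card ≤ 2 ^ (17 * d) * (2 ^ 24 - 1) ^ m :=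
      h3.trans (Nat.mul_le_mul_right _ (hS.trans (Nat.pow_le_pow_right (by norm_num) (by omega))))
    have h5 : 2 ^ (22 * d) = 2 ^ (17 * d) * 2 ^ (5 * d) := by
      rw [← pow_add]
      congr 1
      ring
    rw [h5, mul_assoc] at h4
    exact Nat.le_of_mul_le_mul_left h4 (by positivity)
  rcases Small2.cases hG with hG | ⟨S, hS, P, hP⟩
  · obtain ⟨F, hF, S, h2, hS', hD⟩ := Small.decomp hG
    have hS : S ≤ 2 ^ (4 * d) := by
      refine size_bound (s := k) (n := 4000 * d * 2 ^ 192) hd hk le_rfl ?_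
      rw [MainAbs.card_Bvar] at hS'
      exact hS'
    exact key S hS (few_num F h2 hE b (by omega) hm1 hm2 hD hle)
  · refine key S (hS.trans (Nat.pow_le_pow_right (by norm_num) (by omega))) ?_
    have hG' : G = P.val := funext fun x => (hP x).symm
    subst hG'
    exact few_num_comp hE b (by omega) hm1 hm2 P hle

/-- The function `G` is computed by a small device on the variables `κ`: by a switching network
(undirected contacts) with at most `2 ^ k` nodes, or by a comparator circuit with at most `2 ^ k`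
wires, or by a span program with at most `2 ^ k` vectors over a field in which `2 ≠ 0`. -/
def Small3 (k : ℕ) {κ : Type} (G : (κ → Bool) → Bool) : Prop :=
  (∃ S ≤ 2 ^ k, ∃ N : Net κ S, ∀ x, N.val x = G x) ∨
  (∃ S ≤ 2 ^ k, ∃ P : CompCirc κ S, ∀ x, P.val x = G x) ∨
  ∃ (F : Type) (_ : Field F), (2 : F) ≠ 0 ∧
    ∃ S ≤ 2 ^ k, ∃ P : SpanProgram F κ S, ∀ x, P.val x = G x

theorem Small3.small2 {k : ℕ} {κ : Type} {G : (κ → Bool) → Bool} (h : Small3 k G) :
    Small2 k G := by
  rcases h with h | h | h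
  · exact Or.inl h
  · exact Or.inr (Or.inl h)
  · exact Or.inr (Or.inr (Or.inr h))

/-- **Main theorem**, linearly independent equations, with comparator circuits. -/
theorem main_hard2 (n k : ℕ) (U : Finset (Eq3 n)) (q : Fin (5 * 2 ^ 222 * k) → Eq3 n)
    (hU : ∀ i, q i ∈ U) (hq : LinearIndependent (ZMod 2) fun i => coeffs (q i).1.1) :
    ∃ (ρ : Eq3 n → Bool) (H : Finset (Eq3 n → Bool)), H.Nonempty ∧
      (∀ z ∈ H, unsat z = true ∧ ∀ v, v ∉ U → z v = ρ v) ∧
      ∀ (t : ℕ) (G : (Fin t → Bool) → (Eq3 n ⊕ Eq3 n → Bool) → Bool), (∀ y, Small2 k (G y)) →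
        (∀ y z, (∀ v, v ∉ U → z v = ρ v) → G y (lits z) = true → unsat z = true) →
        ∀ A ⊆ H, (∀ z ∈ A, ∃ (y : Fin t → Bool) (Z : Finset (Eq3 n)), Z ⊆ U ∧
          (∀ v ∈ Z, z v = false) ∧ t + Z.card ≤ k ∧ G y (litsOn U Z z) = true) →
        2 ^ k * A.card ≤ H.card :=
  MainAbs.main_abs (smallClass2 k) (fun hk => weak_small (by omega) (by omega)) U
    (fun i => q (Fin.cast (by ring) i)) (fun i => hU _)
    (hq.comp (Fin.cast (by ring)) (Fin.cast_injective _))

/-- **Main theorem**, for switching networks, comparator circuits and span programs. -/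
theorem main_hard3 (n k : ℕ) (U : Finset (Eq3 n)) (q : Fin (5 * 2 ^ 222 * k) → Eq3 n)
    (hU : ∀ i, q i ∈ U) (hq : LinearIndependent (ZMod 2) fun i => coeffs (q i).1.1) :
    ∃ (ρ : Eq3 n → Bool) (H : Finset (Eq3 n → Bool)), H.Nonempty ∧
      (∀ z ∈ H, unsat z = true ∧ ∀ v, v ∉ U → z v = ρ v) ∧
      ∀ (t : ℕ) (G : (Fin t → Bool) → (Eq3 n ⊕ Eq3 n → Bool) → Bool), (∀ y, Small3 k (G y)) →
        (∀ y z, (∀ v, v ∉ U → z v = ρ v) → G y (lits z) = true → unsat z = true) →
        ∀ A ⊆ H, (∀ z ∈ A, ∃ (y : Fin t → Bool) (Z : Finset (Eq3 n)), Z ⊆ U ∧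
          (∀ v ∈ Z, z v = false) ∧ t + Z.card ≤ k ∧ G y (litsOn U Z z) = true) →
        2 ^ k * A.card ≤ H.card := by
  obtain ⟨ρ, H, h1, h2, h3⟩ := main_hard2 n k U q hU hq
  exact ⟨ρ, H, h1, h2, fun t G hG => h3 t G fun y => (hG y).small2⟩

end Pool.Agent.XL
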