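import Pool.Agent.XL.Sharp
import Pool.Agent.XL.Final2

set_option autoImplicit false

/-!
# Sets of equations of large rank
-/

namespace Pool.Agent.XL

open Finset Pool.Agent.TeleNeg Pool.Agent.NTR.Gen Pool.Agent.NWE

/-- The rank of the left sides of the equations in `U`. -/
noncomputable def leftRank {n : ℕ} (U : Finset (Eq3 n)) : ℕ :=
  Module.finrank (ZMod 2) (Submodule.span (ZMod 2) {v | ∃ e ∈ U, v = coeffs e.1.1})

theorem leftRank_eq {n : ℕ} (U : Finset (Eq3 n)) : leftRank U = Sharp.rank U := by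
  have h : {v : Fin n → ZMod 2 | ∃ e ∈ U, v = coeffs e.1.1} =
      (fun e : Eq3 n => coeffs e.1.1) '' (U : Set (Eq3 n)) := by
    ext v
    constructor
    · rintro ⟨e, he, rfl⟩
      exact ⟨e, he, rfl⟩
    · rintro ⟨e, he, rfl⟩
      exact ⟨e, he, rfl⟩
  unfold leftRank Sharp.rank
  rw [h]

theorem exists_of_leftRank {n K : ℕ} (U : Finset (Eq3 n)) (hK : K ≤ leftRank U) :
    ∃ q : Fin K → Eq3 n, (∀ i, q i ∈ U) ∧
      LinearIndependent (ZMod 2) fun i => coeffs (q i).1.1 := by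
  classical
  obtain ⟨b, hb, hspan, hli⟩ := exists_linearIndependent (ZMod 2)
    {v : Fin n → ZMod 2 | ∃ e ∈ U, v = coeffs e.1.1}
  have hfin : Finite b := Set.Finite.to_subtype (Set.toFinite b)
  have : Fintype b := Fintype.ofFinite b
  have hcard : Fintype.card b = leftRank U := by
    unfold leftRank
    rw [← hspan]
    have h1 := finrank_span_set_eq_card hli
    rw [h1, Set.toFinset_card]
  obtain ⟨g⟩ : Nonempty (Fin (Fintype.card b) ≃ b) := ⟨(Fintype.equivFin b).symm⟩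
  have hle : K ≤ Fintype.card b := by rw [hcard]; exact hK
  choose f hf using fun v : b => hb v.2
  refine ⟨fun i => f (g (Fin.castLE hle i)), fun i => (hf _).1, ?_⟩
  have h2 : (fun i : Fin K => coeffs (f (g (Fin.castLE hle i))).1.1) =
      fun i => ((g (Fin.castLE hle i) : b) : Fin n → ZMod 2) := by
    funext i
    exact (hf _).2.symm
  rw [h2]
  exact hli.comp (fun i : Fin K => g (Fin.castLE hle i))
    (g.injective.comp (Fin.castLE_injective hle))

/-- **Main theorem** in terms of the rank. -/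
theorem main_rank (n k : ℕ) (U : Finset (Eq3 n)) (hU : 5 * 2 ^ 222 * k ≤ leftRank U) :
    ∃ (ρ : Eq3 n → Bool) (H : Finset (Eq3 n → Bool)), H.Nonempty ∧
      (∀ z ∈ H, unsat z = true ∧ ∀ v, v ∉ U → z v = ρ v) ∧
      ∀ (t : ℕ) (G : (Fin t → Bool) → (Eq3 n ⊕ Eq3 n → Bool) → Bool), (∀ y, Small2 k (G y)) →
        (∀ y z, (∀ v, v ∉ U → z v = ρ v) → G y (lits z) = true → unsat z = true) →
        ∀ A ⊆ H, (∀ z ∈ A, ∃ (y : Fin t → Bool) (Z : Finset (Eq3 n)), Z ⊆ U ∧
          (∀ v ∈ Z, z v = false) ∧ t + Z.card ≤ k ∧ G y (litsOn U Z z) = true) →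
        2 ^ k * A.card ≤ H.card := by
  obtain ⟨q, hq, hli⟩ := exists_of_leftRank U hU
  exact main_hard2 n k U q hq hli

/-- **Sharpness** in terms of the rank. -/
theorem sharp_rank {n : ℕ} (U : Finset (Eq3 n)) (ρ : Eq3 n → Bool) :
    ∃ S ≤ 2 ^ (leftRank U + 1), ∃ N : Net (Eq3 n) S,
      ∀ z : Eq3 n → Bool, (∀ e, e ∉ U → z e = ρ e) → N.val z = unsat z := by
  rw [leftRank_eq]
  exact Sharp.sharp U ρ

end Pool.Agent.XL
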