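import Pool.Agent.XL.NotLinDev
import Pool.Agent.XL.AvgX
import Pool.Agent.XL.GlueP
import Pool.Agent.XL.RankU

set_option autoImplicit false

/-!
# Sets of equations of large rank: few changes of the answers to monotone queries
-/

namespace Pool.Agent.XL

open Finset Pool.Agent.NTR Pool.Agent.NTN Pool.Agent.TeleNeg
open scoped BigOperators

open Classical in
/-- **Inconsistency of linear equations, average case, inside every set of equations.** -/
theorem rank_avg {n k : ℕ} (hk : 1 ≤ k) (U : Finset (Eq3 n)) (hU : 1 ≤ leftRank U) :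
    ∃ (ρ : Eq3 n → Bool) (μ : (Eq3 n → Bool) → ℝ), (∀ x, 0 ≤ μ x) ∧ ∑ x, μ x = 1 ∧
      (∀ x, μ x ≠ 0 → ∀ v, v ∉ U → x v = ρ v) ∧
      ∀ (ts : List ℕ) (T b : ℕ) (A : (Eq3 n → Bool) → Bool),
        ts.sum + T ≤ 2 ^ k → Tries (devClass k) U ts T b A →
        ∑ x with (A x = unsat x), μ x
          ≤ 1 / 2 + (1 / 2) ^ k + (T + 1) * b * (2 ^ 223 * k) / leftRank U := by
  obtain ⟨R, hR⟩ : ∃ R, R = leftRank U := ⟨_, rfl⟩
  rw [← hR] at hU ⊢
  have hR' : (0 : ℝ) < R := by exact_mod_cast hU
  obtain ⟨c, hc⟩ : ∃ c : ℕ, c = 2 ^ 219 * k := ⟨_, rfl⟩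
  have hc0 : 0 < c := by
    rw [hc]
    positivity
  have hcR : ((2 : ℝ) ^ 223 * k) = 16 * (c : ℝ) := by
    rw [hc]
    push_cast
    ring
  rw [hcR]
  have hroom0 : 256 * cdz k ≤ c := by
    rw [hc]
    exact room k
  clear hc
  have hc' : (0 : ℝ) < c := by exact_mod_cast hc0
  obtain ⟨K, hK⟩ : ∃ K, K = R / 5 := ⟨_, rfl⟩
  rcases Nat.lt_or_ge K c with hlt | hge
  · -- the trivial case
    have h2 : (1 : ℝ) ≤ 16 * c / R := by
      rw [one_le_div hR']
      have : R ≤ 16 * c := by omega
      exact_mod_cast this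
    have h5 : (0 : ℝ) ≤ (1 / 2) ^ k := by positivity
    refine ⟨fun _ => false, fun x => if x = (fun _ => false) then 1 else 0, fun x => ?_, ?_, ?_, ?_⟩
    · dsimp only
      split_ifs <;> norm_num
    · rw [Finset.sum_ite_eq' Finset.univ]
      simp
    · intro x hx v _
      have e1 : x = fun _ => false := by
        by_contra h
        exact hx (if_neg h)
      rw [e1]
    · intro ts T b A _ hA
      obtain ⟨Q, P, h, -, -, -, hch, -⟩ := hA
      have hb : 0 < b := changesOn_pos' hch
      refine (Finset.sum_le_sum_of_subset_of_nonneg (Finset.filter_subset _ _) (by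
          intro x _ _
          split_ifs <;> norm_num)).trans ?_
      rw [Finset.sum_ite_eq' Finset.univ]
      simp only [Finset.mem_univ, if_true]
      have h3 : (1 : ℝ) ≤ (T + 1) * b := by
        have e1 : (1 : ℝ) ≤ b := by exact_mod_cast hb
        have e2 : (0 : ℝ) ≤ T := by positivity
        nlinarith
      have h4 : (1 : ℝ) ≤ (T + 1) * b * (16 * c) / R := by
        rw [mul_div_assoc]
        exact one_le_mul_of_one_le_of_one_le h3 h2
      linarith
  · have hr : 1 ≤ K / c := (Nat.one_le_div_iff hc0).2 hge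
    obtain ⟨m, e, b₀, hm1, hm2, hE, hb₀, hs⟩ := exists_system (100 * k) (by omega)
    obtain ⟨q, hq1, hq2⟩ := exists_of_leftRank (K := 5 * K) U (by rw [← hR]; omega)
    obtain ⟨g, a, -, ha, hp⟩ := exists_private q hq2
    have hn : K ≤ n := by
      have hinj : Function.Injective a := by
        intro i j h
        by_contra hne
        exact hp i j hne (h ▸ ha i)
      simpa using Fintype.card_le_of_injective a hinj
    have hroom : K / c * (256 * cdz k) ≤ K :=
      (Nat.mul_le_mul_left _ hroom0).trans (Nat.div_mul_le_self _ _)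
    have hm : m * 24 ≤ cdz k := by
      unfold cdz
      have e1 : (1000000 : ℕ) ≤ 2 ^ 192 := by norm_num
      calc m * 24 ≤ 2000 * (100 * k) * 24 := Nat.mul_le_mul_right _ hm2
        _ ≤ 4000 * (100 * k) * 1000000 := by nlinarith
        _ ≤ 4000 * (100 * k) * 2 ^ 192 := Nat.mul_le_mul_left _ e1
    obtain ⟨φ, f1, -, f3⟩ := glue_or_p (h := 24) (r := K / c) e b₀ U (fun i => q (g i))
      (fun i => hq1 _) a ha hp
      (by
        rw [card_bvar_eq]
        refine le_trans (Nat.mul_le_mul_left _ ?_) hroom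
        omega)
      (by
        rw [card_bvar_eq]
        refine le_trans (Nat.mul_le_mul_left _ ?_) (hroom.trans hn)
        omega)
    set cd := Fintype.card (Bvar (4000 * (100 * k)) 24) with hcd
    have hcdz : cd = cdz k := card_bvar_eq k
    have hcd1 : 1 ≤ cd := by
      rw [hcdz]
      exact cdz_pos hk
    have h5 : (0 : ℝ) < (1 / 2) ^ k := by positivity
    have h6 : ((1 / 2 : ℝ)) ^ k < 1 := pow_lt_one₀ (by norm_num) (by norm_num) (by omega)
    have hk1 : 1 ≤ 3 * cd * 4 ^ k := by
      have : 1 ≤ 4 ^ k := Nat.one_le_pow _ _ (by norm_num)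
      nlinarith
    obtain ⟨i, j, e1, e2, e3, e4⟩ := exists_levels hk1 hcd1
    obtain ⟨μ, m1, m2, m3, m4⟩ := average_queries_or (U := U) hr
      (incon (h := 24) e b₀) (incon_monotone e b₀) (fun x : Eq3 n → Bool => unsat x = true) φ f1
      f3 h5 h6 (3 * cd * 4 ^ k) (by
        have h7 : ((1 / 2 : ℝ) ^ k) ^ 2 = 1 / 4 ^ k := by
          rw [← pow_mul, mul_comm, pow_mul, show (1 / 2 : ℝ) ^ 2 = 1 / 4 by norm_num, one_div_pow]
        rw [h7]
        push_cast
        have h8 : (3 * (cd : ℝ) * 4 ^ k) * (1 / 4 ^ k) = 3 * (cd : ℝ) := by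
          field_simp
        rw [h8])
      {H | rkF ℚ (100 * k) e b₀ (univ.filter fun W : Fin m → Fin 24 → ZMod 2 => ∀ j, W j ≠ 0) H ≤
        (2 ^ (3 * k) * (cd + 1) * rowK (4000 * (100 * k)) m 24 (100 * k) : ℕ)}
      ⟨PW e 0, negIn e b₀ 0, incon_PW hb₀ 0, incon_negIn e b₀ 0⟩ (by
        intro L θ hL hLS hcon
        have h7 := rkF_amplify (F := ℚ) (d := 100 * k) (e := e) b₀
          (univ.filter fun W : Fin m → Fin 24 → ZMod 2 => ∀ j, W j ≠ 0) L θ hcon
          (N₀ := (2 ^ (3 * k) * (cd + 1) * rowK (4000 * (100 * k)) m 24 (100 * k) : ℕ))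
          (by positivity) hLS i j (by rw [hL]; exact e1) e2
        have h8 := incon_rk_large hE b₀ hb₀ hm1 hm2
          (Q := 5 ^ (2 * i + j + 2) * (2 ^ (3 * k) * (cd + 1))) (by
            refine h7.trans (le_of_eq ?_)
            push_cast
            ring)
        have h11 := num_thr hk (hcdz.trans rfl) e3 e4
        exact absurd (lt_of_le_of_lt h8 h11) (lt_irrefl _))
    refine ⟨fun v => Sum.elim (fun _ => false) id (φ v), μ, m1, m2,
      fun x hx v hv => ?_, fun ts T b A hq hA => ?_⟩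
    · obtain ⟨c', hc'⟩ := f1 v hv
      rw [m3 x hx v c' hc']
      show c' = Sum.elim (fun _ => false) id (φ v)
      rw [hc']
      rfl
    · have h11 := m4 (devClass k) ts T b A (fun H hH =>
        orSet_dev_rk ℚ b₀ _ hE (by omega) hq hH) hA
      refine (le_of_eq (sum_filter_iff' μ _ _ _ _ fun x => ?_)).trans (h11.trans ?_)
      · exact Bool.eq_iff_iff
      have hr' : (0 : ℝ) < (K / c : ℕ) := by exact_mod_cast hr
      have h12 : (R : ℝ) ≤ 32 * c * (K / c : ℕ) := by
        have h2 : K < c * (K / c + 1) := Nat.lt_mul_div_succ K hc0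
        rw [mul_add, mul_one] at h2
        have h3 : c ≤ c * (K / c) := Nat.le_mul_of_pos_right _ hr
        have h4 : R ≤ 32 * c * (K / c) := by
          rw [mul_assoc]
          omega
        exact_mod_cast h4
      have h13 : ((T : ℝ) + 1) * b / (2 * (K / c : ℕ)) ≤ (T + 1) * b * (16 * c) / R := by
        rw [div_le_div_iff₀ (by positivity) hR']
        have h6 : (0 : ℝ) ≤ (T + 1) * b := by positivity
        calc ((T : ℝ) + 1) * b * R ≤ (T + 1) * b * (32 * c * (K / c : ℕ)) :=
              mul_le_mul_of_nonneg_left h12 h6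
          _ = (T + 1) * b * (16 * c) * (2 * (K / c : ℕ)) := by ring
      linarith

end Pool.Agent.XL
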