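import Pool.Agent.XL.NotGatesU
import Pool.Agent.XL.RankAvg

set_option autoImplicit false

/-!
# NOT gates inside sets of equations of large rank
-/

namespace Pool.Agent.XL

open Finset Pool.Agent.NTR Pool.Agent.NTN Pool.Agent.TeleNeg
open scoped BigOperators

section subst

variable {ι κ : Type}

/-- variables replaced by variables or constants, outputs of NOT gates are kept -/
def keepN (φ : ι → κ ⊕ Bool) : ι ⊕ ℕ → (κ ⊕ ℕ) ⊕ Bool :=
  Sum.elim (fun i => Sum.map Sum.inl id (φ i)) fun j => Sum.inl (Sum.inr j)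

/-- the substitution in a function -/
def subN (φ : ι → κ ⊕ Bool) (G : (ι ⊕ ℕ → Bool) → Bool) (z : κ ⊕ ℕ → Bool) : Bool :=
  G fun i => Sum.elim z id (keepN φ i)

theorem subN_seen (φ : ι → κ ⊕ Bool) (G : (ι ⊕ ℕ → Bool) → Bool) (y : κ → Bool) (v : List Bool) :
    subN φ G (Gen.seen y v) = G (Gen.seen (fun i => Sum.elim y id (φ i)) v) := by
  unfold subN
  congr 1
  funext i
  rcases i with i | j
  · show Sum.elim (Gen.seen y v) id (Sum.map Sum.inl id (φ i)) = Sum.elim y id (φ i)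
    rcases φ i with k | c <;> rfl
  · rfl

theorem nots_subst (φ : ι → κ ⊕ Bool) (y : κ → Bool)
    (ls : List (List ((ι ⊕ ℕ → Bool) → Bool))) : ∀ v,
    Gen.nots y (ls.map fun l => l.map (subN φ)) v =
      Gen.nots (fun i => Sum.elim y id (φ i)) ls v := by
  induction ls with
  | nil => intro v; rfl
  | cons l ls ih =>
    intro v
    rw [List.map_cons, Gen.nots, Gen.nots, ih, List.map_map]
    congr 2
    refine List.map_congr_left fun F _ => ?_
    rw [Function.comp_apply, subN_seen]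

theorem NotGates.subst {K : Gen.MonoClass} {t : ℕ} {B : (ι → Bool) → Bool}
    (h : NotGates K t B) (φ : ι → κ ⊕ Bool) :
    NotGates K t fun y : κ → Bool => B fun i => Sum.elim y id (φ i) := by
  obtain ⟨ls, P, h1, h2, h3, h4⟩ := h
  refine ⟨ls.map fun l => l.map (subN φ), subN φ P, ?_, ?_, K.subst _ _ _ _ h3, fun y => ?_⟩
  · rw [← h1, List.map_map]
    congr 1
    refine List.map_congr_left fun l _ => ?_
    rw [Function.comp_apply, List.length_map]
  · intro l' hl' G' hG'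
    obtain ⟨l, hl, rfl⟩ := List.mem_map.1 hl'
    obtain ⟨G, hG, rfl⟩ := List.mem_map.1 hG'
    exact K.subst _ _ _ _ (h2 l hl G hG)
  · rw [nots_subst, subN_seen]
    exact h4 _

end subst

theorem freeLits_eq {ι : Type} (U : Finset ι) {x ρ : ι → Bool} (h : ∀ v, v ∉ U → x v = ρ v) :
    (Sum.elim x fun v : {v : ι // v ∉ U} => !x v) = fun i => Sum.elim x id
      ((Sum.elim Sum.inl fun v : {v : ι // v ∉ U} => Sum.inr (!ρ v)) i) := by
  funext i
  rcases i with v | v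
  · rfl
  · show (!x v) = !ρ v
    rw [h v v.2]

/-- On the inputs equal to `ρ` outside `U`. -/
theorem NotGatesOn.fix {K : Gen.MonoClass} {ι : Type} {U : Finset ι} {t : ℕ}
    {A : (ι → Bool) → Bool} (h : NotGatesOn K U t A) (ρ : ι → Bool) :
    ∃ B : (ι → Bool) → Bool, NotGates K t B ∧ ∀ x, (∀ v, v ∉ U → x v = ρ v) → A x = B x := by
  obtain ⟨B, h1, h2⟩ := h
  exact ⟨_, h1.subst (Sum.elim Sum.inl fun v : {v // v ∉ U} => Sum.inr (!ρ v)), fun x hx => by
    rw [h2 x, freeLits_eq U hx]⟩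

open Classical in
/-- **NOT gates and algorithms, inside every set of equations.** -/
theorem not_gates_rank {n k : ℕ} (hk : 1 ≤ k) (U : Finset (Eq3 n)) (hU : 1 ≤ leftRank U) :
    ∃ (ρ : Eq3 n → Bool) (μ : (Eq3 n → Bool) → ℝ), (∀ x, 0 ≤ μ x) ∧ ∑ x, μ x = 1 ∧
      (∀ x, μ x ≠ 0 → ∀ v, v ∉ U → x v = ρ v) ∧
      (∀ (t : ℕ) (A : (Eq3 n → Bool) → Bool), t < 2 ^ k → NotGatesOn (devClass k) U t A →
        ∑ x with (A x = unsat x), μ x
          ≤ 1 / 2 + (1 / 2) ^ k + 2 ^ t * (2 ^ 224 * k) / leftRank U) ∧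
      ∀ (ts : List ℕ) (b : ℕ) (A : (Eq3 n → Bool) → Bool), ts.sum < 2 ^ k →
        Tries (devClass k) U ts 1 b A →
        ∑ x with (A x = unsat x), μ x
          ≤ 1 / 2 + (1 / 2) ^ k + b * (2 ^ 224 * k) / leftRank U := by
  obtain ⟨ρ, μ, m1, m2, m3, m4⟩ := rank_avg hk U hU
  have key : ∀ (ts : List ℕ) (b : ℕ) (A : (Eq3 n → Bool) → Bool), ts.sum < 2 ^ k →
      Tries (devClass k) U ts 1 b A →
      ∑ x with (A x = unsat x), μ x
        ≤ 1 / 2 + (1 / 2) ^ k + b * (2 ^ 224 * k) / leftRank U := by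
    intro ts b A hts hA
    refine (m4 ts 1 b A hts hA).trans (le_of_eq ?_)
    have e : (2 : ℝ) ^ 224 = 2 * 2 ^ 223 := pow_succ' 2 223
    rw [e]
    generalize (2 : ℝ) ^ 223 = c
    push_cast
    ring
  refine ⟨ρ, μ, m1, m2, m3, fun t A ht hA => ?_, key⟩
  obtain ⟨B, hB, hAB⟩ := hA.fix ρ
  obtain ⟨ts, b, h1, h2, h3⟩ := hB.tries U
  have h0 : ∑ x with (A x = unsat x), μ x = ∑ x with (B x = unsat x), μ x := by
    rw [Finset.sum_filter, Finset.sum_filter]
    refine Finset.sum_congr rfl fun x _ => ?_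
    by_cases hx : μ x = 0
    · simp [hx]
    · rw [hAB x (m3 x hx)]
  rw [h0]
  refine (key ts b B (by rw [h1]; exact ht) h3).trans ?_
  have h4 : (b : ℝ) ≤ 2 ^ t := by exact_mod_cast h2
  have h5 : (0 : ℝ) ≤ 2 ^ 224 * k := by positivity
  have h6 : (0 : ℝ) ≤ leftRank U := by positivity
  have h7 : (b : ℝ) * (2 ^ 224 * k) / leftRank U ≤ 2 ^ t * (2 ^ 224 * k) / leftRank U :=
    div_le_div_of_nonneg_right (mul_le_mul_of_nonneg_right h4 h5) h6
  linarith

end Pool.Agent.XL
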