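import Pool.Agent.XL.NotGatesU
import Pool.Agent.NTN.Wide

/-!
# Few NOT gates suffice: monotone functions and sets of variables

Devices on the literals (switching networks, directed networks, comparator circuits) and devices of
the same kind with `⌊log₂ (|U| / d)⌋ + 1` NOT gates which see `U`. For `d = 1` this holds for all
functions, for `1 ≤ d ≤ |U|` for monotone functions.
-/

set_option autoImplicit false

namespace Pool.Agent.XL

open Finset Pool.Agent.NTR Pool.Agent.NTN Pool.Agent.TeleNeg Pool.Agent.NWE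

theorem HasThr_thrW {K : Gen.MonoClass} {i j : ℕ} (hK : HasThr K i j) {κ : Type} [DecidableEq κ]
    {t d : ℕ} (A : Finset κ) (hi : 2 * (A.card + d * 2 ^ t) + 1 ≤ 4 * 2 ^ i)
    (hj : 3 * (A.card + t) ≤ 2 ^ j) (θ : ℕ) : K.mem (κ ⊕ ℕ) (thrW t d θ A) := by
  classical
  have h1 : K.mem ({a // a ∈ A} ⊕ Fin t) (fun u => decide (θ ≤
      (univ.filter fun a : {a // a ∈ A} => u (Sum.inl a) = true).card +
        ∑ i : Fin t, if u (Sum.inr i) = true then d * 2 ^ (t - 1 - i) else 0)) := by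
    refine hK ({a // a ∈ A} ⊕ Fin t) _
      (((univ : Finset {a // a ∈ A}).toList.map fun a =>
        fun u : {a // a ∈ A} ⊕ Fin t → Bool => u (Sum.inl a)) ++
        (List.finRange t).flatMap fun i : Fin t =>
          List.replicate (d * 2 ^ (t - 1 - (i : ℕ)))
            fun u : {a // a ∈ A} ⊕ Fin t → Bool => u (Sum.inr i))
      θ (fun u => ?_) (fun H hH => ?_) ?_ ?_
    · rw [decide_eq_true_eq, List.countP_append, List.countP_map, List.countP_flatMap]
      have e1 : (univ : Finset {a // a ∈ A}).toList.countP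
          ((fun H : ({a // a ∈ A} ⊕ Fin t → Bool) → Bool => H u) ∘
          fun a => fun u : {a // a ∈ A} ⊕ Fin t → Bool => u (Sum.inl a))
          = (univ.filter fun a : {a // a ∈ A} => u (Sum.inl a) = true).card := by
        rw [Finset.card_def, Finset.filter_val, ← Multiset.countP_eq_card_filter,
          ← Finset.coe_toList (univ : Finset {a // a ∈ A}), Multiset.coe_countP]
        refine List.countP_congr fun a _ => ?_
        simp
      have e2 : (List.map (List.countP (fun H : ({a // a ∈ A} ⊕ Fin t → Bool) → Bool => H u) ∘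
          fun i : Fin t => List.replicate (d * 2 ^ (t - 1 - i)) fun u => u (Sum.inr i))
          (List.finRange t)).sum
          = ∑ i : Fin t, if u (Sum.inr i) = true then d * 2 ^ (t - 1 - i) else 0 := by
        rw [Fin.sum_univ_def]
        refine congrArg List.sum (List.map_congr_left fun i _ => ?_)
        simp only [Function.comp_apply, List.countP_replicate]
      rw [e1, e2]
    · rcases List.mem_append.1 hH with h | h
      · obtain ⟨a, -, rfl⟩ := List.mem_map.1 h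
        exact ⟨_, rfl⟩
      · obtain ⟨i, -, h⟩ := List.mem_flatMap.1 h
        exact ⟨_, List.eq_of_mem_replicate h⟩
    · refine le_trans ?_ hi
      rw [List.length_append, List.length_map, Finset.length_toList, List.length_flatMap]
      have e1 : (univ : Finset {a // a ∈ A}).card = A.card := by simp
      have e2 : (List.map (fun i : Fin t => (List.replicate (d * 2 ^ (t - 1 - i))
          fun u : {a // a ∈ A} ⊕ Fin t → Bool => u (Sum.inr i)).length) (List.finRange t)).sum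
          ≤ d * 2 ^ t := by
        have e3 : (List.map (fun i : Fin t => (List.replicate (d * 2 ^ (t - 1 - i))
          fun u : {a // a ∈ A} ⊕ Fin t → Bool => u (Sum.inr i)).length) (List.finRange t)).sum
          = d * ∑ i ∈ range t, 2 ^ (t - 1 - i) := by
          rw [Finset.mul_sum, Finset.sum_range, Fin.sum_univ_def]
          refine congrArg List.sum (List.map_congr_left fun i _ => ?_)
          simp only [List.length_replicate]
        rw [e3, Finset.sum_range_reflect (fun i => 2 ^ i) t]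
        have := Nat.geomSum_lt (m := 2) (n := t) (s := range t) (by norm_num)
          (fun i hi => mem_range.1 hi)
        exact Nat.mul_le_mul_left _ this.le
      omega
    · simp only [Fintype.card_sum, Fintype.card_fin, Fintype.card_coe]
      exact hj
  have h2 := K.subst ({a // a ∈ A} ⊕ Fin t) (κ ⊕ ℕ) _
    (Sum.elim (fun a => Sum.inl (Sum.inl a.1)) fun i => Sum.inl (Sum.inr (i : ℕ))) h1
  convert h2 using 1
  funext z
  unfold NTN.thrW
  rw [Finset.sum_range]
  have e : (A.filter fun a => z (Sum.inl a) = true).card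
      = (univ.filter fun a : {a // a ∈ A} => z (Sum.inl a.1) = true).card := by
    rw [Finset.card_filter, Finset.card_filter, ← Finset.sum_coe_sort A]
  rw [e]
  rfl

/-- **Composition of networks with undirected contacts.** -/
theorem netClass_subst {ι κ : Type} [Fintype κ] {S T : ℕ} (N : Net κ S) {G : κ → (ι → Bool) → Bool}
    (hG : ∀ k, (Gen.netClass T).mem ι (G k)) :
    (Gen.netClass (S + S * (S * Fintype.card κ) * T)).mem ι fun x => N.val fun k => G k x := by
  choose M hM using hG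
  obtain ⟨P, hP, -⟩ := exists_subst N M
  refine ⟨P, fun z => ?_⟩
  rw [hP]
  congr 1
  funext a
  exact hM a z

/-- **Composition of networks with directed contacts.** -/
theorem dnetClass_subst {ι κ : Type} [Fintype κ] {S T : ℕ} (N : Net κ S)
    {G : κ → (ι → Bool) → Bool} (hG : ∀ k, (Gen.dnetClass T).mem ι (G k)) :
    (Gen.dnetClass (S + S * (S * Fintype.card κ) * T)).mem ι fun x => N.dval fun k => G k x := by
  choose M hM using hG
  obtain ⟨P, -, hP⟩ := exists_subst N M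
  refine ⟨P, fun z => ?_⟩
  rw [hP]
  congr 1
  funext a
  exact hM a z

/-- constants -/
theorem HasThr_const {K : Gen.MonoClass} {i j : ℕ} (hK : HasThr K i j) (hj : 2 ≤ j) {ι : Type}
    (c : Bool) : K.mem ι fun _ => c := by
  have h1 : K.mem Unit fun u => u () := hK.var hj ()
  exact K.subst Unit ι _ (fun _ => Sum.inr c) h1

theorem wide_sizes {k d : ℕ} (hd : 1 ≤ d) (hdk : d ≤ k) :
    2 * (k + d * 2 ^ (Nat.log 2 (k / d) + 1)) + 1 ≤ 4 * 2 ^ (Nat.log 2 k + 2) ∧
    3 * (k + (Nat.log 2 (k / d) + 1)) ≤ 2 ^ (Nat.log 2 k + 4) := by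
  have h1 : k < 2 ^ (Nat.log 2 k + 1) := Nat.lt_pow_succ_log_self (by norm_num) k
  have h0 : 1 ≤ k / d := (Nat.one_le_div_iff (by omega)).2 hdk
  have h2 : 2 ^ Nat.log 2 (k / d) ≤ k / d := Nat.pow_log_le_self 2 (by omega)
  have h3 : Nat.log 2 k < k := Nat.log_lt_self 2 (by omega)
  have h4 : Nat.log 2 (k / d) ≤ Nat.log 2 k := Nat.log_mono_right (Nat.div_le_self k d)
  have e1 : 2 ^ (Nat.log 2 k + 1) = 2 * 2 ^ Nat.log 2 k := by rw [pow_succ]; ring
  have e2 : 2 ^ (Nat.log 2 k + 2) = 4 * 2 ^ Nat.log 2 k := by rw [pow_add]; ring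
  have e4 : 2 ^ (Nat.log 2 k + 4) = 16 * 2 ^ Nat.log 2 k := by rw [pow_add]; ring
  have h5 : d * 2 ^ (Nat.log 2 (k / d) + 1) ≤ 2 * k := by
    calc d * 2 ^ (Nat.log 2 (k / d) + 1) = 2 * (d * 2 ^ Nat.log 2 (k / d)) := by
          rw [pow_succ]; ring
      _ ≤ 2 * (d * (k / d)) := Nat.mul_le_mul_left _ (Nat.mul_le_mul_left _ h2)
      _ ≤ 2 * k := Nat.mul_le_mul_left _ (Nat.mul_div_le k d)
  exact ⟨by omega, by omega⟩

/-- The number of nodes after `r` substitutions. -/
theorem wide_step {m S T : ℕ} (hm : 1 ≤ m) (hS : 1 ≤ S) (hT : 1 ≤ T) :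
    S + S * (S * (m + m)) * T ≤ T * (4 * m * S ^ 2) := by
  rw [← mul_assoc S S]
  have h1 : S ≤ S * S * (m + m) * T := by
    calc S = S * 1 * 1 * 1 := by ring
      _ ≤ S * S * (m + m) * T :=
        Nat.mul_le_mul (Nat.mul_le_mul (Nat.mul_le_mul_left _ hS) (by omega)) hT
  calc S + S * S * (m + m) * T ≤ S * S * (m + m) * T + S * S * (m + m) * T :=
        Nat.add_le_add_right h1 _
    _ = T * (4 * m * S ^ 2) := by ring

section

variable {ι : Type} [DecidableEq ι]

/-- the label of the negated variable `a` -/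
def negLab (U : Finset ι) (a : ι) : ι ⊕ {v // v ∉ U} :=
  if h : a ∉ U then Sum.inr ⟨a, h⟩ else Sum.inl a

theorem negLab_val (U : Finset ι) (x : ι → Bool) {a : ι} (ha : a ∉ U) :
    (Sum.elim x fun v : {v // v ∉ U} => !x v) (negLab U a) = !x a := by
  unfold negLab
  rw [dif_pos ha]
  rfl

/-- **The general form**: classes `K r` closed under one more substitution into `F`. -/
theorem notGatesOn_wide (U : Finset ι) {d : ℕ} (hd : 1 ≤ d) (hdk : d ≤ U.card)
    (K : ℕ → Gen.MonoClass) (hK : HasThr (K 0) (Nat.log 2 U.card + 2) (Nat.log 2 U.card + 4))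
    (hle : ∀ (r : ℕ) (τ : Type) (G : (τ → Bool) → Bool), (K r).mem τ G → (K (r + 1)).mem τ G)
    {F : (ι ⊕ ι → Bool) → Bool} (hF : Monotone F) (hf : 1 < d → Monotone fun x => F (lits x))
    (hs : ∀ (r : ℕ) (τ : Type) (G : ι ⊕ ι → (τ → Bool) → Bool), (∀ a, (K r).mem τ (G a)) →
      (K (r + 1)).mem τ fun z => F fun a => G a z) :
    NotGatesOn (K d) U (Nat.log 2 (U.card / d) + 1) fun x => F (lits x) := by
  classical
  obtain ⟨s1, s2⟩ := wide_sizes hd hdk
  have hle' : ∀ (r : ℕ) (τ : Type) (G : (τ → Bool) → Bool), (K 0).mem τ G → (K r).mem τ G := by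
    intro r
    induction r with
    | zero => exact fun τ G h => h
    | succ r ih => exact fun τ G h => hle r τ G (ih τ G h)
  have hthr : ∀ (A : Finset (ι ⊕ {v // v ∉ U})), A.card ≤ U.card → ∀ θ,
      (K 0).mem ((ι ⊕ {v // v ∉ U}) ⊕ ℕ) (thrW (Nat.log 2 (U.card / d) + 1) d θ A) := by
    intro A hA θ
    exact HasThr_thrW hK A (by omega) (by omega) θ
  obtain ⟨ls, P, h1, h2, h3, h4, h5⟩ := wide_gen (U := U) (p := Sum.inl) (q := negLab U)
    Sum.inl_injective hd (Nat.lt_pow_succ_log_self (by norm_num) (U.card / d)) (K d)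
    (fun θ => hle' d _ _ (hthr _ Finset.card_image_le θ)) hF hf
    (nest_mem K (fun r a => hle' r _ _ (hK.var (by omega) _))
      (fun r a _ => hle' r _ _ (hK.var (by omega) _))
      (fun r c => hle' r _ _ (HasThr_const hK (by omega) c))
      (fun I => hthr _ (Finset.card_image_le.trans (card_le_card sdiff_subset)) _)
      (fun r G hG => hs r _ G hG) d ∅)
  refine ⟨fun y => P (Gen.seen y (Gen.nots y ls [])), ⟨ls, P, sum_of_ones h1 h2, h3, h4,
    fun _ => rfl⟩, fun x => ?_⟩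
  exact (h5 x _ (fun _ => rfl) fun a ha => negLab_val U x ha).symm

variable [Fintype ι]

/-- **Switching networks.** -/
theorem notGatesOn_net (U : Finset ι) {d S : ℕ} (hd : 1 ≤ d) (hdk : d ≤ U.card)
    (M : Net (ι ⊕ ι) S) (hf : 1 < d → Monotone fun x => M.val (lits x)) :
    NotGatesOn (Gen.netClass (2 ^ 32 * U.card ^ 9 * (4 * Fintype.card ι * S ^ 2) ^ d)) U
      (Nat.log 2 (U.card / d) + 1) fun x => M.val (lits x) := by
  have hk : 1 ≤ U.card := hd.trans hdk
  have hm : 1 ≤ Fintype.card ι := hk.trans (card_le_univ U)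
  have hS : 1 ≤ S := Nat.succ_le_of_lt (Nat.lt_of_le_of_lt (Nat.zero_le _) M.src.isLt)
  have hT : ∀ r, 1 ≤ 2 ^ 32 * U.card ^ 9 * (4 * Fintype.card ι * S ^ 2) ^ r := fun r =>
    Nat.mul_pos (Nat.mul_pos (by norm_num) (Nat.pow_pos hk))
      (Nat.pow_pos (Nat.mul_pos (Nat.mul_pos (by norm_num) hm) (Nat.pow_pos hS)))
  refine notGatesOn_wide U hd hdk
    (fun r => Gen.netClass (2 ^ 32 * U.card ^ 9 * (4 * Fintype.card ι * S ^ 2) ^ r)) ?_ ?_
    (F := M.val) ((Gen.netClass S).mono _ _ ⟨M, fun _ => rfl⟩) hf ?_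
  · intro β _ g L θ hg hL hi hj
    refine netClass_le ?_ (hasThr_net _ _ β g L θ hg hL hi hj)
    rw [pow_zero, mul_one]
    exact (sizes hk).2.2
  · intro r τ G h
    refine netClass_le ?_ h
    exact Nat.mul_le_mul_left _ (Nat.pow_le_pow_right
      (Nat.mul_pos (Nat.mul_pos (by norm_num) hm) (Nat.pow_pos hS)) (Nat.le_succ r))
  · intro r τ G hG
    refine netClass_le ?_ (netClass_subst M hG)
    rw [Fintype.card_sum, pow_succ (4 * Fintype.card ι * S ^ 2) r, ← mul_assoc (2 ^ 32 * U.card ^ 9)]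
    exact wide_step hm hS (hT r)

/-- **Networks with directed contacts.** -/
theorem notGatesOn_dnet (U : Finset ι) {d S : ℕ} (hd : 1 ≤ d) (hdk : d ≤ U.card)
    (M : Net (ι ⊕ ι) S) (hf : 1 < d → Monotone fun x => M.dval (lits x)) :
    NotGatesOn (Gen.dnetClass (2 ^ 32 * U.card ^ 9 * (4 * Fintype.card ι * S ^ 2) ^ d)) U
      (Nat.log 2 (U.card / d) + 1) fun x => M.dval (lits x) := by
  have hk : 1 ≤ U.card := hd.trans hdk
  have hm : 1 ≤ Fintype.card ι := hk.trans (card_le_univ U)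
  have hS : 1 ≤ S := Nat.succ_le_of_lt (Nat.lt_of_le_of_lt (Nat.zero_le _) M.src.isLt)
  have hT : ∀ r, 1 ≤ 2 ^ 32 * U.card ^ 9 * (4 * Fintype.card ι * S ^ 2) ^ r := fun r =>
    Nat.mul_pos (Nat.mul_pos (by norm_num) (Nat.pow_pos hk))
      (Nat.pow_pos (Nat.mul_pos (Nat.mul_pos (by norm_num) hm) (Nat.pow_pos hS)))
  refine notGatesOn_wide U hd hdk
    (fun r => Gen.dnetClass (2 ^ 32 * U.card ^ 9 * (4 * Fintype.card ι * S ^ 2) ^ r)) ?_ ?_
    (F := M.dval) ((Gen.dnetClass S).mono _ _ ⟨M, fun _ => rfl⟩) hf ?_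
  · intro β _ g L θ hg hL hi hj
    refine dnetClass_le ?_ (hasThr_dnet _ _ β g L θ hg hL hi hj)
    rw [pow_zero, mul_one]
    exact (sizes hk).2.2
  · intro r τ G h
    refine dnetClass_le ?_ h
    exact Nat.mul_le_mul_left _ (Nat.pow_le_pow_right
      (Nat.mul_pos (Nat.mul_pos (by norm_num) hm) (Nat.pow_pos hS)) (Nat.le_succ r))
  · intro r τ G hG
    refine dnetClass_le ?_ (dnetClass_subst M hG)
    rw [Fintype.card_sum, pow_succ (4 * Fintype.card ι * S ^ 2) r, ← mul_assoc (2 ^ 32 * U.card ^ 9)]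
    exact wide_step hm hS (hT r)

omit [Fintype ι] in
/-- **Comparator circuits.** -/
theorem notGatesOn_comp (U : Finset ι) {d S : ℕ} (hd : 1 ≤ d) (hdk : d ≤ U.card)
    (M : CompCirc (ι ⊕ ι) S) (hf : 1 < d → Monotone fun x => M.val (lits x)) :
    NotGatesOn (compClass (2 ^ 16 * U.card ^ 5 * S ^ d)) U
      (Nat.log 2 (U.card / d) + 1) fun x => M.val (lits x) := by
  have hk : 1 ≤ U.card := hd.trans hdk
  have hS : 1 ≤ S := Nat.succ_le_of_lt (Nat.lt_of_le_of_lt (Nat.zero_le _) M.out.isLt)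
  have hT : ∀ r, 1 ≤ 2 ^ 16 * U.card ^ 5 * S ^ r := fun r =>
    Nat.mul_pos (Nat.mul_pos (by norm_num) (Nat.pow_pos hk)) (Nat.pow_pos hS)
  refine notGatesOn_wide U hd hdk
    (fun r => compClass (2 ^ 16 * U.card ^ 5 * S ^ r)) ?_ ?_
    (F := M.val) ((compClass S).mono _ _ ⟨M, fun _ => rfl⟩) hf ?_
  · intro β _ g L θ hg hL hi hj
    refine compClass_le ?_ (hasThr_comp _ _ β g L θ hg hL hi hj)
    rw [pow_zero, mul_one]
    exact comp_size hk
  · intro r τ G h
    refine compClass_le ?_ h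
    exact Nat.mul_le_mul_left _ (Nat.pow_le_pow_right hS (Nat.le_succ r))
  · intro r τ G hG
    refine compClass_le ?_ (compClass_comp M G hG (hT r))
    rw [pow_succ S r, mul_comm S, mul_assoc]

theorem wide_size {k m S d : ℕ} (hd : 1 ≤ d) (hkm : k ≤ m) :
    2 ^ 32 * k ^ 9 * (4 * m * S ^ 2) ^ d ≤ (2 ^ 34 * m ^ 10 * S ^ 2) ^ d := by
  have h1 : 2 ^ 32 * k ^ 9 ≤ (2 ^ 32 * m ^ 9) ^ d :=
    (Nat.mul_le_mul_left _ (Nat.pow_le_pow_left hkm 9)).trans
      (Nat.le_self_pow (by omega) _)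
  calc 2 ^ 32 * k ^ 9 * (4 * m * S ^ 2) ^ d ≤ (2 ^ 32 * m ^ 9) ^ d * (4 * m * S ^ 2) ^ d :=
        Nat.mul_le_mul_right _ h1
    _ = (2 ^ 34 * m ^ 10 * S ^ 2) ^ d := by
        rw [← mul_pow]
        congr 1
        ring

theorem wide_size_comp {k m S d : ℕ} (hd : 1 ≤ d) (hm : 1 ≤ m) (hkm : k ≤ m) (hS : 1 ≤ S) :
    2 ^ 16 * k ^ 5 * S ^ d ≤ (2 ^ 34 * m ^ 10 * S ^ 2) ^ d := by
  have h0 : 2 ^ 16 * k ^ 5 ≤ 2 ^ 34 * m ^ 10 :=
    Nat.mul_le_mul (by norm_num) ((Nat.pow_le_pow_left hkm 5).trans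
      (Nat.pow_le_pow_right hm (by norm_num)))
  have h1 : 2 ^ 16 * k ^ 5 ≤ (2 ^ 34 * m ^ 10) ^ d := h0.trans (Nat.le_self_pow (by omega) _)
  have h2 : S ^ d ≤ (S ^ 2) ^ d := Nat.pow_le_pow_left (by
    rw [pow_two]
    exact Nat.le_mul_of_pos_left _ hS) d
  calc 2 ^ 16 * k ^ 5 * S ^ d ≤ (2 ^ 34 * m ^ 10) ^ d * (S ^ 2) ^ d := Nat.mul_le_mul h1 h2
    _ = (2 ^ 34 * m ^ 10 * S ^ 2) ^ d := by rw [← mul_pow]

/-- **`⌊log₂ (|U| / d)⌋ + 1` NOT gates which see `U` suffice**: for all functions if `d = 1`, for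
all monotone functions if `1 ≤ d ≤ |U|`; the three kinds of devices. -/
theorem wide_suffice (U : Finset ι) {d S : ℕ} (hd : 1 ≤ d) (hdk : d ≤ U.card) :
    (∀ M : Net (ι ⊕ ι) S, (1 < d → Monotone fun x => M.val (lits x)) →
      NotGatesOn (Gen.netClass ((2 ^ 34 * Fintype.card ι ^ 10 * S ^ 2) ^ d)) U
        (Nat.log 2 (U.card / d) + 1) fun x => M.val (lits x)) ∧
    (∀ M : Net (ι ⊕ ι) S, (1 < d → Monotone fun x => M.dval (lits x)) →
      NotGatesOn (Gen.dnetClass ((2 ^ 34 * Fintype.card ι ^ 10 * S ^ 2) ^ d)) U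
        (Nat.log 2 (U.card / d) + 1) fun x => M.dval (lits x)) ∧
    ∀ M : CompCirc (ι ⊕ ι) S, (1 < d → Monotone fun x => M.val (lits x)) →
      NotGatesOn (compClass ((2 ^ 34 * Fintype.card ι ^ 10 * S ^ 2) ^ d)) U
        (Nat.log 2 (U.card / d) + 1) fun x => M.val (lits x) := by
  have hk : 1 ≤ U.card := hd.trans hdk
  have hkm : U.card ≤ Fintype.card ι := card_le_univ U
  have hm : 1 ≤ Fintype.card ι := hk.trans hkm
  refine ⟨fun M hf => ?_, fun M hf => ?_, fun M hf => ?_⟩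
  · obtain ⟨B, ⟨ls, P, h1, h2, h3, h4⟩, h5⟩ := notGatesOn_net U hd hdk M hf
    exact ⟨B, ⟨ls, P, h1, fun l hl G hG => netClass_le (wide_size hd hkm) (h2 l hl G hG),
      netClass_le (wide_size hd hkm) h3, h4⟩, h5⟩
  · obtain ⟨B, ⟨ls, P, h1, h2, h3, h4⟩, h5⟩ := notGatesOn_dnet U hd hdk M hf
    exact ⟨B, ⟨ls, P, h1, fun l hl G hG => dnetClass_le (wide_size hd hkm) (h2 l hl G hG),
      dnetClass_le (wide_size hd hkm) h3, h4⟩, h5⟩
  · have hS : 1 ≤ S := Nat.succ_le_of_lt (Nat.lt_of_le_of_lt (Nat.zero_le _) M.out.isLt)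
    obtain ⟨B, ⟨ls, P, h1, h2, h3, h4⟩, h5⟩ := notGatesOn_comp U hd hdk M hf
    exact ⟨B, ⟨ls, P, h1, fun l hl G hG => compClass_le (wide_size_comp hd hm hkm hS) (h2 l hl G hG),
      compClass_le (wide_size_comp hd hm hkm hS) h3, h4⟩, h5⟩

end

end Pool.Agent.XL
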