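import Mathlib

set_option autoImplicit false

/-!
# Decompositions (span programs in dual form): the definition
-/

namespace Pool.Agent.XL

/-- A decomposition of size `S` over the field `F` (a monotone span program, in dual form). -/
def Decomp (F : Type) [Field F] {ι : Type} (S : ℕ) (f : (ι → Bool) → Bool) : Prop :=
  ∃ (label : Fin S → Option ι) (u v : Fin S → (ι → Bool) → F),
    (∀ i x, f x = true → u i x ≠ 0 → ∀ e ∈ label i, x e = true) ∧
    (∀ i y, f y = false → v i y ≠ 0 → ∃ e ∈ label i, y e = false) ∧
    ∀ x y, f x = true → f y = false → ∑ i, u i x * v i y = 1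

end Pool.Agent.XL
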