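import Pool.Agent.XL.Sys

/-!
# Project XL, module Exp: systems of linear equations with expansion, by counting

Existence of an expanding system of `4000 d` equations with `2000 d` unknowns, of a right hand side
without solution, and the number of small sets of equations.
-/

namespace Pool.Agent.XL

open Finset

/-- The unknowns which occur an odd number of times in the equations in `T`. -/
theorem mem_supp_iff {M m : ℕ} (e : Fin M → Fin 8 → Fin m) (T : Finset (Fin M)) (j : Fin m) :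
    j ∈ supp e T ↔
      Odd ((T ×ˢ (univ : Finset (Fin 8))).filter fun p => e p.1 p.2 = j).card := by
  have h : par e T j =
      (((T ×ˢ (univ : Finset (Fin 8))).filter fun p => e p.1 p.2 = j).card : ZMod 2) := by
    unfold par
    rw [card_filter, Nat.cast_sum, sum_product]
    simp
  unfold supp
  rw [mem_filter, h, ← Nat.not_even_iff_odd, ← ZMod.natCast_eq_zero_iff_even]
  simp

/-- If fewer than `|T|` unknowns occur an odd number of times in `T`, then at most `5 |T|`
unknowns occur in `T`. -/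
theorem card_image_le {M m : ℕ} (e : Fin M → Fin 8 → Fin m) (T : Finset (Fin M))
    (h : (supp e T).card < T.card) :
    ((T ×ˢ (univ : Finset (Fin 8))).image fun p => e p.1 p.2).card ≤ 5 * T.card := by
  classical
  set P := T ×ˢ (univ : Finset (Fin 8)) with hP
  set I := P.image fun p => e p.1 p.2 with hI
  have hPc : P.card = 8 * T.card := by
    rw [hP, card_product]; simp [mul_comm]
  have h1 : P.card = ∑ j ∈ I, (P.filter fun p => e p.1 p.2 = j).card :=
    card_eq_sum_card_image _ _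
  have h2 : ∑ j ∈ I, (2 - if j ∈ supp e T then 1 else 0) ≤
      ∑ j ∈ I, (P.filter fun p => e p.1 p.2 = j).card := by
    refine sum_le_sum fun j hj => ?_
    have hpos : 0 < (P.filter fun p => e p.1 p.2 = j).card := by
      obtain ⟨p, hp, hpj⟩ := mem_image.1 hj
      exact card_pos.2 ⟨p, mem_filter.2 ⟨hp, hpj⟩⟩
    by_cases hs : j ∈ supp e T
    · rw [if_pos hs]; omega
    · rw [if_neg hs]
      have he : ¬ Odd (P.filter fun p => e p.1 p.2 = j).card := by
        intro ho
        exact hs ((mem_supp_iff e T j).2 ho)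
      rw [Nat.not_odd_iff_even] at he
      obtain ⟨k, hk⟩ := he
      omega
  have h3 : ∑ j ∈ I, (2 - if j ∈ supp e T then 1 else 0) + (supp e T).card ≥ 2 * I.card := by
    have h4 : ∑ j ∈ I, (2 - if j ∈ supp e T then 1 else 0) +
        ∑ j ∈ I, (if j ∈ supp e T then 1 else 0) = ∑ j ∈ I, 2 := by
      rw [← sum_add_distrib]
      refine sum_congr rfl fun j _ => ?_
      split_ifs <;> rfl
    have h5 : ∑ j ∈ I, (if j ∈ supp e T then 1 else 0) ≤ (supp e T).card := by
      rw [← card_filter]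
      refine card_le_card fun j hj => (mem_filter.1 hj).2
    have h6 : ∑ j ∈ I, 2 = 2 * I.card := by
      rw [sum_const, smul_eq_mul, mul_comm]
    omega
  omega

/-- The number of systems all of whose equations in `T` have their unknowns in `A`. -/
theorem card_inside {M m : ℕ} (T : Finset (Fin M)) (A : Finset (Fin m)) :
    ((univ : Finset (Fin M → Fin 8 → Fin m)).filter fun e => ∀ i ∈ T, ∀ c, e i c ∈ A).card =
      (A.card ^ 8) ^ T.card * (m ^ 8) ^ (M - T.card) := by
  classical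
  have h : ((univ : Finset (Fin M → Fin 8 → Fin m)).filter fun e => ∀ i ∈ T, ∀ c, e i c ∈ A) =
      Fintype.piFinset fun i : Fin M =>
        if i ∈ T then Fintype.piFinset (fun _ : Fin 8 => A) else univ := by
    ext e
    simp only [mem_filter, mem_univ, true_and, Fintype.mem_piFinset]
    constructor
    · intro h i
      by_cases hi : i ∈ T
      · simpa [hi] using h i hi
      · simp [hi]
    · intro h i hi c
      have := h i
      simp only [hi, if_true, Fintype.mem_piFinset] at this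
      exact this c
  rw [h, Fintype.card_piFinset]
  have h2 : ∀ i : Fin M, (if i ∈ T then Fintype.piFinset (fun _ : Fin 8 => A)
      else (univ : Finset (Fin 8 → Fin m))).card = if i ∈ T then A.card ^ 8 else m ^ 8 := by
    intro i
    split_ifs
    · rw [Fintype.card_piFinset]; simp
    · simp
  rw [prod_congr rfl fun i _ => h2 i, prod_ite, prod_const, prod_const]
  congr 2
  · simp
  · have : (univ.filter fun i : Fin M => i ∉ T) = Tᶜ := by ext; simp
    rw [this, card_compl, Fintype.card_fin]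

theorem pow_self_le (n : ℕ) : (n : ℝ) ^ n ≤ 3 ^ n * n.factorial := by
  have h1 := Real.pow_div_factorial_le_exp (n : ℝ) (Nat.cast_nonneg n) n
  have h2 : (0 : ℝ) < n.factorial := by exact_mod_cast Nat.factorial_pos n
  rw [div_le_iff₀ h2] at h1
  have h3 : Real.exp n ≤ 3 ^ n := by
    have : Real.exp (n : ℝ) = Real.exp 1 ^ n := by
      rw [← Real.exp_nat_mul]; simp
    rw [this]
    exact pow_le_pow_left₀ (Real.exp_pos 1).le (by have := Real.exp_one_lt_d9; linarith) n
  exact h1.trans (mul_le_mul_of_nonneg_right h3 h2.le)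

theorem choose_le (n k : ℕ) (hk : 1 ≤ k) : ((n.choose k : ℕ) : ℝ) ≤ (3 * n / k) ^ k := by
  have h1 : ((n.choose k : ℕ) : ℝ) ≤ (n : ℝ) ^ k / k.factorial := Nat.choose_le_pow_div k n
  refine h1.trans ?_
  have hk0 : (0 : ℝ) < k := by exact_mod_cast hk
  have h2 : (0 : ℝ) < k.factorial := by exact_mod_cast Nat.factorial_pos k
  rw [div_pow, mul_pow, div_le_div_iff₀ h2 (pow_pos hk0 k)]
  have := mul_le_mul_of_nonneg_left (pow_self_le k) (pow_nonneg (Nat.cast_nonneg (α := ℝ) n) k)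
  calc (n : ℝ) ^ k * (k : ℝ) ^ k ≤ (n : ℝ) ^ k * (3 ^ k * k.factorial) := this
    _ = 3 ^ k * (n : ℝ) ^ k * k.factorial := by ring

/-- One term of the sum. -/
theorem term_le (d t : ℕ) (ht : 1 ≤ t) (htd : t ≤ 2 * d) :
    (((4000 * d).choose t * ((2000 * d).choose (5 * t) *
      (((5 * t) ^ 8) ^ t * ((2000 * d) ^ 8) ^ (4000 * d - t))) : ℕ) : ℝ) ≤
      (1 / 4) ^ t * (((2000 * d : ℕ) : ℝ) ^ 8) ^ (4000 * d) := by
  have hd : 1 ≤ d := by omega
  have h1 := choose_le (4000 * d) t ht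
  have h2 := choose_le (2000 * d) (5 * t) (by omega)
  have ht0 : (0 : ℝ) < t := by exact_mod_cast ht
  have hd0 : (0 : ℝ) < d := by exact_mod_cast hd
  have htd' : (t : ℝ) ≤ 2 * d := by exact_mod_cast htd
  have hm0 : (0 : ℝ) < ((2000 * d : ℕ) : ℝ) := by push_cast; positivity
  have hkey : (3 * ((4000 * d : ℕ) : ℝ) / t) * (3 * ((2000 * d : ℕ) : ℝ) / ((5 * t : ℕ) : ℝ)) ^ 5 *
      ((5 * t : ℕ) : ℝ) ^ 8 ≤ (1 / 4) * ((2000 * d : ℕ) : ℝ) ^ 8 := by
    push_cast
    have : (3 * (4000 * (d : ℝ)) / t) * (3 * (2000 * (d : ℝ)) / (5 * t)) ^ 5 * (5 * (t : ℝ)) ^ 8 =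
        12000 * 1200 ^ 5 * 390625 * d ^ 6 * t ^ 2 := by
      field_simp
      ring
    rw [this]
    have h4 : (t : ℝ) ^ 2 ≤ 4 * d ^ 2 := by nlinarith
    calc (12000 : ℝ) * 1200 ^ 5 * 390625 * d ^ 6 * t ^ 2
        ≤ 12000 * 1200 ^ 5 * 390625 * d ^ 6 * (4 * d ^ 2) := by gcongr
      _ ≤ (1 / 4) * (2000 * (d : ℝ)) ^ 8 := by
          have h8 : (0 : ℝ) ≤ (d : ℝ) ^ 8 := by positivity
          nlinarith [h8]
  have hpow := pow_le_pow_left₀ (by positivity) hkey t
  rw [mul_pow, mul_pow, mul_pow, ← pow_mul _ 5 t] at hpow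
  have hsplit : (((2000 * d : ℕ) : ℝ) ^ 8) ^ (4000 * d) =
      (((2000 * d : ℕ) : ℝ) ^ 8) ^ t * (((2000 * d : ℕ) : ℝ) ^ 8) ^ (4000 * d - t) := by
    rw [← pow_add]; congr 1; omega
  have hc : (((4000 * d).choose t * ((2000 * d).choose (5 * t) *
      (((5 * t) ^ 8) ^ t * ((2000 * d) ^ 8) ^ (4000 * d - t))) : ℕ) : ℝ) =
      (((4000 * d).choose t : ℕ) : ℝ) * ((((2000 * d).choose (5 * t) : ℕ) : ℝ) *
      ((((5 * t : ℕ) : ℝ) ^ 8) ^ t * (((2000 * d : ℕ) : ℝ) ^ 8) ^ (4000 * d - t))) := by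
    push_cast; ring
  rw [hsplit, hc]
  have hR : (0 : ℝ) ≤ (((2000 * d : ℕ) : ℝ) ^ 8) ^ (4000 * d - t) := by positivity
  have hX : (0 : ℝ) ≤ (((5 * t : ℕ) : ℝ) ^ 8) ^ t := by positivity
  calc (((4000 * d).choose t : ℕ) : ℝ) * ((((2000 * d).choose (5 * t) : ℕ) : ℝ) *
      ((((5 * t : ℕ) : ℝ) ^ 8) ^ t * (((2000 * d : ℕ) : ℝ) ^ 8) ^ (4000 * d - t)))
      ≤ (3 * ((4000 * d : ℕ) : ℝ) / t) ^ t *
        ((3 * ((2000 * d : ℕ) : ℝ) / ((5 * t : ℕ) : ℝ)) ^ (5 * t) *
        ((((5 * t : ℕ) : ℝ) ^ 8) ^ t * (((2000 * d : ℕ) : ℝ) ^ 8) ^ (4000 * d - t))) := by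
        gcongr
    _ = ((3 * ((4000 * d : ℕ) : ℝ) / t) ^ t *
        (3 * ((2000 * d : ℕ) : ℝ) / ((5 * t : ℕ) : ℝ)) ^ (5 * t) *
        (((5 * t : ℕ) : ℝ) ^ 8) ^ t) * (((2000 * d : ℕ) : ℝ) ^ 8) ^ (4000 * d - t) := by ring
    _ ≤ ((1 / 4) ^ t * (((2000 * d : ℕ) : ℝ) ^ 8) ^ t) *
        (((2000 * d : ℕ) : ℝ) ^ 8) ^ (4000 * d - t) := mul_le_mul_of_nonneg_right hpow hR
    _ = _ := by ring

theorem geom_lt (n : ℕ) : ∑ t ∈ Icc 1 n, (1 / 4 : ℝ) ^ t ≤ 1 / 3 := by
  have h : ∀ n : ℕ, ∑ t ∈ Icc 1 n, (1 / 4 : ℝ) ^ t = 1 / 3 - 1 / 3 * (1 / 4) ^ n := by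
    intro n
    induction n with
    | zero => norm_num
    | succ k ih =>
      rw [sum_Icc_succ_top (by omega), ih, pow_succ]; ring
  rw [h]
  have : (0 : ℝ) ≤ (1 / 4) ^ n := by positivity
  linarith

/-- Expansion, by counting: every set of `t ≤ 2 d` equations has at least `t` unknowns which occur
an odd number of times. -/
theorem exists_expand (d : ℕ) (hd : 1 ≤ d) : ∃ e : Fin (4000 * d) → Fin 8 → Fin (2000 * d),
    Expand d e := by
  classical
  by_contra hcon
  have hcon : ∀ e : Fin (4000 * d) → Fin 8 → Fin (2000 * d), ∃ T : Finset (Fin (4000 * d)),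
      T.card ≤ 2 * d ∧ (supp e T).card < T.card := by
    intro e
    by_contra h
    refine hcon ⟨e, fun T hT => ?_⟩
    by_contra h2
    exact h ⟨T, hT, not_le.1 h2⟩
  have hcover : (univ : Finset (Fin (4000 * d) → Fin 8 → Fin (2000 * d))) ⊆
      (Icc 1 (2 * d)).biUnion fun t => (powersetCard t univ).biUnion fun T =>
        (powersetCard (5 * t) univ).biUnion fun A => univ.filter fun e => ∀ i ∈ T, ∀ c, e i c ∈ A := by
    intro e _
    obtain ⟨T, hT, hlt⟩ := hcon e
    have hI := card_image_le e T hlt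
    obtain ⟨A, hA, hAc⟩ := exists_superset_card_eq hI (by rw [Fintype.card_fin]; omega)
    simp only [mem_biUnion, mem_Icc, mem_powersetCard_univ, mem_filter, mem_univ, true_and]
    refine ⟨T.card, ⟨by omega, hT⟩, T, rfl, A, hAc, fun i hi c => hA ?_⟩
    exact mem_image.2 ⟨(i, c), by simp [hi], rfl⟩
  have hcard := card_le_card hcover
  have h1 : (univ : Finset (Fin (4000 * d) → Fin 8 → Fin (2000 * d))).card =
      ((2000 * d) ^ 8) ^ (4000 * d) := by simp
  rw [h1] at hcard
  have h2 : ((Icc 1 (2 * d)).biUnion fun t => (powersetCard t univ).biUnion fun T =>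
        (powersetCard (5 * t) univ).biUnion fun A =>
          (univ : Finset (Fin (4000 * d) → Fin 8 → Fin (2000 * d))).filter
            fun e => ∀ i ∈ T, ∀ c, e i c ∈ A).card ≤
      ∑ t ∈ Icc 1 (2 * d), (4000 * d).choose t * ((2000 * d).choose (5 * t) *
        (((5 * t) ^ 8) ^ t * ((2000 * d) ^ 8) ^ (4000 * d - t))) := by
    refine card_biUnion_le.trans (sum_le_sum fun t _ => ?_)
    refine card_biUnion_le.trans ?_
    have h3 : ∀ T ∈ powersetCard t (univ : Finset (Fin (4000 * d))),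
        ((powersetCard (5 * t) univ).biUnion fun A =>
          (univ : Finset (Fin (4000 * d) → Fin 8 → Fin (2000 * d))).filter
            fun e => ∀ i ∈ T, ∀ c, e i c ∈ A).card ≤
        (2000 * d).choose (5 * t) *
          (((5 * t) ^ 8) ^ t * ((2000 * d) ^ 8) ^ (4000 * d - t)) := by
      intro T hT
      rw [mem_powersetCard_univ] at hT
      refine card_biUnion_le.trans ?_
      have h4 : ∀ A ∈ powersetCard (5 * t) (univ : Finset (Fin (2000 * d))),
          ((univ : Finset (Fin (4000 * d) → Fin 8 → Fin (2000 * d))).filter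
            fun e => ∀ i ∈ T, ∀ c, e i c ∈ A).card =
          ((5 * t) ^ 8) ^ t * ((2000 * d) ^ 8) ^ (4000 * d - t) := by
        intro A hA
        rw [mem_powersetCard_univ] at hA
        rw [card_inside, hA, hT]
      rw [sum_congr rfl h4, sum_const, smul_eq_mul, card_powersetCard, card_univ, Fintype.card_fin]
    refine (sum_le_sum h3).trans ?_
    rw [sum_const, smul_eq_mul, card_powersetCard, card_univ, Fintype.card_fin]
  have h5 := hcard.trans h2
  have h6 : (((2000 * d : ℕ) : ℝ) ^ 8) ^ (4000 * d) ≤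
      1 / 3 * (((2000 * d : ℕ) : ℝ) ^ 8) ^ (4000 * d) := by
    calc (((2000 * d : ℕ) : ℝ) ^ 8) ^ (4000 * d) =
        ((((2000 * d) ^ 8) ^ (4000 * d) : ℕ) : ℝ) := by push_cast; ring
      _ ≤ ((∑ t ∈ Icc 1 (2 * d), (4000 * d).choose t * ((2000 * d).choose (5 * t) *
        (((5 * t) ^ 8) ^ t * ((2000 * d) ^ 8) ^ (4000 * d - t))) : ℕ) : ℝ) := by
          exact_mod_cast h5
      _ = ∑ t ∈ Icc 1 (2 * d), (((4000 * d).choose t * ((2000 * d).choose (5 * t) *
        (((5 * t) ^ 8) ^ t * ((2000 * d) ^ 8) ^ (4000 * d - t))) : ℕ) : ℝ) := by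
          rw [Nat.cast_sum]
      _ ≤ ∑ t ∈ Icc 1 (2 * d), (1 / 4) ^ t * (((2000 * d : ℕ) : ℝ) ^ 8) ^ (4000 * d) := by
          refine sum_le_sum fun t ht => ?_
          rw [mem_Icc] at ht
          exact term_le d t ht.1 ht.2
      _ = (∑ t ∈ Icc 1 (2 * d), (1 / 4 : ℝ) ^ t) * (((2000 * d : ℕ) : ℝ) ^ 8) ^ (4000 * d) := by
          rw [sum_mul]
      _ ≤ _ := mul_le_mul_of_nonneg_right (geom_lt _) (by positivity)
  have h7 : (0 : ℝ) < (((2000 * d : ℕ) : ℝ) ^ 8) ^ (4000 * d) := by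
    have : (0 : ℝ) < ((2000 * d : ℕ) : ℝ) := by exact_mod_cast (by omega : 0 < 2000 * d)
    positivity
  linarith

/-- With more equations than unknowns some right hand side has no solution. -/
theorem exists_rhs {M m : ℕ} (e : Fin M → Fin 8 → Fin m) (h : m < M) :
    ∃ b : Fin M → ZMod 2, ∀ z : Fin m → ZMod 2, ∃ i, viol e b z i ≠ 0 := by
  classical
  by_contra hcon
  have hsurj : Function.Surjective fun (z : Fin m → ZMod 2) (i : Fin M) => ∑ c, z (e i c) := by
    intro b
    by_contra hb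
    refine hcon ⟨b, fun z => ?_⟩
    by_contra hz
    refine hb ⟨z, funext fun i => ?_⟩
    have h1 : viol e b z i = 0 := by
      by_contra h2
      exact hz ⟨i, h2⟩
    unfold viol at h1
    have h3 : ∀ a a' : ZMod 2, a + a' = 0 → a' = a := by decide
    exact h3 _ _ h1
  have h1 := Fintype.card_le_of_surjective _ hsurj
  simp only [Fintype.card_fun, ZMod.card, Fintype.card_fin] at h1
  exact absurd ((Nat.pow_le_pow_iff_right (by norm_num)).1 h1) (by omega)

/-- The number of sets of at most `k` among `n` things, with a free parameter `w`. -/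
theorem card_le_pow (n k : ℕ) (w : ℝ) (hw : 0 < w) (hw1 : w ≤ 1) :
    (((univ : Finset (Finset (Fin n))).filter fun T => T.card ≤ k).card : ℝ) * w ^ k ≤
      Real.exp (w * n) := by
  classical
  have h1 : ∑ T : Finset (Fin n), w ^ T.card = (w + 1) ^ n := by
    have := Fintype.sum_pow_mul_eq_add_pow (Fin n) w (1 : ℝ)
    simpa using this
  have h2 : (w + 1) ^ n ≤ Real.exp (w * n) := by
    have h3 : w + 1 ≤ Real.exp w := Real.add_one_le_exp w
    calc (w + 1) ^ n ≤ Real.exp w ^ n := pow_le_pow_left₀ (by linarith) h3 n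
      _ = Real.exp (w * n) := by rw [mul_comm, ← Real.exp_nat_mul]
  refine le_trans ?_ (h1.le.trans h2)
  rw [← nsmul_eq_mul, ← sum_const]
  refine (sum_le_sum fun T hT => ?_).trans
    (sum_le_univ_sum_of_nonneg (s := (univ : Finset (Finset (Fin n))).filter fun T => T.card ≤ k)
      fun T => pow_nonneg hw.le _)
  exact pow_le_pow_of_le_one hw.le hw1 (mem_filter.1 hT).2

theorem card_small (d : ℕ) :
    (univ.filter fun T : Finset (Fin (4000 * d)) => T.card ≤ d).card ≤ 12000 ^ d := by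
  have h := card_le_pow (4000 * d) d (1 / 4000) (by norm_num) (by norm_num)
  have h1 : Real.exp (1 / 4000 * ((4000 * d : ℕ) : ℝ)) ≤ 3 ^ d := by
    have : (1 / 4000 * ((4000 * d : ℕ) : ℝ)) = (d : ℝ) * 1 := by push_cast; ring
    rw [this, Real.exp_nat_mul]
    exact pow_le_pow_left₀ (Real.exp_pos 1).le (by have := Real.exp_one_lt_d9; linarith) d
  have h2 : (((univ : Finset (Finset (Fin (4000 * d)))).filter fun T => T.card ≤ d).card : ℝ) ≤
      12000 ^ d := by
    have h3 : (0 : ℝ) < (1 / 4000) ^ d := by positivity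
    refine le_of_mul_le_mul_right (h.trans (h1.trans (le_of_eq ?_))) h3
    rw [← mul_pow]; norm_num
  exact_mod_cast h2

theorem card_small2 (d : ℕ) :
    (univ.filter fun T : Finset (Fin (4000 * d)) => T.card ≤ 2 * d).card ≤ 6000 ^ (2 * d) := by
  have h := card_le_pow (4000 * d) (2 * d) (1 / 2000) (by norm_num) (by norm_num)
  have h1 : Real.exp (1 / 2000 * ((4000 * d : ℕ) : ℝ)) ≤ 3 ^ (2 * d) := by
    have : (1 / 2000 * ((4000 * d : ℕ) : ℝ)) = ((2 * d : ℕ) : ℝ) * 1 := by push_cast; ring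
    rw [this, Real.exp_nat_mul]
    exact pow_le_pow_left₀ (Real.exp_pos 1).le (by have := Real.exp_one_lt_d9; linarith) _
  have h2 : (((univ : Finset (Finset (Fin (4000 * d)))).filter
      fun T => T.card ≤ 2 * d).card : ℝ) ≤ 6000 ^ (2 * d) := by
    have h3 : (0 : ℝ) < (1 / 2000) ^ (2 * d) := by positivity
    refine le_of_mul_le_mul_right (h.trans (h1.trans (le_of_eq ?_))) h3
    rw [← mul_pow]; norm_num
  exact_mod_cast h2

end Pool.Agent.XL
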