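import Mathlib

set_option autoImplicit false

/-!
# Inconsistency of systems of linear equations over F₂: definitions
-/

namespace Pool.Agent.XL

/-- A linear equation over `F₂` in the unknowns `0, …, n - 1` with at most three unknowns: the sum
of the unknowns in a set is a given bit. -/
abbrev Eq3 (n : ℕ) : Type := {s : Finset (Fin n) // s.card ≤ 3} × Bool

open Classical in
/-- `1` if the equations `e` with `z e = 1` have no common solution. -/
noncomputable def unsat {n : ℕ} (z : Eq3 n → Bool) : Bool :=
  decide (¬ ∃ y : Fin n → ZMod 2, ∀ e : Eq3 n, z e = true →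
    ∑ i ∈ e.1.1, y i = if e.2 then 1 else 0)

/-- The variables of a block: an equation number and coefficient vectors of its eight unknowns. -/
abbrev Bvar (M h : ℕ) : Type := Fin M × (Fin 8 → Fin h → ZMod 2)

open Classical in
/-- `1` if the equations of the block selected by `u` have no common solution. -/
noncomputable def incon {M m h : ℕ} (e : Fin M → Fin 8 → Fin m) (b : Fin M → ZMod 2)
    (u : Bvar M h → Bool) : Bool :=
  decide (¬ ∃ x : Fin m → Fin h → ZMod 2, ∀ v : Bvar M h, u v = true →
    b v.1 + ∑ c, ∑ t, v.2 c t * x (e v.1 c) t = 0)

end Pool.Agent.XL
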