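import Pool.Agent.XL.Mat

set_option autoImplicit false

/-!
# Characters and the matrix
-/

namespace Pool.Agent.XL

open Finset

variable {M m h d : ℕ} {e : Fin M → Fin 8 → Fin m}

namespace RankAux

theorem chi_sum (F : Type*) [Field F] {ι : Type*} (s : Finset ι) (f : ι → ZMod 2) :
    chi F (∑ i ∈ s, f i) = ∏ i ∈ s, chi F (f i) := by
  classical
  induction s using Finset.induction_on with
  | empty => rw [sum_empty, prod_empty, chi_zero]
  | insert a s ha ih => rw [sum_insert ha, prod_insert ha, chi_add, ih]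

theorem sum_zmod (F : Type*) [Field F] (u : ZMod 2) :
    ∑ a : ZMod 2, chi F (u * a) = if u = 0 then 2 else 0 := by
  have h1 : ∑ a : ZMod 2, chi F (u * a) = chi F (u * 0) + chi F (u * 1) := Fin.sum_univ_two _
  rw [h1, mul_zero, mul_one, chi_zero]
  by_cases h : u = 0
  · rw [if_pos h, h, chi_zero]
    norm_num
  · rw [if_neg h, chi_of_ne F h]
    ring

end RankAux

open RankAux

/-- The sum of a character. -/
theorem sum_chi (F : Type*) [Field F] (U : Fin m → Fin h → ZMod 2) :
    ∑ x : Fin m → Fin h → ZMod 2, chi F (∑ j, ip U x j) =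
      if U = 0 then (2 : F) ^ (h * m) else 0 := by
  have h1 : ∀ x : Fin m → Fin h → ZMod 2, chi F (∑ j, ip U x j) =
      ∏ j, ∏ t, chi F (U j t * x j t) := by
    intro x
    rw [chi_sum]
    refine prod_congr rfl fun j _ => ?_
    rw [ip, chi_sum]
  have h2 : ∑ x : Fin m → Fin h → ZMod 2, ∏ j, ∏ t, chi F (U j t * x j t) =
      ∏ j, ∑ y : Fin h → ZMod 2, ∏ t, chi F (U j t * y t) := by
    rw [Finset.prod_univ_sum, Fintype.piFinset_univ]
  have h3 : ∀ j, ∑ y : Fin h → ZMod 2, ∏ t, chi F (U j t * y t) =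
      ∏ t, ∑ a : ZMod 2, chi F (U j t * a) := by
    intro j
    rw [Finset.prod_univ_sum, Fintype.piFinset_univ]
  rw [sum_congr rfl fun x _ => h1 x, h2, prod_congr rfl fun j _ => h3 j]
  simp only [sum_zmod]
  by_cases hU : U = 0
  · rw [if_pos hU]
    have h4 : ∀ (j : Fin m) (t : Fin h), (if U j t = 0 then (2 : F) else 0) = 2 := by
      intro j t
      rw [hU]
      exact if_pos rfl
    simp only [h4, prod_const, card_univ, Fintype.card_fin]
    rw [← pow_mul]
  · rw [if_neg hU]
    obtain ⟨j, hj⟩ := Function.ne_iff.1 hU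
    obtain ⟨t, ht⟩ := Function.ne_iff.1 hj
    refine prod_eq_zero (mem_univ j) (prod_eq_zero (mem_univ t) ?_)
    exact if_neg ht

/-- The matrix times the characters is a multiple of the identity. -/
theorem mat_mul (F : Type*) [Field F] (hE : Expand d e) (b : Fin M → ZMod 2)
    (W V : Fin m → Fin h → ZMod 2) (hV : ∀ j, V j ≠ 0) :
    ∑ x : Fin m → Fin h → ZMod 2, mat F d e b W x * chi F (∑ j, ip V x j) =
      if W = V then (2 : F) ^ (h * m) else 0 := by
  obtain ⟨U, hU⟩ : ∃ U : Finset (Fin M) → Fin m → Fin h → ZMod 2, U = fun T j t =>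
    V j t + if j ∈ supp e T then 0 else W j t := ⟨_, rfl⟩
  have h1 : ∀ (T : Finset (Fin M)) (x : Fin m → Fin h → ZMod 2),
      chi F (∑ j, ip W x j) * chi F (∑ i ∈ T, viol e b (ip W x) i) * chi F (∑ j, ip V x j) =
        chi F (∑ i ∈ T, b i) * chi F (∑ j, ip (U T) x j) := by
    intro T x
    rw [← chi_add, ← chi_add, ← chi_add, sum_viol]
    congr 1
    have h2 : ∑ j, ip (U T) x j =
        ∑ j, ip V x j + (∑ j, ip W x j + ∑ j ∈ supp e T, ip W x j) := by
      have h3 : ∑ j ∈ supp e T, ip W x j = ∑ j, if j ∈ supp e T then ip W x j else 0 := by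
        rw [← sum_filter]
        congr 1
        ext j
        simp
      rw [h3, ← sum_add_distrib, ← sum_add_distrib]
      refine sum_congr rfl fun j _ => ?_
      rw [hU]
      by_cases hj : j ∈ supp e T
      · simp only [ip, if_pos hj, add_zero]
        have h4 : ∀ a c : ZMod 2, a = a + (c + c) := by decide
        exact h4 _ _
      · simp only [ip, if_neg hj, add_zero, add_mul]
        exact sum_add_distrib
    rw [h2]
    ring
  have h2 : ∀ x : Fin m → Fin h → ZMod 2, mat F d e b W x * chi F (∑ j, ip V x j) =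
      ∑ T ∈ TT d M, chi F (∑ i ∈ T, b i) * chi F (∑ j, ip (U T) x j) := by
    intro x
    rw [mat, sum_mul]
    exact sum_congr rfl fun T _ => h1 T x
  rw [sum_congr rfl fun x _ => h2 x, sum_comm]
  have h3 : ∀ T ∈ TT d M, ∑ x : Fin m → Fin h → ZMod 2,
      chi F (∑ i ∈ T, b i) * chi F (∑ j, ip (U T) x j) =
      chi F (∑ i ∈ T, b i) * if U T = 0 then (2 : F) ^ (h * m) else 0 := by
    intro T _
    rw [← mul_sum, sum_chi]
  rw [sum_congr rfl h3]
  have hemp : supp e ∅ = ∅ := by
    rw [supp, filter_eq_empty_iff]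
    intro j _ h
    exact h (by rw [par, sum_empty])
  have h4 : ∀ T ∈ TT d M, T ≠ ∅ →
      (chi F (∑ i ∈ T, b i) * if U T = 0 then (2 : F) ^ (h * m) else 0) = 0 := by
    intro T hT hne
    rw [if_neg, mul_zero]
    intro h0
    have h5 : (supp e T).Nonempty := by
      rw [← card_pos]
      have h6 := hE T (mem_filter.1 hT).2
      have h7 : 0 < T.card := card_pos.2 (nonempty_iff_ne_empty.2 hne)
      omega
    obtain ⟨j, hj⟩ := h5
    apply hV j
    ext t
    have h6 := congrFun (congrFun h0 j) t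
    rw [hU] at h6
    simp only [if_pos hj, add_zero] at h6
    exact h6
  have hmem : ∅ ∈ TT d M := by
    rw [TT, mem_filter]
    simp
  rw [sum_eq_single_of_mem ∅ hmem h4, sum_empty, chi_zero, one_mul]
  have h5 : U ∅ = 0 ↔ W = V := by
    have h8 : U ∅ = fun j t => V j t + W j t := by
      rw [hU]
      ext j t
      simp only [hemp, notMem_empty, if_false]
    rw [h8]
    have h6 : ∀ a c : ZMod 2, a + c = 0 ↔ c = a := by decide
    constructor
    · intro h
      ext j t
      have h7 : V j t + W j t = 0 := congrFun (congrFun h j) t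
      exact (h6 (V j t) (W j t)).1 h7
    · intro h
      ext j t
      exact (h6 (V j t) (W j t)).2 (by rw [h])
  by_cases hWV : W = V
  · rw [if_pos hWV, if_pos (h5.2 hWV)]
  · rw [if_neg hWV, if_neg (fun h => hWV (h5.1 h))]

/-- **The core**: a family of functions which decomposes the constant `1` along violated
equations is large. -/
theorem core {F : Type*} [Field F] (h2 : (2 : F) ≠ 0) (hE : Expand d e) (b : Fin M → ZMod 2)
    (R : Finset (Fin m → Fin h → ZMod 2)) (hR : ∀ W ∈ R, ∀ j, W j ≠ 0)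
    {S : ℕ} (lab : Fin S → Fin M) (c p : (Fin m → Fin h → ZMod 2) → Fin S → F)
    (h1 : ∀ W ∈ R, ∀ x, ∑ ρ, c W ρ * p x ρ = 1)
    (hv : ∀ W ∈ R, ∀ x ρ, c W ρ * p x ρ ≠ 0 → viol e b (ip W x) (lab ρ) ≠ 0) :
    R.card ≤ S * ((TT d M).card * 2 ^ (h * (m - 2 * d))) :=
  core_of h2 hE b R (fun W _ V hV => mat_mul F hE b W V (hR V hV)) lab c p h1 hv

end Pool.Agent.XL
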