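import Pool.Agent.XL.Mat
import Pool.Agent.XL.Exp
import Pool.Agent.XL.Rank
import Pool.Agent.XL.Defs
import Pool.Agent.XL.Nat3

/-!
# Project XL: the lower bound for decompositions of the lifted system
-/

namespace Pool.Agent.XL

open Finset

/-- the selected equations of the positive input `W` -/
def PW {M m h : ℕ} (e : Fin M → Fin 8 → Fin m) (W : Fin m → Fin h → ZMod 2) : Bvar M h → Bool :=
  fun v => decide (v.2 = fun c => W (e v.1 c))

/-- the equations which hold at `x` -/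
def negIn {M m h : ℕ} (e : Fin M → Fin 8 → Fin m) (b : Fin M → ZMod 2)
    (x : Fin m → Fin h → ZMod 2) : Bvar M h → Bool :=
  fun β => decide (b β.1 + ∑ c, ∑ t, β.2 c t * x (e β.1 c) t = 0)

variable {M m h d : ℕ}

theorem viol_of {e : Fin M → Fin 8 → Fin m} {b : Fin M → ZMod 2}
    {W x : Fin m → Fin h → ZMod 2} {β : Fin M × (Fin 8 → Fin h → ZMod 2)}
    (h1 : PW e W β = true) (h2 : negIn e b x β = false) : viol e b (ip W x) β.1 ≠ 0 := by
  simp only [PW, decide_eq_true_eq] at h1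
  simp only [negIn, decide_eq_false_iff_not] at h2
  rw [h1] at h2
  exact h2

/-- **The lower bound** for decompositions on a set of positive inputs. -/
theorem lower_on (F : Type*) [Field F] (h2 : (2 : F) ≠ 0) {e : Fin M → Fin 8 → Fin m}
    (hE : Expand d e) (b : Fin M → ZMod 2) (hM : 0 < M) (R : Finset (Fin m → Fin h → ZMod 2))
    (hR : ∀ W ∈ R, ∀ j, W j ≠ 0) {S : ℕ}
    (label : Fin S → Option (Fin M × (Fin 8 → Fin h → ZMod 2)))
    (u v : Fin S → (Fin m → Fin h → ZMod 2) → F)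
    (hu : ∀ i, ∀ W ∈ R, u i W ≠ 0 → ∀ β ∈ label i, PW e W β = true)
    (hv : ∀ i x, v i x ≠ 0 → ∃ β ∈ label i, negIn e b x β = false)
    (h1 : ∀ W ∈ R, ∀ x, ∑ i, u i W * v i x = 1) :
    R.card ≤ S * ((TT d M).card * 2 ^ (h * (m - 2 * d))) := by
  have hmul : ∀ W ∈ R, ∀ V ∈ R, ∑ x : Fin m → Fin h → ZMod 2,
      mat F d e b W x * chi F (∑ j, ip V x j) = if W = V then (2 : F) ^ (h * m) else 0 :=
    fun W _ V hV => mat_mul F hE b W V (hR V hV)
  refine core_of h2 hE b R hmul
    (fun i => match label i with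
      | some β => β.1
      | none => ⟨0, hM⟩) (fun W i => u i W) (fun x i => v i x) h1 ?_
  intro W hW x i hne
  have hu' : u i W ≠ 0 := left_ne_zero_of_mul hne
  have hv' : v i x ≠ 0 := right_ne_zero_of_mul hne
  obtain ⟨β, hβ, hn⟩ := hv i x hv'
  have hp := hu i W hW hu' β hβ
  have hl : label i = some β := hβ
  rw [hl]
  exact viol_of hp hn

/-- an expanding system in which every unknown occurs -/
theorem exists_system (d : ℕ) (hd : 1 ≤ d) :
    ∃ (m : ℕ) (e : Fin (4000 * d) → Fin 8 → Fin m) (b : Fin (4000 * d) → ZMod 2),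
      2 * d ≤ m ∧ m ≤ 2000 * d ∧ Expand d e ∧ (∀ z : Fin m → ZMod 2, ∃ i, viol e b z i ≠ 0) ∧
      ∀ j, ∃ i c, e i c = j := by
  classical
  obtain ⟨e, hE⟩ := exists_expand d hd
  obtain ⟨b, hb⟩ := exists_rhs e (by omega)
  set J : Finset (Fin (2000 * d)) := univ.filter fun j => ∃ i c, e i c = j with hJ
  have hmem : ∀ i c, e i c ∈ J := fun i c => by
    rw [hJ, Finset.mem_filter]; exact ⟨Finset.mem_univ _, i, c, rfl⟩
  let q : J ≃ Fin J.card := J.equivFin
  let e' : Fin (4000 * d) → Fin 8 → Fin J.card := fun i c => q ⟨e i c, hmem i c⟩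
  have hpar : ∀ (T : Finset (Fin (4000 * d))) (j : J), par e' T (q j) = par e T j.1 := by
    intro T j
    unfold par
    apply Finset.sum_congr rfl
    intro i _
    apply Finset.sum_congr rfl
    intro c _
    have h1 : (e' i c = q j) ↔ (e i c = j.1) := by
      constructor
      · intro h
        have := q.injective h
        exact congrArg Subtype.val this
      · intro h
        exact congrArg q (Subtype.ext h)
    by_cases h2 : e i c = j.1
    · rw [if_pos h2, if_pos (h1.2 h2)]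
    · rw [if_neg h2, if_neg (fun h3 => h2 (h1.1 h3))]
  have hE' : Expand d e' := by
    intro T hT
    have h1 := hE T hT
    have h2 : supp e T ⊆ (supp e' T).image (fun j => (q.symm j).1) := by
      intro j hj
      simp only [supp, Finset.mem_filter, Finset.mem_univ, true_and] at hj
      have hjJ : j ∈ J := by
        by_contra hcon
        apply hj
        unfold par
        apply Finset.sum_eq_zero
        intro i _
        apply Finset.sum_eq_zero
        intro c _
        rw [if_neg]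
        intro h3
        exact hcon (h3 ▸ hmem i c)
      rw [Finset.mem_image]
      refine ⟨q ⟨j, hjJ⟩, ?_, by simp⟩
      simp only [supp, Finset.mem_filter, Finset.mem_univ, true_and]
      rw [hpar]
      exact hj
    exact h1.trans ((Finset.card_le_card h2).trans Finset.card_image_le)
  refine ⟨J.card, e', b, ?_, ?_, hE', ?_, ?_⟩
  · obtain ⟨T, hT, hTc⟩ := Finset.exists_subset_card_eq
      (s := (univ : Finset (Fin (4000 * d)))) (n := 2 * d)
      (by rw [Finset.card_univ, Fintype.card_fin]; omega)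
    have h1 := hE' T (by omega)
    have h2 : (supp e' T).card ≤ J.card := by
      calc _ ≤ (univ : Finset (Fin J.card)).card := Finset.card_le_card (Finset.subset_univ _)
        _ = J.card := by simp
    omega
  · calc J.card ≤ (univ : Finset (Fin (2000 * d))).card := Finset.card_le_card (Finset.subset_univ _)
      _ = 2000 * d := by simp
  · intro z
    obtain ⟨i, hi⟩ := hb (fun j => if hj : j ∈ J then z (q ⟨j, hj⟩) else 0)
    refine ⟨i, ?_⟩
    unfold viol at hi ⊢
    have h1 : ∀ c, (fun j => if hj : j ∈ J then z (q ⟨j, hj⟩) else 0) (e i c) = z (e' i c) := by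
      intro c
      simp only [hmem i c, dif_pos]
      rfl
    simp only [h1] at hi
    exact hi
  · intro j
    have h1 : ∃ i c, e i c = (q.symm j).1 := by
      have h0 := (q.symm j).2
      exact (Finset.mem_filter.1 h0).2
    obtain ⟨i, c, hic⟩ := h1
    refine ⟨i, c, ?_⟩
    apply q.symm.injective
    apply Subtype.ext
    simp only [e', Equiv.symm_apply_apply]
    exact hic

theorem num_aux (d m : ℕ) (h1 : 2 * d ≤ m) (h2 : m ≤ 2000 * d) :
    2 ^ (22 * d) * (6000 ^ (2 * d) * 2 ^ (24 * (m - 2 * d))) ≤ (2 ^ 24 - 1) ^ m := by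
  obtain ⟨r, rfl⟩ := Nat.exists_eq_add_of_le h1
  have hr : r ≤ 1998 * d := by omega
  have e1 : 2 * d + r - 2 * d = r := by omega
  rw [e1]
  have h3 : ((2 : ℝ) ^ 24) ^ r * (1 - 1 / 2 ^ 24) ^ (1998 * d) ≤ (2 ^ 24 - 1) ^ r := by
    have h4 : ((2 : ℝ) ^ 24 - 1) ^ r = ((2 : ℝ) ^ 24) ^ r * (1 - 1 / 2 ^ 24) ^ r := by
      rw [← mul_pow]; norm_num
    rw [h4]
    apply mul_le_mul_of_nonneg_left _ (by positivity)
    apply pow_le_pow_of_le_one (by norm_num) (by norm_num) hr
  have h5 : ((2 : ℝ) ^ 22 * 6000 ^ 2) ^ d ≤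
      ((2 ^ 24 - 1) ^ 2 * (1 - 1 / 2 ^ 24) ^ 1998) ^ d := by
    apply pow_le_pow_left₀ (by positivity)
    have h6 : (1 : ℝ) - 1998 / 2 ^ 24 ≤ (1 - 1 / 2 ^ 24) ^ 1998 := by
      have := one_add_mul_le_pow (a := (-(1 / 2 ^ 24) : ℝ)) (by norm_num) 1998
      refine le_trans (le_of_eq ?_) (this.trans (le_of_eq ?_))
      · norm_num
      · rw [← sub_eq_add_neg]
    calc (2 : ℝ) ^ 22 * 6000 ^ 2 ≤ (2 ^ 24 - 1) ^ 2 * (1 - 1998 / 2 ^ 24) := by norm_num
      _ ≤ _ := mul_le_mul_of_nonneg_left h6 (by positivity)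
  have h7 : ((2 : ℝ) ^ (22 * d) * (6000 ^ (2 * d) * 2 ^ (24 * r))) ≤ (2 ^ 24 - 1) ^ (2 * d + r) := by
    calc ((2 : ℝ) ^ (22 * d) * (6000 ^ (2 * d) * 2 ^ (24 * r)))
        = ((2 : ℝ) ^ 22 * 6000 ^ 2) ^ d * ((2 : ℝ) ^ 24) ^ r := by
          rw [mul_pow, ← pow_mul, ← pow_mul, ← pow_mul]; ring
      _ ≤ ((2 ^ 24 - 1) ^ 2 * (1 - 1 / 2 ^ 24) ^ 1998) ^ d * ((2 : ℝ) ^ 24) ^ r :=
          mul_le_mul_of_nonneg_right h5 (by positivity)
      _ = ((2 : ℝ) ^ 24 - 1) ^ (2 * d) * (((2 : ℝ) ^ 24) ^ r * (1 - 1 / 2 ^ 24) ^ (1998 * d)) := by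
          rw [mul_pow, ← pow_mul, ← pow_mul]; ring
      _ ≤ ((2 : ℝ) ^ 24 - 1) ^ (2 * d) * (2 ^ 24 - 1) ^ r :=
          mul_le_mul_of_nonneg_left h3 (by positivity)
      _ = _ := by rw [← pow_add]
  have h8 : ((2 ^ (22 * d) * (6000 ^ (2 * d) * 2 ^ (24 * r)) : ℕ) : ℝ) ≤
      (((2 ^ 24 - 1) ^ (2 * d + r) : ℕ) : ℝ) := by
    push_cast
    refine h7.trans (le_of_eq ?_)
    norm_num
  exact_mod_cast h8

theorem incon_PW {e : Fin M → Fin 8 → Fin m} {b : Fin M → ZMod 2}
    (hb : ∀ z : Fin m → ZMod 2, ∃ i, viol e b z i ≠ 0) (W : Fin m → Fin h → ZMod 2) :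
    incon e b (PW e W) = true := by
  classical
  unfold incon
  rw [decide_eq_true_eq]
  rintro ⟨x, hx⟩
  obtain ⟨i, hi⟩ := hb (ip W x)
  apply hi
  exact hx (i, fun c => W (e i c)) (by simp [PW])

theorem incon_negIn (e : Fin M → Fin 8 → Fin m) (b : Fin M → ZMod 2)
    (x : Fin m → Fin h → ZMod 2) : incon e b (negIn e b x) = false := by
  classical
  unfold incon
  rw [decide_eq_false_iff_not, not_not]
  refine ⟨x, fun v hv => ?_⟩
  simpa [negIn] using hv

/-- A function below `incon` with a small decomposition accepts few positive inputs. -/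
theorem few_of_decomp (F : Type) [Field F] (h2 : (2 : F) ≠ 0) {e : Fin M → Fin 8 → Fin m}
    (hE : Expand d e) (b : Fin M → ZMod 2) (hM : 0 < M) {S : ℕ} {G : (Bvar M h → Bool) → Bool}
    (hG : Decomp F S G) (hle : ∀ u, G u = true → incon e b u = true) :
    (univ.filter fun W : Fin m → Fin h → ZMod 2 => (∀ j, W j ≠ 0) ∧ G (PW e W) = true).card ≤
      S * ((TT d M).card * 2 ^ (h * (m - 2 * d))) := by
  classical
  obtain ⟨label, u, v, hu, hv, h1⟩ := hG
  have hneg : ∀ x, G (negIn e b x) = false := by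
    intro x
    by_contra hcon
    have h3 := hle _ (by simpa using hcon)
    rw [incon_negIn] at h3
    exact absurd h3 (by simp)
  refine lower_on F h2 hE b hM _ ?_ label (fun i W => u i (PW e W))
    (fun i x => v i (negIn e b x)) ?_ ?_ ?_
  · intro W hW
    exact (Finset.mem_filter.1 hW).2.1
  · intro i W hW hne β hβ
    exact hu i _ (Finset.mem_filter.1 hW).2.2 hne β hβ
  · intro i x hne
    exact hv i _ (hneg x) hne
  · intro W hW x
    exact h1 _ _ (Finset.mem_filter.1 hW).2.2 (hneg x)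

/-- Strongly exponential form. -/
theorem few_num (F : Type) [Field F] (h2 : (2 : F) ≠ 0) {d m : ℕ}
    {e : Fin (4000 * d) → Fin 8 → Fin m} (hE : Expand d e) (b : Fin (4000 * d) → ZMod 2)
    (hd : 1 ≤ d) (hm1 : 2 * d ≤ m) (hm2 : m ≤ 2000 * d) {S : ℕ}
    {G : (Bvar (4000 * d) 24 → Bool) → Bool}
    (hG : Decomp F S G) (hle : ∀ u, G u = true → incon e b u = true) :
    2 ^ (22 * d) * (univ.filter fun W : Fin m → Fin 24 → ZMod 2 =>
      (∀ j, W j ≠ 0) ∧ G (PW e W) = true).card ≤ S * (2 ^ 24 - 1) ^ m := by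
  have h3 := few_of_decomp F h2 hE b (by omega) hG hle
  have h4 : (TT d (4000 * d)).card ≤ 6000 ^ (2 * d) := card_small2 d
  calc 2 ^ (22 * d) * (univ.filter fun W : Fin m → Fin 24 → ZMod 2 =>
      (∀ j, W j ≠ 0) ∧ G (PW e W) = true).card
      ≤ 2 ^ (22 * d) * (S * (6000 ^ (2 * d) * 2 ^ (24 * (m - 2 * d)))) := by
        apply Nat.mul_le_mul_left
        exact h3.trans (Nat.mul_le_mul_left _ (Nat.mul_le_mul_right _ h4))
    _ = S * (2 ^ (22 * d) * (6000 ^ (2 * d) * 2 ^ (24 * (m - 2 * d)))) := by ring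
    _ ≤ S * (2 ^ 24 - 1) ^ m := Nat.mul_le_mul_left _ (num_aux d m hm1 hm2)

theorem PW_injective {e : Fin M → Fin 8 → Fin m} (hs : ∀ j, ∃ i c, e i c = j) :
    Function.Injective (PW (h := h) e) := by
  intro W W' hWW
  funext j
  obtain ⟨i, c, hic⟩ := hs j
  have h1 := congrFun hWW (i, fun c => W (e i c))
  simp only [PW, decide_true] at h1
  have h2 := of_decide_eq_true h1.symm
  have h3 := congrFun h2 c
  rw [hic] at h3
  exact h3

/-- the number of positive inputs -/
theorem card_pos_inputs (m h : ℕ) :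
    (univ.filter fun W : Fin m → Fin h → ZMod 2 => ∀ j, W j ≠ 0).card = (2 ^ h - 1) ^ m := by
  classical
  have h1 : (univ.filter fun W : Fin m → Fin h → ZMod 2 => ∀ j, W j ≠ 0) =
      Fintype.piFinset fun _ : Fin m => (univ.filter fun w : Fin h → ZMod 2 => w ≠ 0) := by
    ext W; simp [Fintype.mem_piFinset]
  have h2 : (univ.filter fun w : Fin h → ZMod 2 => w ≠ 0).card = 2 ^ h - 1 := by
    rw [Finset.filter_ne', Finset.card_erase_of_mem (Finset.mem_univ _), Finset.card_univ,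
      Fintype.card_fun, ZMod.card, Fintype.card_fin]
  rw [h1, Fintype.card_piFinset, Finset.prod_const, Finset.card_univ, Fintype.card_fin, h2]

end Pool.Agent.XL
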