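import Pool.Agent.XL.Nat3

set_option autoImplicit false

/-!
# Linearly independent equations with few unknowns contain many equations with private unknowns
-/

namespace Pool.Agent.XL

open Finset

/-- The coefficient vector of a set of unknowns. -/
def coeffs {n : ℕ} (t : Finset (Fin n)) : Fin n → ZMod 2 := fun j => if j ∈ t then 1 else 0

/-- Distinct representatives of independent vectors. -/
theorem exists_reps {n K : ℕ} (t : Fin K → Finset (Fin n))
    (hq : LinearIndependent (ZMod 2) fun i => coeffs (t i)) :
    ∃ f : Fin K → Fin n, Function.Injective f ∧ ∀ i, f i ∈ t i := by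
  classical
  rw [← Finset.all_card_le_biUnion_card_iff_exists_injective]
  intro s
  set B := s.biUnion t with hB
  have hw : LinearIndependent (ZMod 2)
      (fun (i : s) (j : B) => (if j.1 ∈ t i.1 then 1 else 0 : ZMod 2)) := by
    rw [Fintype.linearIndependent_iff]
    intro c hc i
    have h1 := (linearIndependent_iff'.1 hq) s (fun i => if h : i ∈ s then c ⟨i, h⟩ else 0) (by
      funext j
      rw [Finset.sum_apply]
      by_cases hj : j ∈ B
      · have h2 := congrFun hc ⟨j, hj⟩
        rw [Finset.sum_apply] at h2
        rw [← Finset.sum_coe_sort s]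
        refine Eq.trans (Finset.sum_congr rfl fun i _ => ?_) h2
        simp only [Pi.smul_apply, smul_eq_mul, coeffs, Subtype.coe_eta]
        rw [dif_pos i.2]
      · refine (Finset.sum_eq_zero fun i hi => ?_).trans rfl
        have h3 : j ∉ t i := fun h => hj (Finset.mem_biUnion.2 ⟨i, hi, h⟩)
        simp only [Pi.smul_apply, smul_eq_mul, coeffs, if_neg h3, mul_zero]) i.1 i.2
    simpa using h1
  have h4 := hw.fintype_card_le_finrank
  rw [Module.finrank_fintype_fun_eq_card, Fintype.card_coe, Fintype.card_coe] at h4
  exact h4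

/-- Greedy choice. -/
theorem exists_indep {n K : ℕ} (t : Fin K → Finset (Fin n)) (ht : ∀ i, (t i).card ≤ 3)
    (a : Fin K → Fin n) (ha : Function.Injective a) (hat : ∀ i, a i ∈ t i) :
    ∀ (m : ℕ) (s : Finset (Fin K)), s.card ≤ m →
      ∃ I ⊆ s, s.card ≤ 5 * I.card ∧ ∀ i ∈ I, ∀ j ∈ I, i ≠ j → a j ∉ t i := by
  classical
  have hout : ∀ (s : Finset (Fin K)) (i : Fin K),
      (s.filter fun j => j ≠ i ∧ a j ∈ t i).card ≤ 2 := by
    intro s i
    have h1 : ((s.filter fun j => j ≠ i ∧ a j ∈ t i).image a) ⊆ (t i).erase (a i) := by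
      intro x hx
      obtain ⟨j, hj, rfl⟩ := Finset.mem_image.1 hx
      rw [Finset.mem_filter] at hj
      exact Finset.mem_erase.2 ⟨fun h => hj.2.1 (ha h), hj.2.2⟩
    have h2 := Finset.card_le_card h1
    rw [Finset.card_image_of_injective _ ha, Finset.card_erase_of_mem (hat i)] at h2
    have := ht i
    omega
  intro m
  induction m with
  | zero =>
    intro s hs
    exact ⟨∅, Finset.empty_subset _, by omega, by simp⟩
  | succ m ih =>
    intro s hs
    rcases s.eq_empty_or_nonempty with rfl | hne
    · exact ⟨∅, Finset.empty_subset _, by simp, by simp⟩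
    have hsum : ∑ i ∈ s, (s.filter fun j => j ≠ i ∧ a i ∈ t j).card ≤ ∑ _i ∈ s, 2 := by
      have h1 : ∑ i ∈ s, (s.filter fun j => j ≠ i ∧ a i ∈ t j).card =
          ∑ j ∈ s, (s.filter fun i => i ≠ j ∧ a i ∈ t j).card := by
        simp only [Finset.card_filter]
        rw [Finset.sum_comm]
        refine Finset.sum_congr rfl fun j _ => Finset.sum_congr rfl fun i _ => ?_
        by_cases h : i = j
        · subst h; simp
        · have h' : j ≠ i := fun hh => h hh.symm
          simp [h, h']
      rw [h1]
      exact Finset.sum_le_sum fun j _ => hout s j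
    obtain ⟨i, his, hi⟩ := Finset.exists_le_of_sum_le hne hsum
    set Nb := (s.filter fun j => j ≠ i ∧ a j ∈ t i) ∪ (s.filter fun j => j ≠ i ∧ a i ∈ t j)
      with hNb
    have hNc : Nb.card ≤ 4 := by
      refine (Finset.card_union_le _ _).trans ?_
      have := hout s i
      omega
    set s' := (s.erase i) \ Nb with hs'
    have hc1 : s.card ≤ s'.card + 5 := by
      have h1 : (s.erase i).card ≤ s'.card + Nb.card := by
        have := Finset.card_le_card_sdiff_add_card (s := s.erase i) (t := Nb)
        omega
      have h2 := Finset.card_erase_of_mem his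
      have h3 := Finset.card_pos.2 hne
      omega
    have hc2 : s'.card ≤ m := by
      have h1 : s'.card ≤ (s.erase i).card := Finset.card_le_card Finset.sdiff_subset
      have h2 := Finset.card_erase_of_mem his
      have h3 := Finset.card_pos.2 hne
      omega
    obtain ⟨I, hI, hIc, hIi⟩ := ih s' hc2
    have hiI : i ∉ I := by
      intro h
      have := hI h
      rw [hs', Finset.mem_sdiff, Finset.mem_erase] at this
      exact this.1.1 rfl
    refine ⟨insert i I, ?_, ?_, ?_⟩
    · intro x hx
      rcases Finset.mem_insert.1 hx with rfl | hx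
      · exact his
      · have := hI hx
        rw [hs', Finset.mem_sdiff, Finset.mem_erase] at this
        exact this.1.2
    · rw [Finset.card_insert_of_notMem hiI]
      omega
    · have hfree : ∀ j ∈ I, a j ∉ t i ∧ a i ∉ t j := by
        intro j hj
        have h1 := hI hj
        rw [hs', Finset.mem_sdiff, Finset.mem_erase, hNb, Finset.mem_union, Finset.mem_filter,
          Finset.mem_filter] at h1
        exact ⟨fun h => h1.2 (Or.inl ⟨h1.1.2, h1.1.1, h⟩), fun h => h1.2 (Or.inr ⟨h1.1.2, h1.1.1, h⟩)⟩
      intro x hx y hy hxy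
      rcases Finset.mem_insert.1 hx with h1 | hx'
      · rcases Finset.mem_insert.1 hy with h2 | hy'
        · exact absurd (h1.trans h2.symm) hxy
        · rw [h1]; exact (hfree y hy').1
      · rcases Finset.mem_insert.1 hy with h2 | hy'
        · rw [h2]; exact (hfree x hx').2
        · exact hIi x hx' y hy' hxy

/-- **Private unknowns**: among `5 K` linearly independent equations there are `K` with private
unknowns. -/
theorem exists_private {n K : ℕ} (q : Fin (5 * K) → Eq3 n)
    (hq : LinearIndependent (ZMod 2) fun i => coeffs (q i).1.1) :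
    ∃ (g : Fin K → Fin (5 * K)) (a : Fin K → Fin n), Function.Injective g ∧
      (∀ i, a i ∈ (q (g i)).1.1) ∧ ∀ i j, i ≠ j → a j ∉ (q (g i)).1.1 := by
  classical
  obtain ⟨f, hf, hft⟩ := exists_reps (fun i => (q i).1.1) hq
  obtain ⟨I, -, hIc, hIi⟩ := exists_indep (fun i => (q i).1.1) (fun i => (q i).1.2) f hf hft
    (5 * K) univ (by simp)
  rw [Finset.card_univ, Fintype.card_fin] at hIc
  obtain ⟨J, hJ, hJc⟩ := Finset.exists_subset_card_eq (s := I) (n := K) (by omega)
  let g : Fin K ≃ J := (J.equivFinOfCardEq hJc).symm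
  refine ⟨fun i => (g i).1, fun i => f (g i).1, fun i j h => g.injective (Subtype.ext h),
    fun i => hft _, fun i j hij => ?_⟩
  exact hIi _ (hJ (g i).2) _ (hJ (g j).2) (fun h => hij (g.injective (Subtype.ext h)))

/-- Equations with disjoint nonempty sets of unknowns are independent. -/
theorem indep_of_disjoint {n K : ℕ} (q : Fin K → Eq3 n) (hne : ∀ i, (q i).1.1.Nonempty)
    (hd : ∀ i j, i ≠ j → Disjoint (q i).1.1 (q j).1.1) :
    LinearIndependent (ZMod 2) fun i => coeffs (q i).1.1 := by
  classical
  choose a ha using hne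
  rw [Fintype.linearIndependent_iff]
  intro c hc i
  have h1 := congrFun hc (a i)
  rw [Finset.sum_apply, Finset.sum_eq_single i] at h1
  · simpa [coeffs, ha i] using h1
  · intro j _ hji
    have h2 : a i ∉ (q j).1.1 := Finset.disjoint_left.1 (hd i j (Ne.symm hji)) (ha i)
    simp [coeffs, h2]
  · intro h
    exact absurd (Finset.mem_univ _) h

end Pool.Agent.XL
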