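import Mathlib
import Pool.Agent.TeleNeg.NetDefs
import Pool.Agent.NWE.Defs

set_option autoImplicit false

/-!
# A switching network on literals for a monotone function can be made blind for the negated
variables of a set `U` at the cost of a factor `2 ^ |U|`
-/

namespace Pool.Agent.XL

open Pool.Agent.TeleNeg Pool.Agent.NWE

/-- A network whose nodes are the elements of a finite type. -/
theorem net_of_type {κ V : Type} [Fintype V] {n : ℕ} (hn : Fintype.card V = n)
    (C : Set (V × V × Option κ)) (s t : V) :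
    ∃ N : Net κ n, ∀ y : κ → Bool, N.Accepts y ↔
      Relation.ReflTransGen (fun a b : V => ∃ l : Option κ, ((a, b, l) ∈ C ∨ (b, a, l) ∈ C) ∧
        ∀ e ∈ l, y e = true) s t := by
  classical
  let g : V ≃ Fin n := Fintype.equivFinOfCardEq hn
  let N : Net κ n := ⟨{c | (g.symm c.1, g.symm c.2.1, c.2.2) ∈ C}, g s, g t⟩
  have h1 : ∀ (y : κ → Bool) (a b : Fin n), N.Linked y a b ↔ ∃ l : Option κ,
      ((g.symm a, g.symm b, l) ∈ C ∨ (g.symm b, g.symm a, l) ∈ C) ∧ ∀ e ∈ l, y e = true :=
    fun _ _ _ => Iff.rfl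
  refine ⟨N, fun y => ?_⟩
  constructor
  · intro h
    have h2 : ∀ a b : Fin n, Relation.ReflTransGen (N.Linked y) a b →
        Relation.ReflTransGen (fun a b : V => ∃ l : Option κ,
          ((a, b, l) ∈ C ∨ (b, a, l) ∈ C) ∧ ∀ e ∈ l, y e = true) (g.symm a) (g.symm b) := by
      intro a b hab
      induction hab with
      | refl => exact Relation.ReflTransGen.refl
      | tail _ h3 ih => exact ih.tail ((h1 y _ _).1 h3)
    have h3 := h2 _ _ h
    have h4 : g.symm N.src = s := g.symm_apply_apply s
    have h5 : g.symm N.tgt = t := g.symm_apply_apply t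
    rwa [h4, h5] at h3
  · intro h
    have h2 : ∀ a b : V, Relation.ReflTransGen (fun a b : V => ∃ l : Option κ,
          ((a, b, l) ∈ C ∨ (b, a, l) ∈ C) ∧ ∀ e ∈ l, y e = true) a b →
        Relation.ReflTransGen (N.Linked y) (g a) (g b) := by
      intro a b hab
      induction hab with
      | refl => exact Relation.ReflTransGen.refl
      | tail _ h3 ih =>
        refine ih.tail ((h1 y _ _).2 ?_)
        simpa only [Equiv.symm_apply_apply] using h3
    exact h2 _ _ h

section

variable {ι : Type} [DecidableEq ι]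

/-- The input `x` with the variables in `U` replaced by the indicator function of `A`. -/
def put (U A : Finset ι) (x : ι → Bool) : ι → Bool := fun i => if i ∈ U then decide (i ∈ A) else x i

/-- The label `l'` is the label `l` in the copy `A`: labels on `U` are replaced by constants. -/
def Rel (U A : Finset ι) (l l' : Option (ι ⊕ ι)) : Prop :=
  (l' = l ∧ ∀ e ∈ l, Sum.elim id id e ∉ U) ∨
    (l' = none ∧ ∃ e ∈ l, Sum.elim id id e ∈ U ∧
      lits (fun i => decide (i ∈ A)) e = true)

theorem rel_iff (U A : Finset ι) (l : Option (ι ⊕ ι)) (x : ι → Bool) (y : ι ⊕ ι → Bool)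
    (hy : ∀ e : ι ⊕ ι, Sum.elim id id e ∉ U → y e = lits x e) :
    (∃ l', Rel U A l l' ∧ ∀ e ∈ l', y e = true) ↔ ∀ e ∈ l, lits (put U A x) e = true := by
  have h1 : ∀ e : ι ⊕ ι, Sum.elim id id e ∉ U → lits (put U A x) e = y e := by
    intro e he
    rw [hy e he]
    rcases e with i | i
    · replace he : i ∉ U := he
      simp only [lits, put, Sum.elim_inl]
      rw [if_neg he]
    · replace he : i ∉ U := he
      simp only [lits, put, Sum.elim_inr]
      rw [if_neg he]
  have h2 : ∀ e : ι ⊕ ι, Sum.elim id id e ∈ U →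
      lits (put U A x) e = lits (fun i => decide (i ∈ A)) e := by
    intro e he
    rcases e with i | i
    · replace he : i ∈ U := he
      simp only [lits, put, Sum.elim_inl]
      rw [if_pos he]
    · replace he : i ∈ U := he
      simp only [lits, put, Sum.elim_inr]
      rw [if_pos he]
  constructor
  · rintro ⟨l', h | h, hl⟩ e he
    · obtain ⟨rfl, h3⟩ := h
      rw [h1 e (h3 e he)]
      exact hl e he
    · obtain ⟨rfl, e', he', h3, h4⟩ := h
      have h5 : e = e' := by
        rw [Option.mem_def] at he he'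
        rw [he] at he'
        exact Option.some.inj he'
      subst h5
      rw [h2 e h3]
      exact h4
  · intro h
    rcases l with _ | e
    · exact ⟨none, Or.inl ⟨rfl, fun e he => by simp at he⟩, fun e he => by simp at he⟩
    · have h3 := h e rfl
      by_cases he : Sum.elim id id e ∈ U
      · exact ⟨none, Or.inr ⟨rfl, e, rfl, he, by rw [← h2 e he]; exact h3⟩,
          fun e he => by simp at he⟩
      · refine ⟨some e, Or.inl ⟨rfl, fun e' he' => ?_⟩, fun e' he' => ?_⟩
        · have h5 : e = e' := Option.some.inj he'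
          rw [← h5]; exact he
        · have h5 : e = e' := Option.some.inj he'
          rw [← h5, ← h1 e he]; exact h3

end

theorem net_blind {ι : Type} [Fintype ι] [DecidableEq ι] {S : ℕ} (f : (ι → Bool) → Bool)
    (hf : Monotone f) (U : Finset ι) (D : Pool.Agent.TeleNeg.Net (ι ⊕ ι) S)
    (hD : ∀ x, D.val (Pool.Agent.NWE.lits x) = f x) :
    ∃ D' : Pool.Agent.TeleNeg.Net (ι ⊕ ι) (2 ^ U.card * S),
      (∀ x, D'.val (Pool.Agent.NWE.lits x) = f x) ∧
      ∀ x, f x = true → D'.val (Pool.Agent.NWE.litsOn U ∅ x) = true := by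
  classical
  have hDa : ∀ x, D.Accepts (lits x) ↔ f x = true := by
    intro x
    rw [← hD x, Net.val, decide_eq_true_iff]
  let V : Type := {A : Finset ι // A ∈ U.powerset} × Fin S
  have hV : Fintype.card V = 2 ^ U.card * S := by
    simp only [V, Fintype.card_prod, Fintype.card_fin, Fintype.card_coe, Finset.card_powerset]
  let P : {A : Finset ι // A ∈ U.powerset} := ⟨∅, Finset.empty_mem_powerset U⟩
  let C : Set (V × V × Option (ι ⊕ ι)) := {c |
    (c.1.1 = c.2.1.1 ∧ ∃ l, (c.1.2, c.2.1.2, l) ∈ D.contacts ∧ Rel U c.1.1.1 l c.2.2) ∨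
    (c.1.2 = D.src ∧ c.2.1.2 = D.src ∧ ∃ i, c.2.1.1.1 = insert i c.1.1.1 ∧
      c.2.2 = some (Sum.inl i)) ∨
    (c.1.2 = D.tgt ∧ c.2.1.2 = D.tgt ∧ c.2.2 = none)}
  obtain ⟨D', hD'⟩ := net_of_type hV C (P, D.src) (P, D.tgt)
  -- soundness: `y` is at most the literals of `x`
  have hsound : ∀ (x : ι → Bool) (y : ι ⊕ ι → Bool),
      (∀ e : ι ⊕ ι, Sum.elim id id e ∉ U → y e = lits x e) →
      (∀ i, y (Sum.inl i) = x i) → D'.Accepts y → f x = true := by
    intro x y hy hy1 h
    by_contra hfx
    have hmain : ∀ a : V, Relation.ReflTransGen (fun a b : V => ∃ l : Option (ι ⊕ ι),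
        ((a, b, l) ∈ C ∨ (b, a, l) ∈ C) ∧ ∀ e ∈ l, y e = true) (P, D.src) a →
        (∀ i ∈ a.1.1, x i = true) ∧
          Relation.ReflTransGen (D.Linked (lits (put U a.1.1 x))) D.src a.2 := by
      intro a ha
      have hno : ∀ b : V, (∀ i ∈ b.1.1, x i = true) → b.2 = D.tgt →
          ¬ Relation.ReflTransGen (D.Linked (lits (put U b.1.1 x))) D.src b.2 := by
        intro b hb hb2 hr
        rw [hb2] at hr
        have h3 := (hDa (put U b.1.1 x)).1 hr
        have h4 : put U b.1.1 x ≤ x := by
          intro i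
          by_cases hi : i ∈ U
          · by_cases hi2 : i ∈ b.1.1
            · rw [hb i hi2]; exact Bool.le_true _
            · simp [put, hi, hi2]
          · simp [put, hi]
        have h5 := hf h4
        rw [h3] at h5
        exact hfx (top_le_iff.1 h5)
      induction ha with
      | refl => exact ⟨fun i hi => by simp [P] at hi, Relation.ReflTransGen.refl⟩
      | tail _ hl ih =>
        rename_i b c _
        obtain ⟨ih1, ih2⟩ := ih
        obtain ⟨l, hl, hly⟩ := hl
        rcases hl with (hl | hl | hl) | (hl | hl | hl)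
        · obtain ⟨h3, l0, h4, h5⟩ := hl
          simp only at h3 h4 h5
          have h6 := (rel_iff U b.1.1 l0 x y hy).1 ⟨l, h5, hly⟩
          rw [← h3]
          exact ⟨ih1, ih2.tail ⟨l0, Or.inl h4, h6⟩⟩
        · obtain ⟨h3, h4, i, h5, h6⟩ := hl
          simp only at h3 h4 h5 h6
          have h7 : x i = true := by
            rw [← hy1 i]
            exact hly _ h6
          rw [h4]
          refine ⟨fun j hj => ?_, Relation.ReflTransGen.refl⟩
          rw [h5, Finset.mem_insert] at hj
          rcases hj with rfl | hj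
          · exact h7
          · exact ih1 j hj
        · exact absurd ih2 (hno b ih1 hl.1)
        · obtain ⟨h3, l0, h4, h5⟩ := hl
          simp only at h3 h4 h5
          have h6 := (rel_iff U c.1.1 l0 x y hy).1 ⟨l, h5, hly⟩
          rw [h3] at h6 ⊢
          exact ⟨ih1, ih2.tail ⟨l0, Or.inr h4, h6⟩⟩
        · obtain ⟨h3, h4, i, h5, h6⟩ := hl
          simp only at h3 h4 h5 h6
          rw [h3]
          refine ⟨fun j hj => ?_, Relation.ReflTransGen.refl⟩
          refine ih1 j ?_
          rw [h5]
          exact Finset.mem_insert_of_mem hj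
        · exact absurd ih2 (hno b ih1 hl.2.1)
    have h2 := (hmain _ ((hD' y).1 h)).2
    have h3 := (hmain _ ((hD' y).1 h)).1
    have h4 := (hDa _).1 h2
    have h5 : put U P.1 x ≤ x := by
      intro i
      by_cases hi : i ∈ U
      · simp [put, hi, P]
      · simp [put, hi]
    have h6 := hf h5
    rw [h4] at h6
    exact hfx (top_le_iff.1 h6)
  -- completeness
  have hcompl : ∀ (x : ι → Bool) (y : ι ⊕ ι → Bool),
      (∀ e : ι ⊕ ι, Sum.elim id id e ∉ U → y e = lits x e) →
      (∀ i, y (Sum.inl i) = x i) → f x = true → D'.Accepts y := by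
    intro x y hy hy1 hfx
    have h1 : ∀ A : Finset ι, (∀ i ∈ A, x i = true) → ∀ hA : A ∈ U.powerset,
        Relation.ReflTransGen (fun a b : V => ∃ l : Option (ι ⊕ ι),
        ((a, b, l) ∈ C ∨ (b, a, l) ∈ C) ∧ ∀ e ∈ l, y e = true) (P, D.src) (⟨A, hA⟩, D.src) := by
      intro A
      induction A using Finset.induction_on with
      | empty => intro _ _; exact Relation.ReflTransGen.refl
      | insert i A hi ih =>
        intro hx hA
        have hA' : A ∈ U.powerset := by
          rw [Finset.mem_powerset] at hA ⊢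
          exact (Finset.subset_insert i A).trans hA
        refine (ih (fun j hj => hx j (Finset.mem_insert_of_mem hj)) hA').tail
          ⟨some (Sum.inl i), Or.inl (Or.inr (Or.inl ⟨rfl, rfl, i, rfl, rfl⟩)), ?_⟩
        intro e he
        have h3 : Sum.inl i = e := Option.some.inj he
        rw [← h3, hy1]
        exact hx i (Finset.mem_insert_self i A)
    let A : Finset ι := U.filter fun i => x i = true
    have hA : A ∈ U.powerset := Finset.mem_powerset.2 (Finset.filter_subset _ _)
    have hput : put U A x = x := by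
      funext i
      by_cases hi : i ∈ U
      · rcases h : x i with _ | _
        · simp [put, A, hi, h]
        · simp [put, A, hi, h]
      · simp [put, hi]
    have h2 := h1 A (fun i hi => (Finset.mem_filter.1 hi).2) hA
    have h3 : ∀ b : Fin S, Relation.ReflTransGen (D.Linked (lits x)) D.src b →
        Relation.ReflTransGen (fun a b : V => ∃ l : Option (ι ⊕ ι),
        ((a, b, l) ∈ C ∨ (b, a, l) ∈ C) ∧ ∀ e ∈ l, y e = true) (⟨A, hA⟩, D.src) (⟨A, hA⟩, b) := by
      intro b hb
      induction hb with
      | refl => exact Relation.ReflTransGen.refl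
      | tail _ hl ih =>
        obtain ⟨l, hl, hlx⟩ := hl
        rw [← hput] at hlx
        obtain ⟨l', h4, h5⟩ := (rel_iff U A l x y hy).2 hlx
        rcases hl with hl | hl
        · exact ih.tail ⟨l', Or.inl (Or.inl ⟨rfl, l, hl, h4⟩), h5⟩
        · exact ih.tail ⟨l', Or.inr (Or.inl ⟨rfl, l, hl, h4⟩), h5⟩
    have h4 := h3 D.tgt ((hDa x).2 hfx)
    refine (hD' y).2 (h2.trans (h4.tail ⟨none, Or.inl (Or.inr (Or.inr ⟨rfl, rfl, rfl⟩)), ?_⟩))
    intro e he
    simp at he
  have hlits : ∀ x : ι → Bool, D'.val (lits x) = true ↔ f x = true := by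
    intro x
    rw [Net.val, decide_eq_true_iff]
    exact ⟨hsound x (lits x) (fun _ _ => rfl) (fun _ => rfl),
      hcompl x (lits x) (fun _ _ => rfl) (fun _ => rfl)⟩
  refine ⟨D', fun x => ?_, fun x hx => ?_⟩
  · rw [Bool.eq_iff_iff]
    exact hlits x
  · rw [Net.val, decide_eq_true_iff]
    refine hcompl x _ (fun e he => ?_) (fun i => rfl) hx
    rcases e with i | i
    · rfl
    · simp only [Sum.elim_inr, id] at he
      simp [litsOn, lits, he]

end Pool.Agent.XL
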