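import Pool.Agent.XL.Nat3
import Pool.Agent.XL.Indep
import Pool.Agent.XL.NetBlind

set_option autoImplicit false

/-!
# Sets of equations of small rank: a small monotone network decides inconsistency
-/

namespace Pool.Agent.XL

open Finset Pool.Agent.TeleNeg

namespace Sharp

variable {n : ℕ}

/-- The equation as a vector: left side and right side. -/
def ev (e : Eq3 n) : (Fin n → ZMod 2) × ZMod 2 := (coeffs e.1.1, if e.2 then 1 else 0)

/-- The impossible equation `0 = 1`. -/
def bad (n : ℕ) : (Fin n → ZMod 2) × ZMod 2 := (0, 1)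

theorem coeffs_sum (t : Finset (Fin n)) (y : Fin n → ZMod 2) :
    ∑ j, coeffs t j * y j = ∑ j ∈ t, y j := by
  classical
  unfold coeffs
  simp only [ite_mul, one_mul, zero_mul]
  rw [Finset.sum_ite_mem, Finset.univ_inter]

/-- The system is inconsistent if and only if `0 = 1` is a combination of its equations. -/
theorem unsat_iff (z : Eq3 n → Bool) :
    unsat z = true ↔ bad n ∈ Submodule.span (ZMod 2) (ev '' {e | z e = true}) := by
  classical
  unfold unsat
  rw [decide_eq_true_eq]
  constructor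
  · intro h
    by_contra hcon
    apply h
    obtain ⟨f, hf, hle⟩ := Submodule.exists_le_ker_of_notMem hcon
    have hf1 : f (bad n) = 1 := by
      have : ∀ a : ZMod 2, a ≠ 0 → a = 1 := by decide
      exact this _ hf
    refine ⟨fun j => f (Pi.single j 1, 0), fun e he => ?_⟩
    have h1 : f (ev e) = 0 := hle (Submodule.subset_span ⟨e, he, rfl⟩)
    have h2 : ev e = (∑ j, coeffs e.1.1 j • ((Pi.single j 1, 0) : (Fin n → ZMod 2) × ZMod 2))
        + (if e.2 then (1 : ZMod 2) else 0) • bad n := by
      refine Prod.ext ?_ ?_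
      · funext i
        simp [ev, bad, Prod.fst_sum, Finset.sum_apply, Pi.single_apply]
        split_ifs <;> rfl
      · simp [ev, bad, Prod.snd_sum]
        split_ifs <;> rfl
    rw [h2, map_add, map_sum, map_smul, hf1] at h1
    simp only [map_smul, smul_eq_mul, mul_one] at h1
    rw [coeffs_sum] at h1
    rw [← sub_eq_zero, CharTwo.sub_eq_add]
    exact h1
  · rintro h ⟨y, hy⟩
    let f : (Fin n → ZMod 2) × ZMod 2 →ₗ[ZMod 2] ZMod 2 :=
      { toFun := fun v => ∑ j, v.1 j * y j + v.2
        map_add' := fun v w => by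
          simp only [Prod.fst_add, Prod.snd_add, Pi.add_apply, add_mul, Finset.sum_add_distrib]
          ring
        map_smul' := fun c v => by
          simp only [Prod.smul_fst, Prod.smul_snd, Pi.smul_apply, smul_eq_mul, RingHom.id_apply,
            Finset.mul_sum, mul_add, mul_assoc] }
    have h1 : Submodule.span (ZMod 2) (ev '' {e | z e = true}) ≤ LinearMap.ker f := by
      rw [Submodule.span_le]
      rintro _ ⟨e, he, rfl⟩
      change ∑ j, coeffs e.1.1 j * y j + (if e.2 then (1 : ZMod 2) else 0) = 0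
      rw [coeffs_sum, hy e he]
      exact CharTwo.add_self_eq_zero _
    have h2 : f (bad n) = 0 := h1 h
    have h3 : f (bad n) = 1 := by
      change ∑ j, (0 : Fin n → ZMod 2) j * y j + 1 = 1
      simp
    rw [h3] at h2
    exact one_ne_zero h2

/-- A subspace spanned by few vectors modulo constants. -/
theorem span_mod (X Y : Set ((Fin n → ZMod 2) × ZMod 2)) (v : (Fin n → ZMod 2) × ZMod 2) :
    v ∈ Submodule.span (ZMod 2) (X ∪ Y) ↔
      (Submodule.span (ZMod 2) X).mkQ v ∈
        Submodule.span (ZMod 2) ((Submodule.span (ZMod 2) X).mkQ '' Y) := by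
  rw [Submodule.span_image, Submodule.span_union]
  constructor
  · intro h
    obtain ⟨a, ha, b, hb, rfl⟩ := Submodule.mem_sup.1 h
    refine ⟨b, hb, ?_⟩
    rw [map_add]
    have : (Submodule.span (ZMod 2) X).mkQ a = 0 := by
      rw [Submodule.mkQ_apply, Submodule.Quotient.mk_eq_zero]
      exact ha
    rw [this, zero_add]
  · rintro ⟨b, hb, hbv⟩
    have h1 : v - b ∈ Submodule.span (ZMod 2) X := by
      rw [← Submodule.Quotient.eq]
      exact hbv.symm
    have h2 : v = (v - b) + b := by abel
    rw [h2]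
    exact Submodule.add_mem_sup h1 hb

/-- The rank of the left sides of the equations in `U`. -/
noncomputable def rank (U : Finset (Eq3 n)) : ℕ :=
  Module.finrank (ZMod 2) (Submodule.span (ZMod 2) ((fun e : Eq3 n => coeffs e.1.1) '' (U : Set (Eq3 n))))

/-- **Sharpness.** -/
theorem sharp (U : Finset (Eq3 n)) (ρ : Eq3 n → Bool) :
    ∃ S ≤ 2 ^ (rank U + 1), ∃ N : Net (Eq3 n) S,
      ∀ z : Eq3 n → Bool, (∀ e, e ∉ U → z e = ρ e) → N.val z = unsat z := by
  classical
  set X : Set ((Fin n → ZMod 2) × ZMod 2) := ev '' {e | e ∉ U ∧ ρ e = true} with hX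
  set π := (Submodule.span (ZMod 2) X).mkQ with hπ
  set P : Submodule (ZMod 2) ((Fin n → ZMod 2) × ZMod 2) :=
    Submodule.span (ZMod 2) (ev '' (U : Set (Eq3 n)) ∪ {bad n}) with hP
  set W : Submodule (ZMod 2) (((Fin n → ZMod 2) × ZMod 2) ⧸ Submodule.span (ZMod 2) X) :=
    P.map π with hW
  have hPr : Module.finrank (ZMod 2) P ≤ rank U + 1 := by
    set Q : Submodule (ZMod 2) (Fin n → ZMod 2) :=
      Submodule.span (ZMod 2) ((fun e : Eq3 n => coeffs e.1.1) '' (U : Set (Eq3 n))) with hQ
    have h1 : P ≤ Q.map (LinearMap.inl (ZMod 2) (Fin n → ZMod 2) (ZMod 2)) ⊔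
        Submodule.span (ZMod 2) {bad n} := by
      rw [hP, Submodule.span_le]
      rintro v (⟨e, he, rfl⟩ | hv)
      · have h2 : ev e = LinearMap.inl (ZMod 2) (Fin n → ZMod 2) (ZMod 2) (coeffs e.1.1)
            + (if e.2 then (1 : ZMod 2) else 0) • bad n := by
          refine Prod.ext ?_ ?_
          · funext i
            simp [ev, bad]
            split_ifs <;> rfl
          · simp [ev, bad]
            split_ifs <;> rfl
        rw [h2]
        exact Submodule.add_mem_sup (Submodule.mem_map_of_mem (Submodule.subset_span ⟨e, he, rfl⟩))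
          (Submodule.smul_mem _ _ (Submodule.mem_span_singleton_self _))
      · rw [Set.mem_singleton_iff] at hv
        rw [hv]
        exact Submodule.mem_sup_right (Submodule.mem_span_singleton_self _)
    have hb : bad n ≠ 0 := by
      intro h
      have := congrArg Prod.snd h
      simp [bad] at this
    calc Module.finrank (ZMod 2) P ≤ Module.finrank (ZMod 2)
          ↥(Q.map (LinearMap.inl (ZMod 2) (Fin n → ZMod 2) (ZMod 2)) ⊔
            Submodule.span (ZMod 2) {bad n}) := Submodule.finrank_mono h1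
      _ ≤ Module.finrank (ZMod 2) (Q.map (LinearMap.inl (ZMod 2) (Fin n → ZMod 2) (ZMod 2))) +
            Module.finrank (ZMod 2) (Submodule.span (ZMod 2) {bad n}) :=
          Submodule.finrank_add_le_finrank_add_finrank _ _
      _ ≤ rank U + 1 := by
          refine add_le_add (Submodule.finrank_map_le _ _) ?_
          rw [finrank_span_singleton hb]
  have hWr : Module.finrank (ZMod 2) W ≤ rank U + 1 :=
    (Submodule.finrank_map_le π P).trans hPr
  have : Finite W := inferInstance
  have : Fintype W := Fintype.ofFinite W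
  have hcard : Fintype.card W ≤ 2 ^ (rank U + 1) := by
    have h1 := Module.card_eq_pow_finrank (K := ZMod 2) (V := W)
    rw [ZMod.card] at h1
    rw [h1]
    exact Nat.pow_le_pow_right (by norm_num) hWr
  have hbW : π (bad n) ∈ W := Submodule.mem_map_of_mem (Submodule.subset_span (Or.inr rfl))
  have heW : ∀ e ∈ U, π (ev e) ∈ W := fun e he =>
    Submodule.mem_map_of_mem (Submodule.subset_span (Or.inl ⟨e, he, rfl⟩))
  obtain ⟨N, hN⟩ := net_of_type (κ := Eq3 n) (V := W) rfl
    {c | ∃ e ∈ U, c.2.2 = some e ∧ (c.2.1 : _ ⧸ Submodule.span (ZMod 2) X) = c.1.1 + π (ev e)}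
    0 ⟨π (bad n), hbW⟩
  refine ⟨Fintype.card W, hcard, N, fun z hz => ?_⟩
  have hdbl : ∀ v : ((Fin n → ZMod 2) × ZMod 2) ⧸ Submodule.span (ZMod 2) X, v + v = 0 := by
    intro v
    have h1 : v + v = (2 : ZMod 2) • v := by
      rw [two_smul]
    rw [h1, show (2 : ZMod 2) = 0 by decide, zero_smul]
  set R : W → W → Prop := fun a b => ∃ l : Option (Eq3 n),
    ((a, b, l) ∈ {c : W × W × Option (Eq3 n) | ∃ e ∈ U, c.2.2 = some e ∧
      (c.2.1 : _ ⧸ Submodule.span (ZMod 2) X) = c.1.1 + π (ev e)} ∨
     (b, a, l) ∈ {c : W × W × Option (Eq3 n) | ∃ e ∈ U, c.2.2 = some e ∧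
      (c.2.1 : _ ⧸ Submodule.span (ZMod 2) X) = c.1.1 + π (ev e)}) ∧
    ∀ e ∈ l, z e = true with hR
  have hRiff : ∀ a b : W, R a b ↔ ∃ e ∈ U, z e = true ∧
      (b : _ ⧸ Submodule.span (ZMod 2) X) = a.1 + π (ev e) := by
    intro a b
    constructor
    · rintro ⟨l, (⟨e, he, hl, hab⟩ | ⟨e, he, hl, hab⟩), hz'⟩
      · exact ⟨e, he, hz' e hl, hab⟩
      · refine ⟨e, he, hz' e hl, ?_⟩
        have h1 : (a : _ ⧸ Submodule.span (ZMod 2) X) = b.1 + π (ev e) := hab
        rw [h1, add_assoc, hdbl, add_zero]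
    · rintro ⟨e, he, hze, hab⟩
      refine ⟨some e, Or.inl ⟨e, he, rfl, hab⟩, fun e' he' => ?_⟩
      rw [← Option.some.inj he']
      exact hze
  set Y : Set ((Fin n → ZMod 2) × ZMod 2) := ev '' {e | e ∈ U ∧ z e = true} with hY
  have hYW : Submodule.span (ZMod 2) (π '' Y) ≤ W := by
    rw [Submodule.span_le]
    rintro _ ⟨_, ⟨e, he, rfl⟩, rfl⟩
    exact heW e he.1
  have hto : ∀ a b : W, Relation.ReflTransGen R a b →
      (b.1 - a.1) ∈ Submodule.span (ZMod 2) (π '' Y) := by
    intro a b h
    induction h with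
    | refl => rw [sub_self]; exact Submodule.zero_mem _
    | @tail b c _ h ih =>
      obtain ⟨e, he, hze, hbc⟩ := (hRiff b c).1 h
      have h1 : c.1 - a.1 = (b.1 - a.1) + π (ev e) := by
        rw [hbc]
        abel
      rw [h1]
      exact Submodule.add_mem _ ih (Submodule.subset_span ⟨_, ⟨e, ⟨he, hze⟩, rfl⟩, rfl⟩)
  have hfrom : ∀ s ∈ Submodule.span (ZMod 2) (π '' Y), ∀ a b : W, b.1 = a.1 + s →
      Relation.ReflTransGen R a b := by
    intro s hs
    induction hs using Submodule.span_induction with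
    | mem s hs =>
      obtain ⟨_, ⟨e, ⟨he, hze⟩, rfl⟩, rfl⟩ := hs
      intro a b hab
      exact Relation.ReflTransGen.single ((hRiff a b).2 ⟨e, he, hze, hab⟩)
    | zero =>
      intro a b hab
      rw [add_zero] at hab
      rw [Subtype.ext hab]
    | add s s' hs hs' ih ih' =>
      intro a b hab
      have h1 : a.1 + s ∈ W := W.add_mem a.2 (hYW hs)
      exact (ih a ⟨a.1 + s, h1⟩ rfl).trans (ih' ⟨a.1 + s, h1⟩ b (by rw [hab, add_assoc]))
    | smul c s hs ih =>
      intro a b hab
      have hc : ∀ c : ZMod 2, c = 0 ∨ c = 1 := by decide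
      rcases hc c with rfl | rfl
      · rw [zero_smul, add_zero] at hab
        rw [Subtype.ext hab]
      · rw [one_smul] at hab
        exact ih a b hab
  rw [Bool.eq_iff_iff, unsat_iff]
  have h1 : N.val z = true ↔ Relation.ReflTransGen R 0 ⟨π (bad n), hbW⟩ := by
    rw [Net.val, decide_eq_true_iff]
    exact hN z
  rw [h1]
  have h2 : ev '' {e | z e = true} = X ∪ Y := by
    rw [hX, hY, ← Set.image_union]
    congr 1
    ext e
    simp only [Set.mem_ofPred_eq, Set.mem_union]
    by_cases he : e ∈ U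
    · simp [he]
    · simp [he, hz e he]
  rw [h2, span_mod]
  constructor
  · intro h
    have h3 := hto _ _ h
    have h4 : (⟨π (bad n), hbW⟩ : W).1 - (0 : W).1 = π (bad n) := sub_zero _
    rw [h4] at h3
    exact h3
  · intro h
    exact hfrom _ h _ _ (zero_add _).symm

end Sharp

end Pool.Agent.XL
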