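import Pool.Agent.XL.GlueP

set_option autoImplicit false

/-!
# The conjunction of blocks inside a set of equations
-/

namespace Pool.Agent.XL

open Finset

namespace GlueAnd

/-- the unknown `s j` (`s 0 = 0` and `s r = 1` are constants) -/
def osl {r : ℕ} {W : Type} (j : ℕ) : Option (W ⊕ Fin r) :=
  if h : 0 < j ∧ j < r then some (Sum.inr ⟨j - 1, by omega⟩) else none

/-- the values of `s` -/
def T {r : ℕ} {W : Type} (y : W ⊕ Fin r → ZMod 2) (j : ℕ) : ZMod 2 :=
  sv y (osl j) + if j = r then 1 else 0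

/-- the slots of the equation `v` of the block `v.1` -/
def slotA {M m h r : ℕ} (e : Fin M → Fin 8 → Fin m) (b : Fin M → ZMod 2) (v : Fin r × Bvar M h) :
    Fin (8 * h + 2) → Option ((Fin r × (Fin m × Fin h)) ⊕ Fin r) :=
  Fin.addCases (fun p => (slotB e v.2 p).map fun j => Sum.inl (v.1, j))
    fun p => if b v.2.1 = 0 then none else osl (v.1 + (p : ℕ))

theorem sum_slotA {M m h r : ℕ} (e : Fin M → Fin 8 → Fin m) (b : Fin M → ZMod 2)
    (v : Fin r × Bvar M h) (y : (Fin r × (Fin m × Fin h)) ⊕ Fin r → ZMod 2) :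
    ∑ p, sv y (slotA e b v p) = (∑ c, ∑ t, v.2.2 c t * y (.inl (v.1, (e v.2.1 c, t)))) +
      b v.2.1 * (sv y (osl v.1) + sv y (osl (v.1 + 1))) := by
  rw [Fin.sum_univ_add]
  congr 1
  · rw [← sum_slotB e v.2 (fun j => y (.inl (v.1, j)))]
    refine Finset.sum_congr rfl fun p _ => ?_
    rw [slotA, Fin.addCases_left, sv_map]
  · rw [Fin.sum_univ_two]
    simp only [slotA, Fin.addCases_right]
    by_cases hb : b v.2.1 = 0
    · simp [hb, sv]
    · have h1 : b v.2.1 = 1 := by
        revert hb
        generalize b v.2.1 = x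
        revert x
        decide
      simp [h1]

theorem eq_iff {M m h r : ℕ} (e : Fin M → Fin 8 → Fin m) (b : Fin M → ZMod 2)
    (v : Fin r × Bvar M h) (y : (Fin r × (Fin m × Fin h)) ⊕ Fin r → ZMod 2) :
    ∑ p, sv y (slotA e b v p) = bt (decide (b v.2.1 = 1 ∧ (v.1 : ℕ) + 1 = r)) ↔
      b v.2.1 * (T y v.1 + T y (v.1 + 1)) +
        ∑ c, ∑ t, v.2.2 c t * y (.inl (v.1, (e v.2.1 c, t))) = 0 := by
  rw [sum_slotA]
  have hne : (v.1 : ℕ) ≠ r := v.1.isLt.ne
  simp only [T, if_neg hne]
  generalize (∑ c, ∑ t, v.2.2 c t * y (.inl (v.1, (e v.2.1 c, t)))) = F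
  generalize sv y (osl (v.1 : ℕ)) = A
  generalize sv y (osl ((v.1 : ℕ) + 1)) = B
  by_cases hl : (v.1 : ℕ) + 1 = r
  · simp only [hl, and_true, if_true, bt_decide]
    generalize b v.2.1 = β
    revert F A B β
    decide
  · simp only [hl, and_false, decide_false, if_false]
    generalize b v.2.1 = β
    revert F A B β
    decide

end GlueAnd

open GlueAnd

/-- **Gluing of the conjunction of `r` blocks**, equations with private unknowns. -/
theorem glue_and_p {M m h n K r : ℕ} (hr : 1 ≤ r) (e : Fin M → Fin 8 → Fin m) (b : Fin M → ZMod 2)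
    (U : Finset (Eq3 n)) (q : Fin K → Eq3 n) (hU : ∀ i, q i ∈ U) (a : Fin K → Fin n)
    (ha : ∀ i, a i ∈ (q i).1.1) (hp : ∀ i j, i ≠ j → a j ∉ (q i).1.1)
    (hK : r * Fintype.card (Bvar M h) ≤ K)
    (hn : r * (m * h + 1 + (8 * h + 6) * Fintype.card (Bvar M h)) ≤ n) :
    ∃ φ : Eq3 n → (Fin r × Bvar M h) ⊕ Bool, (∀ v, v ∉ U → ∃ c, φ v = .inr c) ∧
      (∀ β, ∃ v, φ v = .inl β) ∧
      ∀ u, unsat (fun v => Sum.elim u id (φ v)) = true ↔
        ∀ i, incon e b (fun β => u (i, β)) = true := by
  classical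
  obtain ⟨φ, h1, h0, h2⟩ := glue_gen_p (ι := Fin r × Bvar M h)
    (Y := (Fin r × (Fin m × Fin h)) ⊕ Fin r) (w := 8 * h + 2) (slotA e b)
    (fun v => decide (b v.2.1 = 1 ∧ (v.1 : ℕ) + 1 = r)) U q hU a ha hp
    (by rw [Fintype.card_prod (Fin r), Fintype.card_fin]; exact hK) (by
      rw [Fintype.card_prod (Fin r) (Bvar M h), Fintype.card_sum,
        Fintype.card_prod (Fin r) (Fin m × Fin h),
        Fintype.card_prod (Fin m) (Fin h), Fintype.card_fin, Fintype.card_fin, Fintype.card_fin]
      refine le_trans (le_of_eq ?_) hn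
      ring)
  refine ⟨φ, h1, h0, fun u => ?_⟩
  rw [h2 u]
  simp only [eq_iff]
  constructor
  · intro hno i₀
    by_contra hcon
    apply hno
    rw [incon, decide_eq_true_iff, not_not] at hcon
    obtain ⟨x, hx⟩ := hcon
    refine ⟨Sum.elim (fun j => if j.1 = i₀ then x j.2.1 j.2.2 else 0)
      fun i => if (i₀ : ℕ) ≤ i then 1 else 0, fun v hv => ?_⟩
    have hT : ∀ j : ℕ, j ≤ r → T (Sum.elim (fun j : Fin r × (Fin m × Fin h) =>
        if j.1 = i₀ then x j.2.1 j.2.2 else 0)
        fun i : Fin r => if (i₀ : ℕ) ≤ i then (1 : ZMod 2) else 0) j =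
          if (i₀ : ℕ) < j then 1 else 0 := by
      intro j hj
      have hi := i₀.isLt
      unfold T osl
      by_cases h : 0 < j ∧ j < r
      · rw [dif_pos h, if_neg (by omega : ¬ j = r), add_zero]
        simp only [sv, Option.elim_some, Sum.elim_inr]
        by_cases h' : (i₀ : ℕ) < j
        · rw [if_pos h', if_pos (by omega)]
        · rw [if_neg h', if_neg (by omega)]
      · rw [dif_neg h]
        simp only [sv, Option.elim_none, zero_add]
        by_cases h' : j = r
        · rw [if_pos h', if_pos (by omega)]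
        · rw [if_neg h', if_neg (by omega)]
    rw [hT _ v.1.isLt.le, hT _ v.1.isLt]
    simp only [Sum.elim_inl]
    by_cases hi : v.1 = i₀
    · simp only [hi, lt_irrefl, if_false, Nat.lt_succ_self, if_true, zero_add, mul_one]
      refine hx v.2 ?_
      rw [← hi]
      exact hv
    · have hne : (i₀ : ℕ) ≠ v.1 := fun h => hi (Fin.ext h.symm)
      simp only [hi, if_false, mul_zero, Finset.sum_const_zero, add_zero]
      rcases Nat.lt_or_ge (i₀ : ℕ) v.1 with h' | h'
      · rw [if_pos h', if_pos (by omega)]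
        have : (1 : ZMod 2) + 1 = 0 := by decide
        rw [this, mul_zero]
      · rw [if_neg (by omega), if_neg (by omega), add_zero, mul_zero]
  · rintro hi ⟨y, hy⟩
    -- a block with `s i ≠ s (i + 1)`
    have hex : ∃ i : Fin r, T y i + T y ((i : ℕ) + 1) = 1 := by
      by_contra hcon
      push Not at hcon
      have hconst : ∀ j : ℕ, j ≤ r → T y j = 0 := by
        intro j
        induction j with
        | zero =>
          intro _
          unfold T osl
          rw [dif_neg (by omega), if_neg (by omega)]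
          rfl
        | succ j ih =>
          intro hj
          have h3 := ih (by omega)
          have h4 := hcon ⟨j, hj⟩
          simp only at h4
          rw [h3, zero_add] at h4
          revert h4
          generalize T y (j + 1) = x
          revert x
          decide
      have h5 := hconst r le_rfl
      unfold T osl at h5
      rw [dif_neg (by omega), if_pos rfl] at h5
      simp [sv] at h5
    obtain ⟨i, hT⟩ := hex
    have h6 := hi i
    rw [incon, decide_eq_true_iff] at h6
    refine h6 ⟨fun j t => y (.inl (i, (j, t))), fun β hβ => ?_⟩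
    have h7 := hy (i, β) hβ
    simp only at h7
    rw [hT, mul_one] at h7
    exact h7

end Pool.Agent.XL
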