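import Pool.Agent.XL.CompClass
import Pool.Agent.NTN.Markov

set_option autoImplicit false

/-!
# Comparator circuits on the literals and comparator circuits with `⌊log₂ n⌋ + 1` NOT gates

Every function of `n` variables which is computed by a comparator circuit with `S` wires which start
with variables, negated variables or constants is computed by monotone comparator circuits with at
most `2 ^ 16 n ^ 5 S` wires and `⌊log₂ n⌋ + 1` NOT gates.
-/

namespace Pool.Agent.XL

open Finset Pool.Agent.NTR Pool.Agent.NTN Pool.Agent.NWE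

theorem compClass_var {ι : Type} (b : ι) : (compClass 1).mem ι fun z => z b :=
  mem_of_wires (W := Unit) (by simp) (fun _ => Sum.inl b) [] () fun _ => rfl

/-- **Comparator circuits substituted into a comparator circuit.** -/
theorem compClass_comp {ι κ : Type} {S T : ℕ} (N : CompCirc κ S) (M : κ → (ι → Bool) → Bool)
    (hM : ∀ a, (compClass T).mem ι (M a)) (hT : 1 ≤ T) :
    (compClass (S * T)).mem ι fun x => N.val fun a => M a x := by
  classical
  have h1 : ∀ i : Fin S, ∃ P : CompCirc ι T, ∀ x,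
      P.val x = Sum.elim (fun a => M a x) id (N.init i) := by
    intro i
    rcases h : N.init i with a | c
    · obtain ⟨P, hP⟩ := hM a
      exact ⟨P, hP⟩
    · obtain ⟨P, hP⟩ := compClass_const (ι := ι) hT c
      exact ⟨P, hP⟩
  choose P hP using h1
  refine mem_of_wires (W := Fin S × Fin T) (by simp) (fun k => (P k.1).init k.2)
    (parGates P (List.finRange S) ++ N.gates.map fun g => ((g.1, (P g.1).out), (g.2, (P g.2).out)))
    (N.out, (P N.out).out) fun x => ?_
  rw [List.foldl_append]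
  set w := (parGates P (List.finRange S)).foldl cg (fun k => Sum.elim x id ((P k.1).init k.2))
    with hw
  have h2 := fold_embed (fun i : Fin S => (i, (P i).out)) (fun _ _ h => (Prod.ext_iff.mp h).1)
    N.gates (fun i => Sum.elim (fun a => M a x) id (N.init i)) w (fun i => by
      rw [hw, par_all, hP]) N.out
  exact h2

theorem hasThr_comp (i j : ℕ) : HasThr (compClass (3 ^ (2 * i + j + 2))) i j := by
  intro β _ g L θ hg hL hi hj
  have h := compClass_thr (le_refl 1) L θ hg (fun H hH => by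
    obtain ⟨b, rfl⟩ := hL H hH
    exact compClass_var b) i j hi hj
  rwa [mul_one] at h

theorem comp_size {n : ℕ} (hn : 1 ≤ n) :
    3 ^ (2 * (Nat.log 2 n + 2) + (Nat.log 2 n + 4) + 2) ≤ 2 ^ 16 * n ^ 5 := by
  have h2 : 2 ^ Nat.log 2 n ≤ n := Nat.pow_log_le_self 2 (by omega)
  have e5 : 2 * (Nat.log 2 n + 2) + (Nat.log 2 n + 4) + 2 = 10 + 3 * Nat.log 2 n := by ring
  rw [e5, pow_add, pow_mul]
  have h3 : (3 ^ 3) ^ Nat.log 2 n ≤ (2 ^ Nat.log 2 n) ^ 5 := by
    have e : (2 ^ Nat.log 2 n) ^ 5 = (2 ^ 5) ^ Nat.log 2 n := by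
      rw [← pow_mul, ← pow_mul, mul_comm]
    rw [e]
    exact Nat.pow_le_pow_left (by norm_num) _
  exact Nat.mul_le_mul (by norm_num) (h3.trans (Nat.pow_le_pow_left h2 5))

/-- **`⌊log₂ n⌋ + 1` NOT gates suffice: comparator circuits.** -/
theorem markov_comp {n S : ℕ} (hn : 1 ≤ n) (N : CompCirc (Fin n ⊕ Fin n) S) :
    ∃ (ls : List (List ((Fin n ⊕ ℕ → Bool) → Bool))) (P : (Fin n ⊕ ℕ → Bool) → Bool),
      ls.length = Nat.log 2 n + 1 ∧ (∀ l ∈ ls, l.length = 1) ∧
        (∀ l ∈ ls, ∀ G ∈ l, (compClass (2 ^ 16 * n ^ 5 * S)).mem _ G) ∧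
        (compClass (2 ^ 16 * n ^ 5 * S)).mem _ P ∧
        ∀ x, P (Gen.seen x (Gen.nots x ls [])) = N.val (lits x) := by
  obtain ⟨s1, s2, -⟩ := sizes hn
  have s3 := comp_size hn
  have hS : 1 ≤ S := Nat.succ_le_of_lt (Nat.lt_of_le_of_lt (Nat.zero_le _) N.out.isLt)
  have hK := hasThr_comp (Nat.log 2 n + 2) (Nat.log 2 n + 4)
  have h1 : 3 ^ (2 * (Nat.log 2 n + 2) + (Nat.log 2 n + 4) + 2) ≤ 2 ^ 16 * n ^ 5 * S :=
    s3.trans (Nat.le_mul_of_pos_right _ hS)
  refine markov_gen (compClass (2 ^ 16 * n ^ 5 * S))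
    (fun θ => compClass_le h1 (hK.thrF s1 s2 θ univ)) N.val ?_
  have hM : ∀ a : Fin n ⊕ Fin n, (compClass (2 ^ 16 * n ^ 5)).mem (Fin n ⊕ ℕ) fun z =>
      Sum.elim (fun a => z (Sum.inl a)) (fun a => thrF n (Nat.log 2 n + 1)
        (2 ^ (Nat.log 2 n + 1) - 1) (univ.erase a) z) a := by
    rintro (a | a)
    · exact compClass_le s3 (hK.var (by omega) (Sum.inl a))
    · exact compClass_le s3 (hK.thrF s1 s2 _ _)
  have h2 := compClass_comp N _ hM (Nat.mul_pos (by norm_num) (Nat.pow_pos hn))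
  rw [mul_comm S] at h2
  obtain ⟨P, hP⟩ := h2
  exact ⟨P, fun z => (hP z).trans rfl⟩

end Pool.Agent.XL
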