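import Pool.Agent.XL.NotLinDev
import Pool.Agent.XL.MarkovComp
import Pool.Agent.NTN.NotTries

set_option autoImplicit false

/-!
# Functions computed with few NOT gates
-/

namespace Pool.Agent.XL

open Finset Pool.Agent.NTR Pool.Agent.NTN Pool.Agent.TeleNeg Pool.Agent.NWE
open scoped BigOperators

/-- The function `A` is computed with `t` NOT gates: the inputs of the NOT gates and `A` itself are
functions of the class `K` of the variables and of the outputs of the NOT gates before (`ls` lists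
them, level by level; `Gen.seen`, `Gen.nots` are the values read and the outputs of all gates). -/
def NotGates (K : Gen.MonoClass) {ι : Type} (t : ℕ) (A : (ι → Bool) → Bool) : Prop :=
  ∃ (ls : List (List ((ι ⊕ ℕ → Bool) → Bool))) (P : (ι ⊕ ℕ → Bool) → Bool),
    (ls.map List.length).sum = t ∧ (∀ l ∈ ls, ∀ G ∈ l, K.mem (ι ⊕ ℕ) G) ∧ K.mem (ι ⊕ ℕ) P ∧
      ∀ x, A x = P (Gen.seen x (Gen.nots x ls []))

theorem prod_succ_le {α : Type} (ls : List (List α)) :
    (ls.map fun l => l.length + 1).prod ≤ 2 ^ (ls.map List.length).sum := by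
  induction ls with
  | nil => simp
  | cons l ls ih =>
    rw [List.map_cons, List.prod_cons, List.map_cons, List.sum_cons, pow_add]
    refine Nat.mul_le_mul ?_ ih
    exact Nat.succ_le_of_lt (Nat.lt_two_pow_self)

theorem NotGates.tries {K : Gen.MonoClass} {ι : Type} {t : ℕ} {A : (ι → Bool) → Bool}
    (h : NotGates K t A) (U : Finset ι) :
    ∃ (ts : List ℕ) (b : ℕ), ts.sum = t ∧ b ≤ 2 ^ t ∧ Tries K U ts 1 b A := by
  obtain ⟨ls, P, h1, h2, h3, h4⟩ := h
  refine ⟨ls.map List.length, (ls.map fun l => l.length + 1).prod, h1, ?_, ?_⟩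
  · rw [← h1]
    exact prod_succ_le ls
  · have h5 := tries_of_nots K ls h2 h3 U
    rwa [show (fun x => P (Gen.seen x (Gen.nots x ls []))) = A from (funext h4).symm] at h5

open Classical in
/-- (1): NOT gates and algorithms. -/
theorem not_gates_linear {n k : ℕ} (hn : 1 ≤ n) (hk : 1 ≤ k) :
    ∃ (N : ℕ) (E : Fin n → Eq3 N) (μ : (Fin n → Bool) → ℝ), (∀ x, 0 ≤ μ x) ∧ ∑ x, μ x = 1 ∧
      (∀ (t : ℕ) (A : (Fin n → Bool) → Bool), t < 2 ^ k → NotGates (devClass k) t A →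
        ∑ x with (A x = true ↔ Incons E x), μ x
          ≤ 1 / 2 + (1 / 2) ^ k + 2 ^ t * (2 ^ 220 * k) / n) ∧
      ∀ (ts : List ℕ) (b : ℕ) (A : (Fin n → Bool) → Bool), ts.sum < 2 ^ k →
        Tries (devClass k) univ ts 1 b A →
        ∑ x with (A x = true ↔ Incons E x), μ x
          ≤ 1 / 2 + (1 / 2) ^ k + b * (2 ^ 220 * k) / n := by
  obtain ⟨N, E, μ, m1, m2, m3⟩ := not_lin_dev hk hn
  have key : ∀ (ts : List ℕ) (b : ℕ) (A : (Fin n → Bool) → Bool), ts.sum < 2 ^ k →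
      Tries (devClass k) univ ts 1 b A →
      ∑ x with (A x = true ↔ Incons E x), μ x
        ≤ 1 / 2 + (1 / 2) ^ k + b * (2 ^ 220 * k) / n := by
    intro ts b A hts hA
    refine (m3 ts 1 b A hts hA).trans (le_of_eq ?_)
    have e : (2 : ℝ) ^ 220 = 2 * 2 ^ 219 := pow_succ' 2 219
    rw [e]
    generalize (2 : ℝ) ^ 219 = c
    push_cast
    ring
  refine ⟨N, E, μ, m1, m2, fun t A ht hA => ?_, key⟩
  obtain ⟨ts, b, h1, h2, h3⟩ := hA.tries univ
  refine (key ts b A (by rw [h1]; exact ht) h3).trans ?_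
  have h4 : (b : ℝ) ≤ 2 ^ t := by exact_mod_cast h2
  have h5 : (0 : ℝ) ≤ 2 ^ 220 * k := by positivity
  have h6 : (0 : ℝ) ≤ n := by positivity
  have h7 : (b : ℝ) * (2 ^ 220 * k) / n ≤ 2 ^ t * (2 ^ 220 * k) / n :=
    div_le_div_of_nonneg_right (mul_le_mul_of_nonneg_right h4 h5) h6
  linarith

theorem sum_of_ones {α : Type} {ls : List (List α)} {t : ℕ} (h1 : ls.length = t)
    (h2 : ∀ l ∈ ls, l.length = 1) : (ls.map List.length).sum = t := by
  rw [← h1]
  clear h1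
  induction ls with
  | nil => rfl
  | cons l ls ih =>
    rw [List.map_cons, List.sum_cons, ih (fun l' hl' => h2 l' (List.mem_cons_of_mem _ hl')),
      h2 l List.mem_cons_self, List.length_cons]
    omega

/-- (2): `⌊log₂ n⌋ + 1` NOT gates suffice for all functions. -/
theorem not_gates_suffice {n S : ℕ} (hn : 1 ≤ n) :
    (∀ M : Net (Fin n ⊕ Fin n) S, NotGates (Gen.netClass (2 ^ 34 * n ^ 10 * S ^ 2))
      (Nat.log 2 n + 1) fun x => M.val (lits x)) ∧
    (∀ M : Net (Fin n ⊕ Fin n) S, NotGates (Gen.dnetClass (2 ^ 34 * n ^ 10 * S ^ 2))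
      (Nat.log 2 n + 1) fun x => M.dval (lits x)) ∧
    ∀ M : CompCirc (Fin n ⊕ Fin n) S, NotGates (compClass (2 ^ 34 * n ^ 10 * S ^ 2))
      (Nat.log 2 n + 1) fun x => M.val (lits x) := by
  refine ⟨fun M => ?_, fun M => ?_, fun M => ?_⟩
  · obtain ⟨ls, P, h1, h2, h3, h4, h5⟩ := markov_nots hn M
    exact ⟨ls, P, sum_of_ones h1 h2, h3, h4, fun x => (h5 x).symm⟩
  · obtain ⟨ls, P, h1, h2, h3, h4, h5⟩ := markov_dnots hn M
    exact ⟨ls, P, sum_of_ones h1 h2, h3, h4, fun x => (h5 x).symm⟩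
  · obtain ⟨ls, P, h1, h2, h3, h4, h5⟩ := markov_comp hn M
    have hS : 1 ≤ S := Nat.succ_le_of_lt (Nat.lt_of_le_of_lt (Nat.zero_le _) M.out.isLt)
    have hle : 2 ^ 16 * n ^ 5 * S ≤ 2 ^ 34 * n ^ 10 * S ^ 2 := by
      have e1 : n ^ 5 ≤ n ^ 10 := Nat.pow_le_pow_right hn (by norm_num)
      have e2 : S ≤ S ^ 2 := by
        rw [pow_two]
        exact Nat.le_mul_of_pos_left _ hS
      exact Nat.mul_le_mul (Nat.mul_le_mul (by norm_num) e1) e2
    exact ⟨ls, P, sum_of_ones h1 h2, fun l hl G hG => compClass_le hle (h3 l hl G hG),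
      compClass_le hle h4, fun x => (h5 x).symm⟩

end Pool.Agent.XL
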