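import Mathlib

/-!
# Counting small subsets
-/

namespace Pool.Agent.XL

open Finset

/-- The number of subsets with at most `w` elements of a set with at most `4000 d 2^192`
elements is at most `2^(3 d)` if `204 w ≤ d`. -/
theorem count_subsets_of {V : Type*} [Fintype V] [DecidableEq V] {w d : ℕ}
    (hb : Fintype.card V ≤ 4000 * d * 2 ^ 192) (hw : 204 * w ≤ d) :
    (univ.filter fun Z : Finset V => Z.card ≤ w).card ≤ 2 ^ (3 * d) := by
  classical
  set θ : ℝ := (1 / 2) ^ 204 with hθ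
  have hθ0 : 0 < θ := by positivity
  have hθ1 : θ ≤ 1 := pow_le_one₀ (by norm_num) (by norm_num)
  -- the generating function
  have hsum : ∑ Z : Finset V, θ ^ Z.card = (θ + 1) ^ Fintype.card V := by
    rw [← Fintype.sum_pow_mul_eq_add_pow V θ 1]
    refine Finset.sum_congr rfl fun Z _ => ?_
    simp
  have hlow : ((univ.filter fun Z : Finset V => Z.card ≤ w).card : ℝ) * θ ^ w ≤
      (θ + 1) ^ Fintype.card V := by
    rw [← hsum]
    calc ((univ.filter fun Z : Finset V => Z.card ≤ w).card : ℝ) * θ ^ w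
        = ∑ Z ∈ univ.filter (fun Z : Finset V => Z.card ≤ w), θ ^ w := by
          rw [Finset.sum_const, nsmul_eq_mul]
      _ ≤ ∑ Z ∈ univ.filter (fun Z : Finset V => Z.card ≤ w), θ ^ Z.card := by
          refine Finset.sum_le_sum fun Z hZ => ?_
          exact pow_le_pow_of_le_one hθ0.le hθ1 (Finset.mem_filter.mp hZ).2
      _ ≤ ∑ Z : Finset V, θ ^ Z.card :=
          Finset.sum_le_sum_of_subset_of_nonneg (Finset.filter_subset _ _)
            fun Z _ _ => by positivity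
  -- `(1 + θ)^b ≤ exp (θ b) ≤ e^d ≤ 4^d`
  have hexp : (θ + 1) ^ Fintype.card V ≤ (4 : ℝ) ^ d := by
    have h1 : θ + 1 ≤ Real.exp θ := Real.add_one_le_exp θ
    have h2 : (θ + 1) ^ Fintype.card V ≤ Real.exp θ ^ Fintype.card V :=
      pow_le_pow_left₀ (by positivity) h1 _
    have h3 : Real.exp θ ^ Fintype.card V = Real.exp ((Fintype.card V : ℝ) * θ) := by
      rw [← Real.exp_nat_mul]
    have h4 : (Fintype.card V : ℝ) * θ ≤ (d : ℝ) * 1 := by
      have hb' : (Fintype.card V : ℝ) ≤ 4000 * d * 2 ^ 192 := by exact_mod_cast hb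
      have h5 : (Fintype.card V : ℝ) * θ ≤ 4000 * d * 2 ^ 192 * θ :=
        mul_le_mul_of_nonneg_right hb' hθ0.le
      have h6 : (2 : ℝ) ^ 192 * θ = (1 / 2) ^ 12 := by
        rw [hθ, show (204 : ℕ) = 192 + 12 from rfl, pow_add, ← mul_assoc, ← mul_pow]
        norm_num
      have h7 : (4000 : ℝ) * d * 2 ^ 192 * θ = 4000 * d * (1 / 2) ^ 12 := by
        rw [mul_assoc (4000 * (d : ℝ)), h6]
      rw [h7] at h5
      have hd : (0 : ℝ) ≤ d := Nat.cast_nonneg d
      have h8 : (4000 : ℝ) * d * (1 / 2) ^ 12 ≤ d * 1 := by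
        norm_num
        linarith
      exact h5.trans h8
    have h9 : Real.exp ((Fintype.card V : ℝ) * θ) ≤ Real.exp ((d : ℝ) * 1) :=
      Real.exp_le_exp.mpr h4
    have h10 : Real.exp ((d : ℝ) * 1) = Real.exp 1 ^ d := by
      rw [← Real.exp_nat_mul]
    have h11 : Real.exp 1 ^ d ≤ (4 : ℝ) ^ d :=
      pow_le_pow_left₀ (Real.exp_pos _).le (by linarith [Real.exp_one_lt_d9]) _
    calc (θ + 1) ^ Fintype.card V ≤ Real.exp θ ^ Fintype.card V := h2
      _ = Real.exp ((Fintype.card V : ℝ) * θ) := h3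
      _ ≤ Real.exp ((d : ℝ) * 1) := h9
      _ = Real.exp 1 ^ d := h10
      _ ≤ 4 ^ d := h11
  -- `θ^w ≥ 2^(-d)`
  have hθw : (1 : ℝ) ≤ θ ^ w * 2 ^ d := by
    have h1 : θ ^ w = (1 / 2 : ℝ) ^ (204 * w) := by rw [hθ, ← pow_mul]
    rw [h1]
    have h2 : (1 / 2 : ℝ) ^ d ≤ (1 / 2 : ℝ) ^ (204 * w) :=
      pow_le_pow_of_le_one (by norm_num) (by norm_num) hw
    have h3 : (1 / 2 : ℝ) ^ d * 2 ^ d = 1 := by rw [← mul_pow]; norm_num
    calc (1 : ℝ) = (1 / 2 : ℝ) ^ d * 2 ^ d := h3.symm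
      _ ≤ (1 / 2 : ℝ) ^ (204 * w) * 2 ^ d := mul_le_mul_of_nonneg_right h2 (by positivity)
  have hfin : ((univ.filter fun Z : Finset V => Z.card ≤ w).card : ℝ) ≤ 2 ^ (3 * d) := by
    set c : ℝ := ((univ.filter fun Z : Finset V => Z.card ≤ w).card : ℝ) with hc
    have hc0 : 0 ≤ c := by rw [hc]; positivity
    have h4 : (4 : ℝ) ^ d * 2 ^ d = 2 ^ (3 * d) := by
      rw [← mul_pow, pow_mul]; norm_num
    calc c = c * 1 := (mul_one c).symm
      _ ≤ c * (θ ^ w * 2 ^ d) := mul_le_mul_of_nonneg_left hθw hc0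
      _ = c * θ ^ w * 2 ^ d := by ring
      _ ≤ (θ + 1) ^ Fintype.card V * 2 ^ d :=
          mul_le_mul_of_nonneg_right hlow (by positivity)
      _ ≤ 4 ^ d * 2 ^ d := mul_le_mul_of_nonneg_right hexp (by positivity)
      _ = 2 ^ (3 * d) := h4
  exact_mod_cast hfin

theorem count_subsets {b w d : ℕ} (hb : b ≤ 4000 * d * 2 ^ 192) (hw : 204 * w ≤ d) :
    (univ.filter fun Z : Finset (Fin b) => Z.card ≤ w).card ≤ 2 ^ (3 * d) :=
  count_subsets_of (by rw [Fintype.card_fin]; exact hb) hw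

end Pool.Agent.XL
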