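import Pool.Agent.XL.Block
import Pool.Agent.XL.GlueP
import Pool.Agent.XL.Indep
import Pool.Agent.XL.Count
import Pool.Agent.GB24.HiddenBin
import Pool.Agent.NTR.Nets
import Pool.Agent.NWE.Defs

set_option autoImplicit false

/-!
# From a bound for a class of monotone functions to devices which see few zeros of a set of
linearly independent equations
-/

namespace Pool.Agent.XL

open Finset Pool.Agent.TeleNeg Pool.Agent.NTR.Gen Pool.Agent.NWE Pool.Agent.GB24.Loc

namespace MainAbs

theorem incon_mono {M m h : ℕ} (e : Fin M → Fin 8 → Fin m) (b : Fin M → ZMod 2)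
    (u v : Bvar M h → Bool) (huv : u ≤ v) (hu : incon e b u = true) : incon e b v = true := by
  classical
  unfold incon at hu ⊢
  rw [decide_eq_true_eq] at hu ⊢
  rintro ⟨x, hx⟩
  exact hu ⟨x, fun β hβ => hx β (Bool.le_iff_imp.mp (huv β) hβ)⟩

theorem card_Bvar (d : ℕ) : Fintype.card (Bvar (4000 * d) 24) = 4000 * d * 2 ^ 192 := by
  rw [Fintype.card_prod, Fintype.card_fun, Fintype.card_fun, ZMod.card, Fintype.card_fin,
    Fintype.card_fin, Fintype.card_fin, ← pow_mul]

theorem unsat_one (n : ℕ) : unsat (fun _ : Eq3 n => true) = true := by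
  classical
  unfold unsat
  rw [decide_eq_true_eq]
  rintro ⟨y, hy⟩
  have := hy ⟨⟨∅, by simp⟩, true⟩ rfl
  simp at this

theorem litsOn_eq {ι : Type} [DecidableEq ι] (U Z : Finset ι) (x : ι → Bool) :
    (Sum.elim x fun v => if v ∈ U then decide (v ∈ Z) else !x v) = litsOn U Z x := by
  funext s
  rcases s with v | v
  · rfl
  · simp only [litsOn, Sum.elim_inr]
    by_cases h : v ∈ U <;> by_cases h' : v ∈ Z <;> simp [h, h']

/-- The class `K` is weak at scale `d`: its functions below the inconsistency function of an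
expanding block of scale `d` accept few positive inputs. -/
def Weak (K : MonoClass) (d : ℕ) : Prop :=
  ∀ (m : ℕ) (e : Fin (4000 * d) → Fin 8 → Fin m) (b : Fin (4000 * d) → ZMod 2),
    Expand d e → 2 * d ≤ m → m ≤ 2000 * d → ∀ G : (Bvar (4000 * d) 24 → Bool) → Bool,
      K.mem _ G → (∀ u, G u = true → incon e b u = true) →
      2 ^ (5 * d) * (univ.filter fun W : Fin m → Fin 24 → ZMod 2 =>
        (∀ j, W j ≠ 0) ∧ G (PW e W) = true).card ≤ (2 ^ 24 - 1) ^ m

/-- **Main theorem**, for any class of devices. -/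
theorem main_abs (Kc : MonoClass) {n k : ℕ} (hK : 1 ≤ k → Weak Kc (1024 * k))
    (U : Finset (Eq3 n)) (q : Fin (5 * (2 ^ 222 * k)) → Eq3 n) (hU : ∀ i, q i ∈ U)
    (hq : LinearIndependent (ZMod 2) fun i => coeffs (q i).1.1) :
    ∃ (ρ : Eq3 n → Bool) (H : Finset (Eq3 n → Bool)), H.Nonempty ∧
      (∀ z ∈ H, unsat z = true ∧ ∀ v, v ∉ U → z v = ρ v) ∧
      ∀ (t : ℕ) (G : (Fin t → Bool) → (Eq3 n ⊕ Eq3 n → Bool) → Bool),
        (∀ y, Kc.mem _ (G y)) →
        (∀ y z, (∀ v, v ∉ U → z v = ρ v) → G y (lits z) = true → unsat z = true) →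
        ∀ A ⊆ H, (∀ z ∈ A, ∃ (y : Fin t → Bool) (Z : Finset (Eq3 n)), Z ⊆ U ∧
          (∀ v ∈ Z, z v = false) ∧ t + Z.card ≤ k ∧ G y (litsOn U Z z) = true) →
        2 ^ k * A.card ≤ H.card := by
  classical
  rcases Nat.eq_zero_or_pos k with rfl | hk
  · refine ⟨fun _ => true, {fun _ => true}, Finset.singleton_nonempty _, fun z hz => ?_,
      fun t G _ _ A hA _ => by simpa using Finset.card_le_card hA⟩
    rw [Finset.mem_singleton] at hz
    subst hz
    exact ⟨unsat_one n, fun _ _ => rfl⟩
  · obtain ⟨g, a, -, ha, hp⟩ := exists_private q hq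
    obtain ⟨m, e, b, hm1, hm2, hE, hsol, hocc⟩ := exists_system (1024 * k) (by omega)
    have hcard := card_Bvar (1024 * k)
    have hKn : 2 ^ 222 * k ≤ n := by
      have hinj : Function.Injective a := by
        intro i j h
        by_contra hne
        exact hp i j hne (h ▸ ha i)
      simpa using Fintype.card_le_of_injective a hinj
    obtain ⟨φ, hφU, hφs, hφ⟩ := glue_p (h := 24) e b U (fun i => q (g i)) (fun i => hU _) a ha hp (by
      rw [hcard]
      calc 4000 * (1024 * k) * 2 ^ 192 = (4000 * 1024 * 2 ^ 192) * k := by ring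
        _ ≤ 2 ^ 222 * k := Nat.mul_le_mul_right _ (by norm_num)) (by
      rw [hcard]
      refine le_trans ?_ hKn
      calc m * 24 + (8 * 24 + 6) * (4000 * (1024 * k) * 2 ^ 192)
          ≤ 2000 * (1024 * k) * 24 + (8 * 24 + 6) * (4000 * (1024 * k) * 2 ^ 192) := by gcongr
        _ = (2000 * 1024 * 24 + 198 * 4000 * 1024 * 2 ^ 192) * k := by ring
        _ ≤ 2 ^ 222 * k := Nat.mul_le_mul_right _ (by norm_num))
    set R := univ.filter fun W : Fin m → Fin 24 → ZMod 2 => ∀ j, W j ≠ 0 with hR
    have hRc : R.card = (2 ^ 24 - 1) ^ m := card_pos_inputs m 24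
    obtain ⟨ρ, M, h1, h2, h3⟩ := hardSet_bin Kc (Q := 2 ^ (5 * (1024 * k)))
      (fun u => incon e b u = true) (incon_mono e b)
      (R.map ⟨PW e, PW_injective hocc⟩) (by
        rw [Finset.map_nonempty, ← Finset.card_pos, hRc]
        positivity) (by
        intro u hu
        obtain ⟨W, -, rfl⟩ := Finset.mem_map.1 hu
        exact incon_PW hsol W) (by
        intro G hG hle
        have h4 := hK hk m e b hE hm1 hm2 G hG hle
        rw [Finset.card_map, hRc]
        refine le_trans (le_of_eq ?_) h4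
        congr 1
        rw [Finset.filter_map, Finset.card_map]
        congr 1
        ext W
        simp only [hR, Finset.mem_filter, Finset.mem_univ, true_and, Function.comp_apply,
          Function.Embedding.coeFn_mk])
      (fun z : Eq3 n → Bool => unsat z = true) U φ hφs hφU (fun x => by rw [hφ])
      (fun D => ∃ F, Kc.mem _ F ∧ ∀ p, D p = F (known p)) (fun D h => h)
    refine ⟨ρ, M, h1, h2, fun t G hG hs A hA hacc => ?_⟩
    rcases A.eq_empty_or_nonempty with rfl | hAne
    · simp
    obtain ⟨z₀, hz₀⟩ := hAne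
    obtain ⟨_, _, _, _, ht, _⟩ := hacc z₀ hz₀
    have htk : t ≤ k := by omega
    have h4 := h3 (Fin t → Bool) (k - t) (fun y p => G y (known p))
      (fun y => ⟨G y, hG y, fun _ => rfl⟩) (fun y x hx hy => by
        refine hs y x hx ?_
        rw [known_some] at hy
        exact hy)
    have h5 : A.card ≤ {x | x ∈ M ∧ AccSees U (k - t) (fun y p => G y (known p)) x}.ncard := by
      rw [← Set.ncard_coe_finset]
      refine Set.ncard_le_ncard ?_ (M.finite_toSet.subset fun x hx => hx.1)
      intro z hz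
      obtain ⟨y, Z, hZU, hZ0, hZc, hy⟩ := hacc z hz
      refine ⟨hA hz, y, Z, hZU, by omega, hZ0, ?_⟩
      change G y (known (NWE.hide U Z z)) = true
      rw [known_hide U Z z hZ0, litsOn_eq]
      exact hy
    have h6 : (univ.filter fun Z : Finset (Bvar (4000 * (1024 * k)) 24) => Z.card ≤ k - t).card ≤
        2 ^ (3 * (1024 * k)) := count_subsets_of (by rw [hcard]) (by omega)
    have h7 : Fintype.card (Fin t → Bool) = 2 ^ t := by simp
    have h8 : 2 ^ (5 * (1024 * k)) * A.card ≤ 2 ^ t * 2 ^ (3 * (1024 * k)) * M.card := by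
      refine (Nat.mul_le_mul_left _ h5).trans (h4.trans ?_)
      rw [h7]
      gcongr
    have h9 : 2 ^ (5 * (1024 * k)) = 2 ^ t * 2 ^ (3 * (1024 * k)) *
        (2 ^ k * 2 ^ (2 * (1024 * k) - t - k)) := by
      rw [← pow_add, ← pow_add, ← pow_add]
      congr 1
      omega
    rw [h9, mul_assoc] at h8
    have h10 := Nat.le_of_mul_le_mul_left h8 (by positivity)
    refine le_trans ?_ h10
    rw [mul_assoc]
    refine Nat.mul_le_mul_left _ ?_
    exact Nat.le_mul_of_pos_left _ (by positivity)

end MainAbs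

end Pool.Agent.XL
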