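import Pool.Agent.XL.Defs
import Pool.Agent.TeleNeg.NetDefs

set_option autoImplicit false

/-!
# Decompositions of switching networks
-/

namespace Pool.Agent.XL

open Finset Pool.Agent.TeleNeg

namespace NetsAux

variable {F : Type} [Field F] {ι : Type} {S : ℕ}

/-- A decomposition indexed by a finite type. -/
theorem decomp_mk {J : Type} [Fintype J] (hJ : Fintype.card J = S) (f : (ι → Bool) → Bool)
    (label : J → Option ι) (u v : J → (ι → Bool) → F)
    (h1 : ∀ i x, f x = true → u i x ≠ 0 → ∀ e ∈ label i, x e = true)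
    (h2 : ∀ i y, f y = false → v i y ≠ 0 → ∃ e ∈ label i, y e = false)
    (h3 : ∀ x y, f x = true → f y = false → ∑ i, u i x * v i y = 1) : Decomp F S f := by
  obtain ⟨g⟩ : Nonempty (Fin S ≃ J) := ⟨(Fintype.equivFinOfCardEq hJ).symm⟩
  refine ⟨fun i => label (g i), fun i => u (g i), fun i => v (g i), fun i => h1 (g i),
    fun i => h2 (g i), fun x y hx hy => ?_⟩
  rw [← h3 x y hx hy]
  exact Equiv.sum_comp g fun i => u i x * v i y

/-- The flow of a path. -/
theorem exists_flow [Fintype ι] [DecidableEq ι] (M : Net ι S) (x : ι → Bool) (s t : Fin S)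
    (h : Relation.ReflTransGen (M.Linked x) s t) :
    ∃ w : Fin S × Fin S × Option ι → F,
      (∀ r, w r ≠ 0 → (r ∈ M.contacts ∨ (r.2.1, r.1, r.2.2) ∈ M.contacts) ∧
        ∀ e ∈ r.2.2, x e = true) ∧
      ∀ g : Fin S → F, ∑ r, w r * (g r.1 - g r.2.1) = g s - g t := by
  classical
  induction h with
  | refl =>
    refine ⟨fun _ => 0, fun r hr => absurd rfl hr, fun g => ?_⟩
    simp
  | tail hb hc ih =>
    rename_i b c
    obtain ⟨w, hw, hs⟩ := ih
    obtain ⟨l, hl, hx⟩ := hc
    refine ⟨fun r => w r + if r = (b, c, l) then 1 else 0, fun r hr => ?_, fun g => ?_⟩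
    · by_cases h1 : r = (b, c, l)
      · subst h1
        exact ⟨hl, hx⟩
      · simp only [if_neg h1, add_zero] at hr
        exact hw r hr
    · have h1 : ∀ r : Fin S × Fin S × Option ι,
          (w r + if r = (b, c, l) then 1 else 0) * (g r.1 - g r.2.1) =
          w r * (g r.1 - g r.2.1) + if r = (b, c, l) then g b - g c else 0 := by
        intro r
        by_cases h1 : r = (b, c, l)
        · rw [if_pos h1, if_pos h1, h1]; ring
        · rw [if_neg h1, if_neg h1]; ring
      rw [sum_congr rfl fun r _ => h1 r, sum_add_distrib, hs, sum_ite_eq' univ (b, c, l),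
        if_pos (mem_univ _)]
      ring

end NetsAux

open NetsAux

theorem decomp_of_net (F : Type) [Field F] {ι : Type} [Fintype ι] {S : ℕ}
    (M : Pool.Agent.TeleNeg.Net ι S) : Decomp F (S * S * (Fintype.card ι + 1)) M.val := by
  classical
  have hacc : ∀ x, M.val x = true → M.Accepts x := fun x hx => by
    rw [Net.val] at hx; exact of_decide_eq_true hx
  have hrej : ∀ x, M.val x = false → ¬ M.Accepts x := fun x hx => by
    rw [Net.val] at hx; exact of_decide_eq_false hx
  have hflow : ∀ x, ∃ w : Fin S × Fin S × Option ι → F, M.val x = true →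
      (∀ r, w r ≠ 0 → (r ∈ M.contacts ∨ (r.2.1, r.1, r.2.2) ∈ M.contacts) ∧
        ∀ e ∈ r.2.2, x e = true) ∧
      ∀ g : Fin S → F, ∑ r, w r * (g r.1 - g r.2.1) = g M.src - g M.tgt := by
    intro x
    by_cases hx : M.val x = true
    · obtain ⟨w, hw⟩ := exists_flow (F := F) M x M.src M.tgt (hacc x hx)
      exact ⟨w, fun _ => hw⟩
    · exact ⟨fun _ => 0, fun h => absurd h hx⟩
  choose w hw using hflow
  obtain ⟨g, hg⟩ : ∃ g : (ι → Bool) → Fin S → F, g = fun y a =>
    if Relation.ReflTransGen (M.Linked y) M.src a then 1 else 0 := ⟨_, rfl⟩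
  have hg1 : ∀ y a, Relation.ReflTransGen (M.Linked y) M.src a → g y a = 1 := fun y a h => by
    rw [hg]; exact if_pos h
  have hg0 : ∀ y a, ¬ Relation.ReflTransGen (M.Linked y) M.src a → g y a = 0 := fun y a h => by
    rw [hg]; exact if_neg h
  refine decomp_mk (J := Fin S × Fin S × Option ι) ?_ _ (fun r => r.2.2) (fun r x => w x r)
    (fun r y => if r ∈ M.contacts ∨ (r.2.1, r.1, r.2.2) ∈ M.contacts then
      g y r.1 - g y r.2.1 else 0) ?_ ?_ ?_
  · rw [Fintype.card_prod, Fintype.card_prod, Fintype.card_fin, Fintype.card_option, mul_assoc]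
  · intro r x hx hr e he
    exact ((hw x hx).1 r hr).2 e he
  · intro r y _ hr
    by_contra hcon
    push Not at hcon
    have h1 : ∀ e ∈ r.2.2, y e = true := fun e he => by
      have := hcon e he
      simpa using this
    by_cases h2 : r ∈ M.contacts ∨ (r.2.1, r.1, r.2.2) ∈ M.contacts
    · rw [if_pos h2] at hr
      apply hr
      have h3 : M.Linked y r.1 r.2.1 := ⟨r.2.2, h2, h1⟩
      have h4 : M.Linked y r.2.1 r.1 := ⟨r.2.2, h2.symm, h1⟩
      by_cases h5 : Relation.ReflTransGen (M.Linked y) M.src r.1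
      · rw [hg1 y _ h5, hg1 y _ (h5.tail h3), sub_self]
      · rw [hg0 y _ h5, hg0 y _ (fun h6 => h5 (h6.tail h4)), sub_self]
    · rw [if_neg h2] at hr
      exact hr rfl
  · intro x y hx hy
    have h1 : ∀ r : Fin S × Fin S × Option ι,
        (w x r * if r ∈ M.contacts ∨ (r.2.1, r.1, r.2.2) ∈ M.contacts then
          g y r.1 - g y r.2.1 else 0) = w x r * (g y r.1 - g y r.2.1) := by
      intro r
      by_cases h2 : w x r = 0
      · rw [h2, zero_mul, zero_mul]
      · rw [if_pos ((hw x hx).1 r h2).1]
    rw [sum_congr rfl fun r _ => h1 r, (hw x hx).2, hg1 y _ Relation.ReflTransGen.refl,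
      hg0 y _ (hrej y hy), sub_zero]

theorem decomp_or (F : Type) [Field F] {ι : Type} {S S' : ℕ} {f f' : (ι → Bool) → Bool}
    (h : Decomp F S f) (h' : Decomp F S' f') : Decomp F (S + S') fun x => f x || f' x := by
  classical
  obtain ⟨l, u, v, h1, h2, h3⟩ := h
  obtain ⟨l', u', v', h1', h2', h3'⟩ := h'
  refine decomp_mk (J := Fin S ⊕ Fin S') (by simp) _ (Sum.elim l l')
    (Sum.elim (fun i x => if f x = true then u i x else 0)
      (fun i x => if f x = true then 0 else u' i x)) (Sum.elim v v') ?_ ?_ ?_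
  · rintro (i | i) x hx hu e he
    · simp only [Sum.elim_inl] at hu he
      by_cases h4 : f x = true
      · rw [if_pos h4] at hu
        exact h1 i x h4 hu e he
      · rw [if_neg h4] at hu
        exact absurd rfl hu
    · simp only [Sum.elim_inr] at hu he
      by_cases h4 : f x = true
      · rw [if_pos h4] at hu
        exact absurd rfl hu
      · rw [if_neg h4] at hu
        have h5 : f' x = true := by
          rw [Bool.or_eq_true] at hx
          exact hx.resolve_left h4
        exact h1' i x h5 hu e he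
  · rintro (i | i) y hy hv
    · exact h2 i y (Bool.or_eq_false_iff.1 hy).1 hv
    · exact h2' i y (Bool.or_eq_false_iff.1 hy).2 hv
  · intro x y hx hy
    rw [Fintype.sum_sum_type]
    simp only [Sum.elim_inl, Sum.elim_inr]
    by_cases h4 : f x = true
    · simp only [if_pos h4, zero_mul, sum_const_zero, add_zero]
      exact h3 x y h4 (Bool.or_eq_false_iff.1 hy).1
    · simp only [if_neg h4, zero_mul, sum_const_zero, zero_add]
      refine h3' x y ?_ (Bool.or_eq_false_iff.1 hy).2
      rw [Bool.or_eq_true] at hx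
      exact hx.resolve_left h4

theorem decomp_subst (F : Type) [Field F] {ι κ : Type} {S : ℕ} {f : (ι → Bool) → Bool}
    (h : Decomp F S f) (φ : ι → κ ⊕ Bool) :
    Decomp F S fun y => f fun i => Sum.elim y id (φ i) := by
  classical
  obtain ⟨l, u, v, h1, h2, h3⟩ := h
  refine ⟨fun i => (l i).bind fun e => Sum.elim some (fun _ => none) (φ e),
    fun i x => u i fun j => Sum.elim x id (φ j),
    fun i y => if ∃ e ∈ l i, φ e = Sum.inr false then 0 else v i fun j => Sum.elim y id (φ j),
    ?_, ?_, ?_⟩
  · intro i x hx hu k hk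
    rw [Option.mem_def, Option.bind_eq_some_iff] at hk
    obtain ⟨e, he, hek⟩ := hk
    have h4 := h1 i _ hx hu e he
    rcases h5 : φ e with k' | c
    · rw [h5] at hek h4
      simp only [Sum.elim_inl, Option.some.injEq] at hek h4
      rw [← hek]
      exact h4
    · rw [h5] at hek
      simp at hek
  · intro i y hy hv
    by_cases h6 : ∃ e ∈ l i, φ e = Sum.inr false
    · simp only [if_pos h6] at hv
      exact absurd rfl hv
    · simp only [if_neg h6] at hv
      obtain ⟨e, he, hye⟩ := h2 i _ hy hv
      rcases h5 : φ e with k' | c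
      · refine ⟨k', ?_, ?_⟩
        · rw [Option.mem_def, Option.bind_eq_some_iff]
          exact ⟨e, he, by rw [h5]; rfl⟩
        · rw [h5] at hye
          exact hye
      · rw [h5] at hye
        simp only [Sum.elim_inr, id] at hye
        subst hye
        exact absurd ⟨e, he, h5⟩ h6
  · intro x y hx hy
    rw [← h3 _ _ hx hy]
    refine sum_congr rfl fun i _ => ?_
    by_cases h6 : ∃ e ∈ l i, φ e = Sum.inr false
    · obtain ⟨e, he, hee⟩ := h6
      have h7 : u i (fun j => Sum.elim x id (φ j)) = 0 := by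
        by_contra h8
        have h9 := h1 i _ hx h8 e he
        rw [hee] at h9
        simp at h9
      show u i (fun j => Sum.elim x id (φ j)) * _ = u i (fun j => Sum.elim x id (φ j)) * _
      rw [h7, zero_mul, zero_mul]
    · simp only [if_neg h6]

end Pool.Agent.XL
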