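import Pool.Agent.XL.Span
import Pool.Agent.XL.Nets
import Pool.Agent.XL.Savitch
import Pool.Agent.NTR.Nets
import Pool.Agent.NWE.Defs

set_option autoImplicit false

/-!
# Small devices: switching networks, directed networks and span programs
-/

namespace Pool.Agent.XL

open Finset Pool.Agent.TeleNeg Pool.Agent.NTR.Gen

/-- The function `G` is computed by a small device on the variables `κ`: by a switching network
(undirected contacts) with at most `2 ^ k` nodes, or by a directed network with at most `2 ^ √k`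
nodes (`√k` rounded down), or by a span program with at most `2 ^ k` vectors over a field in which
`2 ≠ 0`. -/
def Small (k : ℕ) {κ : Type} (G : (κ → Bool) → Bool) : Prop :=
  (∃ S ≤ 2 ^ k, ∃ N : Net κ S, ∀ x, N.val x = G x) ∨
  (∃ S ≤ 2 ^ Nat.sqrt k, ∃ N : Net κ S, ∀ x, N.dval x = G x) ∨
  ∃ (F : Type) (_ : Field F), (2 : F) ≠ 0 ∧
    ∃ S ≤ 2 ^ k, ∃ P : SpanProgram F κ S, ∀ x, P.val x = G x

/-- The class of the functions computed by small devices. -/
def smallClass (k : ℕ) : MonoClass where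
  mem ι G := Small k G
  mono := by
    rintro ι G (⟨s, _, N, hN⟩ | ⟨s, _, N, hN⟩ | ⟨F, _, _, s, _, P, hP⟩)
    · exact (netClass s).mono ι G ⟨N, hN⟩
    · exact (dnetClass s).mono ι G ⟨N, hN⟩
    · rw [show G = P.val from funext fun x => (hP x).symm]
      exact P.val_mono
  subst := by
    rintro ι κ G φ (⟨s, hs, N, hN⟩ | ⟨s, hs, N, hN⟩ | ⟨F, hF, h2, s, hs, P, hP⟩)
    · obtain ⟨N', hN'⟩ := (netClass s).subst ι κ G φ ⟨N, hN⟩
      exact Or.inl ⟨s, hs, N', hN'⟩
    · obtain ⟨N', hN'⟩ := (dnetClass s).subst ι κ G φ ⟨N, hN⟩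
      exact Or.inr (Or.inl ⟨s, hs, N', hN'⟩)
    · exact Or.inr (Or.inr ⟨F, hF, h2, s, hs, P.subst φ, fun y => by
        rw [SpanProgram.subst_val, hP]⟩)

/-- Small devices have small decompositions. -/
theorem Small.decomp {k : ℕ} {κ : Type} [Fintype κ] {G : (κ → Bool) → Bool} (h : Small k G) :
    ∃ (F : Type) (_ : Field F) (S : ℕ), (2 : F) ≠ 0 ∧
      S ≤ 2 ^ k * 2 ^ k * (Fintype.card κ + 1) ∧ Decomp F S G := by
  have h1 : 1 ≤ 2 ^ k * (Fintype.card κ + 1) := Nat.mul_pos (by positivity) (by omega)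
  rcases h with ⟨s, hs, N, hN⟩ | ⟨s, hs, N, hN⟩ | ⟨F, hF, h2, s, hs, P, hP⟩
  · refine ⟨ℚ, inferInstance, s * s * (Fintype.card κ + 1), by norm_num, by gcongr, ?_⟩
    rw [show G = N.val from funext fun x => (hN x).symm]
    exact decomp_of_net ℚ N
  · refine ⟨ℚ, inferInstance, 2 ^ (Nat.sqrt k * (Nat.sqrt k + 1)) * (Fintype.card κ + 1),
      by norm_num, ?_, ?_⟩
    · rw [← pow_add]
      refine Nat.mul_le_mul_right _ (Nat.pow_le_pow_right (by norm_num) ?_)
      rw [mul_add, mul_one]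
      exact add_le_add (Nat.sqrt_le k) (Nat.sqrt_le_self k)
    · rw [show G = N.dval from funext fun x => (hN x).symm]
      exact decomp_of_dnet ℚ hs N
  · refine ⟨F, hF, s, h2, ?_, ?_⟩
    · calc s ≤ 2 ^ k := hs
        _ ≤ 2 ^ k * (2 ^ k * (Fintype.card κ + 1)) := Nat.le_mul_of_pos_right _ h1
        _ = _ := by ring
    · rw [show G = P.val from funext fun x => (hP x).symm]
      exact P.decomp

end Pool.Agent.XL
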