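import Pool.Agent.XL.Block
import Pool.Agent.XL.Glue
import Pool.Agent.XL.Count
import Pool.Agent.XL.Num
import Pool.Agent.XL.Small
import Pool.Agent.GB24.HiddenBin

set_option autoImplicit false

/-!
# Switching networks and span programs must see many zeros of systems of linear equations over F₂
-/

namespace Pool.Agent.XL

open Finset Pool.Agent.TeleNeg Pool.Agent.NTR.Gen Pool.Agent.NWE Pool.Agent.GB24.Loc

theorem incon_mono {M m h : ℕ} (e : Fin M → Fin 8 → Fin m) (b : Fin M → ZMod 2)
    (u v : Bvar M h → Bool) (huv : u ≤ v) (hu : incon e b u = true) : incon e b v = true := by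
  classical
  unfold incon at hu ⊢
  rw [decide_eq_true_eq] at hu ⊢
  rintro ⟨x, hx⟩
  exact hu ⟨x, fun β hβ => hx β (Bool.le_iff_imp.mp (huv β) hβ)⟩

theorem card_Bvar (d : ℕ) : Fintype.card (Bvar (4000 * d) 24) = 4000 * d * 2 ^ 192 :=
  card_block_vars d

/-- A function of the class of small devices below `incon` accepts few positive inputs. -/
theorem few_small {k d m : ℕ} (hd : 1000 ≤ d) (hk : k ≤ d) {e : Fin (4000 * d) → Fin 8 → Fin m}
    (hE : Expand d e) (b : Fin (4000 * d) → ZMod 2) (hm1 : 2 * d ≤ m) (hm2 : m ≤ 2000 * d)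
    (G : (Bvar (4000 * d) 24 → Bool) → Bool) (hG : Small k G)
    (hle : ∀ u, G u = true → incon e b u = true) :
    2 ^ (5 * d) * (univ.filter fun W : Fin m → Fin 24 → ZMod 2 =>
      (∀ j, W j ≠ 0) ∧ G (PW e W) = true).card ≤ (2 ^ 24 - 1) ^ m := by
  classical
  obtain ⟨F, hF, S, h2, hS', hD⟩ := Small.decomp hG
  have hS : S ≤ 2 ^ (4 * d) := by
    refine size_bound (s := k) (n := 4000 * d * 2 ^ 192) hd hk le_rfl ?_
    rw [card_Bvar] at hS'
    exact hS'
  have h3 := few_num F h2 hE b (by omega) hm1 hm2 hD hle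
  have h4 : 2 ^ (22 * d) * (univ.filter fun W : Fin m → Fin 24 → ZMod 2 =>
      (∀ j, W j ≠ 0) ∧ G (PW e W) = true).card ≤ 2 ^ (17 * d) * (2 ^ 24 - 1) ^ m :=
    h3.trans (Nat.mul_le_mul_right _ (hS.trans (Nat.pow_le_pow_right (by norm_num) (by omega))))
  have h5 : 2 ^ (22 * d) = 2 ^ (17 * d) * 2 ^ (5 * d) := by
    rw [← pow_add]
    congr 1
    ring
  rw [h5, mul_assoc] at h4
  exact Nat.le_of_mul_le_mul_left h4 (by positivity)

theorem litsOn_eq {ι : Type} [DecidableEq ι] (U Z : Finset ι) (x : ι → Bool) :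
    (Sum.elim x fun v => if v ∈ U then decide (v ∈ Z) else !x v) = litsOn U Z x := by
  funext s
  rcases s with v | v
  · rfl
  · simp only [litsOn, Sum.elim_inr]
    by_cases h : v ∈ U <;> by_cases h' : v ∈ Z <;> simp [h, h']

/-- disjoint nonempty equations -/
theorem le_of_disjoint {n K : ℕ} (q : Fin K → Eq3 n) (hne : ∀ i, (q i).1.1.Nonempty)
    (hd : ∀ i j, i ≠ j → Disjoint (q i).1.1 (q j).1.1) : K ≤ n := by
  choose a ha using hne
  have hinj : Function.Injective a := by
    intro i j h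
    by_contra hne
    exact Finset.disjoint_left.mp (hd i j hne) (ha i) (h ▸ ha j)
  simpa using Fintype.card_le_of_injective a hinj

theorem unsat_one (n : ℕ) : unsat (fun _ : Eq3 n => true) = true := by
  classical
  unfold unsat
  rw [decide_eq_true_eq]
  rintro ⟨y, hy⟩
  have := hy ⟨⟨∅, by simp⟩, true⟩ rfl
  simp at this

/-- **Main theorem**, for all devices of the class. -/
theorem main_hard (n k : ℕ) (U : Finset (Eq3 n)) (q : Fin (2 ^ 222 * k) → Eq3 n)
    (hU : ∀ i, q i ∈ U) (hne : ∀ i, (q i).1.1.Nonempty)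
    (hd : ∀ i j, i ≠ j → Disjoint (q i).1.1 (q j).1.1) :
    ∃ (ρ : Eq3 n → Bool) (H : Finset (Eq3 n → Bool)), H.Nonempty ∧
      (∀ z ∈ H, unsat z = true ∧ ∀ v, v ∉ U → z v = ρ v) ∧
      ∀ (t : ℕ) (G : (Fin t → Bool) → (Eq3 n ⊕ Eq3 n → Bool) → Bool),
        (∀ y, Small k (G y)) →
        (∀ y z, (∀ v, v ∉ U → z v = ρ v) → G y (lits z) = true → unsat z = true) →
        ∀ A ⊆ H, (∀ z ∈ A, ∃ (y : Fin t → Bool) (Z : Finset (Eq3 n)), Z ⊆ U ∧
          (∀ v ∈ Z, z v = false) ∧ t + Z.card ≤ k ∧ G y (litsOn U Z z) = true) →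
        2 ^ k * A.card ≤ H.card := by
  classical
  rcases Nat.eq_zero_or_pos k with rfl | hk
  · refine ⟨fun _ => true, {fun _ => true}, Finset.singleton_nonempty _, fun z hz => ?_,
      fun t G _ _ A hA _ => by simpa using Finset.card_le_card hA⟩
    rw [Finset.mem_singleton] at hz
    subst hz
    exact ⟨unsat_one n, fun _ _ => rfl⟩
  · obtain ⟨m, e, b, hm1, hm2, hE, hsol, hocc⟩ := exists_system (1024 * k) (by omega)
    have hcard := card_Bvar (1024 * k)
    have hKn : 2 ^ 222 * k ≤ n := le_of_disjoint q hne hd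
    obtain ⟨φ, hφU, hφs, hφ⟩ := glue' (h := 24) e b U q hU hne hd (by
      rw [hcard]
      calc 4000 * (1024 * k) * 2 ^ 192 = (4000 * 1024 * 2 ^ 192) * k := by ring
        _ ≤ 2 ^ 222 * k := Nat.mul_le_mul_right _ (by norm_num)) (by
      rw [hcard]
      refine le_trans ?_ hKn
      calc m * 24 + (8 * 24 + 6) * (4000 * (1024 * k) * 2 ^ 192)
          ≤ 2000 * (1024 * k) * 24 + (8 * 24 + 6) * (4000 * (1024 * k) * 2 ^ 192) := by gcongr
        _ = (2000 * 1024 * 24 + 198 * 4000 * 1024 * 2 ^ 192) * k := by ring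
        _ ≤ 2 ^ 222 * k := Nat.mul_le_mul_right _ (by norm_num))
    set R := univ.filter fun W : Fin m → Fin 24 → ZMod 2 => ∀ j, W j ≠ 0 with hR
    have hRc : R.card = (2 ^ 24 - 1) ^ m := card_pos_inputs m 24
    obtain ⟨ρ, M, h1, h2, h3⟩ := hardSet_bin (smallClass k) (Q := 2 ^ (5 * (1024 * k)))
      (fun u => incon e b u = true) (incon_mono e b)
      (R.map ⟨PW e, PW_injective hocc⟩) (by
        rw [Finset.map_nonempty, ← Finset.card_pos, hRc]
        positivity) (by
        intro u hu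
        obtain ⟨W, -, rfl⟩ := Finset.mem_map.1 hu
        exact incon_PW hsol W) (by
        intro G hG hle
        have h4 := few_small (k := k) (by omega) (by omega) hE b hm1 hm2 G hG hle
        rw [Finset.card_map, hRc]
        refine le_trans (le_of_eq ?_) h4
        congr 1
        rw [Finset.filter_map, Finset.card_map]
        congr 1
        ext W
        simp only [hR, Finset.mem_filter, Finset.mem_univ, true_and, Function.comp_apply,
          Function.Embedding.coeFn_mk])
      (fun z : Eq3 n → Bool => unsat z = true) U φ hφs hφU (fun x => by rw [hφ])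
      (fun D => ∃ F, (smallClass k).mem _ F ∧ ∀ p, D p = F (known p)) (fun D h => h)
    refine ⟨ρ, M, h1, h2, fun t G hG hs A hA hacc => ?_⟩
    rcases A.eq_empty_or_nonempty with rfl | hAne
    · simp
    obtain ⟨z₀, hz₀⟩ := hAne
    obtain ⟨_, _, _, _, ht, _⟩ := hacc z₀ hz₀
    have htk : t ≤ k := by omega
    have h4 := h3 (Fin t → Bool) (k - t) (fun y p => G y (known p))
      (fun y => ⟨G y, hG y, fun _ => rfl⟩) (fun y x hx hy => by
        refine hs y x hx ?_
        rw [known_some] at hy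
        exact hy)
    have h5 : A.card ≤ {x | x ∈ M ∧ AccSees U (k - t) (fun y p => G y (known p)) x}.ncard := by
      rw [← Set.ncard_coe_finset]
      refine Set.ncard_le_ncard ?_ (M.finite_toSet.subset fun x hx => hx.1)
      intro z hz
      obtain ⟨y, Z, hZU, hZ0, hZc, hy⟩ := hacc z hz
      refine ⟨hA hz, y, Z, hZU, by omega, hZ0, ?_⟩
      change G y (known (NWE.hide U Z z)) = true
      rw [known_hide U Z z hZ0, litsOn_eq]
      exact hy
    have h6 : (univ.filter fun Z : Finset (Bvar (4000 * (1024 * k)) 24) => Z.card ≤ k - t).card ≤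
        2 ^ (3 * (1024 * k)) := count_subsets_of (by rw [hcard]) (by omega)
    have h7 : Fintype.card (Fin t → Bool) = 2 ^ t := by simp
    have h8 : 2 ^ (5 * (1024 * k)) * A.card ≤ 2 ^ t * 2 ^ (3 * (1024 * k)) * M.card := by
      refine (Nat.mul_le_mul_left _ h5).trans (h4.trans ?_)
      rw [h7]
      gcongr
    have h9 : 2 ^ (5 * (1024 * k)) = 2 ^ t * 2 ^ (3 * (1024 * k)) *
        (2 ^ k * 2 ^ (2 * (1024 * k) - t - k)) := by
      rw [← pow_add, ← pow_add, ← pow_add]
      congr 1
      omega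
    rw [h9, mul_assoc] at h8
    have h10 := Nat.le_of_mul_le_mul_left h8 (by positivity)
    refine le_trans ?_ h10
    rw [mul_assoc]
    refine Nat.mul_le_mul_left _ ?_
    exact Nat.le_mul_of_pos_left _ (by positivity)

end Pool.Agent.XL
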