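import Pool.Agent.XL.CompDefs
import Pool.Agent.NWE.Defs

set_option autoImplicit false

/-!
# A comparator circuit on literals for a monotone function can be made blind for the negated
variables of a set `U` at the cost of a factor `2 ^ |U|`
-/

namespace Pool.Agent.XL

open Pool.Agent.NWE

namespace CB

section gen

variable {W : Type} [DecidableEq W]

/-- a gate on wires indexed by `W` -/
def cgW (v : W → Bool) (g : W × W) : W → Bool :=
  fun i => if i = g.1 then v g.1 && v g.2 else if i = g.2 then v g.1 || v g.2 else v i

theorem run_map {n : ℕ} (e : W ≃ Fin n) (l : List (W × W)) (v : Fin n → Bool) (w : W) :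
    (l.map fun g => (e g.1, e g.2)).foldl cgate v (e w) = l.foldl cgW (fun a => v (e a)) w := by
  induction l generalizing v with
  | nil => rfl
  | cons g l ih =>
    have h : (fun a => cgate v (e g.1, e g.2) (e a)) = cgW (fun a => v (e a)) g := by
      funext a
      simp only [cgate, cgW, e.injective.eq_iff]
    rw [List.map_cons, List.foldl_cons, List.foldl_cons, ih, h]

/-- the OR of some wires on the wire `p` -/
theorem run_or (l : List W) (p : W) (hl : l.Nodup) (hp : p ∉ l) (v : W → Bool) :
    (l.map fun a => (a, p)).foldl cgW v p = (v p || l.any v) := by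
  induction l generalizing v with
  | nil => simp
  | cons a l ih =>
    rw [List.nodup_cons] at hl
    rw [List.mem_cons, not_or] at hp
    rw [List.map_cons, List.foldl_cons, ih hl.2 hp.2]
    have h1 : cgW v (a, p) p = (v a || v p) := by
      simp [cgW, hp.1]
    have h2' : ∀ b ∈ l, cgW v (a, p) b = v b := by
      intro b hb
      have h3 : b ≠ a := fun h => hl.1 (h ▸ hb)
      have h4 : b ≠ p := fun h => hp.2 (h ▸ hb)
      simp [cgW, h3, h4]
    have h2 : l.any (cgW v (a, p)) = l.any v := by
      rw [Bool.eq_iff_iff, List.any_eq_true, List.any_eq_true]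
      exact ⟨fun ⟨b, hb, h⟩ => ⟨b, hb, by rw [← h2' b hb]; exact h⟩,
        fun ⟨b, hb, h⟩ => ⟨b, hb, by rw [h2' b hb]; exact h⟩⟩
    rw [h1, h2, List.any_cons]
    cases v a <;> cases v p <;> simp

theorem run_one {K : Type} [DecidableEq K] {S : ℕ} (gs : List (Fin S × Fin S)) (a : K)
    (v : K × Fin S → Bool) (k : K) (i : Fin S) :
    (gs.map fun g => ((a, g.1), (a, g.2))).foldl cgW v (k, i) =
      if k = a then gs.foldl cgate (fun i => v (a, i)) i else v (k, i) := by
  induction gs generalizing v with
  | nil =>
    by_cases h : k = a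
    · simp [h]
    · simp [h]
  | cons g gs ih =>
    have h0 : (fun i => cgW v ((a, g.1), (a, g.2)) (a, i)) = cgate (fun i => v (a, i)) g := by
      funext j
      simp only [cgW, cgate, Prod.mk.injEq, true_and]
    rw [List.map_cons, List.foldl_cons, List.foldl_cons, ih, h0]
    by_cases h : k = a
    · rw [if_pos h, if_pos h]
    · rw [if_neg h, if_neg h]
      simp only [cgW, Prod.mk.injEq, h, false_and, if_false]

theorem run_copies {K : Type} [DecidableEq K] {S : ℕ} (gs : List (Fin S × Fin S)) (l : List K)
    (hl : l.Nodup) (v : K × Fin S → Bool) (k : K) (i : Fin S) :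
    (l.flatMap fun a => gs.map fun g => ((a, g.1), (a, g.2))).foldl cgW v (k, i) =
      if k ∈ l then gs.foldl cgate (fun i => v (k, i)) i else v (k, i) := by
  induction l generalizing v with
  | nil => simp
  | cons a l ih =>
    rw [List.nodup_cons] at hl
    rw [List.flatMap_cons, List.foldl_append, ih hl.2]
    by_cases h : k = a
    · subst h
      rw [if_neg hl.1, run_one, if_pos rfl, if_pos List.mem_cons_self]
    · by_cases h2 : k ∈ l
      · have h0 : (fun i => (gs.map fun g => ((a, g.1), (a, g.2))).foldl cgW v (k, i)) =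
            fun i => v (k, i) := by
          funext j
          rw [run_one, if_neg h]
        rw [if_pos h2, if_pos (List.mem_cons_of_mem a h2), h0]
      · rw [if_neg h2, run_one, if_neg h, if_neg]
        rw [List.mem_cons, not_or]
        exact ⟨h, h2⟩

end gen

theorem run_mono {S : ℕ} (l : List (Fin S × Fin S)) {v v' : Fin S → Bool} (h : ∀ i, v i ≤ v' i)
    (i : Fin S) : l.foldl cgate v i ≤ l.foldl cgate v' i := by
  induction l generalizing v v' with
  | nil => exact h i
  | cons g l ih =>
    refine ih fun j => ?_
    have h1 := h g.1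
    have h2 := h g.2
    have h3 := h j
    unfold cgate
    by_cases hj : j = g.1
    · rw [if_pos hj, if_pos hj]
      revert h1 h2
      generalize v g.1 = a
      generalize v g.2 = b
      generalize v' g.1 = c
      generalize v' g.2 = d
      revert a b c d
      decide
    · rw [if_neg hj, if_neg hj]
      by_cases hj2 : j = g.2
      · rw [if_pos hj2, if_pos hj2]
        revert h1 h2
        generalize v g.1 = a
        generalize v g.2 = b
        generalize v' g.1 = c
        generalize v' g.2 = d
        revert a b c d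
        decide
      · rw [if_neg hj2, if_neg hj2]
        exact h3

section

variable {ι : Type} [DecidableEq ι]

/-- the literals in the copy `A` -/
def lab (U A : Finset ι) : (ι ⊕ ι) ⊕ Bool → (ι ⊕ ι) ⊕ Bool
  | .inr c => .inr c
  | .inl (.inl v) => if v ∈ U then (if v ∈ A then .inl (.inl v) else .inr false)
      else .inl (.inl v)
  | .inl (.inr v) => if v ∈ U then (if v ∈ A then .inr false else .inr true)
      else .inl (.inr v)

/-- the values of the literals in the copy `A` -/
def vlab (U A : Finset ι) (x : ι → Bool) : ι ⊕ ι → Bool :=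
  Sum.elim (fun v => if v ∈ U then (if v ∈ A then x v else false) else x v)
    fun v => if v ∈ U then (if v ∈ A then false else true) else !x v

theorem lab_val (U A : Finset ι) (x : ι → Bool) (y : ι ⊕ ι → Bool)
    (hy1 : ∀ v, y (.inl v) = x v) (hy2 : ∀ v, v ∉ U → y (.inr v) = !x v) (c : (ι ⊕ ι) ⊕ Bool) :
    Sum.elim y id (lab U A c) = Sum.elim (vlab U A x) id c := by
  rcases c with (v | v) | c
  · by_cases hU : v ∈ U
    · by_cases hA : v ∈ A
      · simp [lab, vlab, hU, hA, hy1]
      · simp [lab, vlab, hU, hA]
    · simp [lab, vlab, hU, hy1]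
  · by_cases hU : v ∈ U
    · by_cases hA : v ∈ A
      · simp [lab, vlab, hU, hA]
      · simp [lab, vlab, hU, hA]
    · simp [lab, vlab, hU, hy2 v hU]
  · rfl

end

end CB

open CB

theorem comp_blind {ι : Type} [Fintype ι] [DecidableEq ι] {S : ℕ} (f : (ι → Bool) → Bool)
    (hf : Monotone f) (U : Finset ι) (D : CompCirc (ι ⊕ ι) S)
    (hD : ∀ x, D.val (Pool.Agent.NWE.lits x) = f x) :
    ∃ D' : CompCirc (ι ⊕ ι) (2 ^ U.card * S),
      (∀ x, D'.val (Pool.Agent.NWE.lits x) = f x) ∧
      ∀ x, f x = true → D'.val (Pool.Agent.NWE.litsOn U ∅ x) = true := by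
  classical
  let K : Type := {A : Finset ι // A ∈ U.powerset}
  have hV : Fintype.card (K × Fin S) = 2 ^ U.card * S := by
    simp only [K, Fintype.card_prod, Fintype.card_fin, Fintype.card_coe, Finset.card_powerset]
  let e : K × Fin S ≃ Fin (2 ^ U.card * S) := Fintype.equivFinOfCardEq hV
  let P : K := ⟨∅, Finset.empty_mem_powerset U⟩
  let L1 : List ((K × Fin S) × (K × Fin S)) :=
    (Finset.univ : Finset K).toList.flatMap fun a => D.gates.map fun g => ((a, g.1), (a, g.2))
  let l2 : List (K × Fin S) := ((Finset.univ : Finset K).erase P).toList.map fun a => (a, D.out)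
  let L2 : List ((K × Fin S) × (K × Fin S)) := l2.map fun a => (a, (P, D.out))
  let D' : CompCirc (ι ⊕ ι) (2 ^ U.card * S) :=
    { init := fun i => lab U (e.symm i).1.1 (D.init (e.symm i).2)
      gates := (L1 ++ L2).map fun g => (e g.1, e g.2)
      out := e (P, D.out) }
  have hl2 : l2.Nodup := by
    refine (Finset.nodup_toList _).map ?_
    intro a b hab
    exact (Prod.ext_iff.1 hab).1
  have hp2 : (P, D.out) ∉ l2 := by
    intro h
    obtain ⟨a, ha, hab⟩ := List.mem_map.1 h
    rw [Finset.mem_toList, Finset.mem_erase] at ha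
    exact ha.1 (Prod.ext_iff.1 hab).1
  -- the value
  have hval : ∀ (x : ι → Bool) (y : ι ⊕ ι → Bool), (∀ v, y (.inl v) = x v) →
      (∀ v, v ∉ U → y (.inr v) = !x v) →
      (D'.val y = true ↔ ∃ A : K, D.val (vlab U A.1 x) = true) := by
    intro x y hy1 hy2
    have h1 : D'.val y = (L1 ++ L2).foldl cgW
        (fun a => Sum.elim y id (lab U a.1.1 (D.init a.2))) (P, D.out) := by
      show ((L1 ++ L2).map fun g => (e g.1, e g.2)).foldl cgate
        (fun i => Sum.elim y id (lab U (e.symm i).1.1 (D.init (e.symm i).2))) (e (P, D.out)) = _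
      rw [run_map]
      simp only [Equiv.symm_apply_apply]
    have h2 : ∀ a : K × Fin S, L1.foldl cgW
        (fun a => Sum.elim y id (lab U a.1.1 (D.init a.2))) a =
        D.gates.foldl cgate (fun i => Sum.elim (vlab U a.1.1 x) id (D.init i)) a.2 := by
      rintro ⟨k, i⟩
      show (((Finset.univ : Finset K).toList.flatMap fun a =>
        D.gates.map fun g => ((a, g.1), (a, g.2))).foldl cgW _ (k, i)) = _
      have h0 : (fun i => Sum.elim y id (lab U k.1 (D.init i))) =
          fun i => Sum.elim (vlab U k.1 x) id (D.init i) := by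
        funext j
        exact lab_val U k.1 x y hy1 hy2 (D.init j)
      rw [run_copies D.gates _ (Finset.nodup_toList _), if_pos (by simp)]
      show D.gates.foldl cgate (fun i => Sum.elim y id (lab U k.1 (D.init i))) i = _
      rw [h0]
    rw [h1, List.foldl_append, run_or l2 (P, D.out) hl2 hp2, h2]
    rw [Bool.or_eq_true, List.any_eq_true]
    constructor
    · rintro (h | ⟨a, ha, h⟩)
      · exact ⟨P, h⟩
      · obtain ⟨k, hk, rfl⟩ := List.mem_map.1 ha
        rw [h2] at h
        exact ⟨k, h⟩
    · rintro ⟨A, hA⟩
      by_cases hAP : A = P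
      · left
        rw [hAP] at hA
        exact hA
      · right
        refine ⟨(A, D.out), List.mem_map.2 ⟨A, ?_, rfl⟩, ?_⟩
        · rw [Finset.mem_toList, Finset.mem_erase]
          exact ⟨hAP, Finset.mem_univ _⟩
        · rw [h2]
          exact hA
  have hsound : ∀ (x : ι → Bool) (A : Finset ι), D.val (vlab U A x) = true → f x = true := by
    intro x A h
    let x' : ι → Bool := fun i => if i ∈ U then (if i ∈ A then x i else false) else x i
    have h1 : ∀ e : ι ⊕ ι, vlab U A x e ≤ lits x' e := by
      rintro (v | v)
      · show (if v ∈ U then (if v ∈ A then x v else false) else x v) ≤ x' v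
        exact le_rfl
      · show (if v ∈ U then (if v ∈ A then false else true) else !x v) ≤ !x' v
        by_cases hU : v ∈ U
        · by_cases hA : v ∈ A
          · simp only [hU, hA, if_true]
            exact Bool.false_le _
          · simp [x', hU, hA]
        · simp [x', hU]
    have h2 : D.val (vlab U A x) ≤ D.val (lits x') := by
      refine run_mono D.gates (fun i => ?_) D.out
      rcases D.init i with c | c
      · exact h1 c
      · exact le_rfl
    rw [h, hD] at h2
    have h3 : x' ≤ x := by
      intro i
      by_cases hU : i ∈ U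
      · by_cases hA : i ∈ A
        · simp [x', hU, hA]
        · simp [x', hU, hA]
      · simp [x', hU]
    exact top_le_iff.1 (h2.trans (hf h3))
  have hcompl : ∀ x : ι → Bool, f x = true → ∃ A : K, D.val (vlab U A.1 x) = true := by
    intro x hx
    refine ⟨⟨U.filter fun i => x i = true, Finset.mem_powerset.2 (Finset.filter_subset _ _)⟩, ?_⟩
    have h1 : vlab U (U.filter fun i => x i = true) x = lits x := by
      funext e
      rcases e with v | v
      · by_cases hU : v ∈ U
        · rcases h : x v with _ | _
          · simp [vlab, lits, hU, h]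
          · simp [vlab, lits, hU, h]
        · simp [vlab, lits, hU]
      · by_cases hU : v ∈ U
        · rcases h : x v with _ | _
          · simp [vlab, lits, hU, h]
          · simp [vlab, lits, hU, h]
        · simp [vlab, lits, hU]
    rw [h1, hD, hx]
  refine ⟨D', fun x => ?_, fun x hx => ?_⟩
  · rw [Bool.eq_iff_iff, hval x (lits x) (fun _ => rfl) (fun _ _ => rfl)]
    exact ⟨fun ⟨A, hA⟩ => hsound x A.1 hA, hcompl x⟩
  · refine (hval x _ (fun _ => rfl) (fun v hv => ?_)).2 (hcompl x hx)
    simp [litsOn, hv]

end Pool.Agent.XL
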