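import Pool.Agent.XL.CompRank
import Pool.Agent.XL.Block

set_option autoImplicit false

/-!
# The lower bound for comparator circuits on the lifted system
-/

namespace Pool.Agent.XL

open Finset

variable {M m h d q : ℕ}

/-- The vectors: the rows of the matrix and the unit vectors. -/
noncomputable def vecs (F : Type*) [Field F] (d : ℕ) (e : Fin M → Fin 8 → Fin m)
    (b : Fin M → ZMod 2) (R : Finset (Fin m → Fin h → ZMod 2)) :
    ↥R ⊕ (Fin m → Fin h → ZMod 2) → (Fin m → Fin h → ZMod 2) → F :=
  Sum.elim (fun W x => mat F d e b W.1 x) fun x => Pi.single x 1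

/-- The inputs. -/
def inputs (e : Fin M → Fin 8 → Fin m) (b : Fin M → ZMod 2)
    (R : Finset (Fin m → Fin h → ZMod 2)) : ↥R ⊕ (Fin m → Fin h → ZMod 2) → Bvar M h → Bool :=
  Sum.elim (fun W => PW e W.1) fun x => negIn e b x

/-- The functions which span the rows of a variable. -/
noncomputable def gensC (F : Type*) [Field F] (d : ℕ) (e : Fin M → Fin 8 → Fin m)
    (b : Fin M → ZMod 2) (β : Bvar M h) : Finset ((Fin m → Fin h → ZMod 2) → F) := by
  classical
  exact ((TT d M).filter (fun T => symmDiff T {β.1} ∉ TT d M)).biUnion fun T =>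
      (univ : Finset ({j // j ∉ supp e T} → Fin h → ZMod 2)).image fun V x =>
        if negIn e b x β = true then 0 else
          chi F (∑ j : {j // j ∉ supp e T}, ∑ t, V j t * x j t)

theorem card_gensC (F : Type*) [Field F] {e : Fin M → Fin 8 → Fin m} (b : Fin M → ZMod 2)
    (hs : ∀ T i, T ∈ TT d M → symmDiff T {i} ∉ TT d M → q ≤ (supp e T).card) (β : Bvar M h) :
    (gensC F d e b β).card ≤ (TT d M).card * 2 ^ (h * (m - q)) := by
  classical
  unfold gensC
  refine (Finset.card_biUnion_le_card_mul _ _ (2 ^ (h * (m - q))) ?_).trans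
    (Nat.mul_le_mul_right _ (Finset.card_le_card (Finset.filter_subset _ _)))
  intro T hT
  rw [Finset.mem_filter] at hT
  have h1 := hs T β.1 hT.1 hT.2
  refine Finset.card_image_le.trans ?_
  rw [Finset.card_univ, Fintype.card_fun, Fintype.card_fun, ZMod.card, Fintype.card_fin,
    ← pow_mul]
  apply Nat.pow_le_pow_right (by norm_num)
  apply Nat.mul_le_mul_left
  have h2 : Fintype.card {j // j ∉ supp e T} = m - (supp e T).card := by
    rw [Fintype.card_subtype_compl, Fintype.card_fin, Fintype.card_coe]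
  rw [h2]
  omega

/-- The rank of a variable. -/
theorem rk_lit (F : Type*) [Field F] {e : Fin M → Fin 8 → Fin m} (b : Fin M → ZMod 2)
    (R : Finset (Fin m → Fin h → ZMod 2))
    (hs : ∀ T i, T ∈ TT d M → symmDiff T {i} ∉ TT d M → q ≤ (supp e T).card) (β : Bvar M h) :
    rk (vecs F d e b R) (fun k => inputs e b R k β) ≤
      cn (fun k => inputs e b R k β) + (TT d M).card * 2 ^ (h * (m - q)) := by
  classical
  obtain ⟨E, hE⟩ : ∃ E : Finset ((Fin m → Fin h → ZMod 2) → F), E =
      ((univ : Finset (Fin m → Fin h → ZMod 2)).filter fun x => negIn e b x β = true).image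
        (fun x => Pi.single x (1 : F)) := ⟨_, rfl⟩
  have hle : Submodule.span F (vecs F d e b R '' {k | inputs e b R k β = true}) ≤
      Submodule.span F ((E ∪ gensC F d e b β : Finset _) : Set ((Fin m → Fin h → ZMod 2) → F)) := by
    rw [Submodule.span_le]
    rintro _ ⟨k, hk, rfl⟩
    have hE' : ∀ x, negIn e b x β = true → (Pi.single x (1 : F) : (Fin m → Fin h → ZMod 2) → F) ∈
        Submodule.span F ((E ∪ gensC F d e b β : Finset _) :
          Set ((Fin m → Fin h → ZMod 2) → F)) := by
      intro x hx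
      refine Submodule.subset_span (Finset.mem_coe.2 (Finset.mem_union_left _ ?_))
      rw [hE]
      exact Finset.mem_image.2 ⟨x, Finset.mem_filter.2 ⟨Finset.mem_univ _, hx⟩, rfl⟩
    rcases k with W | x
    · have hW : PW e W.1 β = true := hk
      have key : (fun x => mat F d e b W.1 x) =
          ∑ x ∈ univ.filter (fun x => negIn e b x β = true),
            mat F d e b W.1 x • (Pi.single x (1 : F) : (Fin m → Fin h → ZMod 2) → F) +
          ∑ T ∈ (TT d M).filter (fun T => symmDiff T {β.1} ∉ TT d M),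
            chi F (∑ i ∈ T, b i) • (fun x => if negIn e b x β = true then 0 else
              chi F (∑ j : {j // j ∉ supp e T}, ∑ t, W.1 j t * x j t)) := by
        funext x
        rw [Pi.add_apply, Finset.sum_apply, Finset.sum_apply]
        by_cases hx : negIn e b x β = true
        · rw [Finset.sum_eq_single x, Finset.sum_eq_zero, add_zero]
          · simp
          · intro T _
            rw [Pi.smul_apply, if_pos hx, smul_zero]
          · intro y _ hy
            rw [Pi.smul_apply, Pi.single_eq_of_ne (Ne.symm hy), smul_zero]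
          · intro h1
            exact absurd (Finset.mem_filter.2 ⟨Finset.mem_univ x, hx⟩) h1
        · rw [Finset.sum_eq_zero, zero_add]
          · rw [mat_eq F e b W.1 x β.1 (viol_of hW (by simpa using hx))]
            refine Finset.sum_congr rfl fun T _ => ?_
            rw [term_eq, Pi.smul_apply, if_neg hx, smul_eq_mul]
            rfl
          · intro y hy
            have hxy : x ≠ y := by
              rintro rfl
              exact hx (Finset.mem_filter.1 hy).2
            rw [Pi.smul_apply, Pi.single_eq_of_ne hxy, smul_zero]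
      change (fun x => mat F d e b W.1 x) ∈ _
      rw [key]
      refine Submodule.add_mem _ (Submodule.sum_mem _ fun x hx => Submodule.smul_mem _ _ ?_)
        (Submodule.sum_mem _ fun T hT => Submodule.smul_mem _ _ ?_)
      · exact hE' x (Finset.mem_filter.1 hx).2
      · refine Submodule.subset_span (Finset.mem_coe.2 (Finset.mem_union_right _ ?_))
        unfold gensC
        rw [Finset.mem_biUnion]
        refine ⟨T, hT, ?_⟩
        rw [Finset.mem_image]
        exact ⟨fun j => W.1 j, Finset.mem_univ _, rfl⟩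
    · exact hE' x hk
  have h1 : E.card ≤ cn (fun k => inputs e b R k β) := by
    rw [hE]
    exact Finset.card_image_le
  calc rk (vecs F d e b R) (fun k => inputs e b R k β)
      ≤ Module.finrank F (Submodule.span F
          ((E ∪ gensC F d e b β : Finset _) : Set ((Fin m → Fin h → ZMod 2) → F))) :=
        Submodule.finrank_mono hle
    _ ≤ (E ∪ gensC F d e b β).card := finrank_span_finset_le_card _
    _ ≤ E.card + (gensC F d e b β).card := Finset.card_union_le _ _
    _ ≤ _ := Nat.add_le_add h1 (card_gensC F b hs β)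

/-- The rank of the matrix with the rows `W` in `R`, `G (PW e W) = 1`, and the columns `x`,
`G (negIn e b x) = 0`. -/
noncomputable def rkG (F : Type*) [Field F] (d : ℕ) (e : Fin M → Fin 8 → Fin m)
    (b : Fin M → ZMod 2) (R : Finset (Fin m → Fin h → ZMod 2)) (G : (Bvar M h → Bool) → Bool) :
    ℤ := dl (vecs F d e b R) fun k => G (inputs e b R k)

section

variable (F : Type*) [Field F] {e : Fin M → Fin 8 → Fin m} (b : Fin M → ZMod 2)
  (R : Finset (Fin m → Fin h → ZMod 2))

theorem rkG_nonneg (G : (Bvar M h → Bool) → Bool) : 0 ≤ rkG F d e b R G :=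
  dl_nonneg _ (fun _ => rfl) _

theorem rkG_and (G G' : (Bvar M h → Bool) → Bool) :
    rkG F d e b R (fun u => G u && G' u) ≤ rkG F d e b R G + rkG F d e b R G' :=
  dl_and _ (fun _ => rfl) _ _

theorem rkG_or (G G' : (Bvar M h → Bool) → Bool) :
    rkG F d e b R (fun u => G u || G' u) ≤ rkG F d e b R G + rkG F d e b R G' :=
  dl_or _ (fun _ => rfl) _ _

theorem rkG_and_or (G G' : (Bvar M h → Bool) → Bool) :
    rkG F d e b R (fun u => G u && G' u) + rkG F d e b R (fun u => G u || G' u) ≤
      rkG F d e b R G + rkG F d e b R G' :=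
  dl_and_or _ _ _

theorem rkG_const (c : Bool) : rkG F d e b R (fun _ => c) ≤ 0 := dl_const _ c

theorem rkG_lit (hs : ∀ T i, T ∈ TT d M → symmDiff T {i} ∉ TT d M → q ≤ (supp e T).card)
    (β : Bvar M h) : rkG F d e b R (fun u => u β) ≤ ((TT d M).card * 2 ^ (h * (m - q)) : ℕ) := by
  have h1 := rk_lit F b R hs β
  have h2 : rkG F d e b R (fun u => u β) =
    rk (vecs F d e b R) (fun k => inputs e b R k β) - cn (fun k => inputs e b R k β) := rfl
  rw [h2]
  omega

/-- The rank of a comparator circuit. -/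
theorem rkG_comp (hs : ∀ T i, T ∈ TT d M → symmDiff T {i} ∉ TT d M → q ≤ (supp e T).card)
    {S : ℕ} (P : CompCirc (Bvar M h) S) :
    rkG F d e b R P.val ≤ (S * ((TT d M).card * 2 ^ (h * (m - q))) : ℕ) := by
  have h1 := comp_dl (B := (TT d M).card * 2 ^ (h * (m - q))) P (vecs F d e b R) (fun _ => rfl)
    (inputs e b R) (fun β => rkG_lit F b R hs β)
  refine h1.trans (le_of_eq ?_)
  push_cast
  rfl

/-- The rank of a function which accepts the positive inputs in `R` and no negative input. -/
theorem card_le_rkG (h2 : (2 : F) ≠ 0)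
    (hmul : ∀ W ∈ R, ∀ V ∈ R, ∑ x : Fin m → Fin h → ZMod 2,
      mat F d e b W x * chi F (∑ j, ip V x j) = if W = V then (2 : F) ^ (h * m) else 0)
    (G : (Bvar M h → Bool) → Bool) (hG : ∀ W ∈ R, G (PW e W) = true)
    (hG' : ∀ x, G (negIn e b x) = false) : (R.card : ℤ) ≤ rkG F d e b R G := by
  classical
  have hne : (2 : F) ^ (h * m) ≠ 0 := pow_ne_zero _ h2
  have hli : LinearIndependent F fun W : ↥R => fun x => mat F d e b W.1 x := by
    rw [Fintype.linearIndependent_iff]
    intro g hg V
    have h5 : ∑ x : Fin m → Fin h → ZMod 2,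
        (∑ W : ↥R, g W • fun x => mat F d e b W.1 x) x * chi F (∑ j, ip V.1 x j) = 0 := by
      rw [hg]
      simp
    have h6 : ∑ x : Fin m → Fin h → ZMod 2,
        (∑ W : ↥R, g W • fun x => mat F d e b W.1 x) x * chi F (∑ j, ip V.1 x j) =
        ∑ W : ↥R, g W * ∑ x : Fin m → Fin h → ZMod 2,
          mat F d e b W.1 x * chi F (∑ j, ip V.1 x j) := by
      simp only [Finset.sum_apply, Pi.smul_apply, smul_eq_mul, Finset.sum_mul, Finset.mul_sum]
      rw [Finset.sum_comm]
      exact Finset.sum_congr rfl fun W _ => Finset.sum_congr rfl fun x _ => mul_assoc _ _ _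
    rw [h6, Finset.sum_eq_single V] at h5
    · rw [hmul V.1 V.2 V.1 V.2, if_pos rfl] at h5
      exact (mul_eq_zero.1 h5).resolve_right hne
    · intro W _ hW
      rw [hmul W.1 W.2 V.1 V.2, if_neg (fun h8 => hW (Subtype.ext h8)), mul_zero]
    · intro h8
      exact absurd (Finset.mem_univ _) h8
  have h7 := finrank_span_eq_card hli
  rw [Fintype.card_coe] at h7
  have h8 : R.card ≤ rk (vecs F d e b R) fun k => G (inputs e b R k) := by
    rw [← h7]
    refine Submodule.finrank_mono (Submodule.span_mono ?_)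
    rintro _ ⟨W, rfl⟩
    exact ⟨Sum.inl W, hG W.1 W.2, rfl⟩
  have h9 : cn (fun k => G (inputs e b R k)) = 0 := by
    unfold cn
    rw [Finset.card_eq_zero, Finset.filter_eq_empty_iff]
    intro x _ hx
    have h10 : G (negIn e b x) = true := hx
    rw [hG' x] at h10
    exact Bool.false_ne_true h10
  unfold rkG dl
  rw [h9]
  omega

end

/-- A comparator circuit below `incon` accepts few positive inputs. -/
theorem few_of_comp_of (F : Type*) [Field F] (h2 : (2 : F) ≠ 0) {e : Fin M → Fin 8 → Fin m}
    (b : Fin M → ZMod 2)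
    (hs : ∀ T i, T ∈ TT d M → symmDiff T {i} ∉ TT d M → q ≤ (supp e T).card)
    (R : Finset (Fin m → Fin h → ZMod 2))
    (hmul : ∀ W ∈ R, ∀ V ∈ R, ∑ x : Fin m → Fin h → ZMod 2,
      mat F d e b W x * chi F (∑ j, ip V x j) = if W = V then (2 : F) ^ (h * m) else 0)
    {S : ℕ} (P : CompCirc (Bvar M h) S) (hle : ∀ u, P.val u = true → incon e b u = true)
    (hR : ∀ W ∈ R, P.val (PW e W) = true) :
    R.card ≤ S * ((TT d M).card * 2 ^ (h * (m - q))) := by
  have h1 := card_le_rkG F b R h2 hmul P.val hR (by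
    intro x
    by_contra hcon
    have h4 := hle _ (by simpa using hcon)
    rw [incon_negIn] at h4
    exact absurd h4 (by simp))
  exact_mod_cast h1.trans (rkG_comp F b R hs P)

theorem few_of_comp {e : Fin M → Fin 8 → Fin m} (hE : Expand d e) (b : Fin M → ZMod 2) {S : ℕ}
    (P : CompCirc (Bvar M h) S) (hle : ∀ u, P.val u = true → incon e b u = true) :
    (univ.filter fun W : Fin m → Fin h → ZMod 2 => (∀ j, W j ≠ 0) ∧ P.val (PW e W) = true).card ≤
      S * ((TT d M).card * 2 ^ (h * (m - 2 * d))) := by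
  classical
  refine few_of_comp_of ℚ (by norm_num) b (fun _ _ hT hT' => le_supp hE hT hT') _
    (fun W _ V hV => mat_mul ℚ hE b W V (Finset.mem_filter.1 hV).2.1) P hle
    (fun W hW => (Finset.mem_filter.1 hW).2.2)

/-- Strongly exponential form. -/
theorem few_num_comp {d m : ℕ} {e : Fin (4000 * d) → Fin 8 → Fin m} (hE : Expand d e)
    (b : Fin (4000 * d) → ZMod 2) (hm1 : 2 * d ≤ m) (hm2 : m ≤ 2000 * d) {S : ℕ}
    (P : CompCirc (Bvar (4000 * d) 24) S) (hle : ∀ u, P.val u = true → incon e b u = true) :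
    2 ^ (22 * d) * (univ.filter fun W : Fin m → Fin 24 → ZMod 2 =>
      (∀ j, W j ≠ 0) ∧ P.val (PW e W) = true).card ≤ S * (2 ^ 24 - 1) ^ m := by
  have h3 := few_of_comp hE b P hle
  have h4 : (TT d (4000 * d)).card ≤ 6000 ^ (2 * d) := card_small2 d
  calc 2 ^ (22 * d) * (univ.filter fun W : Fin m → Fin 24 → ZMod 2 =>
      (∀ j, W j ≠ 0) ∧ P.val (PW e W) = true).card
      ≤ 2 ^ (22 * d) * (S * (6000 ^ (2 * d) * 2 ^ (24 * (m - 2 * d)))) := by
        apply Nat.mul_le_mul_left
        exact h3.trans (Nat.mul_le_mul_left _ (Nat.mul_le_mul_right _ h4))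
    _ = S * (2 ^ (22 * d) * (6000 ^ (2 * d) * 2 ^ (24 * (m - 2 * d)))) := by ring
    _ ≤ S * (2 ^ 24 - 1) ^ m := Nat.mul_le_mul_left _ (num_aux d m hm1 hm2)

/-- The same for a function computed by a comparator circuit. -/
theorem few_comp {d m S : ℕ} {e : Fin (4000 * d) → Fin 8 → Fin m} (hE : Expand d e)
    (b : Fin (4000 * d) → ZMod 2) (hm1 : 2 * d ≤ m) (hm2 : m ≤ 2000 * d)
    {G : (Bvar (4000 * d) 24 → Bool) → Bool}
    (hG : ∃ S' ≤ S, ∃ P : CompCirc (Bvar (4000 * d) 24) S', ∀ u, P.val u = G u)
    (hle : ∀ u, G u = true → incon e b u = true) :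
    2 ^ (22 * d) * (univ.filter fun W : Fin m → Fin 24 → ZMod 2 =>
      (∀ j, W j ≠ 0) ∧ G (PW e W) = true).card ≤ S * (2 ^ 24 - 1) ^ m := by
  obtain ⟨S', hS, P, hP⟩ := hG
  have h1 : G = P.val := funext fun u => (hP u).symm
  subst h1
  exact (few_num_comp hE b hm1 hm2 P hle).trans (Nat.mul_le_mul_right _ hS)

end Pool.Agent.XL
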