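import Pool.Agent.XL.CompDefs

set_option autoImplicit false

/-!
# The rank of the wires of a comparator circuit
-/

namespace Pool.Agent.XL

open Finset

theorem CompCirc.val_mono {ι : Type} {S : ℕ} (P : CompCirc ι S) : Monotone P.val := by
  have key : ∀ (gs : List (Fin S × Fin S)) (v w : Fin S → Bool), v ≤ w →
      gs.foldl cgate v ≤ gs.foldl cgate w := by
    intro gs
    induction gs with
    | nil => exact fun v w h => h
    | cons g gs ih =>
      intro v w h
      refine ih _ _ fun i => ?_
      rw [Bool.le_iff_imp]
      have h1 := fun j => Bool.le_iff_imp.1 (h j)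
      unfold cgate
      split_ifs
      · rw [Bool.and_eq_true, Bool.and_eq_true]
        exact fun h2 => ⟨h1 _ h2.1, h1 _ h2.2⟩
      · rw [Bool.or_eq_true, Bool.or_eq_true]
        exact fun h2 => h2.imp (h1 _) (h1 _)
      · exact h1 i
  intro x y hxy
  refine key P.gates _ _ (fun i => ?_) P.out
  rcases P.init i with j | c
  · exact hxy j
  · exact le_rfl

/-- Substitution of variables and constants for the variables. -/
def CompCirc.subst {ι κ : Type} {S : ℕ} (P : CompCirc ι S) (φ : ι → κ ⊕ Bool) : CompCirc κ S :=
  ⟨fun i => Sum.elim φ Sum.inr (P.init i), P.gates, P.out⟩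

theorem CompCirc.subst_val {ι κ : Type} {S : ℕ} (P : CompCirc ι S) (φ : ι → κ ⊕ Bool)
    (y : κ → Bool) : (P.subst φ).val y = P.val fun i => Sum.elim y id (φ i) := by
  refine congrArg (fun w : Fin S → Bool => P.gates.foldl cgate w P.out) (funext fun i => ?_)
  change Sum.elim y id (Sum.elim φ Sum.inr (P.init i)) =
    Sum.elim (fun i => Sum.elim y id (φ i)) id (P.init i)
  rcases P.init i with j | c
  · rfl
  · rfl

section

variable {F : Type*} [Field F] {K J : Type*} [Fintype J] [DecidableEq J]

/-- The rank of a set of inputs. -/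
noncomputable def rk (v : K ⊕ J → J → F) (f : K ⊕ J → Bool) : ℕ :=
  Module.finrank F (Submodule.span F (v '' {k | f k = true}))

/-- The number of negative inputs in the set. -/
def cn (f : K ⊕ J → Bool) : ℕ := (univ.filter fun j : J => f (Sum.inr j) = true).card

omit [DecidableEq J] in
/-- The rank is submodular. -/
theorem rk_submod (v : K ⊕ J → J → F) (f g : K ⊕ J → Bool) :
    rk v (fun k => f k && g k) + rk v (fun k => f k || g k) ≤ rk v f + rk v g := by
  have h1 : v '' {k | (f k || g k) = true} = v '' {k | f k = true} ∪ v '' {k | g k = true} := by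
    rw [← Set.image_union]
    congr 1
    ext k
    simp
  have h2 : Submodule.span F (v '' {k | (f k && g k) = true}) ≤
      Submodule.span F (v '' {k | f k = true}) ⊓ Submodule.span F (v '' {k | g k = true}) := by
    refine le_inf (Submodule.span_mono (Set.image_mono fun k hk => ?_))
      (Submodule.span_mono (Set.image_mono fun k hk => ?_))
    · exact ((Bool.and_eq_true _ _).mp hk).1
    · exact ((Bool.and_eq_true _ _).mp hk).2
  have h3 := Submodule.finrank_sup_add_finrank_inf_eq
    (Submodule.span F (v '' {k | f k = true})) (Submodule.span F (v '' {k | g k = true}))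
  unfold rk
  rw [h1, Submodule.span_union, ← h3, add_comm]
  exact Nat.add_le_add_left (Submodule.finrank_mono h2) _

theorem cn_add (f g : K ⊕ J → Bool) :
    cn (fun k => f k && g k) + cn (fun k => f k || g k) = cn f + cn g := by
  have h1 : (univ.filter fun j : J => (f (Sum.inr j) && g (Sum.inr j)) = true) =
      (univ.filter fun j : J => f (Sum.inr j) = true) ∩
        univ.filter fun j : J => g (Sum.inr j) = true := by
    ext j
    simp
  have h2 : (univ.filter fun j : J => (f (Sum.inr j) || g (Sum.inr j)) = true) =
      (univ.filter fun j : J => f (Sum.inr j) = true) ∪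
        univ.filter fun j : J => g (Sum.inr j) = true := by
    ext j
    simp
  unfold cn
  rw [h1, h2, add_comm]
  exact Finset.card_union_add_card_inter _ _

/-- The difference of the rank and the number of negative inputs. -/
noncomputable def dl (v : K ⊕ J → J → F) (f : K ⊕ J → Bool) : ℤ := rk v f - cn f

theorem dl_nonneg (v : K ⊕ J → J → F) (hv : ∀ j, v (Sum.inr j) = Pi.single j 1)
    (f : K ⊕ J → Bool) : 0 ≤ dl v f := by
  have h1 : LinearIndependent F fun j : {j : J // f (Sum.inr j) = true} =>
      (Pi.single j.1 (1 : F) : J → F) := by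
    have h2 := (Pi.basisFun F J).linearIndependent.comp
      (fun j : {j : J // f (Sum.inr j) = true} => j.1) Subtype.val_injective
    have h3 : (fun j : {j : J // f (Sum.inr j) = true} => (Pi.single j.1 (1 : F) : J → F)) =
        (Pi.basisFun F J) ∘ fun j : {j : J // f (Sum.inr j) = true} => j.1 := by
      funext j
      simp
    rw [h3]
    exact h2
  have h2 := finrank_span_eq_card h1
  have h3 : Submodule.span F (Set.range fun j : {j : J // f (Sum.inr j) = true} =>
      (Pi.single j.1 (1 : F) : J → F)) ≤ Submodule.span F (v '' {k | f k = true}) := by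
    refine Submodule.span_mono ?_
    rintro _ ⟨j, rfl⟩
    exact ⟨Sum.inr j.1, j.2, hv j.1⟩
  have h4 := Submodule.finrank_mono h3
  rw [h2, Fintype.card_subtype] at h4
  unfold dl rk cn
  omega

/-- The functions computed on the wires. -/
def wires {S : ℕ} (gs : List (Fin S × Fin S)) (s : Fin S → K ⊕ J → Bool) (i : Fin S)
    (k : K ⊕ J) : Bool := gs.foldl cgate (fun i => s i k) i

theorem sum_wires {S : ℕ} (v : K ⊕ J → J → F) (gs : List (Fin S × Fin S)) :
    ∀ s : Fin S → K ⊕ J → Bool, ∑ i, dl v (wires gs s i) ≤ ∑ i, dl v (s i) := by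
  classical
  induction gs with
  | nil => exact fun s => le_rfl
  | cons g gs ih =>
    intro s
    refine (ih fun i k => cgate (fun i => s i k) g i).trans ?_
    rw [← sub_nonneg, ← Finset.sum_sub_distrib]
    by_cases hg : g.1 = g.2
    · refine Finset.sum_nonneg fun i _ => ?_
      have h1 : (fun k => cgate (fun i => s i k) g i) = s i := by
        funext k
        unfold cgate
        split_ifs with h2 h3
        · rw [← hg, Bool.and_self, h2]
        · rw [hg, Bool.or_self, h3]
        · rfl
      rw [h1, sub_self]
    · rw [Finset.sum_eq_add g.1 g.2 hg]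
      · have h1 : (fun k => cgate (fun i => s i k) g g.1) = fun k => s g.1 k && s g.2 k := by
          funext k
          unfold cgate
          rw [if_pos rfl]
        have h2 : (fun k => cgate (fun i => s i k) g g.2) = fun k => s g.1 k || s g.2 k := by
          funext k
          unfold cgate
          rw [if_neg (Ne.symm hg), if_pos rfl]
        have h3 := rk_submod v (s g.1) (s g.2)
        have h4 := cn_add (s g.1) (s g.2)
        rw [h1, h2]
        unfold dl
        omega
      · intro i _ hi
        have h1 : (fun k => cgate (fun i => s i k) g i) = s i := by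
          funext k
          unfold cgate
          rw [if_neg hi.1, if_neg hi.2]
        rw [h1, sub_self]
      · exact fun h => absurd (Finset.mem_univ _) h
      · exact fun h => absurd (Finset.mem_univ _) h

theorem dl_and_or (v : K ⊕ J → J → F) (f g : K ⊕ J → Bool) :
    dl v (fun k => f k && g k) + dl v (fun k => f k || g k) ≤ dl v f + dl v g := by
  have h3 := rk_submod v f g
  have h4 := cn_add f g
  unfold dl
  omega

theorem dl_and (v : K ⊕ J → J → F) (hv : ∀ j, v (Sum.inr j) = Pi.single j 1)
    (f g : K ⊕ J → Bool) : dl v (fun k => f k && g k) ≤ dl v f + dl v g := by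
  have h1 := dl_and_or v f g
  have h2 := dl_nonneg v hv fun k => f k || g k
  omega

theorem dl_or (v : K ⊕ J → J → F) (hv : ∀ j, v (Sum.inr j) = Pi.single j 1)
    (f g : K ⊕ J → Bool) : dl v (fun k => f k || g k) ≤ dl v f + dl v g := by
  have h1 := dl_and_or v f g
  have h2 := dl_nonneg v hv fun k => f k && g k
  omega

omit [DecidableEq J] in
theorem dl_const (v : K ⊕ J → J → F) (c : Bool) : dl v (fun _ => c) ≤ 0 := by
  cases c
  · have h6 : rk v (fun _ : K ⊕ J => false) = 0 := by
      unfold rk
      simp
    unfold dl
    rw [h6]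
    omega
  · have h6 : rk v (fun _ : K ⊕ J => true) ≤ Fintype.card J := by
      unfold rk
      exact (Submodule.finrank_le _).trans (le_of_eq (Module.finrank_fintype_fun_eq_card F))
    have h7 : cn (fun _ : K ⊕ J => true) = Fintype.card J := by
      unfold cn
      simp
    unfold dl
    rw [h7]
    omega

/-- **The rank bound for comparator circuits.** -/
theorem comp_dl {ι : Type} {S B : ℕ} (P : CompCirc ι S) (v : K ⊕ J → J → F)
    (hv : ∀ j, v (Sum.inr j) = Pi.single j 1) (x : K ⊕ J → ι → Bool)
    (hlit : ∀ a : ι, dl v (fun k => x k a) ≤ B) :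
    dl v (fun k => P.val (x k)) ≤ S * B := by
  obtain ⟨s, hs⟩ : ∃ s : Fin S → K ⊕ J → Bool, ∀ i k, s i k = Sum.elim (x k) id (P.init i) :=
    ⟨_, fun _ _ => rfl⟩
  have h1 := sum_wires v P.gates s
  have h2 : wires P.gates s P.out = fun k => P.val (x k) := by
    funext k
    exact congrArg (fun w : Fin S → Bool => P.gates.foldl cgate w P.out) (funext fun i => hs i k)
  have h3 : dl v (wires P.gates s P.out) ≤ ∑ i, dl v (wires P.gates s i) :=
    Finset.single_le_sum (fun i _ => dl_nonneg v hv _) (Finset.mem_univ _)
  have h4 : ∀ i, dl v (s i) ≤ B := by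
    intro i
    have h5 : s i = fun k => Sum.elim (x k) id (P.init i) := funext fun k => hs i k
    rw [h5]
    rcases P.init i with a | c
    · exact hlit a
    · refine (dl_const v c).trans ?_
      omega
  have h5 : ∑ i, dl v (s i) ≤ S * B := by
    refine (Finset.sum_le_sum fun i _ => h4 i).trans ?_
    rw [Finset.sum_const, Finset.card_univ, Fintype.card_fin]
    simp
  rw [h2] at h3
  exact h3.trans (h1.trans h5)

end

end Pool.Agent.XL
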