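import Pool.Agent.XL.GlueOr

set_option autoImplicit false

/-!
# Lists of linear equations with at most three unknowns
-/

namespace Pool.Agent.XL

open Finset

/-- The equations `E i` with `x i = true` have no common solution. -/
def Incons {n N : ℕ} (E : Fin n → Eq3 N) (x : Fin n → Bool) : Prop :=
  ¬ ∃ y : Fin N → ZMod 2, ∀ i, x i = true →
    ∑ j ∈ (E i).1.1, y j = if (E i).2 then 1 else 0

/-- A list of equations which simulates a system of linear equations. -/
theorem exists_list_gen {ι Y : Type} [Fintype ι] [Fintype Y] {w : ℕ}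
    (slot : ι → Fin w → Option Y) (c : ι → Bool) :
    ∃ (N : ℕ) (E : ι ⊕ (ι ⊕ ((ι × Fin w) ⊕ ι)) → Eq3 N), ∀ z : ι → Bool,
      (∃ f : Fin N → ZMod 2, ∀ l, (Sum.elim z (fun _ => true) l) = true → Sat f (E l)) ↔
        ∃ y : Y → ZMod 2, ∀ i, z i = true → ∑ p, sv y (slot i p) = bt (c i) := by
  classical
  let V := Y ⊕ ((ι × Fin (w + 1)) ⊕ ι)
  let g : V ≃ Fin (Fintype.card V) := Fintype.equivFin V
  let a : ι → Fin (Fintype.card V) := fun i => g (Sum.inr (Sum.inr i))
  let t : ι → Fin (w + 1) → Fin (Fintype.card V) := fun i p => g (Sum.inr (Sum.inl (i, p)))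
  let yy : Y → Fin (Fintype.card V) := fun j => g (Sum.inl j)
  let ε : ι → Eq3 (Fintype.card V) := fun i => (⟨{a i}, by simp⟩, false)
  let E : ι ⊕ (ι ⊕ ((ι × Fin w) ⊕ ι)) → Eq3 (Fintype.card V) := fun l =>
    match l with
    | .inl i => ε i
    | .inr (.inl i) => (⟨{t i 0}, by simp⟩, false)
    | .inr (.inr (.inl (i, p))) =>
      match slot i p with
      | some j => (⟨{t i p.succ, t i p.castSucc, yy j}, Finset.card_le_three⟩, false)
      | none => (⟨{t i p.succ, t i p.castSucc}, Finset.card_le_two.trans (by norm_num)⟩, false)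
    | .inr (.inr (.inr i)) =>
      (⟨{a i, t i (Fin.last w)}, Finset.card_le_two.trans (by norm_num)⟩, xor (ε i).2 (c i))
  have h1 := fun z => glue_core slot c ε a t yy (fun i => by simp [ε])
    (fun i i' hne => by
      simp only [ε, Finset.disjoint_singleton]
      intro h
      exact hne (Sum.inr_injective (Sum.inr_injective (g.injective h))))
    (fun i p i' p' h => by
      have h2 := Sum.inl_injective (Sum.inr_injective (g.injective h))
      exact ⟨congrArg Prod.fst h2, congrArg Prod.snd h2⟩)
    (fun j j' h => Sum.inl_injective (g.injective h))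
    (fun i p j h => by
      have h2 := g.injective h
      exact absurd h2 (by simp))
    (fun i p i' h => by
      simp only [ε, Finset.mem_singleton] at h
      have h2 := Sum.inr_injective (g.injective h)
      exact absurd h2 (by simp))
    (fun j i h => by
      simp only [ε, Finset.mem_singleton] at h
      have h2 := g.injective h
      exact absurd h2 (by simp)) z
  have hcst : ∀ f : Fin (Fintype.card V) → ZMod 2,
      (∀ q, Cst slot c ε a t yy q → Sat f q) ↔
        ∀ l : ι ⊕ ((ι × Fin w) ⊕ ι), Sat f (E (Sum.inr l)) := by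
    intro f
    constructor
    · intro hq l
      apply hq
      rcases l with i | ⟨i, p⟩ | i
      · exact Or.inr (Or.inl ⟨i, rfl, rfl⟩)
      · rcases hs : slot i p with _ | j
        · refine Or.inr (Or.inr (Or.inr (Or.inl ⟨i, p, hs, ?_, ?_⟩)))
          · simp only [E, hs]
          · simp only [E, hs]
        · refine Or.inr (Or.inr (Or.inl ⟨i, p, j, hs, ?_, ?_⟩))
          · simp only [E, hs]
          · simp only [E, hs]
      · exact Or.inr (Or.inr (Or.inr (Or.inr ⟨i, rfl, rfl⟩)))
    · intro hl q hq
      have hext : ∀ q' : Eq3 (Fintype.card V), q.1.1 = q'.1.1 → q.2 = q'.2 → Sat f q' →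
          Sat f q := by
        intro q' e1 e2 h
        unfold Sat at h ⊢
        rw [e1, e2]
        exact h
      rcases hq with ⟨i, b, hb, hne, hq, hq2⟩ | ⟨i, hq, hq2⟩ | ⟨i, p, j, hs, hq, hq2⟩ |
        ⟨i, p, hs, hq, hq2⟩ | ⟨i, hq, hq2⟩
      · simp only [ε, Finset.mem_singleton] at hb
        exact absurd hb hne
      · exact hext _ hq hq2 (hl (Sum.inl i))
      · refine hext _ ?_ ?_ (hl (Sum.inr (Sum.inl (i, p))))
        · rw [hq]; simp only [E, hs]
        · rw [hq2]; simp only [E, hs]
      · refine hext _ ?_ ?_ (hl (Sum.inr (Sum.inl (i, p))))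
        · rw [hq]; simp only [E, hs]
        · rw [hq2]; simp only [E, hs]
      · exact hext _ hq hq2 (hl (Sum.inr (Sum.inr i)))
  refine ⟨Fintype.card V, E, fun z => ?_⟩
  rw [← h1 z]
  constructor
  · rintro ⟨f, hf⟩
    exact ⟨f, (hcst f).2 fun l => hf (Sum.inr l) rfl, fun i hi => hf (Sum.inl i) hi⟩
  · rintro ⟨f, hf, hf2⟩
    refine ⟨f, ?_⟩
    rintro (i | l) hl
    · exact hf2 i hl
    · exact (hcst f).1 hf l

/-- The list has exactly `n` equations. -/
theorem exists_list_fin {ι Y : Type} [Fintype ι] [Fintype Y] {w n : ℕ}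
    (slot : ι → Fin w → Option Y) (c : ι → Bool) (hn : (w + 3) * Fintype.card ι ≤ n) :
    ∃ (N : ℕ) (E : Fin n → Eq3 N) (φ : Fin n → ι ⊕ Bool), ∀ z : ι → Bool,
      Incons E (fun v => Sum.elim z id (φ v)) ↔
        ¬ ∃ y : Y → ZMod 2, ∀ i, z i = true → ∑ p, sv y (slot i p) = bt (c i) := by
  classical
  obtain ⟨N, E, hE⟩ := exists_list_gen slot c
  have hcard : Fintype.card (ι ⊕ (ι ⊕ ((ι × Fin w) ⊕ ι))) ≤ Fintype.card (Fin n) := by
    simp only [Fintype.card_sum, Fintype.card_prod, Fintype.card_fin]
    refine le_trans (le_of_eq ?_) hn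
    ring
  obtain ⟨g⟩ := Function.Embedding.nonempty_of_card_le hcard
  let inv : Fin n → Option (ι ⊕ (ι ⊕ ((ι × Fin w) ⊕ ι))) := fun v =>
    if h : ∃ l, g l = v then some h.choose else none
  have hinv : ∀ l, inv (g l) = some l := by
    intro l
    have h : ∃ l', g l' = g l := ⟨l, rfl⟩
    simp only [inv, dif_pos h]
    rw [g.injective h.choose_spec]
  have hinv2 : ∀ v l, inv v = some l → g l = v := by
    intro v l h
    by_cases hh : ∃ l', g l' = v
    · simp only [inv, dif_pos hh, Option.some.injEq] at h
      rw [← h]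
      exact hh.choose_spec
    · simp only [inv, dif_neg hh] at h
      exact absurd h (by simp)
  refine ⟨N, fun v => match inv v with
    | some l => E l
    | none => (⟨∅, by simp⟩, false), fun v => match inv v with
    | some (.inl i) => .inl i
    | some (.inr _) => .inr true
    | none => .inr true, fun z => ?_⟩
  rw [Incons, ← hE z, not_iff_not]
  have key : ∀ (f : Fin N → ZMod 2),
      (∀ v : Fin n, Sum.elim z id ((match inv v with
        | some (.inl i) => .inl i
        | some (.inr _) => .inr true
        | none => .inr true : ι ⊕ Bool)) = true →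
        ∑ j ∈ (match inv v with
          | some l => E l
          | none => ((⟨∅, by simp⟩, false) : Eq3 N)).1.1, f j =
          if (match inv v with
          | some l => E l
          | none => ((⟨∅, by simp⟩, false) : Eq3 N)).2 then 1 else 0) ↔
      ∀ l, (Sum.elim z (fun _ => true) l) = true → Sat f (E l) := by
    intro f
    constructor
    · intro h l hl
      have h2 := h (g l)
      rw [hinv l] at h2
      simp only [] at h2
      refine h2 ?_
      rcases l with i | l
      · exact hl
      · rfl
    · intro h v hv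
      rcases hi : inv v with _ | l
      · simp
      · rw [hi] at hv
        simp only []
        refine h l ?_
        rcases l with i | l
        · exact hv
        · rfl
  exact exists_congr key

/-- **The list of equations** whose inconsistency is the disjunction of `r` copies of `incon e b`. -/
theorem exists_list {M m h r n : ℕ} (e : Fin M → Fin 8 → Fin m) (b : Fin M → ZMod 2)
    (hn : (8 * h + 3) * (r * Fintype.card (Bvar M h)) ≤ n) :
    ∃ (N : ℕ) (E : Fin n → Eq3 N) (φ : Fin n → (Fin r × Bvar M h) ⊕ Bool),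
      ∀ u : Fin r × Bvar M h → Bool, Incons E (fun v => Sum.elim u id (φ v)) ↔
        ∃ i, incon e b (fun β => u (i, β)) = true := by
  classical
  obtain ⟨N, E, φ, hE⟩ := exists_list_fin (ι := Fin r × Bvar M h) (Y := Fin r × (Fin m × Fin h))
    (w := 8 * h) (fun v p => (slotB e v.2 p).map fun j => (v.1, j))
    (fun v => decide (b v.2.1 = 1)) (n := n) (by
      rw [Fintype.card_prod (Fin r), Fintype.card_fin]; exact hn)
  refine ⟨N, E, φ, fun u => ?_⟩
  rw [hE u]
  have key : ∀ (v : Fin r × Bvar M h) (y : Fin r × (Fin m × Fin h) → ZMod 2),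
      (∑ p : Fin (8 * h), sv y ((slotB e v.2 p).map fun j => (v.1, j)) = bt (decide (b v.2.1 = 1))) ↔
      b v.2.1 + ∑ c, ∑ t, v.2.2 c t * y (v.1, (e v.2.1 c, t)) = 0 := by
    intro v y
    rw [← holds_iff e b v.2 (fun j => y (v.1, j))]
    simp only [sv_map]
  constructor
  · intro hno
    by_contra hcon
    push Not at hcon
    apply hno
    have hx : ∀ i : Fin r, ∃ x : Fin m → Fin h → ZMod 2, ∀ β : Bvar M h, u (i, β) = true →
        b β.1 + ∑ c, ∑ t, β.2 c t * x (e β.1 c) t = 0 := by
      intro i
      have := hcon i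
      rw [incon, ne_eq, decide_eq_true_iff, not_not] at this
      exact this
    choose x hx using hx
    exact ⟨fun j => x j.1 j.2.1 j.2.2, fun v hv => (key v _).mpr (hx v.1 v.2 hv)⟩
  · rintro ⟨i, hi⟩ ⟨y, hy⟩
    rw [incon, decide_eq_true_iff] at hi
    exact hi ⟨fun j t => y (i, (j, t)), fun β hβ => (key (i, β) y).mp (hy (i, β) hβ)⟩

end Pool.Agent.XL
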