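import Pool.Agent.XL.Sys

/-!
# Lifted systems of linear equations over `F_2`: the matrix and its columns
-/

namespace Pool.Agent.XL

open Finset

variable {M m h d : ℕ}

theorem zmod_add_self (a : ZMod 2) : a + a = 0 := by revert a; decide

theorem sum_symmDiff {α : Type*} [DecidableEq α] (T : Finset α) (i : α) (f : α → ZMod 2) :
    ∑ k ∈ symmDiff T {i}, f k = ∑ k ∈ T, f k + f i := by
  by_cases hi : i ∈ T
  · have h1 : symmDiff T {i} = T.erase i := by
      ext k; by_cases hk : k = i <;> simp [Finset.mem_symmDiff, hk, hi]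
    have h2 := Finset.sum_erase_add T f hi
    rw [h1, ← h2, add_assoc, zmod_add_self, add_zero]
  · have h1 : symmDiff T {i} = insert i T := by
      ext k; by_cases hk : k = i <;> simp [Finset.mem_symmDiff, hk, hi]
    rw [h1, Finset.sum_insert hi, add_comm]

theorem symmDiff_symmDiff_single {α : Type*} [DecidableEq α] (T : Finset α) (i : α) :
    symmDiff (symmDiff T {i}) {i} = T := by
  rw [symmDiff_symmDiff_cancel_right]

theorem mat_eq (F : Type*) [Field F] (e : Fin M → Fin 8 → Fin m) (b : Fin M → ZMod 2)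
    (W x : Fin m → Fin h → ZMod 2) (i : Fin M) (hi : viol e b (ip W x) i ≠ 0) :
    mat F d e b W x = ∑ T ∈ (TT d M).filter (fun T => symmDiff T {i} ∉ TT d M),
      chi F (∑ j, ip W x j) * chi F (∑ k ∈ T, viol e b (ip W x) k) := by
  unfold mat
  rw [← Finset.sum_filter_add_sum_filter_not (TT d M) (fun T => symmDiff T {i} ∈ TT d M)]
  have h0 : ∑ T ∈ (TT d M).filter (fun T => symmDiff T {i} ∈ TT d M),
      chi F (∑ j, ip W x j) * chi F (∑ k ∈ T, viol e b (ip W x) k) = 0 := by
    apply Finset.sum_involution (fun T _ => symmDiff T {i})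
    · intro T _
      rw [sum_symmDiff, chi_add, chi_of_ne F hi]
      ring
    · intro T _ _ hT
      have h1 : i ∈ symmDiff T {i} ↔ i ∈ T := by rw [hT]
      by_cases hiT : i ∈ T <;> simp [Finset.mem_symmDiff, hiT] at h1
    · intro T _
      exact symmDiff_symmDiff_single T i
    · intro T hT
      simp only [Finset.mem_filter] at hT ⊢
      exact ⟨hT.2, by rw [symmDiff_symmDiff_single]; exact hT.1⟩
  rw [h0, zero_add]

theorem card_symmDiff_single {α : Type*} [DecidableEq α] (T : Finset α) (i : α) :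
    (symmDiff T {i}).card ≤ T.card + 1 := by
  have h1 : symmDiff T {i} ⊆ insert i T := by
    intro k hk
    simp only [Finset.mem_symmDiff, Finset.mem_singleton, Finset.mem_insert] at hk ⊢
    tauto
  exact (Finset.card_le_card h1).trans (Finset.card_insert_le _ _)

theorem le_supp {e : Fin M → Fin 8 → Fin m} (hE : Expand d e) {T : Finset (Fin M)} {i : Fin M}
    (hT : T ∈ TT d M) (hT' : symmDiff T {i} ∉ TT d M) : 2 * d ≤ (supp e T).card := by
  simp only [TT, Finset.mem_filter, Finset.mem_univ, true_and] at hT hT'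
  have h2 := card_symmDiff_single T i
  have h3 := hE T hT
  omega

/-- The functions which span the columns of the matrix. -/
noncomputable def gens {F : Type*} [Field F] (d : ℕ) (e : Fin M → Fin 8 → Fin m)
    (R : Finset (Fin m → Fin h → ZMod 2)) {S : ℕ} (lab : Fin S → Fin M)
    (c : (Fin m → Fin h → ZMod 2) → Fin S → F) : Finset (↥R → F) := by
  classical
  exact (univ : Finset (Fin S)).biUnion fun ρ =>
    ((TT d M).filter (fun T => symmDiff T {lab ρ} ∉ TT d M)).biUnion fun T =>
      (univ : Finset ({j // j ∉ supp e T} → Fin h → ZMod 2)).image fun V =>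
        fun W : ↥R => c W.1 ρ * (if ∀ j : {j // j ∉ supp e T}, W.1 j = V j then 1 else 0)

theorem card_gens {F : Type*} [Field F] {e : Fin M → Fin 8 → Fin m} (hE : Expand d e)
    (R : Finset (Fin m → Fin h → ZMod 2)) {S : ℕ} (lab : Fin S → Fin M)
    (c : (Fin m → Fin h → ZMod 2) → Fin S → F) :
    (gens d e R lab c).card ≤ S * ((TT d M).card * 2 ^ (h * (m - 2 * d))) := by
  classical
  unfold gens
  refine (Finset.card_biUnion_le_card_mul _ _ ((TT d M).card * 2 ^ (h * (m - 2 * d))) ?_).trans
    (le_of_eq (by rw [Finset.card_univ, Fintype.card_fin]))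
  intro ρ _
  refine (Finset.card_biUnion_le_card_mul _ _ (2 ^ (h * (m - 2 * d))) ?_).trans ?_
  · intro T hT
    rw [Finset.mem_filter] at hT
    have h1 := le_supp hE hT.1 hT.2
    refine Finset.card_image_le.trans ?_
    rw [Finset.card_univ, Fintype.card_fun, Fintype.card_fun, ZMod.card, Fintype.card_fin,
      ← pow_mul]
    apply Nat.pow_le_pow_right (by norm_num)
    apply Nat.mul_le_mul_left
    have h2 : Fintype.card {j // j ∉ supp e T} = m - (supp e T).card := by
      rw [Fintype.card_subtype_compl, Fintype.card_fin, Fintype.card_coe]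
    rw [h2]
    omega
  · exact Nat.mul_le_mul_right _ (Finset.card_le_card (Finset.filter_subset _ _))

theorem sum_viol (e : Fin M → Fin 8 → Fin m) (b : Fin M → ZMod 2) (z : Fin m → ZMod 2)
    (T : Finset (Fin M)) :
    ∑ i ∈ T, viol e b z i = ∑ i ∈ T, b i + ∑ j ∈ supp e T, z j := by
  unfold viol
  rw [Finset.sum_add_distrib]
  congr 1
  have h1 : ∑ j ∈ supp e T, z j = ∑ j, par e T j * z j := by
    rw [supp, Finset.sum_filter]
    apply Finset.sum_congr rfl
    intro j _
    have h01 : ∀ a y : ZMod 2, (if a ≠ 0 then y else 0) = a * y := by decide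
    exact h01 _ _
  rw [h1]
  simp only [par, Finset.sum_mul, ite_mul, one_mul, zero_mul]
  symm
  rw [Finset.sum_comm]
  apply Finset.sum_congr rfl
  intro i _
  rw [Finset.sum_comm]
  apply Finset.sum_congr rfl
  intro c _
  rw [Finset.sum_ite_eq]
  simp

theorem term_eq (F : Type*) [Field F] (e : Fin M → Fin 8 → Fin m) (b : Fin M → ZMod 2)
    (W x : Fin m → Fin h → ZMod 2) (T : Finset (Fin M)) :
    chi F (∑ j, ip W x j) * chi F (∑ k ∈ T, viol e b (ip W x) k) =
      chi F (∑ i ∈ T, b i) * chi F (∑ j : {j // j ∉ supp e T}, ip W x j) := by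
  rw [sum_viol, chi_add]
  have h1 : ∑ j, ip W x j = ∑ j ∈ supp e T, ip W x j + ∑ j : {j // j ∉ supp e T}, ip W x j := by
    rw [← Finset.sum_filter_add_sum_filter_not univ (fun j => j ∈ supp e T)]
    congr 1
    · apply Finset.sum_congr _ (fun _ _ => rfl)
      ext j; simp
    · rw [← Finset.sum_subtype_eq_sum_filter]
      simp
  rw [h1, chi_add]
  have h2 := chi_mul_self F (∑ j ∈ supp e T, ip W x j)
  calc _ = chi F (∑ i ∈ T, b i) * chi F (∑ j : {j // j ∉ supp e T}, ip W x j) *
      (chi F (∑ j ∈ supp e T, ip W x j) * chi F (∑ j ∈ supp e T, ip W x j)) := by ring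
    _ = _ := by rw [h2, mul_one]

/-- every column of the matrix is spanned by `gens` -/
theorem column_mem {F : Type*} [Field F] {e : Fin M → Fin 8 → Fin m}
    (b : Fin M → ZMod 2) (R : Finset (Fin m → Fin h → ZMod 2)) {S : ℕ} (lab : Fin S → Fin M)
    (c p : (Fin m → Fin h → ZMod 2) → Fin S → F)
    (h1 : ∀ W ∈ R, ∀ x, ∑ ρ, c W ρ * p x ρ = 1)
    (hv : ∀ W ∈ R, ∀ x ρ, c W ρ * p x ρ ≠ 0 → viol e b (ip W x) (lab ρ) ≠ 0)
    (x : Fin m → Fin h → ZMod 2) :
    (fun W : ↥R => mat F d e b W.1 x) ∈
      Submodule.span F ((gens d e R lab c : Finset (↥R → F)) : Set (↥R → F)) := by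
  classical
  have key : (fun W : ↥R => mat F d e b W.1 x) =
      ∑ ρ : Fin S, ∑ T ∈ (TT d M).filter (fun T => symmDiff T {lab ρ} ∉ TT d M),
        ∑ V : {j // j ∉ supp e T} → Fin h → ZMod 2,
          (p x ρ * (chi F (∑ i ∈ T, b i) *
            chi F (∑ j : {j // j ∉ supp e T}, ∑ t, V j t * x j t))) •
          (fun W : ↥R => c W.1 ρ * (if ∀ j : {j // j ∉ supp e T}, W.1 j = V j then 1 else 0)) := by
    funext W
    have e1 : mat F d e b W.1 x = ∑ ρ, c W.1 ρ * p x ρ * mat F d e b W.1 x := by
      rw [← Finset.sum_mul, h1 W.1 W.2 x, one_mul]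
    rw [e1, Finset.sum_apply]
    apply Finset.sum_congr rfl
    intro ρ _
    have e2 : c W.1 ρ * p x ρ * mat F d e b W.1 x = c W.1 ρ * p x ρ *
        ∑ T ∈ (TT d M).filter (fun T => symmDiff T {lab ρ} ∉ TT d M),
          chi F (∑ j, ip W.1 x j) * chi F (∑ k ∈ T, viol e b (ip W.1 x) k) := by
      by_cases hz : c W.1 ρ * p x ρ = 0
      · rw [hz, zero_mul, zero_mul]
      · rw [mat_eq F e b W.1 x (lab ρ) (hv W.1 W.2 x ρ hz)]
    rw [e2, Finset.sum_apply, Finset.mul_sum]
    apply Finset.sum_congr rfl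
    intro T _
    rw [term_eq, Finset.sum_apply]
    rw [Finset.sum_eq_single (fun j : {j // j ∉ supp e T} => W.1 j)]
    · simp only [Pi.smul_apply, smul_eq_mul, implies_true, if_true, mul_one, ip]
      ring
    · intro V _ hV
      simp only [Pi.smul_apply, smul_eq_mul]
      rw [if_neg, mul_zero, mul_zero]
      intro hcon
      apply hV
      funext j
      exact (hcon j).symm
    · intro hcon
      exact absurd (Finset.mem_univ _) hcon
  rw [key]
  apply Submodule.sum_mem
  intro ρ _
  apply Submodule.sum_mem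
  intro T hT
  apply Submodule.sum_mem
  intro V _
  apply Submodule.smul_mem
  apply Submodule.subset_span
  unfold gens
  rw [Finset.mem_coe, Finset.mem_biUnion]
  refine ⟨ρ, Finset.mem_univ _, ?_⟩
  rw [Finset.mem_biUnion]
  refine ⟨T, hT, ?_⟩
  rw [Finset.mem_image]
  exact ⟨V, Finset.mem_univ _, rfl⟩

/-- **The core**: the number of positive inputs is at most the number of generators. -/
theorem core_of {F : Type*} [Field F] (h2 : (2 : F) ≠ 0) {e : Fin M → Fin 8 → Fin m}
    (hE : Expand d e) (b : Fin M → ZMod 2) (R : Finset (Fin m → Fin h → ZMod 2))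
    (hmul : ∀ W ∈ R, ∀ V ∈ R, ∑ x : Fin m → Fin h → ZMod 2,
      mat F d e b W x * chi F (∑ j, ip V x j) = if W = V then (2 : F) ^ (h * m) else 0)
    {S : ℕ} (lab : Fin S → Fin M) (c p : (Fin m → Fin h → ZMod 2) → Fin S → F)
    (h1 : ∀ W ∈ R, ∀ x, ∑ ρ, c W ρ * p x ρ = 1)
    (hv : ∀ W ∈ R, ∀ x ρ, c W ρ * p x ρ ≠ 0 → viol e b (ip W x) (lab ρ) ≠ 0) :
    R.card ≤ S * ((TT d M).card * 2 ^ (h * (m - 2 * d))) := by
  classical
  have hcol := column_mem (d := d) b R lab c p h1 hv
  set P := Submodule.span F ((gens d e R lab c : Finset (↥R → F)) : Set (↥R → F)) with hP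
  have hne : (2 : F) ^ (h * m) ≠ 0 := pow_ne_zero _ h2
  have hsingle : ∀ V : ↥R, (Pi.single V (1 : F) : ↥R → F) ∈ P := by
    intro V
    have e1 : ((2 : F) ^ (h * m)) • (Pi.single V (1 : F) : ↥R → F) =
        ∑ x : Fin m → Fin h → ZMod 2, chi F (∑ j, ip V.1 x j) •
          (fun W : ↥R => mat F d e b W.1 x) := by
      funext W
      rw [Finset.sum_apply]
      simp only [Pi.smul_apply, smul_eq_mul]
      have e2 := hmul W.1 W.2 V.1 V.2
      simp only [mul_comm (chi F _)]
      rw [e2]
      by_cases hWV : W = V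
      · subst hWV; simp
      · have hWV' : W.1 ≠ V.1 := fun hh => hWV (Subtype.ext hh)
        rw [Pi.single_eq_of_ne hWV, if_neg hWV', mul_zero]
    have e3 : ((2 : F) ^ (h * m)) • (Pi.single V (1 : F) : ↥R → F) ∈ P := by
      rw [e1]
      exact Submodule.sum_mem _ fun x _ => Submodule.smul_mem _ _ (hcol x)
    exact (Submodule.smul_mem_iff _ hne).1 e3
  have htop : P = ⊤ := by
    rw [Submodule.eq_top_iff']
    intro f
    have e4 : f = ∑ V : ↥R, f V • (Pi.single V (1 : F) : ↥R → F) := by
      funext W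
      rw [Finset.sum_apply, Finset.sum_eq_single W]
      · simp
      · intro V _ hV
        simp [Pi.single_eq_of_ne (Ne.symm hV)]
      · intro hcon
        exact absurd (Finset.mem_univ _) hcon
    rw [e4]
    exact Submodule.sum_mem _ fun V _ => Submodule.smul_mem _ _ (hsingle V)
  have hfin : Module.finrank F P = R.card := by
    rw [htop, finrank_top, Module.finrank_fintype_fun_eq_card, Fintype.card_coe]
  calc R.card = Module.finrank F P := hfin.symm
    _ ≤ (gens d e R lab c).card := finrank_span_finset_le_card _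
    _ ≤ _ := card_gens hE R lab c

end Pool.Agent.XL
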