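import Pool.Agent.TeleNeg.NetDefs

set_option autoImplicit false

/-!
# Switching networks: the flow identity
-/

namespace Pool.Agent.XL

open Finset Pool.Agent.TeleNeg
open scoped BigOperators

section

variable {ι : Type} [Fintype ι] {S : ℕ} (M : Net ι S) (F : Type) [Field F]

/-- The triple is a contact, in one of the two directions. -/
def IsContact (ρ : Fin S × Fin S × Option ι) : Prop :=
  (ρ.1, ρ.2.1, ρ.2.2) ∈ M.contacts ∨ (ρ.2.1, ρ.1, ρ.2.2) ∈ M.contacts

theorem exists_flow (x : ι → Bool) (b : Fin S)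
    (h : Relation.ReflTransGen (M.Linked x) M.src b) :
    ∃ c : Fin S × Fin S × Option ι → F,
      (∀ ρ, c ρ ≠ 0 → IsContact M ρ ∧ ∀ e ∈ ρ.2.2, x e = true) ∧
      ∀ p : Fin S → F, ∑ ρ, c ρ * (p ρ.1 - p ρ.2.1) = p M.src - p b := by
  classical
  induction h with
  | refl => exact ⟨fun _ => 0, by simp, by simp⟩
  | @tail b b' _ hlink ih =>
    obtain ⟨c, hc, hp⟩ := ih
    obtain ⟨l, hl, hx⟩ := hlink
    refine ⟨fun ρ => c ρ + if ρ = (b, b', l) then 1 else 0, fun ρ hρ => ?_, fun p => ?_⟩
    · by_cases h : ρ = (b, b', l)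
      · subst h
        exact ⟨hl, hx⟩
      · simp only [if_neg h, add_zero] at hρ
        exact hc ρ hρ
    · simp only [add_mul, Finset.sum_add_distrib, hp]
      have h1 : ∑ ρ : Fin S × Fin S × Option ι,
          (if ρ = (b, b', l) then (1 : F) else 0) * (p ρ.1 - p ρ.2.1) = p b - p b' := by
        rw [Finset.sum_eq_single (b, b', l)]
        · simp
        · intro ρ _ hρ
          rw [if_neg hρ, zero_mul]
        · intro hnot
          exact absurd (mem_univ _) hnot
      rw [h1]
      ring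

/-- **The flow identity.** -/
theorem net_identity : ∃ c p : (ι → Bool) → Fin S × Fin S × Option ι → F,
    (∀ x ρ, c x ρ ≠ 0 → ∀ e ∈ ρ.2.2, x e = true) ∧
    (∀ y ρ, p y ρ ≠ 0 → M.val y = false → ∃ e ∈ ρ.2.2, y e = false) ∧
    ∀ x y, M.val x = true → M.val y = false → ∑ ρ, c x ρ * p y ρ = 1 := by
  classical
  have hflow : ∀ x : ι → Bool, ∃ c : Fin S × Fin S × Option ι → F,
      (∀ ρ, c ρ ≠ 0 → IsContact M ρ ∧ ∀ e ∈ ρ.2.2, x e = true) ∧
      (M.val x = true → ∀ p : Fin S → F,
        ∑ ρ, c ρ * (p ρ.1 - p ρ.2.1) = p M.src - p M.tgt) := by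
    intro x
    by_cases h : M.val x = true
    · have h1 : M.Accepts x := of_decide_eq_true h
      obtain ⟨c, hc, hp⟩ := exists_flow M F x M.tgt h1
      exact ⟨c, hc, fun _ => hp⟩
    · exact ⟨fun _ => 0, by simp, fun h' => absurd h' h⟩
  choose c hc hp using hflow
  let r : (ι → Bool) → Fin S → F := fun y a =>
    if Relation.ReflTransGen (M.Linked y) M.src a then 1 else 0
  refine ⟨c, fun y ρ => if IsContact M ρ then r y ρ.1 - r y ρ.2.1 else 0,
    fun x ρ h => (hc x ρ h).2, ?_, ?_⟩
  · intro y ρ h _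
    by_cases hρ : IsContact M ρ
    · simp only [if_pos hρ] at h
      by_contra hcon
      push Not at hcon
      apply h
      have hy : ∀ e ∈ ρ.2.2, y e = true := fun e he => by
        have := hcon e he
        simpa using this
      have l1 : M.Linked y ρ.1 ρ.2.1 := ⟨ρ.2.2, hρ, hy⟩
      have l2 : M.Linked y ρ.2.1 ρ.1 := ⟨ρ.2.2, hρ.symm, hy⟩
      by_cases h1 : Relation.ReflTransGen (M.Linked y) M.src ρ.1
      · simp only [r, if_pos h1, if_pos (h1.tail l1), sub_self]
      · have h2 : ¬ Relation.ReflTransGen (M.Linked y) M.src ρ.2.1 := fun h2 => h1 (h2.tail l2)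
        simp only [r, if_neg h1, if_neg h2, sub_self]
    · simp only [if_neg hρ, ne_eq, not_true_eq_false] at h
  · intro x y hx hy
    have h1 := hp x hx (r y)
    have h2 : ∑ ρ, c x ρ * (if IsContact M ρ then r y ρ.1 - r y ρ.2.1 else 0)
        = ∑ ρ, c x ρ * (r y ρ.1 - r y ρ.2.1) := by
      refine Finset.sum_congr rfl fun ρ _ => ?_
      by_cases hρ : c x ρ = 0
      · rw [hρ, zero_mul, zero_mul]
      · rw [if_pos (hc x ρ hρ).1]
    rw [h2, h1]
    have h3 : r y M.src = 1 := if_pos .refl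
    have h4 : r y M.tgt = 0 := if_neg fun h => by
      have : M.val y = true := decide_eq_true h
      rw [hy] at this
      exact absurd this (by simp)
    rw [h3, h4, sub_zero]

end

end Pool.Agent.XL
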