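import Pool.Agent.XL.NotGates

set_option autoImplicit false

/-!
# NOT gates which see only the variables of a set `U`: `⌊log₂ |U|⌋ + 1` gates suffice

The negated variables outside `U` are free.
-/

namespace Pool.Agent.XL

open Finset Pool.Agent.NTR Pool.Agent.NTN Pool.Agent.TeleNeg Pool.Agent.NWE

/-- The function `A` is computed with `t` NOT gates and the free negated variables outside `U`: all
other negations are NOT gates, whose inputs are functions of the class `K` of the variables, of the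
negated variables outside `U` and of the outputs of the NOT gates before. -/
def NotGatesOn (K : Gen.MonoClass) {ι : Type} (U : Finset ι) (t : ℕ) (A : (ι → Bool) → Bool) :
    Prop :=
  ∃ B : (ι ⊕ {v : ι // v ∉ U} → Bool) → Bool, NotGates K t B ∧
    ∀ x, A x = B (Sum.elim x fun v => !x v)

section emb

variable {κ σ : Type} {m : ℕ}

/-- the values of some of the labels -/
def emb (e : Fin m → κ) (z : κ ⊕ ℕ → Bool) : Fin m ⊕ ℕ → Bool := fun i => z (Sum.map e id i)

theorem emb_seen (e : Fin m → κ) (x : κ → Bool) (v : List Bool) :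
    emb e (Gen.seen x v) = Gen.seen (fun a => x (e a)) v := by
  funext i
  rcases i with a | i <;> rfl

theorem emb_nots (e : Fin m → κ) (x : κ → Bool)
    (ls : List (List ((Fin m ⊕ ℕ → Bool) → Bool))) :
    ∀ v, Gen.nots x (ls.map fun l => l.map fun G z => G (emb e z)) v
      = Gen.nots (fun a => x (e a)) ls v := by
  induction ls with
  | nil => intro v; rfl
  | cons l ls ih =>
    intro v
    rw [List.map_cons, Gen.nots, Gen.nots, ih]
    congr 2
    rw [List.map_map]
    refine List.map_congr_left fun G _ => ?_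
    simp [emb_seen]

theorem mem_emb (K : Gen.MonoClass) (e : Fin m → κ) {G : (Fin m ⊕ ℕ → Bool) → Bool}
    (hG : K.mem (Fin m ⊕ ℕ) G) : K.mem (κ ⊕ ℕ) fun z => G (emb e z) :=
  K.subst (Fin m ⊕ ℕ) (κ ⊕ ℕ) G (fun i => Sum.inl (Sum.map e id i)) hG

theorem nots_spec (y : Fin m → Bool) :
    nwt (Nat.log 2 m + 1) (Gen.nots y (lvF (Nat.log 2 m + 1) (Nat.log 2 m + 1)) [])
      + (univ.filter fun a => y a = true).card + 1 = 2 ^ (Nat.log 2 m + 1) := by
  set t := Nat.log 2 m + 1 with ht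
  have hw : (univ.filter fun a => y a = true).card < 0 + 2 ^ t := by
    rw [zero_add]
    refine lt_of_le_of_lt (card_le_univ _) ?_
    rw [Fintype.card_fin]
    exact Nat.lt_pow_succ_log_self (by norm_num) m
  rw [nots_lvF]
  refine runB_spec _ (fun θ v => ?_) t [] 0 le_rfl (by simp) (Nat.zero_le _) hw ?_
  · rw [thrF_labels]
  · simp [nwt]

/-- The literals of a function are labels or negations of the counted labels `e a`. -/
theorem markov_emb (K : Gen.MonoClass) (e : Fin m → κ)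
    (hK : ∀ θ, K.mem (Fin m ⊕ ℕ) (thrF m (Nat.log 2 m + 1) θ univ))
    (F : (σ → Bool) → Bool) (sel : σ → κ ⊕ Fin m)
    (hF : K.mem (κ ⊕ ℕ) fun z => F fun l => Sum.elim (fun k => z (Sum.inl k))
      (fun a => thrF m (Nat.log 2 m + 1) (2 ^ (Nat.log 2 m + 1) - 1) (univ.erase a) (emb e z))
      (sel l)) :
    NotGates K (Nat.log 2 m + 1)
      fun x : κ → Bool => F fun l => Sum.elim x (fun a => !x (e a)) (sel l) := by
  set t := Nat.log 2 m + 1 with ht
  refine ⟨(lvF t t).map fun l => l.map fun G z => G (emb e z), _, ?_, ?_, hF, fun x => ?_⟩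
  · refine sum_of_ones (by rw [List.length_map, lvF_length]) fun l hl => ?_
    obtain ⟨l', hl', rfl⟩ := List.mem_map.1 hl
    obtain ⟨θ, rfl⟩ := lvF_mem _ _ l' hl'
    rfl
  · intro l hl G hG
    obtain ⟨l', hl', rfl⟩ := List.mem_map.1 hl
    obtain ⟨G', hG', rfl⟩ := List.mem_map.1 hG
    obtain ⟨θ, rfl⟩ := lvF_mem _ _ l' hl'
    rw [List.mem_singleton] at hG'
    subst hG'
    exact mem_emb K e (hK θ)
  · have h1 := nots_spec (m := m) fun a => x (e a)
    show F _ = F _
    congr 1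
    funext l
    rcases sel l with k | a
    · rfl
    · have h2 := thrF_erase (fun a => x (e a)) _ h1 a
      have h3 : emb e (Gen.seen x (Gen.nots x
          ((lvF t t).map fun l => l.map fun G z => G (emb e z)) []))
          = labels (fun a => x (e a)) (Gen.nots (fun a => x (e a)) (lvF t t) []) := by
        rw [emb_seen, emb_nots]
        rfl
      show (!x (e a)) = thrF m t (2 ^ t - 1) (univ.erase a) (emb e (Gen.seen x (Gen.nots x
          ((lvF t t).map fun l => l.map fun G z => G (emb e z)) [])))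
      rw [h3]
      exact h2.symm

end emb

section sets

variable {ι : Type} [Fintype ι] [DecidableEq ι] (U : Finset ι)

/-- the counted labels: the variables in `U` -/
noncomputable def cnt (a : Fin U.card) : ι ⊕ {v : ι // v ∉ U} := Sum.inl (U.equivFin.symm a).1

/-- the literals -/
noncomputable def slt : ι ⊕ ι → (ι ⊕ {v : ι // v ∉ U}) ⊕ Fin U.card :=
  Sum.elim (fun v => Sum.inl (Sum.inl v))
    fun v => if h : v ∈ U then Sum.inr (U.equivFin ⟨v, h⟩) else Sum.inl (Sum.inr ⟨v, h⟩)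

omit [Fintype ι] in
theorem slt_lits (x : ι → Bool) (l : ι ⊕ ι) :
    Sum.elim (Sum.elim x fun v : {v : ι // v ∉ U} => !x v)
      (fun a => !(Sum.elim x fun v : {v : ι // v ∉ U} => !x v) (cnt U a)) (slt U l)
      = lits x l := by
  rcases l with v | v
  · rfl
  · by_cases h : v ∈ U
    · have h1 : slt U (Sum.inr v) = Sum.inr (U.equivFin ⟨v, h⟩) := by
        show (if h : v ∈ U then _ else _) = _
        rw [dif_pos h]
      rw [h1]
      show (!x (U.equivFin.symm (U.equivFin ⟨v, h⟩)).1) = !x v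
      rw [Equiv.symm_apply_apply]
    · have h1 : slt U (Sum.inr v) = Sum.inl (Sum.inr ⟨v, h⟩) := by
        show (if h : v ∈ U then _ else _) = _
        rw [dif_neg h]
      rw [h1]
      rfl

omit [Fintype ι] in
/-- The relative form for a class. -/
theorem markov_on (K : Gen.MonoClass)
    (hK : ∀ θ, K.mem (Fin U.card ⊕ ℕ) (thrF U.card (Nat.log 2 U.card + 1) θ univ))
    (F : (ι ⊕ ι → Bool) → Bool)
    (hF : K.mem ((ι ⊕ {v : ι // v ∉ U}) ⊕ ℕ) fun z => F fun l =>
      Sum.elim (fun k => z (Sum.inl k)) (fun a => thrF U.card (Nat.log 2 U.card + 1)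
        (2 ^ (Nat.log 2 U.card + 1) - 1) (univ.erase a) (emb (cnt U) z)) (slt U l)) :
    NotGatesOn K U (Nat.log 2 U.card + 1) fun x => F (lits x) := by
  refine ⟨_, markov_emb K (cnt U) hK F (slt U) hF, fun x => ?_⟩
  show F _ = F _
  congr 1
  funext l
  exact (slt_lits U x l).symm

theorem size_on {n m S T : ℕ} (hm : 1 ≤ m) (hmn : m ≤ n) (hS : 1 ≤ S) (hT : T ≤ 2 ^ 32 * m ^ 9) :
    S + S * (S * (n + n)) * T ≤ 2 ^ 34 * n ^ 10 * S ^ 2 ∧ T ≤ 2 ^ 34 * n ^ 10 * S ^ 2 := by
  have hn : 1 ≤ n := hm.trans hmn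
  have hT' : T ≤ 2 ^ 32 * n ^ 9 :=
    hT.trans (Nat.mul_le_mul_left _ (Nat.pow_le_pow_left hmn 9))
  have h1 := final_size (S := S) hn hS hT'
  rw [Fintype.card_sum, Fintype.card_fin] at h1
  exact ⟨h1, gate_size hn hS hT'⟩

/-- **`⌊log₂ |U|⌋ + 1` NOT gates which see `U` suffice**: the three kinds of devices. -/
theorem not_gates_on_suffice {S : ℕ} (hU : U.Nonempty) :
    (∀ M : Net (ι ⊕ ι) S, NotGatesOn (Gen.netClass (2 ^ 34 * Fintype.card ι ^ 10 * S ^ 2)) U
      (Nat.log 2 U.card + 1) fun x => M.val (lits x)) ∧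
    (∀ M : Net (ι ⊕ ι) S, NotGatesOn (Gen.dnetClass (2 ^ 34 * Fintype.card ι ^ 10 * S ^ 2)) U
      (Nat.log 2 U.card + 1) fun x => M.dval (lits x)) ∧
    ∀ M : CompCirc (ι ⊕ ι) S, NotGatesOn (compClass (2 ^ 34 * Fintype.card ι ^ 10 * S ^ 2)) U
      (Nat.log 2 U.card + 1) fun x => M.val (lits x) := by
  have hm : 1 ≤ U.card := card_pos.2 hU
  have hmn : U.card ≤ Fintype.card ι := card_le_univ U
  obtain ⟨s1, s2, s3⟩ := sizes hm
  have hcard : Fintype.card (ι ⊕ ι) = Fintype.card ι + Fintype.card ι := Fintype.card_sum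
  refine ⟨fun M => ?_, fun M => ?_, fun M => ?_⟩
  · have hS : 1 ≤ S := Nat.succ_le_of_lt (Nat.lt_of_le_of_lt (Nat.zero_le _) M.src.isLt)
    obtain ⟨b1, b2⟩ := size_on hm hmn hS s3
    have hK := hasThr_net (Nat.log 2 U.card + 2) (Nat.log 2 U.card + 4)
    refine markov_on U _ (fun θ => netClass_le b2 (hK.thrF s1 s2 θ univ)) M.val ?_
    have hN : ∀ l : ι ⊕ ι, ∃ N : Net ((ι ⊕ {v : ι // v ∉ U}) ⊕ ℕ)
        (lsz 2 (2 * (Nat.log 2 U.card + 2) + (Nat.log 2 U.card + 4) + 2)), ∀ z, N.val z =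
        Sum.elim (fun k => z (Sum.inl k)) (fun a => thrF U.card (Nat.log 2 U.card + 1)
          (2 ^ (Nat.log 2 U.card + 1) - 1) (univ.erase a) (emb (cnt U) z)) (slt U l) := by
      intro l
      rcases slt U l with k | a
      · exact hK.var (by omega) (Sum.inl k)
      · exact mem_emb (Gen.netClass _) (cnt U) (hK.thrF s1 s2 _ _)
    choose N hN using hN
    obtain ⟨P, hP, -⟩ := exists_subst M N
    refine ⟨padNet (by rw [hcard]; exact b1) P, fun z => ?_⟩
    rw [padNet_val, hP]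
    congr 1
    funext l
    exact hN l z
  · have hS : 1 ≤ S := Nat.succ_le_of_lt (Nat.lt_of_le_of_lt (Nat.zero_le _) M.src.isLt)
    obtain ⟨b1, b2⟩ := size_on hm hmn hS s3
    have hK := hasThr_dnet (Nat.log 2 U.card + 2) (Nat.log 2 U.card + 4)
    refine markov_on U _ (fun θ => dnetClass_le b2 (hK.thrF s1 s2 θ univ)) M.dval ?_
    have hN : ∀ l : ι ⊕ ι, ∃ N : Net ((ι ⊕ {v : ι // v ∉ U}) ⊕ ℕ)
        (lsz 2 (2 * (Nat.log 2 U.card + 2) + (Nat.log 2 U.card + 4) + 2)), ∀ z, N.dval z =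
        Sum.elim (fun k => z (Sum.inl k)) (fun a => thrF U.card (Nat.log 2 U.card + 1)
          (2 ^ (Nat.log 2 U.card + 1) - 1) (univ.erase a) (emb (cnt U) z)) (slt U l) := by
      intro l
      rcases slt U l with k | a
      · exact hK.var (by omega) (Sum.inl k)
      · exact mem_emb (Gen.dnetClass _) (cnt U) (hK.thrF s1 s2 _ _)
    choose N hN using hN
    obtain ⟨P, -, hP⟩ := exists_subst M N
    refine ⟨padNet (by rw [hcard]; exact b1) P, fun z => ?_⟩
    rw [padNet_dval, hP]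
    congr 1
    funext l
    exact hN l z
  · have hS : 1 ≤ S := Nat.succ_le_of_lt (Nat.lt_of_le_of_lt (Nat.zero_le _) M.out.isLt)
    have c3 := comp_size hm
    have hn : 1 ≤ Fintype.card ι := hm.trans hmn
    have hle : S * (2 ^ 16 * U.card ^ 5) ≤ 2 ^ 34 * Fintype.card ι ^ 10 * S ^ 2 := by
      have e1 : U.card ^ 5 ≤ Fintype.card ι ^ 10 :=
        (Nat.pow_le_pow_left hmn 5).trans (Nat.pow_le_pow_right hn (by norm_num))
      have e2 : S ≤ S ^ 2 := by
        rw [pow_two]
        exact Nat.le_mul_of_pos_left _ hS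
      rw [mul_comm S]
      exact Nat.mul_le_mul (Nat.mul_le_mul (by norm_num) e1) e2
    have hle' : 2 ^ 16 * U.card ^ 5 ≤ 2 ^ 34 * Fintype.card ι ^ 10 * S ^ 2 :=
      (Nat.le_mul_of_pos_left _ hS).trans hle
    have hK := hasThr_comp (Nat.log 2 U.card + 2) (Nat.log 2 U.card + 4)
    refine markov_on U _ (fun θ => compClass_le (c3.trans hle') (hK.thrF s1 s2 θ univ)) M.val ?_
    have hN : ∀ l : ι ⊕ ι, (compClass (2 ^ 16 * U.card ^ 5)).mem
        ((ι ⊕ {v : ι // v ∉ U}) ⊕ ℕ) fun z =>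
        Sum.elim (fun k => z (Sum.inl k)) (fun a => thrF U.card (Nat.log 2 U.card + 1)
          (2 ^ (Nat.log 2 U.card + 1) - 1) (univ.erase a) (emb (cnt U) z)) (slt U l) := by
      intro l
      rcases slt U l with k | a
      · exact compClass_le c3 (hK.var (by omega) (Sum.inl k))
      · exact compClass_le c3 (mem_emb (compClass _) (cnt U) (hK.thrF s1 s2 _ _))
    exact compClass_le hle (compClass_comp M _ hN (Nat.mul_pos (by norm_num) (Nat.pow_pos hm)))

end sets

end Pool.Agent.XL
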