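import Pool.Agent.XL.AvgX
import Pool.Agent.XL.List3

set_option autoImplicit false

/-!
# Lists of linear equations over `F_2`: few changes of the answers to monotone queries
-/

namespace Pool.Agent.XL

open Finset Pool.Agent.NTR Pool.Agent.NTN Pool.Agent.TeleNeg
open scoped BigOperators

/-- The functions computed by a monotone switching network with at most `2 ^ k` nodes or by a
monotone directed network with at most `2 ^ √k` nodes. -/
def twoClass (k : ℕ) : Gen.MonoClass where
  mem ι f := (∃ S, S ≤ 2 ^ k ∧ ∃ N : Net ι S, ∀ x, N.val x = f x) ∨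
    ∃ S, S ≤ 2 ^ Nat.sqrt k ∧ ∃ N : Net ι S, ∀ x, N.dval x = f x
  mono := by
    rintro ι f (⟨S, -, h⟩ | ⟨S, -, h⟩)
    · exact (Gen.netClass S).mono ι f h
    · exact (Gen.dnetClass S).mono ι f h
  subst := by
    rintro ι κ f φ (⟨S, hS, h⟩ | ⟨S, hS, h⟩)
    · exact Or.inl ⟨S, hS, (Gen.netClass S).subst ι κ f φ h⟩
    · exact Or.inr ⟨S, hS, (Gen.dnetClass S).subst ι κ f φ h⟩

theorem twoClass_decomp (F : Type) [Field F] {k : ℕ} {β : Type} [Fintype β]
    {G : (β → Bool) → Bool} (hG : (twoClass k).mem β G) :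
    Decomp F (2 ^ (2 * k) * (Fintype.card β + 1)) G := by
  rcases hG with ⟨S, hS, N, hN⟩ | ⟨S, hS, N, hN⟩
  · have h1 := decomp_of_net F N
    rw [show N.val = G from funext hN] at h1
    refine decomp_le h1 (Nat.mul_le_mul_right _ ?_)
    calc S * S ≤ 2 ^ k * 2 ^ k := Nat.mul_le_mul hS hS
      _ = 2 ^ (2 * k) := by rw [← pow_add, two_mul]
  · have h1 := decomp_of_dnet F hS N
    rw [show N.dval = G from funext hN] at h1
    refine decomp_le h1 (Nat.mul_le_mul_right _ (Nat.pow_le_pow_right (by norm_num) ?_))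
    have h2 := Nat.sqrt_le' k
    have h3 := Nat.sqrt_le_self k
    nlinarith

theorem orSet_two_decomp (F : Type) [Field F] {k q : ℕ} (hq : q ≤ 2 ^ k) {β : Type}
    [Fintype β] {H : (β → Bool) → Bool} (hH : H ∈ orSet (twoClass k) β q) :
    Decomp F (2 ^ (3 * k) * (Fintype.card β + 1)) H := by
  refine decomp_le (decomp_orSet (fun G hG => twoClass_decomp F hG) hH) ?_
  calc q * (2 ^ (2 * k) * (Fintype.card β + 1))
      ≤ 2 ^ k * (2 ^ (2 * k) * (Fintype.card β + 1)) := Nat.mul_le_mul_right _ hq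
    _ = 2 ^ (3 * k) * (Fintype.card β + 1) := by rw [← mul_assoc, ← pow_add]; congr 2; ring

theorem room' (t : ℕ) : 195 * cdz t ≤ 2 ^ 219 * t := by
  unfold cdz
  calc 195 * (4000 * (100 * t) * 2 ^ 192) = (195 * 4000 * 100 * 2 ^ 192) * t := by ring
    _ ≤ 2 ^ 219 * t := Nat.mul_le_mul_right _ (by norm_num)

open Classical in
/-- **Lists of linear equations, average case.** -/
theorem not_lin {n k : ℕ} (hk : 1 ≤ k) (hn : 1 ≤ n) :
    ∃ (N : ℕ) (E : Fin n → Eq3 N) (μ : (Fin n → Bool) → ℝ), (∀ x, 0 ≤ μ x) ∧ ∑ x, μ x = 1 ∧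
      ∀ (ts : List ℕ) (T b : ℕ) (A : (Fin n → Bool) → Bool),
        ts.sum + T ≤ 2 ^ k → Tries (twoClass k) univ ts T b A →
        ∑ x with (A x = true ↔ Incons E x), μ x
          ≤ 1 / 2 + (1 / 2) ^ k + (T + 1) * b * (2 ^ 219 * k) / n := by
  have hn' : (0 : ℝ) < n := by exact_mod_cast hn
  set c : ℕ := 2 ^ 219 * k with hc
  have hc0 : 0 < c := by positivity
  have hcR : ((2 : ℝ) ^ 219 * k) = (c : ℝ) := by
    rw [hc, Nat.cast_mul, Nat.cast_pow, Nat.cast_ofNat]
  rw [hcR]
  have hroom0 : 195 * cdz k ≤ c := by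
    rw [hc]
    exact room' k
  clear_value c
  have hc' : (0 : ℝ) < c := by exact_mod_cast hc0
  rcases Nat.lt_or_ge n c with hlt | hge
  · -- the trivial case
    have h2 : (1 : ℝ) ≤ c / n := by
      rw [one_le_div hn']
      exact_mod_cast hlt.le
    have h5 : (0 : ℝ) ≤ (1 / 2) ^ k := by positivity
    refine ⟨0, fun _ => (⟨∅, by simp⟩, false), fun x => if x = (fun _ => false) then 1 else 0,
      fun x => ?_, ?_, ?_⟩
    · dsimp only
      split_ifs <;> norm_num
    · rw [Finset.sum_ite_eq' Finset.univ]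
      simp
    · intro ts T b A _ hA
      obtain ⟨Q, P, h, -, -, -, hch, -⟩ := hA
      have hb : 0 < b := changesOn_pos' hch
      refine (Finset.sum_le_sum_of_subset_of_nonneg (Finset.filter_subset _ _) (by
          intro x _ _
          split_ifs <;> norm_num)).trans ?_
      rw [Finset.sum_ite_eq' Finset.univ]
      simp only [Finset.mem_univ, if_true]
      have h3 : (1 : ℝ) ≤ (T + 1) * b := by
        have e1 : (1 : ℝ) ≤ b := by exact_mod_cast hb
        have e2 : (0 : ℝ) ≤ T := by positivity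
        nlinarith
      have h4 : (1 : ℝ) ≤ (T + 1) * b * c / n := by
        rw [mul_div_assoc]
        exact one_le_mul_of_one_le_of_one_le h3 h2
      linarith
  · have hr : 1 ≤ n / c := (Nat.one_le_div_iff hc0).2 hge
    obtain ⟨m, e, b₀, hm1, hm2, hE, hb₀, hs⟩ := exists_system (100 * k) (by omega)
    have hroom : n / c * (195 * cdz k) ≤ n :=
      (Nat.mul_le_mul_left _ hroom0).trans (Nat.div_mul_le_self _ _)
    obtain ⟨N, E, φ, f3⟩ := exists_list (h := 24) (r := n / c) (n := n) e b₀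
      (by
        rw [card_bvar_eq]
        refine le_trans (le_of_eq ?_) hroom
        ring)
    set cd := Fintype.card (Bvar (4000 * (100 * k)) 24) with hcd
    have hcdz : cd = cdz k := card_bvar_eq k
    have hcd1 : 1 ≤ cd := by
      rw [hcdz]
      exact cdz_pos hk
    have h5 : (0 : ℝ) < (1 / 2) ^ k := by positivity
    have h6 : ((1 / 2 : ℝ)) ^ k < 1 := pow_lt_one₀ (by norm_num) (by norm_num) (by omega)
    have hk1 : 1 ≤ 3 * cd * 4 ^ k := by
      have : 1 ≤ 4 ^ k := Nat.one_le_pow _ _ (by norm_num)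
      nlinarith
    obtain ⟨i, j, e1, e2, e3, e4⟩ := exists_levels hk1 hcd1
    obtain ⟨μ, m1, m2, m3, m4⟩ := average_queries_or (U := univ) hr
      (incon (h := 24) e b₀) (incon_monotone e b₀) (fun x : Fin n → Bool => Incons E x) φ
      (fun v hv => absurd (Finset.mem_univ v) hv)
      f3 h5 h6 (3 * cd * 4 ^ k) (by
        have h7 : ((1 / 2 : ℝ) ^ k) ^ 2 = 1 / 4 ^ k := by
          rw [← pow_mul, mul_comm, pow_mul, show (1 / 2 : ℝ) ^ 2 = 1 / 4 by norm_num, one_div_pow]
        rw [h7]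
        push_cast
        have h8 : (3 * (cd : ℝ) * 4 ^ k) * (1 / 4 ^ k) = 3 * (cd : ℝ) := by
          field_simp
        rw [h8])
      {H | Decomp ℚ (2 ^ (3 * k) * (cdz k + 1)) H}
      ⟨PW e 0, negIn e b₀ 0, incon_PW hb₀ 0, incon_negIn e b₀ 0⟩ (by
        intro L θ hL hLS hcon
        have h7 := decomp_amplify L θ hcon hLS i j (by rw [hL]; exact e1) e2
        have h8 := incon_lower ℚ (by norm_num) hE b₀ hb₀ (by omega) hm1 hm2 h7
        have h11 := num_thr hk (hcdz.trans rfl) e3 e4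
        rw [hcdz] at h11
        exact absurd (lt_of_le_of_lt h8 h11) (lt_irrefl _))
    refine ⟨N, E, μ, m1, m2, fun ts T b A hq hA => ?_⟩
    have h11 := m4 (twoClass k) ts T b A (fun H hH => by
      have h12 := orSet_two_decomp ℚ hq hH
      rw [card_bvar_eq] at h12
      exact h12) hA
    refine (le_of_eq (sum_filter_iff' μ _ _ _ _ fun x => Iff.rfl)).trans (h11.trans ?_)
    have hr' : (0 : ℝ) < (n / c : ℕ) := by exact_mod_cast hr
    have h12 : (n : ℝ) ≤ 2 * c * (n / c : ℕ) := by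
      have h2 : n < c * (n / c + 1) := Nat.lt_mul_div_succ n hc0
      rw [mul_add, mul_one] at h2
      have h3 : c ≤ c * (n / c) := Nat.le_mul_of_pos_right _ hr
      have h4 : n ≤ 2 * c * (n / c) := by
        rw [mul_assoc]
        omega
      exact_mod_cast h4
    have h13 : ((T : ℝ) + 1) * b / (2 * (n / c : ℕ)) ≤ (T + 1) * b * c / n := by
      rw [div_le_div_iff₀ (by positivity) hn']
      have h6 : (0 : ℝ) ≤ (T + 1) * b := by positivity
      calc ((T : ℝ) + 1) * b * n ≤ (T + 1) * b * (2 * c * (n / c : ℕ)) :=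
            mul_le_mul_of_nonneg_left h12 h6
        _ = (T + 1) * b * c * (2 * (n / c : ℕ)) := by ring
    linarith

end Pool.Agent.XL
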