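import Pool.Agent.XL.Block
import Pool.Agent.XL.CompDefs

set_option autoImplicit false

/-!
# A rank measure for networks, span programs and comparator circuits
-/

namespace Pool.Agent.XL

open Finset

section rk

variable {F : Type*} [Field F] {α β : Type*} [Fintype α] (A : β → α → F)

open Classical in
/-- The space spanned by the columns where `q` is false and the coordinates where `p` is false. -/
def rkSp (p : α → Bool) (q : β → Bool) : Submodule F (α → F) :=
  Submodule.span F ({v | ∃ x, q x = false ∧ v = A x} ∪
    {v | ∃ W, p W = false ∧ v = Pi.single W 1})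

/-- The rank of the submatrix of the rows with `p = true` and the columns with `q = false`. -/
noncomputable def rk (p : α → Bool) (q : β → Bool) : ℤ :=
  (Module.finrank F (rkSp A p q) : ℤ) - (univ.filter fun W => p W = false).card

open Classical in
theorem finrank_coord (p : α → Bool) :
    Module.finrank F (Submodule.span F
      (Set.range fun W : {W // p W = false} => (Pi.single W.1 1 : α → F))) =
      (univ.filter fun W => p W = false).card := by
  have hli : LinearIndependent F (fun W : {W // p W = false} => (Pi.single W.1 1 : α → F)) :=
    (Pi.linearIndependent_single_one α F).comp Subtype.val Subtype.val_injective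
  rw [finrank_span_eq_card hli, Fintype.card_subtype]

theorem rk_nonneg (p : α → Bool) (q : β → Bool) : 0 ≤ rk A p q := by
  classical
  have h1 : Submodule.span F
      (Set.range fun W : {W // p W = false} => (Pi.single W.1 1 : α → F)) ≤ rkSp A p q := by
    unfold rkSp
    apply Submodule.span_mono
    rintro v ⟨W, rfl⟩
    exact Or.inr ⟨W.1, W.2, rfl⟩
  have h2 := Submodule.finrank_mono h1
  rw [finrank_coord] at h2
  unfold rk
  have h3 : ((univ.filter fun W => p W = false).card : ℤ) ≤
      (Module.finrank F (rkSp A p q) : ℤ) := by exact_mod_cast h2
  linarith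

/-- **Submodularity.** -/
theorem rk_and_or (p p' : α → Bool) (q q' : β → Bool) :
    rk A (fun W => p W && p' W) (fun x => q x && q' x) +
      rk A (fun W => p W || p' W) (fun x => q x || q' x) ≤ rk A p q + rk A p' q' := by
  classical
  have h1 : rkSp A (fun W => p W && p' W) (fun x => q x && q' x) ≤
      rkSp A p q ⊔ rkSp A p' q' := by
    unfold rkSp
    rw [Submodule.span_le]
    rintro v (⟨x, hx, rfl⟩ | ⟨W, hW, rfl⟩)
    · rcases Bool.and_eq_false_iff.1 hx with h | h
      · exact Submodule.mem_sup_left (Submodule.subset_span (Or.inl ⟨x, h, rfl⟩))
      · exact Submodule.mem_sup_right (Submodule.subset_span (Or.inl ⟨x, h, rfl⟩))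
    · rcases Bool.and_eq_false_iff.1 hW with h | h
      · exact Submodule.mem_sup_left (Submodule.subset_span (Or.inr ⟨W, h, rfl⟩))
      · exact Submodule.mem_sup_right (Submodule.subset_span (Or.inr ⟨W, h, rfl⟩))
  have h2 : rkSp A (fun W => p W || p' W) (fun x => q x || q' x) ≤
      rkSp A p q ⊓ rkSp A p' q' := by
    refine le_inf ?_ ?_
    · unfold rkSp
      apply Submodule.span_mono
      rintro v (⟨x, hx, rfl⟩ | ⟨W, hW, rfl⟩)
      · exact Or.inl ⟨x, (Bool.or_eq_false_iff.1 hx).1, rfl⟩
      · exact Or.inr ⟨W, (Bool.or_eq_false_iff.1 hW).1, rfl⟩
    · unfold rkSp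
      apply Submodule.span_mono
      rintro v (⟨x, hx, rfl⟩ | ⟨W, hW, rfl⟩)
      · exact Or.inl ⟨x, (Bool.or_eq_false_iff.1 hx).2, rfl⟩
      · exact Or.inr ⟨W, (Bool.or_eq_false_iff.1 hW).2, rfl⟩
  have h3 := Submodule.finrank_mono h1
  have h4 := Submodule.finrank_mono h2
  have h5 := Submodule.finrank_sup_add_finrank_inf_eq (rkSp A p q) (rkSp A p' q')
  have h6 : (univ.filter fun W => (p W && p' W) = false).card +
      (univ.filter fun W => (p W || p' W) = false).card =
      (univ.filter fun W => p W = false).card + (univ.filter fun W => p' W = false).card := by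
    rw [← Finset.card_union_add_card_inter (univ.filter fun W => p W = false)]
    congr 1
    · congr 1
      ext W
      simp only [Finset.mem_filter, Finset.mem_univ, true_and, Finset.mem_union,
        Bool.and_eq_false_iff]
    · congr 1
      ext W
      simp only [Finset.mem_filter, Finset.mem_univ, true_and, Finset.mem_inter,
        Bool.or_eq_false_iff]
  unfold rk
  have h7 : (Module.finrank F (rkSp A (fun W => p W && p' W) (fun x => q x && q' x)) : ℤ) +
      Module.finrank F (rkSp A (fun W => p W || p' W) (fun x => q x || q' x)) ≤
      Module.finrank F (rkSp A p q) + Module.finrank F (rkSp A p' q') := by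
    have : Module.finrank F (rkSp A (fun W => p W && p' W) (fun x => q x && q' x)) +
      Module.finrank F (rkSp A (fun W => p W || p' W) (fun x => q x || q' x)) ≤
      Module.finrank F (rkSp A p q) + Module.finrank F (rkSp A p' q') := by omega
    exact_mod_cast this
  have h8 : ((univ.filter fun W => (p W && p' W) = false).card : ℤ) +
      (univ.filter fun W => (p W || p' W) = false).card =
      (univ.filter fun W => p W = false).card + (univ.filter fun W => p' W = false).card := by
    exact_mod_cast h6
  linarith

theorem rk_and (p p' : α → Bool) (q q' : β → Bool) :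
    rk A (fun W => p W && p' W) (fun x => q x && q' x) ≤ rk A p q + rk A p' q' := by
  have h1 := rk_and_or A p p' q q'
  have h2 := rk_nonneg A (fun W => p W || p' W) (fun x => q x || q' x)
  linarith

theorem rk_or (p p' : α → Bool) (q q' : β → Bool) :
    rk A (fun W => p W || p' W) (fun x => q x || q' x) ≤ rk A p q + rk A p' q' := by
  have h1 := rk_and_or A p p' q q'
  have h2 := rk_nonneg A (fun W => p W && p' W) (fun x => q x && q' x)
  linarith

theorem rk_const (c : Bool) : rk A (fun _ => c) (fun _ => c) = 0 := by
  classical
  unfold rk
  cases c
  · have h1 : rkSp A (fun _ => false) (fun _ => false) = ⊤ := by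
      rw [eq_top_iff, ← (Pi.basisFun F α).span_eq]
      unfold rkSp
      apply Submodule.span_mono
      rintro v ⟨W, rfl⟩
      refine Or.inr ⟨W, rfl, ?_⟩
      simp
    rw [h1, finrank_top, Module.finrank_fintype_fun_eq_card]
    simp
  · have h1 : rkSp A (fun _ => true) (fun _ => true) = ⊥ := by
      unfold rkSp
      simp
    rw [h1, finrank_bot]
    simp

/-- An upper bound by generators. -/
theorem rk_le_of (p : α → Bool) (q : β → Bool) (G : Finset (α → F))
    (hG : ∀ x, q x = false → (fun W => if p W = true then A x W else 0) ∈
      Submodule.span F (G : Set (α → F))) : rk A p q ≤ G.card := by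
  classical
  set E := Submodule.span F
      (Set.range fun W : {W // p W = false} => (Pi.single W.1 1 : α → F)) with hE
  have h1 : rkSp A p q ≤ Submodule.span F (G : Set (α → F)) ⊔ E := by
    unfold rkSp
    rw [Submodule.span_le]
    rintro v (⟨x, hx, rfl⟩ | ⟨W, hW, rfl⟩)
    · have h2 : A x = (fun W => if p W = true then A x W else 0) +
          ∑ W : {W // p W = false}, A x W.1 • (Pi.single W.1 1 : α → F) := by
        funext V
        rw [Pi.add_apply, Finset.sum_apply]
        by_cases hV : p V = true
        · rw [if_pos hV, Finset.sum_eq_zero, add_zero]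
          intro W _
          have hne : V ≠ W.1 := by
            intro h
            have := W.2
            rw [← h, hV] at this
            exact absurd this (by simp)
          simp [Pi.single_eq_of_ne hne]
        · have hV' : p V = false := by simpa using hV
          rw [if_neg hV, zero_add, Finset.sum_eq_single ⟨V, hV'⟩]
          · simp
          · intro W _ hW
            have hne : V ≠ W.1 := fun h => hW (Subtype.ext h.symm)
            simp [Pi.single_eq_of_ne hne]
          · intro h
            exact absurd (Finset.mem_univ _) h
      rw [SetLike.mem_coe, h2]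
      refine Submodule.add_mem _ (Submodule.mem_sup_left (hG x hx)) (Submodule.mem_sup_right ?_)
      exact Submodule.sum_mem _ fun W _ => Submodule.smul_mem _ _
        (Submodule.subset_span ⟨W, rfl⟩)
    · exact Submodule.mem_sup_right (Submodule.subset_span ⟨⟨W, hW⟩, rfl⟩)
  have h2 := Submodule.finrank_mono h1
  have h3 := Submodule.finrank_add_le_finrank_add_finrank
    (Submodule.span F (G : Set (α → F))) E
  have h4 := finrank_span_finset_le_card (R := F) G
  rw [hE, finrank_coord] at h3
  unfold rk
  have h5 : Module.finrank F (rkSp A p q) ≤ G.card + (univ.filter fun W => p W = false).card :=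
    h2.trans (h3.trans (Nat.add_le_add_right h4 _))
  have h6 : (Module.finrank F (rkSp A p q) : ℤ) ≤
      G.card + (univ.filter fun W => p W = false).card := by exact_mod_cast h5
  linarith

end rk

end Pool.Agent.XL
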