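import Pool.Agent.XL.Defs

set_option autoImplicit false

/-!
# Span programs
-/

namespace Pool.Agent.XL

open Finset

/-- A monotone span program with `s` vectors over the field `F` and the variables `ι`: `s` vectors,
each labelled by a variable or by `none` (always present), and a target vector. -/
structure SpanProgram (F ι : Type) (s : ℕ) where
  dim : ℕ
  vec : Fin s → Fin dim → F
  label : Fin s → Option ι
  target : Fin dim → F

open Classical in
/-- The span program accepts `x`: its target is in the span of the vectors whose label is a variable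
with value `1` or `none`. -/
noncomputable def SpanProgram.val {F ι : Type} [Field F] {s : ℕ} (P : SpanProgram F ι s)
    (x : ι → Bool) : Bool :=
  decide (P.target ∈ Submodule.span F {v | ∃ i, v = P.vec i ∧ ∀ e ∈ P.label i, x e = true})

section

variable {F : Type} [Field F] {ι : Type} {s : ℕ}

theorem SpanProgram.val_mono (P : SpanProgram F ι s) : Monotone P.val := by
  classical
  intro x y hxy
  rw [Bool.le_iff_imp]
  simp only [SpanProgram.val, decide_eq_true_eq]
  intro h
  refine Submodule.span_mono ?_ h
  rintro v ⟨i, hv, hi⟩
  exact ⟨i, hv, fun e he => Bool.le_iff_imp.mp (hxy e) (hi e he)⟩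

/-- A span program is a decomposition of its function. -/
theorem SpanProgram.decomp (P : SpanProgram F ι s) : Decomp F s P.val := by
  classical
  have hpos : ∀ x : ι → Bool, ∃ c : Fin s → F, P.val x = true →
      (∀ i, c i ≠ 0 → ∀ e ∈ P.label i, x e = true) ∧ ∑ i, c i • P.vec i = P.target := by
    intro x
    by_cases hx : P.val x = true
    · have h1 : P.target ∈ Submodule.span F
          {v | ∃ i, v = P.vec i ∧ ∀ e ∈ P.label i, x e = true} := by
        simpa [SpanProgram.val] using hx
      have h2 : {v | ∃ i, v = P.vec i ∧ ∀ e ∈ P.label i, x e = true} =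
          P.vec '' {i | ∀ e ∈ P.label i, x e = true} := by
        ext v
        constructor
        · rintro ⟨i, rfl, hi⟩
          exact ⟨i, hi, rfl⟩
        · rintro ⟨i, hi, rfl⟩
          exact ⟨i, rfl, hi⟩
      rw [h2, Finsupp.mem_span_image_iff_linearCombination] at h1
      obtain ⟨l, hl, hlt⟩ := h1
      refine ⟨fun i => l i, fun _ => ⟨fun i hi => ?_, ?_⟩⟩
      · exact (Finsupp.mem_supported _ _).1 hl (Finsupp.mem_support_iff.2 hi)
      · rw [← hlt, Finsupp.linearCombination_apply, Finsupp.sum_fintype _ _ (by simp)]
    · exact ⟨fun _ => 0, fun h => absurd h hx⟩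
  have hneg : ∀ y : ι → Bool, ∃ f : Module.Dual F (Fin P.dim → F), P.val y = false →
      f P.target = 1 ∧ ∀ i, (∀ e ∈ P.label i, y e = true) → f (P.vec i) = 0 := by
    intro y
    by_cases hy : P.val y = false
    · have h1 : P.target ∉ Submodule.span F
          {v | ∃ i, v = P.vec i ∧ ∀ e ∈ P.label i, y e = true} := by
        simpa [SpanProgram.val] using hy
      obtain ⟨f, hf, hf0⟩ := Submodule.exists_le_ker_of_notMem h1
      refine ⟨(f P.target)⁻¹ • f, fun _ => ⟨?_, fun i hi => ?_⟩⟩
      · rw [LinearMap.smul_apply, smul_eq_mul, inv_mul_cancel₀ hf]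
      · rw [LinearMap.smul_apply, LinearMap.mem_ker.1 (hf0 (Submodule.subset_span ⟨i, rfl, hi⟩)),
          smul_zero]
    · exact ⟨0, fun h => absurd h hy⟩
  choose c hc using hpos
  choose f hf using hneg
  refine ⟨P.label, fun i x => c x i, fun i y => f y (P.vec i), fun i x hx h => (hc x hx).1 i h,
    fun i y hy h => ?_, fun x y hx hy => ?_⟩
  · by_contra hcon
    push Not at hcon
    exact h ((hf y hy).2 i fun e he => by simpa using hcon e he)
  · rw [← (hf y hy).1, ← (hc x hx).2, map_sum]
    exact Finset.sum_congr rfl fun i _ => by rw [map_smul, smul_eq_mul]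

open Classical in
/-- The vectors after replacing variables by variables and constants. -/
noncomputable def SpanProgram.sVec {κ : Type} (P : SpanProgram F ι s) (φ : ι → κ ⊕ Bool)
    (i : Fin s) : Fin P.dim → F :=
  if ∃ e ∈ P.label i, φ e = Sum.inr false then 0 else P.vec i

/-- The labels after replacing variables by variables and constants. -/
def SpanProgram.sLabel {κ : Type} (P : SpanProgram F ι s) (φ : ι → κ ⊕ Bool) (i : Fin s) :
    Option κ :=
  (P.label i).bind fun e => Sum.elim some (fun _ => none) (φ e)

/-- Replacing variables by variables and constants. -/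
noncomputable def SpanProgram.subst {κ : Type} (P : SpanProgram F ι s) (φ : ι → κ ⊕ Bool) :
    SpanProgram F κ s where
  dim := P.dim
  vec := P.sVec φ
  label := P.sLabel φ
  target := P.target

theorem SpanProgram.subst_val {κ : Type} (P : SpanProgram F ι s) (φ : ι → κ ⊕ Bool)
    (y : κ → Bool) : (P.subst φ).val y = P.val fun i => Sum.elim y id (φ i) := by
  classical
  have h : Submodule.span F {v : Fin P.dim → F | ∃ i, v = P.sVec φ i ∧
        ∀ e ∈ P.sLabel φ i, y e = true} =
      Submodule.span F {v : Fin P.dim → F | ∃ i, v = P.vec i ∧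
        ∀ e ∈ P.label i, (Sum.elim y id (φ e) : Bool) = true} := by
    apply le_antisymm
    · rw [Submodule.span_le]
      rintro v ⟨i, rfl, hi⟩
      by_cases h : ∃ e ∈ P.label i, φ e = Sum.inr false
      · rw [show P.sVec φ i = 0 from if_pos h]
        exact Submodule.zero_mem _
      · rw [show P.sVec φ i = P.vec i from if_neg h]
        refine Submodule.subset_span ⟨i, rfl, fun e he => ?_⟩
        rcases h5 : φ e with k | c
        · refine hi k ?_
          change k ∈ (P.label i).bind fun e => Sum.elim some (fun _ => none) (φ e)
          rw [Option.mem_def, Option.bind_eq_some_iff]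
          exact ⟨e, he, by rw [h5]; rfl⟩
        · rcases c with _ | _
          · exact absurd ⟨e, he, h5⟩ h
          · rfl
    · rw [Submodule.span_le]
      rintro v ⟨i, rfl, hi⟩
      have h : ¬ ∃ e ∈ P.label i, φ e = Sum.inr false := by
        rintro ⟨e, he, h5⟩
        have := hi e he
        rw [h5] at this
        simp at this
      refine Submodule.subset_span ⟨i, (if_neg h).symm, fun k hk => ?_⟩
      change k ∈ (P.label i).bind fun e => Sum.elim some (fun _ => none) (φ e) at hk
      rw [Option.mem_def, Option.bind_eq_some_iff] at hk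
      obtain ⟨e, he, hek⟩ := hk
      have h4 := hi e he
      rcases h5 : φ e with k' | c
      · rw [h5] at hek h4
        simp only [Sum.elim_inl, Option.some.injEq] at hek h4
        rw [← hek]
        exact h4
      · rw [h5] at hek
        simp at hek
  have h2 : (P.target ∈ Submodule.span F {v : Fin P.dim → F | ∃ i, v = P.sVec φ i ∧
        ∀ e ∈ P.sLabel φ i, y e = true}) ↔ (P.target ∈ Submodule.span F
          {v : Fin P.dim → F | ∃ i, v = P.vec i ∧
            ∀ e ∈ P.label i, (Sum.elim y id (φ e) : Bool) = true}) := by rw [h]
  rw [Bool.eq_iff_iff]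
  unfold SpanProgram.val
  rw [decide_eq_true_iff, decide_eq_true_iff]
  exact h2

end

end Pool.Agent.XL
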